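import Pool.Agent.LibBH2.Place

/-!
Curves of genus two `C : y ^ 2 = f(x)`, `f` a monic squarefree quintic, over an algebraically closed
field `k`: divisors of functions on `C`, zero-cycles on `C × C` and rational equivalence.
-/

open scoped Classical
open Polynomial

namespace Pool.Agent.LibJac77

open Pool.Agent.LibBH2

/-- `y ^ 2 = f(x)` is a curve of genus two in Weierstrass form: `f` is monic of degree `5` without
multiple roots. -/
class Genus2 {k : Type} [Field k] (f : k[X]) : Prop where
  monic : f.Monic
  deg : f.natDegree = 5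
  sqf : Squarefree f

/-- The points of the smooth projective curve `y ^ 2 = f(x)` (`deg f` odd): the affine solutions
and one point at infinity. -/
inductive Pt {k : Type} [Field k] (f : k[X]) : Type
  | inf : Pt f
  | aff (x y : k) (h : y ^ 2 = f.eval x) : Pt f

variable {k : Type} [Field k]

/-- `Sp v T p`: the `K`-point `T` of the curve `y ^ 2 = f(x)` (defined over `k`) specialises at the
place `v` of `K` over `k` to the `k`-point `p`. -/
def Sp {K : Type} [Field K] [Algebra k K] {f : k[X]} (v : Place k K) :
    Pt (f.map (algebraMap k K)) → Pt f → Prop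
  | .inf, p => p = .inf
  | .aff x _ _, .inf => v.ord x < 0
  | .aff x y _, .aff x₀ y₀ _ =>
      v.Zer (x - algebraMap k K x₀) ∧ v.Zer (y - algebraMap k K y₀)

/-- The degree of a divisor. -/
noncomputable def deg {f : k[X]} (D : Pt f →₀ ℤ) : ℤ := D.sum fun _ n => n

/-- `D` is the divisor of a rational function `φ` on the curve `y ^ 2 = f(x)`: `K` is the function
field of the curve, generated over `k` by the coordinates `x`, `y` of the generic point, and `D` is
the sum over the places `v` of `K` of `ord_v φ` times the point at which `v` is centred. -/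
def IsDivisor (f : k[X]) (D : Pt f →₀ ℤ) : Prop :=
  ∃ (K : Type) (_ : Field K) (_ : Algebra k K) (x y : K)
    (hxy : y ^ 2 = (f.map (algebraMap k K)).eval x) (φ : K) (S : Finset (Place k K))
    (p : Place k K → Pt f),
    Transcendental k x ∧ IntermediateField.adjoin k {x, y} = ⊤ ∧ φ ≠ 0 ∧
    (∀ v, v.ord φ ≠ 0 → v ∈ S) ∧ (∀ v ∈ S, Sp v (.aff x y hxy) (p v)) ∧
    D = ∑ v ∈ S, Finsupp.single (p v) (v.ord φ)

/-- The zero-cycle `c` on `C × C` is the push-forward of the divisor of a function `φ` on a curve:
`K` is a function field of one variable over `k` (finite over `k(s)`, `s` transcendental),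
`(T₁, T₂)` is a `K`-point of `C × C`, i.e. a map from the curve of `K` to `C × C`, and `c` is the
sum over the places `v` of `K` of `ord_v φ` times the value of `(T₁, T₂)` at `v`. -/
def IsPush (f : k[X]) (c : Pt f × Pt f →₀ ℤ) : Prop :=
  ∃ (K : Type) (_ : Field K) (_ : Algebra k K) (s : K)
    (T₁ T₂ : Pt (f.map (algebraMap k K))) (φ : K) (S : Finset (Place k K))
    (p₁ p₂ : Place k K → Pt f),
    Transcendental k s ∧ FiniteDimensional (IntermediateField.adjoin k {s}) K ∧ φ ≠ 0 ∧
    (∀ v, v.ord φ ≠ 0 → v ∈ S) ∧ (∀ v ∈ S, Sp v T₁ (p₁ v) ∧ Sp v T₂ (p₂ v)) ∧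
    c = ∑ v ∈ S, Finsupp.single (p₁ v, p₂ v) (v.ord φ)

/-- The class of the zero-cycle `c` in the Chow group `CH_0(C × C)` is torsion: a nonzero multiple
of `c` is rationally equivalent to zero. -/
def IsTorsionCycle (f : k[X]) (c : Pt f × Pt f →₀ ℤ) : Prop :=
  ∃ n : ℕ, n ≠ 0 ∧ n • c ∈ AddSubgroup.closure {c' | IsPush f c'}

/-- The product zero-cycle `D × E` of two divisors on `C`. -/
noncomputable def prodCycle {f : k[X]} (D E : Pt f →₀ ℤ) : Pt f × Pt f →₀ ℤ :=
  D.sum fun P m => E.sum fun Q n => Finsupp.single (P, Q) (m * n)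

end Pool.Agent.LibJac77
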