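import Pool.Agent.LibJac77.Final
import Pool.Agent.LibJac77.StmtDefs

/-!
The definitions of the statement agree with those of the proof.
-/

open scoped Classical
open Polynomial

namespace Pool.Agent.LibJac77

open Pool.Agent.LibBH2

variable {k : Type} [Field k]

theorem ratfunc_mem {K : Type} [Field K] [Algebra k K] (ι : RatFunc k →ₐ[k] K)
    (L : IntermediateField k K) (hL : ι RatFunc.X ∈ L) (r : RatFunc k) : ι r ∈ L := by
  have h1 : ∀ P : k[X], ι (algebraMap k[X] (RatFunc k) P) ∈ L := by
    intro P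
    have h2 : ι (algebraMap k[X] (RatFunc k) P) = aeval (ι RatFunc.X) P := by
      have h3 : (ι.comp (IsScalarTower.toAlgHom k k[X] (RatFunc k))) =
          aeval (ι RatFunc.X) := by
        apply Polynomial.algHom_ext
        simp [RatFunc.algebraMap_X]
      exact DFunLike.congr_fun h3 P
    rw [h2]
    have h4 : Algebra.adjoin k {ι RatFunc.X} ≤ L.toSubalgebra :=
      Algebra.adjoin_le (by rintro _ rfl; exact hL)
    exact h4 (Polynomial.aeval_mem_adjoin_singleton k (ι RatFunc.X))
  rw [← RatFunc.num_div_denom r, map_div₀]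
  exact L.div_mem (h1 _) (h1 _)

theorem transcendental_ι {K : Type} [Field K] [Algebra k K] (ι : RatFunc k →ₐ[k] K) :
    Transcendental k (ι RatFunc.X) := by
  intro h
  exact transcendental_X ((isAlgebraic_algHom_iff ι ι.toRingHom.injective).1 h)

theorem finite_adjoin {K : Type} [Field K] [Algebra k K] (ι : RatFunc k →ₐ[k] K)
    (h : ι.toRingHom.Finite) :
    FiniteDimensional (IntermediateField.adjoin k {ι RatFunc.X}) K := by
  have hmem := ratfunc_mem ι (IntermediateField.adjoin k {ι RatFunc.X})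
    (IntermediateField.mem_adjoin_simple_self k _)
  let j : RatFunc k →+* IntermediateField.adjoin k {ι RatFunc.X} :=
    ι.toRingHom.codRestrict _ hmem
  let _ : Algebra (RatFunc k) K := ι.toRingHom.toAlgebra
  let _ : Algebra (RatFunc k) (IntermediateField.adjoin k {ι RatFunc.X}) := j.toAlgebra
  have : IsScalarTower (RatFunc k) (IntermediateField.adjoin k {ι RatFunc.X}) K :=
    IsScalarTower.of_algebraMap_eq (fun r => rfl)
  have : Module.Finite (RatFunc k) K := h
  exact Module.Finite.of_restrictScalars_finite (RatFunc k) _ K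

theorem isPush_of_isPrincipal {f : k[X]} {c : Pt f × Pt f →₀ ℤ} (h : IsPrincipal f c) :
    IsPush f c := by
  obtain ⟨K, _, _, ι, T₁, T₂, φ, S, p₁, p₂, h1, h2, h3, h4, h5⟩ := h
  exact ⟨K, inferInstance, inferInstance, ι RatFunc.X, T₁, T₂, φ, S, p₁, p₂,
    transcendental_ι ι, finite_adjoin ι h1, h2, h3, h4, h5⟩

theorem isDivisor_of_isDiv {f : k[X]} [Genus2 f] {D : Pt f →₀ ℤ} (h : IsDiv f D) :
    IsDivisor f D := by
  obtain ⟨φ, S, p, h1, h2, h3, h4⟩ := h
  refine ⟨KC f, inferInstance, inferInstance, (DCf f).s, (DCf f).w, gen_eq f, φ, S, p,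
    transcendental_ι (DCf f).ι, ?_, h1, h2, h3, h4⟩
  rw [eq_top_iff]
  intro g _
  obtain ⟨a, b, rfl⟩ := (DCf f).gen g
  have hs : (DCf f).ι RatFunc.X ∈ IntermediateField.adjoin k {(DCf f).s, (DCf f).w} :=
    IntermediateField.subset_adjoin k _ (by left; rfl)
  have hw : (DCf f).w ∈ IntermediateField.adjoin k {(DCf f).s, (DCf f).w} :=
    IntermediateField.subset_adjoin k _ (by right; rfl)
  exact add_mem (ratfunc_mem _ _ hs a) (mul_mem (ratfunc_mem _ _ hs b) hw)

/-- transport of a place along an isomorphism -/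
def trPlace {K L : Type} [Field K] [Field L] [Algebra k K] [Algebra k L] (e : K ≃ₐ[k] L)
    (v : Place k L) : Place k K where
  ord g := v.ord (e g)
  ord_zero := by rw [map_zero]; exact v.ord_zero
  ord_mul g h hg hh := by
    rw [map_mul]
    exact v.ord_mul _ _ ((map_ne_zero_iff e e.injective).2 hg) ((map_ne_zero_iff e e.injective).2 hh)
  ord_add g h hg hh hgh := by
    rw [map_add]
    exact v.ord_add _ _ ((map_ne_zero_iff e e.injective).2 hg)
      ((map_ne_zero_iff e e.injective).2 hh) (by
        rw [← map_add]; exact (map_ne_zero_iff e e.injective).2 hgh)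
  ord_const c hc := by
    rw [AlgEquiv.commutes]
    exact v.ord_const c hc
  exists_uniformizer := by
    obtain ⟨t, ht⟩ := v.exists_uniformizer
    exact ⟨e.symm t, by rw [AlgEquiv.apply_symm_apply]; exact ht⟩

theorem trPlace_trPlace {K L : Type} [Field K] [Field L] [Algebra k K] [Algebra k L]
    (e : K ≃ₐ[k] L) (v : Place k K) : trPlace e (trPlace e.symm v) = v :=
  Place.ext' fun g => by
    change v.ord (e.symm (e g)) = v.ord g
    rw [AlgEquiv.symm_apply_apply]

theorem trPlace_inj {K L : Type} [Field K] [Field L] [Algebra k K] [Algebra k L]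
    (e : K ≃ₐ[k] L) : Function.Injective (trPlace (k := k) e) := by
  intro v w h
  apply Place.ext'
  intro g
  have h1 : (trPlace e v).ord (e.symm g) = (trPlace e w).ord (e.symm g) := by rw [h]
  change v.ord (e (e.symm g)) = w.ord (e (e.symm g)) at h1
  rwa [AlgEquiv.apply_symm_apply] at h1

theorem zer_tr {K L : Type} [Field K] [Field L] [Algebra k K] [Algebra k L]
    (e : K ≃ₐ[k] L) (v : Place k L) {x : K} {x' : L} (hx : e x = x') (c : k)
    (h : v.Zer (x' - algebraMap k L c)) : (trPlace e v).Zer (x - algebraMap k K c) := by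
  have h1 : e (x - algebraMap k K c) = x' - algebraMap k L c := by
    rw [map_sub, hx, AlgEquiv.commutes]
  rcases h with h | h
  · left
    rw [← h1] at h
    exact (map_eq_zero_iff e e.injective).1 h
  · right
    change 0 < v.ord (e (x - algebraMap k K c))
    rw [h1]
    exact h

theorem sp_tr {f : k[X]} {K L : Type} [Field K] [Field L] [Algebra k K] [Algebra k L]
    (e : K ≃ₐ[k] L) (v : Place k L) {x y : K} {x' y' : L} (hx : e x = x') (hy : e y = y')
    (h : y ^ 2 = (f.map (algebraMap k K)).eval x) (h' : y' ^ 2 = (f.map (algebraMap k L)).eval x')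
    (q : Pt f) (hq : Sp v (.aff x' y' h') q) : Sp (trPlace e v) (.aff x y h) q := by
  cases q with
  | inf =>
    change v.ord (e x) < 0
    rw [hx]
    exact hq
  | aff a b hab =>
    obtain ⟨h1, h2⟩ := hq
    exact ⟨zer_tr e v hx a h1, zer_tr e v hy b h2⟩

theorem isDiv_of_isDivisor {f : k[X]} [Genus2 f] {D : Pt f →₀ ℤ} (h : IsDivisor f D) :
    IsDiv f D := by
  obtain ⟨K, _, _, x, y, hxy, φ, S, p, htr, hgen, h1, h2, h3, h4⟩ := h
  -- the function field maps to `K`
  let φ₀ : RatFunc k →ₐ[k] K := RatFunc.liftAlgHom (aeval x)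
    (nonZeroDivisors_le_comap_nonZeroDivisors_of_injective _
      (transcendental_iff_injective.1 htr))
  have hφ₀ : ∀ P : k[X], φ₀ (algebraMap k[X] (RatFunc k) P) = aeval x P := by
    intro P
    have := RatFunc.liftAlgHom_apply_div (aeval x)
      (nonZeroDivisors_le_comap_nonZeroDivisors_of_injective _
        (transcendental_iff_injective.1 htr)) P 1
    simpa [φ₀] using this
  obtain ⟨ψ, hψ, hψw⟩ := (DCf f).exists_hom (nsq f) φ₀.toRingHom y (by
    change y ^ 2 = φ₀ (algebraMap k[X] (RatFunc k) f)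
    rw [hφ₀, hxy, eval_map_algebraMap])
  have hψc : ∀ c : k, ψ (algebraMap k (KC f) c) = algebraMap k K c := by
    intro c
    have h5 : algebraMap k (KC f) c = (DCf f).ι (algebraMap k[X] (RatFunc k) (C c)) := by
      rw [(DCf f).ι_poly]; simp
    rw [h5, hψ]
    change φ₀ _ = _
    rw [hφ₀, aeval_C]
  have hψs : ψ (DCf f).s = x := by
    change ψ ((DCf f).ι RatFunc.X) = x
    rw [hψ, ← RatFunc.algebraMap_X]
    change φ₀ _ = _
    rw [hφ₀, aeval_X]
  let ψ' : KC f →ₐ[k] K := { ψ with commutes' := hψc }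
  have hbij : Function.Bijective ψ' := by
    refine ⟨ψ'.toRingHom.injective, fun g => ?_⟩
    have h5 : IntermediateField.adjoin k {x, y} ≤ ψ'.fieldRange := by
      rw [IntermediateField.adjoin_le_iff]
      rintro z (rfl | hz)
      · exact ⟨(DCf f).s, hψs⟩
      · rw [Set.mem_singleton_iff] at hz
        subst hz
        exact ⟨(DCf f).w, hψw⟩
    rw [hgen] at h5
    exact h5 (IntermediateField.mem_top (x := g))
  let e : KC f ≃ₐ[k] K := AlgEquiv.ofBijective ψ' hbij
  have hes : e.symm x = (DCf f).s := by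
    rw [AlgEquiv.symm_apply_eq]
    exact hψs.symm
  have hew : e.symm y = (DCf f).w := by
    rw [AlgEquiv.symm_apply_eq]
    exact hψw.symm
  refine ⟨e.symm φ, S.image (trPlace e), fun v => p (trPlace e.symm v),
    (map_ne_zero_iff _ e.symm.injective).2 h1, fun v hv => ?_, fun v hv => ?_, ?_⟩
  · rw [Finset.mem_image]
    exact ⟨trPlace e.symm v, h2 _ hv, trPlace_trPlace e v⟩
  · rw [Finset.mem_image] at hv
    obtain ⟨v', hv', rfl⟩ := hv
    have h6 : trPlace e.symm (trPlace e v') = v' := trPlace_trPlace e.symm v'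
    change Sp (trPlace e v') (gen f) (p (trPlace e.symm (trPlace e v')))
    rw [h6]
    exact sp_tr e v' hψs hψw (gen_eq f) hxy _ (h3 _ hv')
  · rw [Finset.sum_image (fun v _ w _ h => trPlace_inj e h), h4]
    refine Finset.sum_congr rfl fun v hv => ?_
    have h6 : trPlace e.symm (trPlace e v) = v := trPlace_trPlace e.symm v
    have h7 : (trPlace e v).ord (e.symm φ) = v.ord φ := by
      change v.ord (e (e.symm φ)) = v.ord φ
      rw [AlgEquiv.apply_symm_apply]
    change _ = Finsupp.single (p (trPlace e.symm (trPlace e v))) _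
    rw [h6, h7]

/-- the class of a zero-cycle -/
noncomputable def clsC (f : k[X]) : (Pt f × Pt f →₀ ℤ) →+ CH0 f :=
  QuotientAddGroup.mk' (AddSubgroup.closure {c | IsPrincipal f c})

theorem cross_eq {f : k[X]} (D E : Pt f →₀ ℤ) : cross D E = clsC f (prodCycle D E) := by
  unfold cross prodCycle
  rw [map_finsuppSum]
  refine Finsupp.sum_congr fun P _ => ?_
  rw [map_finsuppSum]
  refine Finsupp.sum_congr fun Q _ => ?_
  have h1 : pt P Q = clsC f (Finsupp.single (P, Q) 1) := rfl
  rw [h1, ← map_zsmul, Finsupp.smul_single, smul_eq_mul, mul_one]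

theorem isTorsionCycle_of {f : k[X]} {D E : Pt f →₀ ℤ}
    (h : ∃ n : ℕ, n ≠ 0 ∧ n • (cross D E + cross E D) = 0) :
    IsTorsionCycle f (prodCycle D E + prodCycle E D) := by
  obtain ⟨n, hn, h⟩ := h
  refine ⟨n, hn, ?_⟩
  rw [cross_eq, cross_eq, ← map_add, ← map_nsmul] at h
  have h1 := (QuotientAddGroup.eq_zero_iff _).1 h
  have h2 : AddSubgroup.closure {c | IsPrincipal f c} ≤ AddSubgroup.closure {c | IsPush f c} :=
    AddSubgroup.closure_mono fun c hc => isPush_of_isPrincipal hc
  exact h2 h1

end Pool.Agent.LibJac77
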