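import Pool.Agent.LibJac77.C0d

/-!
Normalisation of finite families of polynomials.
-/

open scoped Classical
open Polynomial IsLocalRing

namespace Pool.Agent.LibJac77

open Pool.Agent.LibBH2

variable {k : Type} [Field k]

/-- scaling a finite family of polynomials so that all are integral and not all reduce to zero -/
theorem exists_scale (V : ValuationSubring k) {ι : Type} [Fintype ι] (P : ι → k[X])
    (h : ∃ i, P i ≠ 0) : ∃ c : k, c ≠ 0 ∧ ∃ Q : ι → V[X],
      (∀ i, (Q i).map (algebraMap V k) = C c * P i) ∧ ∃ i, (Q i).map (residue V) ≠ 0 := by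
  obtain ⟨i₀, hi₀⟩ := h
  -- the finite set of pairs (i, n) with n in the support
  set T : Finset (Σ _ : ι, ℕ) := Finset.univ.sigma fun i => (P i).support with hT
  have hTne : T.Nonempty := by
    obtain ⟨n, hn⟩ := Polynomial.support_nonempty.mpr hi₀
    exact ⟨⟨i₀, n⟩, by simp [hT, hn, Polynomial.mem_support_iff.mp hn]⟩
  obtain ⟨⟨i₁, n₁⟩, hm, hmax⟩ := T.exists_max_image (fun p => V.valuation ((P p.1).coeff p.2)) hTne
  have hc1 : (P i₁).coeff n₁ ≠ 0 := by
    simpa [hT] using hm
  set a := (P i₁).coeff n₁ with ha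
  have hle : ∀ i n, a⁻¹ * (P i).coeff n ∈ V := by
    intro i n
    rw [← V.valuation_le_one_iff]
    by_cases h0 : (P i).coeff n = 0
    · simp [h0]
    · have h1 := hmax ⟨i, n⟩ (by simp [hT, h0])
      simp only at h1
      rw [map_mul, map_inv₀]
      have h2 : V.valuation a ≠ 0 := by
        rw [Ne, map_eq_zero]
        exact hc1
      rw [mul_comm]
      exact (mul_inv_le_iff₀ (zero_lt_iff.mpr h2)).mpr (by rw [one_mul]; exact h1)
  refine ⟨a⁻¹, inv_ne_zero hc1, fun i => ∑ n ∈ (P i).support, monomial n ⟨_, hle i n⟩, ?_, i₁, ?_⟩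
  · intro i
    ext n
    rw [coeff_map, finsetSum_coeff, coeff_C_mul]
    simp only [coeff_monomial]
    rw [Finset.sum_ite_eq']
    split_ifs with h
    · rfl
    · rw [notMem_support_iff.mp h]; simp
  · intro h0
    have h1 : ((∑ n ∈ (P i₁).support, monomial n (⟨_, hle i₁ n⟩ : V) : V[X]).map
        (residue V)).coeff n₁ = 0 := by rw [h0, coeff_zero]
    rw [coeff_map, finsetSum_coeff] at h1
    simp only [coeff_monomial] at h1
    rw [Finset.sum_ite_eq', if_pos (by rw [mem_support_iff]; exact hc1)] at h1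
    have h2 : (⟨a⁻¹ * (P i₁).coeff n₁, hle i₁ n₁⟩ : V) = 1 := by
      apply Subtype.ext
      show a⁻¹ * a = 1
      exact inv_mul_cancel₀ hc1
    rw [h2, map_one] at h1
    exact one_ne_zero h1

end Pool.Agent.LibJac77
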