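import Pool.Agent.LibJac77.A9

/-!
Uniqueness of the representation of a class by two points.
-/

open scoped Classical
open Polynomial

namespace Pool.Agent.LibJac77

open Pool.Agent.LibBH2

theorem A10_pair {α : Type} (ν : α → α) (Y Z : α)
    (h1 : ∀ S, Multiset.count S {Y, Z} = Multiset.count (ν S) {Y, Z})
    (h2 : ∀ S, ν S = S → Even (Multiset.count S {Y, Z})) : Z = ν Y := by
  have hY : 1 ≤ Multiset.count Y {Y, Z} := by
    rw [Multiset.one_le_count_iff_mem]
    simp
  by_cases hν : ν Y = Y
  · have h3 := h2 Y hν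
    by_contra hne
    have h4 : Multiset.count Y {Y, Z} = 1 := by
      rw [hν] at hne
      have : Y ≠ Z := fun h => hne h.symm
      change Multiset.count Y (Y ::ₘ {Z}) = 1
      rw [Multiset.count_cons_self, Multiset.count_singleton, if_neg this]
    rw [h4] at h3
    exact absurd h3 (by decide)
  · rw [h1 Y, Multiset.one_le_count_iff_mem] at hY
    change ν Y ∈ Y ::ₘ {Z} at hY
    rw [Multiset.mem_cons, Multiset.mem_singleton] at hY
    exact (hY.resolve_left hν).symm

/-- removing a pair -/
theorem A10_remove {α : Type} (ν : α → α) (hν : ∀ S, ν (ν S) = S) (P : α) (m : Multiset α)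
    (h1 : ∀ S, Multiset.count S (P ::ₘ ν P ::ₘ m) = Multiset.count (ν S) (P ::ₘ ν P ::ₘ m))
    (h2 : ∀ S, ν S = S → Even (Multiset.count S (P ::ₘ ν P ::ₘ m))) :
    (∀ S, Multiset.count S m = Multiset.count (ν S) m) ∧
      ∀ S, ν S = S → Even (Multiset.count S m) := by
  constructor
  · intro S
    have h3 := h1 S
    rw [Multiset.count_cons, Multiset.count_cons, Multiset.count_cons, Multiset.count_cons] at h3
    have e1 : (ν S = P) ↔ (S = ν P) := ⟨fun h => by rw [← h, hν], fun h => by rw [h, hν]⟩
    have e2 : (ν S = ν P) ↔ (S = P) := ⟨fun h => by rw [← hν S, h, hν], fun h => by rw [h]⟩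
    simp only [e1, e2] at h3
    omega
  · intro S hS
    have h3 := h2 S hS
    rw [Multiset.count_cons, Multiset.count_cons] at h3
    have e1 : (S = ν P) ↔ (S = P) := ⟨fun h => by rw [← hS, h, hν], fun h => by rw [← h, hS]⟩
    simp only [e1] at h3
    by_cases hP : S = P
    · simp only [hP, if_true] at h3 ⊢
      rw [add_assoc, Nat.even_add] at h3
      exact h3.mpr (by decide)
    · simpa [hP] using h3

theorem A10_four {α : Type} (ν : α → α) (hν : ∀ S, ν (ν S) = S) (P Q R T : α)
    (h1 : ∀ S, Multiset.count S {P, Q, R, T} = Multiset.count (ν S) {P, Q, R, T})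
    (h2 : ∀ S, ν S = S → Even (Multiset.count S {P, Q, R, T})) :
    (Q = ν P ∧ T = ν R) ∨ (R = ν P ∧ T = ν Q) ∨ (T = ν P ∧ R = ν Q) := by
  have hmem : ν P = Q ∨ ν P = R ∨ ν P = T := by
    have hP : 1 ≤ Multiset.count P {P, Q, R, T} := by
      rw [Multiset.one_le_count_iff_mem]
      simp
    by_cases hνP : ν P = P
    · have h3 := h2 P hνP
      by_contra hne
      push Not at hne
      rw [hνP] at hne
      have h4 : Multiset.count P {P, Q, R, T} = 1 := by
        change Multiset.count P (P ::ₘ Q ::ₘ R ::ₘ {T}) = 1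
        rw [Multiset.count_cons_self, Multiset.count_cons_of_ne hne.1,
          Multiset.count_cons_of_ne hne.2.1, Multiset.count_singleton, if_neg hne.2.2]
      rw [h4] at h3
      exact absurd h3 (by decide)
    · rw [h1 P, Multiset.one_le_count_iff_mem] at hP
      change ν P ∈ P ::ₘ Q ::ₘ R ::ₘ {T} at hP
      rw [Multiset.mem_cons, Multiset.mem_cons, Multiset.mem_cons, Multiset.mem_singleton] at hP
      exact hP.resolve_left hνP
  rcases hmem with h | h | h
  · left
    subst h
    obtain ⟨h3, h4⟩ := A10_remove ν hν P {R, T} h1 h2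
    exact ⟨rfl, A10_pair ν R T h3 h4⟩
  · right; left
    subst h
    have e : ({P, Q, ν P, T} : Multiset α) = P ::ₘ ν P ::ₘ {Q, T} := by
      change P ::ₘ Q ::ₘ ν P ::ₘ {T} = P ::ₘ ν P ::ₘ Q ::ₘ {T}
      rw [Multiset.cons_swap Q]
    rw [e] at h1 h2
    obtain ⟨h3, h4⟩ := A10_remove ν hν P {Q, T} h1 h2
    exact ⟨rfl, A10_pair ν Q T h3 h4⟩
  · right; right
    subst h
    have e : ({P, Q, R, ν P} : Multiset α) = P ::ₘ ν P ::ₘ {Q, R} := by
      change P ::ₘ Q ::ₘ R ::ₘ {ν P} = P ::ₘ ν P ::ₘ Q ::ₘ {R}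
      rw [Multiset.cons_swap (ν P) Q]
      congr 2
      change R ::ₘ ν P ::ₘ 0 = ν P ::ₘ R ::ₘ 0
      rw [Multiset.cons_swap]
    rw [e] at h1 h2
    obtain ⟨h3, h4⟩ := A10_remove ν hν P {Q, R} h1 h2
    exact ⟨rfl, A10_pair ν Q R h3 h4⟩

variable {k : Type} [Field k] [CharZero k] [IsAlgClosed k] {f : k[X]} [Genus2 f]

theorem two_unique {P Q P' Q' : Pt f} (h : jP P + jP Q = jP P' + jP Q') :
    (P = P' ∧ Q = Q') ∨ (P = Q' ∧ Q = P') ∨ (Q = neg P ∧ Q' = neg P') := by
  have hrel : (({P, Q, neg P', neg Q'} : Multiset (Pt f)).map jP).sum = 0 := by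
    simp only [Multiset.insert_eq_cons, Multiset.map_cons, Multiset.sum_cons,
      Multiset.map_singleton, Multiset.sum_singleton, jP_neg]
    have : jP P + (jP Q + (-jP P' + -jP Q')) = (jP P + jP Q) - (jP P' + jP Q') := by abel
    rw [this, h, sub_self]
  obtain ⟨A, B, hne, hord, hA, hB, hinf⟩ := rr _ hrel
  have hcard : Multiset.card ({P, Q, neg P', neg Q'} : Multiset (Pt f)) = 4 := by simp
  rw [hcard] at hA hB hinf
  have hB0 : B = 0 := by
    rcases hB with hB | hB
    · exact hB
    · omega
  subst hB0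
  have hA0 : A ≠ 0 := by
    rintro rfl
    exact hne ((el_eq_zero_iff 0 0).mpr ⟨rfl, rfl⟩)
  have h1 : ∀ S : Pt f, Multiset.count S {P, Q, neg P', neg Q'} =
      Multiset.count (neg S) {P, Q, neg P', neg Q'} := by
    intro S
    by_cases hS : S = .inf
    · rw [hS, neg_inf]
    · have hS' : neg S ≠ .inf := fun h' => hS (neg_eq_inf.mp h')
      have e1 := hord S hS
      have e2 := hord (neg S) hS'
      rw [ord_neg, neg_zero] at e2
      rw [e1] at e2
      exact_mod_cast e2
  have h2 : ∀ S : Pt f, neg S = S → Even (Multiset.count S {P, Q, neg P', neg Q'}) := by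
    intro S hS
    match S, hS with
    | .inf, _ =>
      rw [ord_inf hne, natDegree_Nm_zero] at hinf
      refine ⟨2 - A.natDegree, ?_⟩
      omega
    | .aff x y h', hS =>
      have hy : y = 0 := by
        change Pt.aff x (-y) _ = Pt.aff x y h' at hS
        have hy2 : -y = y := by
          injection hS
        have h3 : (2 : k) * y = 0 := by linear_combination -hy2
        exact (mul_eq_zero.mp h3).resolve_left two_ne_zero
      have e1 := hord (.aff x y h') (by simp)
      rw [ord_poly h' hA0, if_pos hy] at e1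
      refine ⟨A.rootMultiplicity x, ?_⟩
      omega
  rcases A10_four neg neg_neg' P Q (neg P') (neg Q') h1 h2 with ⟨h3, h4⟩ | ⟨h3, h4⟩ | ⟨h3, h4⟩
  · right; right
    refine ⟨h3, ?_⟩
    have := congrArg neg h4
    simpa using this
  · left
    constructor
    · have := congrArg neg h3
      simpa using this.symm
    · have := congrArg neg h4
      simpa using this.symm
  · right; left
    constructor
    · have := congrArg neg h3
      simpa using this.symm
    · have := congrArg neg h4
      simpa using this.symm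

end Pool.Agent.LibJac77
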