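import Pool.Agent.LibJac77.A9

/-!
Every class of degree zero is `[P] + [Q] - 2[∞]`.
-/

open scoped Classical
open Polynomial

namespace Pool.Agent.LibJac77

open Pool.Agent.LibBH2

variable {k : Type} [Field k] [CharZero k] [IsAlgClosed k] {f : k[X]} [Genus2 f]

/-- order at least `n` -/
def A11_ge (v : Place k (KC f)) (n : ℤ) (g : KC f) : Prop := g = 0 ∨ n ≤ v.ord g

theorem A11_ge.add {v : Place k (KC f)} {n : ℤ} {g h : KC f} (hg : A11_ge v n g)
    (hh : A11_ge v n h) : A11_ge v n (g + h) := by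
  rcases hg with hg | hg
  · rw [hg, zero_add]; exact hh
  rcases hh with hh | hh
  · rw [hh, add_zero]; exact Or.inr hg
  by_cases hg0 : g = 0
  · rw [hg0, zero_add]; exact Or.inr hh
  by_cases hh0 : h = 0
  · rw [hh0, add_zero]; exact Or.inr hg
  by_cases h0 : g + h = 0
  · exact Or.inl h0
  · exact Or.inr ((le_min hg hh).trans (v.ord_add g h hg0 hh0 h0))

theorem A11_ge.mul_reg {v : Place k (KC f)} {n : ℤ} {g h : KC f} (hg : A11_ge v 0 g)
    (hh : A11_ge v n h) : A11_ge v n (g * h) := by
  by_cases hg0 : g = 0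
  · rw [hg0, zero_mul]; exact Or.inl rfl
  by_cases hh0 : h = 0
  · rw [hh0, mul_zero]; exact Or.inl rfl
  · right
    rw [v.ord_mul g h hg0 hh0]
    have h1 := hg.resolve_left hg0
    have h2 := hh.resolve_left hh0
    omega

theorem A11_poly {x y : k} (h : y ^ 2 = f.eval x) (n : ℕ) (G : k[X]) :
    A11_ge (vp (.aff x y h : Pt f)) n (el f ((X - C x) ^ n * G) 0) := by
  by_cases hG : G = 0
  · left
    rw [hG, mul_zero, el_eq_zero_iff]
    exact ⟨rfl, rfl⟩
  · right
    have hne : (X - C x) ^ n * G ≠ 0 := mul_ne_zero (pow_ne_zero _ (X_sub_C_ne_zero x)) hG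
    rw [ord_poly h hne]
    have h1 : n ≤ ((X - C x) ^ n * G).rootMultiplicity x := by
      rw [le_rootMultiplicity_iff hne]
      exact dvd_mul_right _ _
    split_ifs
    · omega
    · omega

/-- the general element -/
noncomputable def A11_A (c : Fin 4 → k) : k[X] := C (c 0) + C (c 1) * X + C (c 2) * X ^ 2

theorem A11_el_add (A B A' B' : k[X]) : el f A B + el f A' B' = el f (A + A') (B + B') := by
  simp only [el, map_add]
  ring

theorem A11_lam (P : Pt f) (hP : P ≠ .inf) : ∃ Λ : (Fin 4 → k) →ₗ[k] (Fin 3 → k),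
    ∀ c : Fin 4 → k, ∀ n : ℕ, n ≤ 3 → (∀ j : Fin 3, (j : ℕ) < n → Λ c j = 0) →
      A11_ge (vp P) n (el f (A11_A c) (C (c 3))) := by
  match P, hP with
  | .aff x y h, hP =>
  have hreg : ∀ A B : k[X], A11_ge (vp (.aff x y h : Pt f)) 0 (el f A B) := fun A B =>
    Or.inr (ord_nonneg hP A B)
  by_cases hy : y = 0
  · subst hy
    refine ⟨(Matrix.of ![![1, x, x ^ 2, 0], ![0, 0, 0, 1], ![0, 1, 2 * x, 0]]).mulVecLin, ?_⟩
    intro c n hn hj
    have e0 : (Matrix.of ![![1, x, x ^ 2, 0], ![0, 0, 0, 1], ![0, 1, 2 * x, 0]]).mulVecLin c 0 =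
        c 0 + x * c 1 + x ^ 2 * c 2 := by
      simp [Matrix.mulVec, dotProduct, Fin.sum_univ_succ]; ring
    have e1 : (Matrix.of ![![1, x, x ^ 2, 0], ![0, 0, 0, 1], ![0, 1, 2 * x, 0]]).mulVecLin c 1 =
        c 3 := by
      simp [Matrix.mulVec, dotProduct, Fin.sum_univ_succ]
    have e2 : (Matrix.of ![![1, x, x ^ 2, 0], ![0, 0, 0, 1], ![0, 1, 2 * x, 0]]).mulVecLin c 2 =
        c 1 + 2 * x * c 2 := by
      simp [Matrix.mulVec, dotProduct, Fin.sum_univ_succ]
    have hA : A11_A c = C (c 0 + x * c 1 + x ^ 2 * c 2) + (X - C x) * (C (c 1 + 2 * x * c 2) +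
        (X - C x) * C (c 2)) := by
      unfold A11_A
      simp only [C_add, C_mul, C_pow]
      have : (C 2 : k[X]) = 2 := rfl
      rw [this]
      ring
    have hw : A11_ge (vp (.aff x 0 h : Pt f)) 1 (el f 0 (C (c 3))) := by
      have h1 : el f 0 (C (c 3)) = el f (C (c 3)) 0 * (DCf f).w := by
        simp [el]
      rw [h1]
      exact (hreg _ _).mul_reg (Or.inr (ord_w_zero h).ge)
    have hsplit : el f (A11_A c) (C (c 3)) = el f (A11_A c) 0 + el f 0 (C (c 3)) := by
      rw [A11_el_add, add_zero, zero_add]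
    interval_cases n
    · exact_mod_cast hreg _ _
    · have h0 := hj 0 (by decide)
      rw [e0] at h0
      rw [h0, C_0, zero_add, ← pow_one (X - C x), mul_assoc] at hA
      rw [hsplit]
      refine A11_ge.add ?_ (by exact_mod_cast hw)
      rw [hA, pow_one, ← pow_one (X - C x)]
      exact A11_poly h 1 _
    · have h0 := hj 0 (by decide)
      have h1 := hj 1 (by decide)
      rw [e0] at h0
      rw [e1] at h1
      rw [h0, C_0, zero_add] at hA
      rw [h1, C_0]
      by_cases hA0 : A11_A c = 0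
      · left; rw [hA0, el_eq_zero_iff]; exact ⟨rfl, rfl⟩
      · right
        rw [ord_poly h hA0, if_pos rfl]
        have h3 : 1 ≤ (A11_A c).rootMultiplicity x := by
          rw [le_rootMultiplicity_iff hA0, pow_one, hA]
          exact dvd_mul_right _ _
        push_cast
        omega
    · have h0 := hj 0 (by decide)
      have h1 := hj 1 (by decide)
      have h2 := hj 2 (by decide)
      rw [e0] at h0
      rw [e1] at h1
      rw [e2] at h2
      rw [h0, h2, C_0, zero_add, zero_add] at hA
      rw [h1, C_0]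
      by_cases hA0 : A11_A c = 0
      · left; rw [hA0, el_eq_zero_iff]; exact ⟨rfl, rfl⟩
      · right
        rw [ord_poly h hA0, if_pos rfl]
        have h3 : 2 ≤ (A11_A c).rootMultiplicity x := by
          rw [le_rootMultiplicity_iff hA0, hA]
          exact ⟨C (c 2), by ring⟩
        push_cast
        omega
  · -- an approximation of `w`
    obtain ⟨g1, hg1⟩ := X_sub_C_dvd_sub_C_eval (a := x) (p := f)
    obtain ⟨g2, hg2⟩ := X_sub_C_dvd_sub_C_eval (a := x) (p := g1)
    obtain ⟨g3, hg3⟩ := X_sub_C_dvd_sub_C_eval (a := x) (p := g2)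
    have h2y : (2 : k) * y ≠ 0 := mul_ne_zero two_ne_zero hy
    obtain ⟨w1, hw1⟩ : ∃ w1 : k, 2 * y * w1 = g1.eval x := ⟨g1.eval x / (2 * y), by field_simp⟩
    obtain ⟨w2, hw2⟩ : ∃ w2 : k, 2 * y * w2 + w1 ^ 2 = g2.eval x :=
      ⟨(g2.eval x - w1 ^ 2) / (2 * y), by field_simp; ring⟩
    let W : k[X] := C y + C w1 * (X - C x) + C w2 * (X - C x) ^ 2
    have hWf : f - W ^ 2 = (X - C x) ^ 3 * (g3 - 2 * C w1 * C w2 - C w2 ^ 2 * (X - C x)) := by
      have e1 : f = C (f.eval x) + (X - C x) * (C (g1.eval x) + (X - C x) * (C (g2.eval x) +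
          (X - C x) * g3)) := by
        rw [← hg3, add_sub_cancel, ← hg2, add_sub_cancel, ← hg1, add_sub_cancel]
      rw [e1, ← h, ← hw1, ← hw2]
      change _ - (C y + C w1 * (X - C x) + C w2 * (X - C x) ^ 2) ^ 2 = _
      simp only [C_add, C_mul, C_pow]
      have : (C 2 : k[X]) = 2 := rfl
      rw [this]
      ring
    have hWx : W.eval x = y := by simp [W]
    have hprod : el f (-W) 1 * el f W 1 = el f (f - W ^ 2) 0 := by
      rw [el_mul]
      congr 1
      · ring
      · ring
    have hne1 : el f (-W) 1 ≠ 0 := by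
      intro h'
      rw [el_eq_zero_iff] at h'
      exact one_ne_zero h'.2
    have hne2 : el f W 1 ≠ 0 := by
      intro h'
      rw [el_eq_zero_iff] at h'
      exact one_ne_zero h'.2
    have hord2 : (vp (.aff x y h : Pt f)).ord (el f W 1) = 0 := by
      have h3 := ord_nonneg hP W 1
      have h4 := ord_pos_iff h hne2
      rw [hWx, eval_one, one_mul] at h4
      have h5 : ¬ 0 < (vp (.aff x y h : Pt f)).ord (el f W 1) := by
        rw [h4]
        intro h'
        exact h2y (by linear_combination h')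
      omega
    have hw3 : A11_ge (vp (.aff x y h : Pt f)) 3 (el f (-W) 1) := by
      right
      have h3 := A11_poly h 3 (g3 - 2 * C w1 * C w2 - C w2 ^ 2 * (X - C x))
      rw [← hWf, ← hprod] at h3
      have h4 := h3.resolve_left (mul_ne_zero hne1 hne2)
      rw [Place.ord_mul _ _ _ hne1 hne2, hord2, add_zero] at h4
      exact_mod_cast h4
    refine ⟨(Matrix.of ![![1, x, x ^ 2, y], ![0, 1, 2 * x, w1], ![0, 0, 1, w2]]).mulVecLin, ?_⟩
    intro c n hn hj
    have e0 : (Matrix.of ![![1, x, x ^ 2, y], ![0, 1, 2 * x, w1], ![0, 0, 1, w2]]).mulVecLin c 0 =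
        c 0 + x * c 1 + x ^ 2 * c 2 + y * c 3 := by
      simp [Matrix.mulVec, dotProduct, Fin.sum_univ_succ]; ring
    have e1 : (Matrix.of ![![1, x, x ^ 2, y], ![0, 1, 2 * x, w1], ![0, 0, 1, w2]]).mulVecLin c 1 =
        c 1 + 2 * x * c 2 + w1 * c 3 := by
      simp [Matrix.mulVec, dotProduct, Fin.sum_univ_succ]; ring
    have e2 : (Matrix.of ![![1, x, x ^ 2, y], ![0, 1, 2 * x, w1], ![0, 0, 1, w2]]).mulVecLin c 2 =
        c 2 + w2 * c 3 := by
      simp [Matrix.mulVec, dotProduct, Fin.sum_univ_succ]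
    have hA : A11_A c + C (c 3) * W = C (c 0 + x * c 1 + x ^ 2 * c 2 + y * c 3) +
        (X - C x) * (C (c 1 + 2 * x * c 2 + w1 * c 3) + (X - C x) * C (c 2 + w2 * c 3)) := by
      unfold A11_A
      change _ + C (c 3) * (C y + C w1 * (X - C x) + C w2 * (X - C x) ^ 2) = _
      simp only [C_add, C_mul, C_pow]
      have : (C 2 : k[X]) = 2 := rfl
      rw [this]
      ring
    have hsplit : el f (A11_A c) (C (c 3)) = el f (A11_A c + C (c 3) * W) 0 +
        el f (C (c 3)) 0 * el f (-W) 1 := by
      rw [el_mul, A11_el_add]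
      congr 1
      · ring
      · ring
    have hn3 : A11_ge (vp (.aff x y h : Pt f)) n (el f (C (c 3)) 0 * el f (-W) 1) := by
      refine (hreg _ _).mul_reg ?_
      rcases hw3 with h' | h'
      · exact Or.inl h'
      · exact Or.inr (by omega)
    rw [hsplit]
    refine A11_ge.add ?_ hn3
    interval_cases n
    · exact_mod_cast hreg _ _
    · have h0 := hj 0 (by decide)
      rw [e0] at h0
      rw [h0, C_0, zero_add] at hA
      rw [hA]
      have := A11_poly h 1 (C (c 1 + 2 * x * c 2 + w1 * c 3) + (X - C x) * C (c 2 + w2 * c 3))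
      rw [pow_one] at this
      exact this
    · have h0 := hj 0 (by decide)
      have h1 := hj 1 (by decide)
      rw [e0] at h0
      rw [e1] at h1
      rw [h0, h1, C_0, zero_add, zero_add, ← mul_assoc, ← pow_two] at hA
      rw [hA]
      exact A11_poly h 2 _
    · have h0 := hj 0 (by decide)
      have h1 := hj 1 (by decide)
      have h2 := hj 2 (by decide)
      rw [e0] at h0
      rw [e1] at h1
      rw [e2] at h2
      rw [h0, h1, h2, C_0, zero_add, zero_add, mul_zero, mul_zero] at hA
      rw [hA]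
      exact Or.inl ((el_eq_zero_iff 0 0).mpr ⟨rfl, rfl⟩)

/-- a function `A(s) + B(s) w`, `deg A ≤ 2`, `B` constant, with three prescribed zeros -/
theorem exists_three (P Q R : Pt f) (hP : P ≠ .inf) (hQ : Q ≠ .inf) (hR : R ≠ .inf) :
    ∃ A B : k[X], el f A B ≠ 0 ∧ A.natDegree ≤ 2 ∧ B.natDegree = 0 ∧
      ∀ S : Pt f, (({P, Q, R} : Multiset (Pt f)).count S : ℤ) ≤ (vp S).ord (el f A B) ∨ S = .inf := by
  choose Λ hΛ using fun P : {P : Pt f // P ≠ .inf} => A11_lam P.1 P.2
  -- the three functionals
  let q1 : Fin 3 := if Q = P then 1 else 0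
  let r1 : Fin 3 := (if R = P then 1 else 0) + (if R = Q then 1 else 0)
  let φ : (Fin 4 → k) →ₗ[k] (Fin 3 → k) := LinearMap.pi
    ![(LinearMap.proj 0).comp (Λ ⟨P, hP⟩), (LinearMap.proj q1).comp (Λ ⟨Q, hQ⟩),
      (LinearMap.proj r1).comp (Λ ⟨R, hR⟩)]
  obtain ⟨c, hc, hc0⟩ : ∃ c ∈ LinearMap.ker φ, c ≠ 0 := by
    apply Submodule.exists_mem_ne_zero_of_ne_bot
    apply LinearMap.ker_ne_bot_of_finrank_lt
    simp
  rw [LinearMap.mem_ker] at hc
  have c1 : Λ ⟨P, hP⟩ c 0 = 0 := congrFun hc 0
  have c2 : Λ ⟨Q, hQ⟩ c q1 = 0 := congrFun hc 1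
  have c3 : Λ ⟨R, hR⟩ c r1 = 0 := congrFun hc 2
  have hne : el f (A11_A c) (C (c 3)) ≠ 0 := by
    intro h
    rw [el_eq_zero_iff] at h
    apply hc0
    have h3 : c 3 = 0 := by simpa using h.2
    have hA := h.1
    have h0 := congrArg (fun p => p.coeff 0) hA
    have h1 := congrArg (fun p => p.coeff 1) hA
    have h2 := congrArg (fun p => p.coeff 2) hA
    simp [A11_A, coeff_X, coeff_C, coeff_X_pow] at h0 h1 h2
    ext i
    fin_cases i
    · exact h0
    · exact h1
    · exact h2
    · exact h3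
  refine ⟨A11_A c, C (c 3), hne, ?_, natDegree_C _, ?_⟩
  · unfold A11_A
    compute_degree
  · intro S
    by_cases hS : S = .inf
    · exact Or.inr hS
    · left
      have key : ∀ n : ℕ, n ≤ 3 → (∀ j : Fin 3, (j : ℕ) < n → Λ ⟨S, hS⟩ c j = 0) →
          (n : ℤ) ≤ (vp S).ord (el f (A11_A c) (C (c 3))) := fun n hn hj =>
        (hΛ ⟨S, hS⟩ c n hn hj).resolve_left hne
      have hcount : ({P, Q, R} : Multiset (Pt f)).count S =
          (if S = P then 1 else 0) + (if S = Q then 1 else 0) + (if S = R then 1 else 0) := by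
        change Multiset.count S (P ::ₘ Q ::ₘ {R}) = _
        rw [Multiset.count_cons, Multiset.count_cons, Multiset.count_singleton]
        ring
      refine key _ ?_ ?_
      · rw [hcount]
        split_ifs <;> omega
      · intro j hj
        rw [hcount] at hj
        by_cases h1 : S = P <;> by_cases h2 : S = Q <;> by_cases h3 : S = R
        · subst h1; subst h2; subst h3
          fin_cases j
          · exact c1
          · simpa [q1] using c2
          · simpa [r1] using c3
        · subst h1; subst h2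
          have h3' : ¬ R = S := fun h => h3 h.symm
          fin_cases j
          · exact c1
          · simpa [q1] using c2
          · simp [h3] at hj
        · subst h1; subst h3
          have h2' : ¬ Q = S := fun h => h2 h.symm
          fin_cases j
          · exact c1
          · simpa [r1, h2] using c3
          · simp [h2] at hj
        · subst h1
          fin_cases j
          · exact c1
          · simp [h2, h3] at hj
          · simp [h2, h3] at hj
        · subst h2; subst h3
          fin_cases j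
          · simpa [q1, h1] using c2
          · simpa [r1, h1] using c3
          · simp [h1] at hj
        · subst h2
          fin_cases j
          · simpa [q1, h1] using c2
          · simp [h1, h3] at hj
          · simp [h1, h3] at hj
        · subst h3
          fin_cases j
          · simpa [r1, h1, h2] using c3
          · simp [h1, h2] at hj
          · simp [h1, h2] at hj
        · simp [h1, h2, h3] at hj

end Pool.Agent.LibJac77
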