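import Pool.Agent.LibJac77.A11

/-!
Every class of degree zero is `[P] + [Q] - 2[∞]`.
-/

open scoped Classical
open Polynomial

namespace Pool.Agent.LibJac77

open Pool.Agent.LibBH2

variable {k : Type} [Field k] [CharZero k] [IsAlgClosed k] {f : k[X]} [Genus2 f]

/-- the multiset of the affine zeros -/
theorem A12_zeros {A B : k[X]} (hne : el f A B ≠ 0) : ∃ m : Multiset (Pt f),
    (∀ S : Pt f, S ≠ .inf → (vp S).ord (el f A B) = m.count S) ∧ m.count .inf = 0 ∧
    Multiset.card m = (Nm f A B).natDegree := by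
  let D := dv (el f A B)
  let E : Pt f →₀ ℕ := (D.erase .inf).mapRange Int.toNat rfl
  have hE : ∀ S : Pt f, S ≠ .inf → (E S : ℤ) = (vp S).ord (el f A B) := by
    intro S hS
    change ((((D.erase .inf) S).toNat : ℕ) : ℤ) = _
    rw [Finsupp.erase_ne hS]
    change (((dv (el f A B) S).toNat : ℕ) : ℤ) = _
    rw [dv_apply, Int.toNat_of_nonneg (ord_nonneg hS A B)]
  refine ⟨Finsupp.toMultiset E, fun S hS => ?_, ?_, ?_⟩
  · rw [Finsupp.count_toMultiset, hE S hS]
  · rw [Finsupp.count_toMultiset]
    change ((D.erase .inf) .inf).toNat = 0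
    rw [Finsupp.erase_same]
    rfl
  · rw [Finsupp.card_toMultiset]
    have h1 : deg D = 0 := deg_dv _
    have h2 : D = Finsupp.single .inf (D .inf) + D.erase .inf :=
      (Finsupp.single_add_erase _ _).symm
    rw [h2, deg_add] at h1
    have h3 : deg (Finsupp.single (.inf : Pt f) (D .inf)) = -((Nm f A B).natDegree : ℤ) := by
      rw [deg, Finsupp.sum_single_index rfl]
      change dv (el f A B) .inf = _
      rw [dv_apply, ord_inf hne]
    have h4 : deg (D.erase .inf) = ((E.sum fun _ n => n : ℕ) : ℤ) := by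
      rw [deg, Finsupp.sum_mapRange_index (fun _ => rfl)]
      rw [Finsupp.sum, Finsupp.sum, Nat.cast_sum]
      refine Finset.sum_congr rfl fun S hS => ?_
      have hS' : S ≠ .inf := by
        intro h
        rw [h, Finsupp.mem_support_iff, Finsupp.erase_same] at hS
        exact hS rfl
      rw [Finsupp.erase_ne hS']
      change dv (el f A B) S = ((dv (el f A B) S).toNat : ℤ)
      rw [dv_apply, Int.toNat_of_nonneg (ord_nonneg hS' A B)]
    rw [h3, h4] at h1
    have h5 : ((E.sum fun _ n => n : ℕ) : ℤ) = ((Nm f A B).natDegree : ℤ) := by linarith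
    exact_mod_cast h5

theorem A12_two (m : Multiset (Pt f)) (hm : Multiset.card m ≤ 2) :
    ∃ U V : Pt f, (m.map jP).sum = jP U + jP V := by
  rcases Nat.lt_or_ge (Multiset.card m) 1 with h | h
  · have : m = 0 := by rw [← Multiset.card_eq_zero]; omega
    refine ⟨.inf, .inf, ?_⟩
    rw [this, jP_inf]
    simp
  rcases Nat.lt_or_ge (Multiset.card m) 2 with h2 | h2
  · obtain ⟨U, rfl⟩ := Multiset.card_eq_one.mp (by omega : Multiset.card m = 1)
    refine ⟨U, .inf, ?_⟩
    rw [jP_inf]
    simp
  · obtain ⟨U, V, rfl⟩ := Multiset.card_eq_two.mp (by omega : Multiset.card m = 2)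
    refine ⟨U, V, ?_⟩
    simp

theorem three_two (P Q R : Pt f) : ∃ S T : Pt f, jP P + jP Q + jP R = jP S + jP T := by
  by_cases hP : P = .inf
  · exact ⟨Q, R, by rw [hP, jP_inf, zero_add]⟩
  by_cases hQ : Q = .inf
  · exact ⟨P, R, by rw [hQ, jP_inf, add_zero]⟩
  by_cases hR : R = .inf
  · exact ⟨P, Q, by rw [hR, jP_inf, add_zero]⟩
  obtain ⟨A, B, hne, hA, hB, hz⟩ := exists_three P Q R hP hQ hR
  obtain ⟨m, hm, hinf, hcard⟩ := A12_zeros hne
  have hN : (Nm f A B).natDegree ≤ 5 := by
    by_cases hB0 : B = 0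
    · rw [hB0, natDegree_Nm_zero]; omega
    · rw [natDegree_Nm hB0, hB]
      simp only [max_le_iff]
      omega
  have hle : ({P, Q, R} : Multiset (Pt f)) ≤ m := by
    rw [Multiset.le_iff_count]
    intro S
    by_cases hS : S = .inf
    · rw [hS, hinf]
      have : (.inf : Pt f) ∉ ({P, Q, R} : Multiset (Pt f)) := by
        change _ ∉ P ::ₘ Q ::ₘ {R}
        simp only [Multiset.mem_cons, Multiset.mem_singleton]
        rintro (h | h | h)
        · exact hP h.symm
        · exact hQ h.symm
        · exact hR h.symm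
      rw [Multiset.count_eq_zero_of_notMem this]
    · have h1 := (hz S).resolve_right hS
      rw [hm S hS] at h1
      exact_mod_cast h1
  obtain ⟨m', rfl⟩ := Multiset.le_iff_exists_add.mp hle
  have hsum := sum_jP_of_el A B hne _ hm
  rw [Multiset.map_add, Multiset.sum_add] at hsum
  have hm' : Multiset.card m' ≤ 2 := by
    rw [Multiset.card_add] at hcard
    have : Multiset.card ({P, Q, R} : Multiset (Pt f)) = 3 := by simp
    omega
  obtain ⟨U, V, hUV⟩ := A12_two m' hm'
  refine ⟨neg U, neg V, ?_⟩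
  rw [hUV] at hsum
  have h3 : (({P, Q, R} : Multiset (Pt f)).map jP).sum = jP P + jP Q + jP R := by
    simp only [Multiset.insert_eq_cons, Multiset.map_cons, Multiset.sum_cons,
      Multiset.map_singleton, Multiset.sum_singleton]
    abel
  rw [h3] at hsum
  rw [jP_neg, jP_neg, eq_neg_of_add_eq_zero_left hsum]
  abel

theorem A12_sum_add (D E : Pt f →₀ ℤ) : ((D + E).sum fun P n => n • jP P) =
    (D.sum fun P n => n • jP P) + E.sum fun P n => n • jP P :=
  Finsupp.sum_add_index' (h := fun P (n : ℤ) => n • jP P) (fun P => zero_smul ℤ (jP P))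
    (fun P a b => add_smul a b (jP P))

theorem A12_sum_single (P : Pt f) (n : ℤ) :
    ((Finsupp.single P n).sum fun P n => n • jP P) = n • jP P :=
  Finsupp.sum_single_index (h := fun P (n : ℤ) => n • jP P) (zero_smul ℤ _)

theorem A12_mk (D : Pt f →₀ ℤ) :
    (D.sum fun P n => n • jP P) = mk f D - deg D • mk f (Finsupp.single .inf 1) := by
  induction D using Finsupp.induction_linear with
  | zero => simp [deg]
  | add D E hD hE =>
    rw [A12_sum_add, hD, hE,
      deg_add, map_add, add_smul]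
    abel
  | single P n =>
    rw [A12_sum_single, deg, Finsupp.sum_single_index rfl, jP, map_sub,
      smul_sub, ← map_zsmul, ← map_zsmul]
    simp

theorem A12_add {a b : Pic f} (ha : ∃ S T : Pt f, a = jP S + jP T)
    (hb : ∃ S T : Pt f, b = jP S + jP T) : ∃ S T : Pt f, a + b = jP S + jP T := by
  obtain ⟨S, T, rfl⟩ := ha
  obtain ⟨U, V, rfl⟩ := hb
  obtain ⟨S', T', h1⟩ := three_two S T U
  obtain ⟨S'', T'', h2⟩ := three_two S' T' V
  refine ⟨S'', T'', ?_⟩
  rw [← h2, ← h1]
  abel

theorem A12_nsmul (P : Pt f) (n : ℕ) : ∃ S T : Pt f, n • jP P = jP S + jP T := by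
  induction n with
  | zero => exact ⟨.inf, .inf, by rw [zero_smul, jP_inf, add_zero]⟩
  | succ n ih =>
    rw [add_smul, one_smul]
    exact A12_add ih ⟨P, .inf, by rw [jP_inf, add_zero]⟩

theorem exists_two (D : Pt f →₀ ℤ) (hD : deg D = 0) : ∃ P Q : Pt f, mk f D = jP P + jP Q := by
  have h1 := A12_mk D
  rw [hD, zero_smul, sub_zero] at h1
  rw [← h1]
  clear h1 hD
  induction D using Finsupp.induction_linear with
  | zero => exact ⟨.inf, .inf, by rw [Finsupp.sum_zero_index, jP_inf, add_zero]⟩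
  | add D E hD hE =>
    rw [A12_sum_add]
    exact A12_add hD hE
  | single P n =>
    rw [A12_sum_single]
    obtain ⟨m, rfl | rfl⟩ := n.eq_nat_or_neg
    · rw [natCast_zsmul]
      exact A12_nsmul P m
    · rw [neg_smul, natCast_zsmul, ← smul_neg, ← jP_neg]
      exact A12_nsmul (neg P) m

end Pool.Agent.LibJac77
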