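import Pool.Agent.LibJac77.A12
import Pool.Agent.LibJac77.A10

/-!
A polynomial identity for the division by two.
-/

open scoped Classical
open Polynomial

namespace Pool.Agent.LibJac77

open Pool.Agent.LibBH2

variable {k : Type} [Field k] [CharZero k] [IsAlgClosed k] {f : k[X]} [Genus2 f]

/-- for every `ξ` there are `A, U` and `c` with `A ^ 2 - c ^ 2 f = (x - ξ) U ^ 2`,
`deg A, deg U ≤ 2`, `c ≠ 0` -/
theorem exists_halving_poly (ξ : k) : ∃ (A U : k[X]) (c : k), c ≠ 0 ∧
    A ^ 2 - (C c) ^ 2 * f = (X - C ξ) * U ^ 2 := by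
  have hmon : f.Monic := Genus2.monic
  have hdeg : f.natDegree = 5 := Genus2.deg
  have hsq : Squarefree f := Genus2.sqf
  have hsep : f.Separable := PerfectField.separable_iff_squarefree.2 hsq
  have hnodup : f.roots.Nodup := nodup_roots hsep
  have hsplit : f.Splits := IsAlgClosed.splits f
  have hcard : Multiset.card f.roots = 5 := by
    rw [← hdeg]; exact hsplit.natDegree_eq_card_roots.symm
  choose s hs using fun θ : k => IsAlgClosed.exists_pow_nat_eq (θ - ξ) (n := 2) (by norm_num)
  -- the linear map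
  let L : (degreeLT k 3 × degreeLT k 3) →ₗ[k] (f.roots.toFinset → k) :=
    { toFun := fun p θ => (p.1 : k[X]).eval (θ : k) - s θ * (p.2 : k[X]).eval (θ : k)
      map_add' := by
        intro p q
        ext θ
        simp only [Prod.fst_add, Prod.snd_add, Submodule.coe_add, eval_add, Pi.add_apply]
        ring
      map_smul' := by
        intro a p
        ext θ
        simp only [Prod.smul_fst, Prod.smul_snd, Submodule.coe_smul, eval_smul, smul_eq_mul,
          RingHom.id_apply, Pi.smul_apply]
        ring }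
  have hfr : Module.finrank k (f.roots.toFinset → k) <
      Module.finrank k (degreeLT k 3 × degreeLT k 3) := by
    have h1 : Module.finrank k (degreeLT k 3) = 3 := by
      rw [(degreeLTEquiv k 3).finrank_eq]; simp
    rw [Module.finrank_prod, h1, Module.finrank_pi, Fintype.card_coe,
      Multiset.toFinset_card_of_nodup hnodup, hcard]
    norm_num
  have : Module.Finite k (degreeLT k 3) := Module.Finite.equiv (degreeLTEquiv k 3).symm
  obtain ⟨⟨⟨A, hA⟩, ⟨U, hU⟩⟩, hker, hne⟩ :=
    Submodule.exists_mem_ne_zero_of_ne_bot (LinearMap.ker_ne_bot_of_finrank_lt hfr (f := L))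
  rw [mem_degreeLT] at hA hU
  have hroot : ∀ θ ∈ f.roots, A.eval θ = s θ * U.eval θ := by
    intro θ hθ
    have := congrFun (LinearMap.mem_ker.1 hker) ⟨θ, Multiset.mem_toFinset.2 hθ⟩
    exact sub_eq_zero.1 this
  set g : k[X] := A ^ 2 - (X - C ξ) * U ^ 2 with hg
  have hdvd : f ∣ g := by
    by_cases hg0 : g = 0
    · rw [hg0]; exact dvd_zero f
    · have hprod : f = (f.roots.map fun a => X - C a).prod :=
        hsplit.eq_prod_roots_of_monic hmon
      rw [hprod, Multiset.prod_X_sub_C_dvd_iff_le_roots hg0, Multiset.le_iff_subset hnodup]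
      intro θ hθ
      rw [mem_roots hg0, IsRoot.def, hg, eval_sub, eval_pow, eval_mul, eval_pow, eval_sub, eval_X,
        eval_C, hroot θ hθ, mul_pow, hs θ, sub_self]
  obtain ⟨q, hq⟩ := hdvd
  have hAn : A.natDegree ≤ 2 := by
    by_cases h0 : A = 0
    · rw [h0]; simp
    · have := (natDegree_lt_iff_degree_lt h0).2 hA
      omega
  have hUn : U.natDegree ≤ 2 := by
    by_cases h0 : U = 0
    · rw [h0]; simp
    · have := (natDegree_lt_iff_degree_lt h0).2 hU
      omega
  have hgn : g.natDegree ≤ 5 := by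
    refine (natDegree_sub_le _ _).trans (max_le ?_ ?_)
    · exact natDegree_pow_le.trans (by omega)
    · refine natDegree_mul_le.trans ?_
      have h1 : (X - C ξ).natDegree = 1 := natDegree_X_sub_C ξ
      have h2 : (U ^ 2).natDegree ≤ 2 * U.natDegree := natDegree_pow_le
      omega
  -- not zero, by parity of degrees
  have hg0 : g ≠ 0 := by
    intro h0
    have h1 : A ^ 2 = (X - C ξ) * U ^ 2 := sub_eq_zero.1 h0
    by_cases hU0 : U = 0
    · rw [hU0] at h1
      have hA0 : A = 0 := by
        have : A ^ 2 = 0 := by rw [h1]; ring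
        exact pow_eq_zero_iff two_ne_zero |>.1 this
      apply hne
      ext1 <;> ext1
      · exact hA0
      · exact hU0
    · have h2 := congrArg natDegree h1
      rw [natDegree_pow, natDegree_mul (X_sub_C_ne_zero ξ) (pow_ne_zero 2 hU0), natDegree_X_sub_C,
        natDegree_pow] at h2
      omega
  have hq0 : q ≠ 0 := by
    rintro rfl
    rw [mul_zero] at hq
    exact hg0 hq
  have hqn : q.natDegree = 0 := by
    have := congrArg natDegree hq
    rw [natDegree_mul hmon.ne_zero hq0, hdeg] at this
    omega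
  obtain ⟨e, he⟩ : ∃ e, q = C e := ⟨_, eq_C_of_natDegree_eq_zero hqn⟩
  obtain ⟨c, hc⟩ := IsAlgClosed.exists_pow_nat_eq e (n := 2) (by norm_num)
  refine ⟨A, U, c, ?_, ?_⟩
  · rintro rfl
    apply hq0
    rw [he, ← hc]
    simp
  · rw [← C_pow, hc, ← he, mul_comm q f, ← hq, hg]
    ring

end Pool.Agent.LibJac77
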