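import Pool.Agent.LibJac77.A12
import Pool.Agent.LibJac77.A10
import Pool.Agent.LibJac77.A13a

/-!
Division by two.
-/

open scoped Classical
open Polynomial

namespace Pool.Agent.LibJac77

open Pool.Agent.LibBH2

variable {k : Type} [Field k] [CharZero k] [IsAlgClosed k] {f : k[X]} [Genus2 f]

/-- twice the classes of degree zero -/
private noncomputable def twoPic (f : k[X]) [Genus2 f] : AddSubgroup (Pic f) where
  carrier := {z | ∃ D : Pt f →₀ ℤ, deg D = 0 ∧ z = 2 • mk f D}
  zero_mem' := ⟨0, by simp [deg], by simp⟩
  add_mem' := by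
    rintro _ _ ⟨D, hD, rfl⟩ ⟨E, hE, rfl⟩
    exact ⟨D + E, by rw [deg_add, hD, hE, add_zero], by rw [map_add, smul_add]⟩
  neg_mem' := by
    rintro _ ⟨D, hD, rfl⟩
    refine ⟨-D, ?_, by rw [map_neg, smul_neg]⟩
    have h := deg_add D (-D)
    rw [add_neg_cancel, hD, zero_add] at h
    rw [← h]; simp [deg]

private theorem two_jP_mem (Q : Pt f) : 2 • jP Q ∈ twoPic f := by
  refine ⟨Finsupp.single Q 1 - Finsupp.single .inf 1, ?_, rfl⟩
  have h := deg_add (Finsupp.single Q 1 - Finsupp.single .inf 1) (Finsupp.single (.inf : Pt f) 1)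
  rw [sub_add_cancel] at h
  have h1 : ∀ R : Pt f, deg (Finsupp.single R (1 : ℤ)) = 1 := by
    intro R; simp [deg]
  rw [h1, h1] at h
  linarith

/-- a multiset of points with prescribed counts -/
private theorem exists_zeros (g : KC f) (hg : g ≠ 0)
    (hnn : ∀ Q : Pt f, Q ≠ .inf → 0 ≤ (vp Q).ord g) :
    ∃ m : Multiset (Pt f), ∀ Q : Pt f, Q ≠ .inf → (vp Q).ord g = m.count Q := by
  refine ⟨∑ Q ∈ (finite_ord g hg).toFinset, ((vp Q).ord g).toNat • {Q}, fun Q hQ => ?_⟩
  rw [Multiset.count_sum']
  have h1 : ∀ R ∈ (finite_ord g hg).toFinset, Multiset.count Q (((vp R).ord g).toNat • {R}) =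
      if R = Q then ((vp Q).ord g).toNat else 0 := by
    intro R _
    rw [Multiset.count_nsmul, Multiset.count_singleton]
    by_cases h : R = Q
    · subst h; simp
    · rw [if_neg (Ne.symm h), if_neg h, mul_zero]
  rw [Finset.sum_congr rfl h1, Finset.sum_ite_eq']
  split_ifs with h2
  · exact (Int.toNat_of_nonneg (hnn Q hQ)).symm
  · rw [Set.Finite.mem_toFinset, Set.mem_ofPred_eq, not_not] at h2
    rw [h2]; rfl

/-- the `x`-coordinates of the zeros are the roots of the norm -/
private theorem filterMap_xco {A B : k[X]} (hne : el f A B ≠ 0) (m : Multiset (Pt f))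
    (hm : ∀ Q : Pt f, Q ≠ .inf → (vp Q).ord (el f A B) = m.count Q) :
    m.filterMap xco = (Nm f A B).roots := by
  ext x
  rw [count_roots]
  obtain ⟨y, hy⟩ := IsAlgClosed.exists_pow_nat_eq (f.eval x) (n := 2) (by norm_num)
  -- the count is the number of points over `x`
  have h1 : Multiset.count x (m.filterMap xco) = Multiset.countP (fun Q => xco Q = some x) m := by
    clear hm
    induction m using Multiset.induction_on with
    | empty => simp
    | cons Q m ih =>
      cases hQ : xco Q with
      | none =>
        rw [Multiset.filterMap_cons_none _ _ hQ, ih, Multiset.countP_cons_of_neg]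
        rw [hQ]; simp
      | some x' =>
        rw [Multiset.filterMap_cons_some _ _ _ hQ]
        by_cases hx : x' = x
        · subst hx
          rw [Multiset.count_cons_self, ih,
            Multiset.countP_cons_of_pos (p := fun Q => xco Q = some x') m hQ]
        · rw [Multiset.count_cons_of_ne (Ne.symm hx), ih, Multiset.countP_cons_of_neg]
          rw [hQ]
          simpa using hx
  have hover : ∀ Q : Pt f, xco Q = some x ↔ Q = .aff x y hy ∨ Q = neg (.aff x y hy) := by
    intro Q
    match Q with
    | .inf => simp [xco, neg]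
    | .aff x' y' h' =>
      simp only [xco, Option.some.injEq, neg, Pt.aff.injEq]
      constructor
      · rintro rfl
        have : y' ^ 2 = y ^ 2 := by rw [h', hy]
        rcases sq_eq_sq_iff_eq_or_eq_neg.1 this with h | h
        · exact Or.inl ⟨rfl, h⟩
        · exact Or.inr ⟨rfl, h⟩
      · rintro (⟨h, _⟩ | ⟨h, _⟩) <;> exact h
  rw [h1]
  have hP : (.aff x y hy : Pt f) ≠ .inf := by simp
  by_cases hy0 : y = 0
  · subst hy0
    have h2 : Multiset.countP (fun Q => xco Q = some x) m = m.count (.aff x 0 hy) := by
      rw [Multiset.count]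
      apply Multiset.countP_congr rfl
      intro Q _
      rw [hover Q]
      simp [neg, eq_comm]
    rw [h2]
    have h3 := hm _ hP
    rw [ord_weier hy hne] at h3
    exact_mod_cast h3.symm
  · have hne' : (.aff x y hy : Pt f) ≠ neg (.aff x y hy) := by
      simp only [neg, ne_eq, Pt.aff.injEq, true_and]
      intro h
      apply hy0
      have : 2 * y = 0 := by linear_combination h
      simpa using this
    have h2 : Multiset.countP (fun Q => xco Q = some x) m =
        m.count (.aff x y hy) + m.count (neg (.aff x y hy)) := by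
      have h4 : Multiset.countP (fun Q => xco Q = some x) m =
          Multiset.countP (fun Q => Q = .aff x y hy ∨ Q = neg (.aff x y hy)) m :=
        Multiset.countP_congr rfl fun Q _ => propext (hover Q)
      rw [h4]
      clear hm h1 h4
      induction m using Multiset.induction_on with
      | empty => simp
      | cons Q m ih =>
        by_cases hQ1 : Q = .aff x y hy
        · subst hQ1
          rw [Multiset.countP_cons_of_pos (p := fun Q => Q = .aff x y hy ∨ Q = neg (.aff x y hy)) m
            (Or.inl rfl), ih, Multiset.count_cons_self,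
            Multiset.count_cons_of_ne (Ne.symm hne')]
          ring
        · by_cases hQ2 : Q = neg (.aff x y hy)
          · subst hQ2
            rw [Multiset.countP_cons_of_pos
              (p := fun Q => Q = .aff x y hy ∨ Q = neg (.aff x y hy)) m
              (Or.inr rfl), ih, Multiset.count_cons_self,
              Multiset.count_cons_of_ne hne']
            ring
          · rw [Multiset.countP_cons_of_neg _ (by rintro (h | h); exacts [hQ1 h, hQ2 h]), ih,
              Multiset.count_cons_of_ne (Ne.symm hQ1), Multiset.count_cons_of_ne (Ne.symm hQ2)]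
    rw [h2]
    have h3 := ord_add_neg (P := .aff x y hy) rfl hy0 hne
    rw [hm _ hP, hm _ (by rw [Ne, neg_eq_inf]; exact hP)] at h3
    exact_mod_cast h3

/-- `[P] - [∞]` is divisible by two -/
theorem halve (P : Pt f) : ∃ Q R : Pt f, jP P = 2 • (jP Q + jP R) := by
  match P with
  | .inf => exact ⟨.inf, .inf, by rw [jP_inf]; simp⟩
  | .aff ξ η hξ =>
    obtain ⟨A, U, c, hc, hAU⟩ := exists_halving_poly (f := f) ξ
    have hNm : Nm f A (C c) = (X - C ξ) * U ^ 2 := hAU
    have hne : el f A (C c) ≠ 0 := by
      rw [Ne, el_eq_zero_iff]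
      rintro ⟨-, h⟩
      exact hc (C_eq_zero.1 h)
    have hNm0 := Nm_ne_zero hne
    obtain ⟨m, hm⟩ := exists_zeros (el f A (C c)) hne fun Q hQ => ord_nonneg hQ _ _
    have hsum := sum_jP_of_el A (C c) hne m hm
    have hxs := filterMap_xco hne m hm
    have hU0 : U ≠ 0 := by
      rintro rfl
      apply hNm0
      rw [hNm]; ring
    have hroots : (Nm f A (C c)).roots = {ξ} + 2 • U.roots := by
      rw [hNm, roots_mul (by rw [← hNm]; exact hNm0), roots_X_sub_C, roots_pow]
    -- the classes modulo two
    set π : Pic f →+ Pic f ⧸ twoPic f := QuotientAddGroup.mk' (twoPic f) with hπ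
    have hπ2 : ∀ Q : Pt f, π (jP Q) + π (jP Q) = 0 := by
      intro Q
      rw [← map_add, ← two_nsmul]
      exact (QuotientAddGroup.eq_zero_iff _).2 (two_jP_mem Q)
    have hπn : ∀ Q : Pt f, π (jP (neg Q)) = π (jP Q) := by
      intro Q
      rw [jP_neg, map_neg]
      exact (eq_neg_of_add_eq_zero_left (hπ2 Q)).symm
    choose yx hyx using fun x : k => IsAlgClosed.exists_pow_nat_eq (f.eval x) (n := 2) (by norm_num)
    set jx : k → Pic f ⧸ twoPic f := fun x => π (jP (.aff x (yx x) (hyx x))) with hjx
    have hjxQ : ∀ (x y : k) (h : y ^ 2 = f.eval x), π (jP (.aff x y h : Pt f)) = jx x := by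
      intro x y h
      have : y ^ 2 = (yx x) ^ 2 := by rw [h, hyx x]
      rcases sq_eq_sq_iff_eq_or_eq_neg.1 this with h1 | h1
      · subst h1; rfl
      · subst h1
        exact hπn (.aff x (yx x) (hyx x))
    have hmap : (m.map fun Q => π (jP Q)).sum = ((m.filterMap xco).map jx).sum := by
      clear hm hsum hxs
      induction m using Multiset.induction_on with
      | empty => simp
      | cons Q m ih =>
        match Q with
        | .inf =>
          rw [Multiset.filterMap_cons_none _ _ rfl, Multiset.map_cons, Multiset.sum_cons, jP_inf,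
            map_zero, zero_add, ih]
        | .aff x y h =>
          rw [Multiset.filterMap_cons_some xco (.aff x y h) m (b := x) rfl, Multiset.map_cons,
            Multiset.sum_cons, Multiset.map_cons, Multiset.sum_cons, ih, hjxQ x y h]
    have hzero : (m.map fun Q => π (jP Q)).sum = 0 := by
      have h1 : (m.map fun Q => π (jP Q)) = (m.map jP).map π := by
        rw [Multiset.map_map]; rfl
      rw [h1, ← map_multiset_sum, hsum, map_zero]
    rw [hmap, hxs, hroots, Multiset.map_add, Multiset.sum_add, Multiset.map_singleton,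
      Multiset.sum_singleton, two_nsmul, Multiset.map_add, Multiset.sum_add] at hzero
    have h2 : ∀ s : Multiset k, (s.map jx).sum + (s.map jx).sum = 0 := by
      intro s
      induction s using Multiset.induction_on with
      | empty => simp
      | cons x s ih =>
        rw [Multiset.map_cons, Multiset.sum_cons, add_add_add_comm, ih, add_zero]
        exact hπ2 _
    rw [h2, add_zero, ← hjxQ ξ η hξ] at hzero
    obtain ⟨D, hD, hDP⟩ := (QuotientAddGroup.eq_zero_iff _).1 hzero
    obtain ⟨Q, R, hQR⟩ := exists_two D hD
    exact ⟨Q, R, by rw [hDP, hQR]⟩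

end Pool.Agent.LibJac77
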