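import Pool.Agent.LibJac77.A12
import Pool.Agent.LibJac77.A10
import Pool.Agent.LibJac77.A13b

/-!
Torsion of order a power of two.
-/

open scoped Classical
open Polynomial

namespace Pool.Agent.LibJac77

open Pool.Agent.LibBH2

variable {k : Type} [Field k] [CharZero k] [IsAlgClosed k] {f : k[X]} [Genus2 f]

theorem exists_tower : ∃ w : ℕ → Pic f, (∀ n, ∃ P Q : Pt f, w n = jP P + jP Q) ∧
    (∀ n, 2 • w (n + 1) = w n) ∧ w 0 ≠ 0 ∧ 2 • w 0 = 0 := by
  have hdeg : f.natDegree = 5 := Genus2.deg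
  obtain ⟨θ, hθ⟩ := IsAlgClosed.exists_root f (by
    rw [degree_eq_natDegree (Genus2.monic (f := f)).ne_zero, hdeg]
    norm_num)
  have hW : (0 : k) ^ 2 = f.eval θ := by
    rw [IsRoot.def.1 hθ]; ring
  set W : Pt f := .aff θ 0 hW with hWdef
  have hneg : neg W = W := by simp [hWdef, neg]
  have hstep : ∀ z : {z : Pic f // ∃ P Q : Pt f, z = jP P + jP Q},
      ∃ z' : {z : Pic f // ∃ P Q : Pt f, z = jP P + jP Q}, 2 • (z' : Pic f) = z := by
    rintro ⟨z, P, Q, rfl⟩
    obtain ⟨a, b, h1⟩ := halve P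
    obtain ⟨c, d, h2⟩ := halve Q
    obtain ⟨S, T, h3⟩ := three_two a b c
    obtain ⟨S', T', h4⟩ := three_two S T d
    refine ⟨⟨jP S' + jP T', S', T', rfl⟩, ?_⟩
    simp only
    rw [← h4, ← h3, h1, h2]
    abel
  choose nxt hnxt using hstep
  let z0 : {z : Pic f // ∃ P Q : Pt f, z = jP P + jP Q} :=
    ⟨jP W, W, .inf, by rw [jP_inf, add_zero]⟩
  let u : ℕ → {z : Pic f // ∃ P Q : Pt f, z = jP P + jP Q} := fun n => nxt^[n] z0
  refine ⟨fun n => (u n : Pic f), fun n => (u n).2, fun n => ?_, ?_, ?_⟩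
  · have h1 : u (n + 1) = nxt (u n) := Function.iterate_succ_apply' nxt n z0
    change 2 • ((u (n + 1) : _) : Pic f) = _
    rw [h1]
    exact hnxt (u n)
  · change jP W ≠ 0
    intro h0
    have h1 : jP W + jP (.inf : Pt f) = jP (.inf : Pt f) + jP (.inf : Pt f) := by
      rw [h0, jP_inf]
    rcases two_unique h1 with h2 | h2 | h2
    · simp [hWdef] at h2
    · simp [hWdef] at h2
    · rw [hneg] at h2
      simp [hWdef] at h2
  · change 2 • jP W = 0
    have h1 := jP_neg W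
    rw [hneg] at h1
    rw [two_nsmul]
    nth_rewrite 1 [h1]
    rw [neg_add_cancel]

end Pool.Agent.LibJac77
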