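import Pool.Agent.LibJac77.A2

/-!
Elements `A(s) + B(s) w` : non-vanishing, the conjugation of the function field.
-/

open scoped Classical
open Polynomial

namespace Pool.Agent.LibJac77

open Pool.Agent.LibBH2

variable {k : Type} [Field k] [CharZero k] [IsAlgClosed k] {f : k[X]} [Genus2 f]

theorem el_eq_zero_iff (A B : k[X]) : el f A B = 0 ↔ A = 0 ∧ B = 0 := by
  constructor
  · intro h
    by_cases hB : B = 0
    · refine ⟨?_, hB⟩
      by_contra hA
      rw [el, hB, map_zero, zero_mul, add_zero] at h
      exact (DCf f).aeval_ne_zero hA h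
    · exfalso
      have hB' : aeval (DCf f).s B ≠ 0 := (DCf f).aeval_ne_zero hB
      have hw : (DCf f).w = (DCf f).ι (-(algebraMap k[X] (RatFunc k) A) /
          algebraMap k[X] (RatFunc k) B) := by
        rw [map_div₀, map_neg, (DCf f).ι_poly, (DCf f).ι_poly, eq_div_iff hB']
        rw [el] at h
        linear_combination h
      have h2 := (DCf f).hw
      rw [hw, ← map_pow] at h2
      have h3 := (DCf f).ι_inj h2
      apply nsq f
      refine ⟨-(algebraMap k[X] (RatFunc k) A) / algebraMap k[X] (RatFunc k) B, ?_⟩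
      rw [← sq]
      exact h3.symm
  · rintro ⟨rfl, rfl⟩
    simp [el]

theorem el_mul (A B A' B' : k[X]) :
    el f A B * el f A' B' = el f (A * A' + B * B' * f) (A * B' + B * A') := by
  have h := (DCf f).aeval_F
  have h' : aeval (DCf f).s (DCf f).F = aeval (DCf f).s f := rfl
  rw [h'] at h
  simp only [el, map_add, map_mul]
  linear_combination (aeval (DCf f).s B * aeval (DCf f).s B') * h

theorem el_conj (A B : k[X]) : el f A B * el f A (-B) = el f (Nm f A B) 0 := by
  rw [el_mul]
  congr 1
  · rw [Nm]; ring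
  · ring

theorem Nm_ne_zero {A B : k[X]} (h : el f A B ≠ 0) : Nm f A B ≠ 0 := by
  intro h0
  have h1 : el f A (-B) ≠ 0 := by
    intro h2
    rw [el_eq_zero_iff] at h2
    apply h
    rw [el_eq_zero_iff]
    exact ⟨h2.1, neg_eq_zero.1 h2.2⟩
  have h2 := el_conj (f := f) A B
  rw [h0] at h2
  have h3 : el f 0 0 = 0 := by simp [el]
  rw [h3] at h2
  exact (mul_ne_zero h h1) h2

/-- the conjugation -/
private theorem exists_conj : ∃ ψ : KC f →+* KC f, (∀ r, ψ ((DCf f).ι r) = (DCf f).ι r) ∧
    ψ (DCf f).w = -(DCf f).w := by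
  refine (DCf f).exists_hom (nsq f) (DCf f).ι.toRingHom (-(DCf f).w) ?_
  rw [neg_sq]
  exact (DCf f).hw

/-- the `k(s)`-automorphism `w ↦ -w` moves the place at `P` to the place at `neg P` -/
theorem ord_neg (P : Pt f) (A B : k[X]) : (vp (neg P)).ord (el f A B) = (vp P).ord (el f A (-B)) := by
  obtain ⟨ψ, h1, h2⟩ := exists_conj (f := f)
  have hψψ : ∀ g, ψ (ψ g) = g := by
    intro g
    obtain ⟨a, b, rfl⟩ := (DCf f).gen g
    simp only [map_add, map_mul, h1, h2, map_neg, neg_neg]
  have hinj : Function.Injective ψ := ψ.injective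
  have hne : ∀ g, g ≠ 0 → ψ g ≠ 0 := fun g hg h0 => hg (hinj (by rw [h0, map_zero]))
  have hψc : ∀ c : k, ψ (algebraMap k (KC f) c) = algebraMap k (KC f) c := by
    intro c
    have := h1 (algebraMap k (RatFunc k) c)
    rwa [(DCf f).ι.commutes] at this
  have hψs : ψ (DCf f).s = (DCf f).s := h1 _
  have hψp : ∀ Q : k[X], ψ (aeval (DCf f).s Q) = aeval (DCf f).s Q := by
    intro Q
    rw [← (DCf f).ι_poly]
    exact h1 _
  let v := vp P
  let v' : Place k (KC f) :=
    { ord := fun g => v.ord (ψ g)
      ord_zero := by simp only [map_zero]; exact v.ord_zero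
      ord_mul := fun g g' hg hg' => by
        simp only [map_mul]
        exact v.ord_mul _ _ (hne g hg) (hne g' hg')
      ord_add := fun g g' hg hg' hgg => by
        have h3 := hne _ hgg
        simp only [map_add] at h3 ⊢
        exact v.ord_add _ _ (hne g hg) (hne g' hg') h3
      ord_const := fun c hc => by
        simp only [hψc]
        exact v.ord_const c hc
      exists_uniformizer := by
        obtain ⟨t, ht⟩ := v.exists_uniformizer
        exact ⟨ψ t, by simp only [hψψ, ht]⟩ }
  have hord : ∀ g, v'.ord g = v.ord (ψ g) := fun g => rfl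
  have hzer : ∀ g, v.Zer (ψ g) → v'.Zer g := by
    rintro g (h | h)
    · left
      exact hinj (by rw [h, map_zero])
    · exact Or.inr h
  have hsp0 : ∀ Q : Pt f, Sp v (gen f) Q → Sp v' (gen f) (neg Q) := by
    intro Q hsp
    match Q, hsp with
    | .inf, hsp =>
      show v'.ord (DCf f).s < 0
      rw [hord, hψs]
      exact hsp
    | .aff x y h, hsp =>
      refine ⟨hzer _ ?_, hzer _ ?_⟩
      · rw [map_sub, hψs, hψc]
        exact hsp.1
      · have h3 := hsp.2.neg
        have h4 : ψ ((DCf f).w - algebraMap k (KC f) (-y)) =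
            -((DCf f).w - algebraMap k (KC f) y) := by
          rw [map_sub, h2, hψc, map_neg]
          ring
        rw [h4]
        exact h3
  have h5 := eq_vp (hsp0 P (sp_vp P))
  rw [← h5, hord]
  congr 1
  simp only [el, map_add, map_mul, hψp, h2, map_neg]
  ring

end Pool.Agent.LibJac77
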