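import Pool.Agent.LibJac77.A3

/-!
Orders of `A(s) + B(s) w` at affine points.
-/

open scoped Classical
open Polynomial

namespace Pool.Agent.LibJac77

open Pool.Agent.LibBH2

variable {k : Type} [Field k] [CharZero k] [IsAlgClosed k] {f : k[X]} [Genus2 f]

private theorem A4a_deriv_ne {x : k} (h : f.eval x = 0) : f.derivative.eval x ≠ 0 := by
  have hs : f.Separable := PerfectField.separable_iff_squarefree.2 (Genus2.sqf (f := f))
  have h1 := hs.eval₂_derivative_ne_zero (RingHom.id k) (x := x) (by simpa using h)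
  simpa using h1

/-- the value of `A(s) + B(s) w` at `(x, y)` -/
theorem val_el {x y : k} (h : y ^ 2 = f.eval x) (A B : k[X]) :
    (vp (.aff x y h : Pt f)).Zer (el f A B - algebraMap k (KC f) (A.eval x + B.eval x * y)) := by
  have hsp : Sp (vp (.aff x y h : Pt f)) (gen f) (.aff x y h) := sp_vp _
  exact Place.val_add (Place.val_aeval hsp.1 A) (Place.val_mul (Place.val_aeval hsp.1 B) hsp.2)

theorem ord_nonneg {P : Pt f} (hP : P ≠ .inf) (A B : k[X]) : 0 ≤ (vp P).ord (el f A B) := by
  match P, hP with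
  | .inf, hP => exact absurd rfl hP
  | .aff x y h, _ =>
    rcases Place.reg_of_val (val_el h A B) with h1 | h1
    · rw [h1, Place.ord_zero]
    · exact h1

theorem ord_pos_iff {x y : k} (h : y ^ 2 = f.eval x) {A B : k[X]} (hne : el f A B ≠ 0) :
    0 < (vp (.aff x y h : Pt f)).ord (el f A B) ↔ A.eval x + B.eval x * y = 0 := by
  have hv := val_el h A B
  constructor
  · intro h1
    by_contra h2
    have := Place.ord_eq_zero_of_val hv h2
    omega
  · intro h1
    rw [h1, map_zero, sub_zero] at hv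
    exact hv.resolve_left hne

/-- orders of polynomials in `s` -/
theorem ord_poly {x y : k} (h : y ^ 2 = f.eval x) {A : k[X]} (hA : A ≠ 0) :
    (vp (.aff x y h : Pt f)).ord (el f A 0) = (if y = 0 then 2 else 1) * A.rootMultiplicity x := by
  have hsp : Sp (vp (.aff x y h : Pt f)) (gen f) (.aff x y h) := sp_vp _
  have h1 : el f A 0 = aeval (DCf f).s A := by simp [el]
  rw [h1, (DCf f).ord_poly_mult hsp.1 hA, mul_comm]
  congr 1
  by_cases hy : y = 0
  · subst hy
    have hF : (DCf f).F.eval x = 0 := by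
      show f.eval x = 0
      rw [← h]; ring
    rw [if_pos rfl, ((DCf f).ram_s hF (A4a_deriv_ne (f := f) hF) _ hsp.1).1,
      (DCf f).ram_e hF (A4a_deriv_ne (f := f) hF) _ hsp.1, mul_one]
  · rw [if_neg hy, (DCf f).unram_e two_ne_zero hy _ hsp.1 hsp.2]

/-- the function `w - y` has a simple zero at `(x, y)` if the curve is `x`-ramified there, etc. -/
theorem ord_w_zero {x : k} (h : (0 : k) ^ 2 = f.eval x) :
    (vp (.aff x 0 h : Pt f)).ord (DCf f).w = 1 := by
  have hsp : Sp (vp (.aff x 0 h : Pt f)) (gen f) (.aff x 0 h) := sp_vp _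
  have hF : (DCf f).F.eval x = 0 := by
    show f.eval x = 0
    rw [← h]; ring
  exact (DCf f).ram_e hF (A4a_deriv_ne (f := f) hF) _ hsp.1

end Pool.Agent.LibJac77
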