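import Pool.Agent.LibJac77.A3
import Pool.Agent.LibJac77.A4a

/-!
Orders of `A(s) + B(s) w` at affine points and the norm.
-/

open scoped Classical
open Polynomial

namespace Pool.Agent.LibJac77

open Pool.Agent.LibBH2

variable {k : Type} [Field k] [CharZero k] [IsAlgClosed k] {f : k[X]} [Genus2 f]

private theorem A4b_conj_ne {A B : k[X]} (hne : el f A B ≠ 0) : el f A (-B) ≠ 0 := by
  intro h0
  rw [el_eq_zero_iff] at h0
  apply hne
  rw [el_eq_zero_iff]
  exact ⟨h0.1, neg_eq_zero.1 h0.2⟩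

private theorem A4b_sum {x y : k} (h : y ^ 2 = f.eval x) {A B : k[X]} (hne : el f A B ≠ 0) :
    (vp (.aff x y h : Pt f)).ord (el f A B) + (vp (neg (.aff x y h : Pt f))).ord (el f A B) =
      (if y = 0 then 2 else 1) * ((Nm f A B).rootMultiplicity x : ℤ) := by
  rw [ord_neg, ← Place.ord_mul _ _ _ hne (A4b_conj_ne hne), el_conj, ord_poly h (Nm_ne_zero hne)]

theorem ord_add_neg {P : Pt f} {x y : k} {h : y ^ 2 = f.eval x} (hP : P = .aff x y h) (hy : y ≠ 0)
    {A B : k[X]} (hne : el f A B ≠ 0) :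
    (vp P).ord (el f A B) + (vp (neg P)).ord (el f A B) = (Nm f A B).rootMultiplicity x := by
  rw [hP, A4b_sum h hne, if_neg hy, one_mul]

theorem ord_weier {x : k} (h : (0 : k) ^ 2 = f.eval x) {A B : k[X]} (hne : el f A B ≠ 0) :
    (vp (.aff x 0 h : Pt f)).ord (el f A B) = (Nm f A B).rootMultiplicity x := by
  have h1 := A4b_sum h hne
  have h2 : neg (.aff x 0 h : Pt f) = .aff x 0 h := by simp [neg]
  rw [h2, if_pos rfl] at h1
  linarith

end Pool.Agent.LibJac77
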