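import Pool.Agent.LibJac77.A4
import Pool.Agent.LibJac77.A5

/-!
Every function is a quotient of `A(s) + B(s) w` by a polynomial in `s`; finiteness of the support.
-/

open scoped Classical
open Polynomial

namespace Pool.Agent.LibJac77

open Pool.Agent.LibBH2

variable {k : Type} [Field k] [CharZero k] [IsAlgClosed k] {f : k[X]} [Genus2 f]

theorem exists_quot (h : KC f) : ∃ A B Q : k[X], Q ≠ 0 ∧ h * el f Q 0 = el f A B := by
  obtain ⟨a, b, rfl⟩ := (DCf f).gen h
  refine ⟨a.num * b.denom, b.num * a.denom, a.denom * b.denom,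
    mul_ne_zero (RatFunc.denom_ne_zero _) (RatFunc.denom_ne_zero _), ?_⟩
  have ha : (DCf f).ι a * aeval (DCf f).s a.denom = aeval (DCf f).s a.num := by
    rw [← DC.ι_poly, ← DC.ι_poly, ← map_mul]
    congr 1
    have hd : algebraMap k[X] (RatFunc k) a.denom ≠ 0 := by
      simpa using RatFunc.denom_ne_zero a
    conv_lhs => rw [← RatFunc.num_div_denom a]
    rw [RatFunc.num_div_denom a]
    conv_lhs => rw [← RatFunc.num_div_denom a]
    rw [RatFunc.num_div_denom a]
    have := RatFunc.num_div_denom a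
    rw [div_eq_iff hd] at this
    exact this.symm
  have hb : (DCf f).ι b * aeval (DCf f).s b.denom = aeval (DCf f).s b.num := by
    rw [← DC.ι_poly, ← DC.ι_poly, ← map_mul]
    congr 1
    have hd : algebraMap k[X] (RatFunc k) b.denom ≠ 0 := by
      simpa using RatFunc.denom_ne_zero b
    have := RatFunc.num_div_denom b
    rw [div_eq_iff hd] at this
    exact this.symm
  unfold el
  simp only [map_mul, map_zero, zero_mul, add_zero]
  rw [← ha, ← hb]
  ring

private theorem A6a_ord_zero {x y : k} (hxy : y ^ 2 = f.eval x) {A B : k[X]} (hne : el f A B ≠ 0)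
    (hx : (Nm f A B).eval x ≠ 0) : (vp (.aff x y hxy : Pt f)).ord (el f A B) = 0 := by
  have h1 := ord_nonneg (P := (.aff x y hxy : Pt f)) (by simp) A B
  have h2 : ¬ 0 < (vp (.aff x y hxy : Pt f)).ord (el f A B) := by
    rw [ord_pos_iff hxy hne]
    intro h3
    apply hx
    unfold Nm
    rw [eval_sub, eval_mul, eval_pow, eval_pow, ← hxy]
    linear_combination (A.eval x - B.eval x * y) * h3
  omega

theorem finite_ord (h : KC f) (hh : h ≠ 0) : {P : Pt f | (vp P).ord h ≠ 0}.Finite := by
  obtain ⟨A, B, Q, hQ, hq⟩ := exists_quot h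
  have hQe : el f Q 0 ≠ 0 := by
    rw [Ne, el_eq_zero_iff]
    exact fun h0 => hQ h0.1
  have hAB : el f A B ≠ 0 := by rw [← hq]; exact mul_ne_zero hh hQe
  have hN := Nm_ne_zero hAB
  have hM := Nm_ne_zero hQe
  set R : Finset k := (Nm f A B * Nm f Q 0).roots.toFinset with hR
  set T : Finset (k × k) := R.biUnion fun x => (nthRoots 2 (f.eval x)).toFinset.image fun y => (x, y) with hT
  have hsub : {P : Pt f | (vp P).ord h ≠ 0} ⊆
      {Pt.inf} ∪ (fun P : Pt f => match P with | .inf => (0, 0) | .aff x y _ => (x, y)) ⁻¹' (T : Set (k × k)) := by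
    rintro P hP
    match P, hP with
    | .inf, _ => left; rfl
    | .aff x y hxy, hP =>
      right
      change (x, y) ∈ (T : Set (k × k))
      rw [Finset.mem_coe, hT, Finset.mem_biUnion]
      refine ⟨x, ?_, ?_⟩
      · rw [hR, Multiset.mem_toFinset, mem_roots (mul_ne_zero hN hM), IsRoot.def, eval_mul]
        by_contra hcon
        have h1 : (Nm f A B).eval x ≠ 0 := fun h0 => hcon (by rw [h0, zero_mul])
        have h2 : (Nm f Q 0).eval x ≠ 0 := fun h0 => hcon (by rw [h0, mul_zero])
        have e1 := A6a_ord_zero hxy hAB h1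
        have e2 := A6a_ord_zero hxy hQe h2
        rw [← hq, Place.ord_mul _ _ _ hh hQe, e2, add_zero] at e1
        exact hP e1
      · rw [Finset.mem_image]
        exact ⟨y, by rw [Multiset.mem_toFinset, mem_nthRoots (by norm_num)]; exact hxy, rfl⟩
  refine Set.Finite.subset ?_ hsub
  have hinj : Set.InjOn (fun P : Pt f => match P with | .inf => ((0 : k), (0 : k)) | .aff x y _ => (x, y))
      ((fun P : Pt f => match P with | .inf => (0, 0) | .aff x y _ => (x, y)) ⁻¹' (T : Set (k × k)) \ {Pt.inf}) := by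
    rintro P ⟨_, hP⟩ P' ⟨_, hP'⟩ he
    match P, P', hP, hP', he with
    | .inf, _, hP, _, _ => exact absurd rfl hP
    | .aff _ _ _, .inf, _, hP', _ => exact absurd rfl hP'
    | .aff x y _, .aff x' y' _, _, _, he =>
      simp only [Prod.mk.injEq] at he
      obtain ⟨rfl, rfl⟩ := he
      rfl
  have hfin : ((fun P : Pt f => match P with | .inf => (0, 0) | .aff x y _ => (x, y)) ⁻¹' (T : Set (k × k)) \ {Pt.inf}).Finite := by
    refine Set.Finite.of_finite_image ((Finset.finite_toSet T).subset ?_) hinj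
    rintro _ ⟨P, hP, rfl⟩
    exact hP.1
  refine Set.Finite.subset ((Set.finite_singleton Pt.inf).union hfin) ?_
  rintro P (hP | hP)
  · left; exact hP
  · by_cases h0 : P = .inf
    · left; exact h0
    · right; exact ⟨hP, h0⟩

end Pool.Agent.LibJac77
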