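import Pool.Agent.LibJac77.A6

/-!
Functions without poles at the affine points are `A(s) + B(s) w`.
-/

open scoped Classical
open Polynomial

namespace Pool.Agent.LibJac77

open Pool.Agent.LibBH2

variable {k : Type} [Field k] [CharZero k] [IsAlgClosed k] {f : k[X]} [Genus2 f]

theorem el_poly_mul (Q A B : k[X]) : el f (Q * A) (Q * B) = el f Q 0 * el f A B := by
  rw [el_mul]
  congr 1
  · simp
  · simp

theorem dvd_of_nonneg {h : KC f} (hh : h ≠ 0) (H : ∀ P : Pt f, P ≠ .inf → 0 ≤ (vp P).ord h)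
    {A B Q : k[X]} (hQ : Q ≠ 0) (hq : h * el f Q 0 = el f A B) {x : k} (hx : Q.eval x = 0) :
    (X - C x) ∣ A ∧ (X - C x) ∣ B := by
  obtain ⟨y, hy⟩ := IsAlgClosed.exists_pow_nat_eq (f.eval x) (n := 2) (by norm_num)
  have hQ' : el f Q 0 ≠ 0 := by
    rw [Ne, el_eq_zero_iff]
    exact fun h => hQ h.1
  have hAB : el f A B ≠ 0 := by rw [← hq]; exact mul_ne_zero hh hQ'
  have hm : 1 ≤ (Q.rootMultiplicity x : ℤ) := by
    have : 0 < Q.rootMultiplicity x := (rootMultiplicity_pos hQ).2 hx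
    exact_mod_cast this
  have key : ∀ y' : k, ∀ h' : y' ^ 2 = f.eval x,
      (if y' = 0 then 2 else 1) * (Q.rootMultiplicity x : ℤ) ≤
        (vp (.aff x y' h' : Pt f)).ord (el f A B) := by
    intro y' h'
    rw [← hq, Place.ord_mul _ _ _ hh hQ', ord_poly h' hQ]
    have := H (.aff x y' h') (by simp)
    omega
  have key2 : ∀ y' : k, y' ^ 2 = f.eval x → A.eval x + B.eval x * y' = 0 := by
    intro y' h'
    rw [← ord_pos_iff h' hAB]
    refine lt_of_lt_of_le ?_ (key y' h')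
    split_ifs <;> omega
  have h1 := key2 y hy
  have h2 := key2 (-y) (by rw [neg_sq, hy])
  have hA : A.eval x = 0 := by
    have : 2 * A.eval x = 0 := by linear_combination h1 + h2
    simpa using this
  have hA' : (X - C x) ∣ A := dvd_iff_isRoot.2 hA
  refine ⟨hA', ?_⟩
  by_cases hy0 : y = 0
  · subst hy0
    have h3 := key 0 hy
    rw [ord_weier hy hAB, if_pos rfl] at h3
    have h4 : 2 ≤ (Nm f A B).rootMultiplicity x := by
      have : (2 : ℤ) ≤ ((Nm f A B).rootMultiplicity x : ℤ) := by omega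
      exact_mod_cast this
    have h5 : (X - C x) ^ 2 ∣ Nm f A B := (le_rootMultiplicity_iff (Nm_ne_zero hAB)).1 h4
    have h6 : (X - C x) ^ 2 ∣ B ^ 2 * f := by
      have h7 : (X - C x) ^ 2 ∣ A ^ 2 := pow_dvd_pow_of_dvd hA' 2
      have h8 : B ^ 2 * f = A ^ 2 - Nm f A B := by unfold Nm; ring
      rw [h8]
      exact dvd_sub h7 h5
    have hfx : (X - C x) ∣ f := dvd_iff_isRoot.2 (by
      rw [IsRoot.def, ← hy]; simp)
    obtain ⟨G, hG⟩ := hfx
    have hp : Prime (X - C x : k[X]) := prime_X_sub_C x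
    have h9 : (X - C x) ∣ B ^ 2 * G := by
      have h10 : (X - C x) * (X - C x) ∣ (X - C x) * (B ^ 2 * G) := by
        have : (X - C x) * (B ^ 2 * G) = B ^ 2 * f := by rw [hG]; ring
        rw [this, ← sq]
        exact h6
      exact (mul_dvd_mul_iff_left (X_sub_C_ne_zero x)).1 h10
    rcases hp.dvd_or_dvd h9 with h | h
    · exact hp.dvd_of_dvd_pow h
    · exfalso
      obtain ⟨G', hG'⟩ := h
      apply not_isUnit_X_sub_C x
      apply Genus2.sqf (f := f)
      exact ⟨G', by rw [hG, hG']; ring⟩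
  · apply dvd_iff_isRoot.2
    have : B.eval x * y = 0 := by rw [hA, zero_add] at h1; exact h1
    exact (mul_eq_zero.1 this).resolve_right hy0

theorem exists_el_aux {h : KC f} (hh : h ≠ 0) (H : ∀ P : Pt f, P ≠ .inf → 0 ≤ (vp P).ord h)
    (n : ℕ) : ∀ A B Q : k[X], Q.natDegree = n → Q ≠ 0 → h * el f Q 0 = el f A B →
    ∃ A B : k[X], h = el f A B := by
  induction n with
  | zero =>
    intro A B Q hn hQ hq
    rw [eq_C_of_natDegree_eq_zero hn] at hq hQ
    have hc : Q.coeff 0 ≠ 0 := fun h => hQ (by rw [h, C_0])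
    refine ⟨C (Q.coeff 0)⁻¹ * A, C (Q.coeff 0)⁻¹ * B, ?_⟩
    rw [el_poly_mul, ← hq]
    have : el f (C (Q.coeff 0)⁻¹) 0 * el f (C (Q.coeff 0)) 0 = 1 := by
      rw [← el_poly_mul, ← C_mul, inv_mul_cancel₀ hc, mul_zero]
      simp [el]
    calc h = h * 1 := (mul_one _).symm
      _ = _ := by rw [← this]; ring
  | succ n ih =>
    intro A B Q hn hQ hq
    obtain ⟨x, hx⟩ := IsAlgClosed.exists_root Q (by
      rw [degree_eq_natDegree hQ, hn]; exact_mod_cast Nat.succ_ne_zero n)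
    obtain ⟨⟨A', hA'⟩, ⟨B', hB'⟩⟩ := dvd_of_nonneg hh H hQ hq hx
    obtain ⟨Q', hQ'⟩ := dvd_iff_isRoot.2 hx
    have hQ'0 : Q' ≠ 0 := by rintro rfl; rw [mul_zero] at hQ'; exact hQ hQ'
    have hdeg : Q'.natDegree = n := by
      have := natDegree_mul (X_sub_C_ne_zero x) hQ'0
      rw [← hQ', hn, natDegree_X_sub_C] at this
      omega
    apply ih A' B' Q' hdeg hQ'0
    have hX : el f (X - C x) 0 ≠ 0 := by
      rw [Ne, el_eq_zero_iff]
      exact fun h => X_sub_C_ne_zero x h.1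
    have h1 : el f Q 0 = el f (X - C x) 0 * el f Q' 0 := by
      rw [← el_poly_mul, mul_zero, ← hQ']
    have h2 : el f A B = el f (X - C x) 0 * el f A' B' := by
      rw [← el_poly_mul, ← hA', ← hB']
    rw [h1, h2] at hq
    apply mul_left_cancel₀ hX
    rw [← hq]; ring

theorem exists_el_of_nonneg (h : KC f) (H : ∀ P : Pt f, P ≠ .inf → 0 ≤ (vp P).ord h) :
    ∃ A B : k[X], h = el f A B := by
  by_cases hh : h = 0
  · exact ⟨0, 0, by rw [hh]; simp [el]⟩
  obtain ⟨A, B, Q, hQ, hq⟩ := exists_quot h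
  exact exists_el_aux hh H _ A B Q rfl hQ hq

end Pool.Agent.LibJac77
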