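import Pool.Agent.LibJac77.A7
import Pool.Agent.LibJac77.A8

/-!
Relations between the classes `[P] - [∞]`.
-/

open scoped Classical
open Polynomial

namespace Pool.Agent.LibJac77

open Pool.Agent.LibBH2

variable {k : Type} [Field k] [CharZero k] [IsAlgClosed k] {f : k[X]} [Genus2 f]

/-- the divisor of a multiset of points -/
noncomputable def msd (m : Multiset (Pt f)) : Pt f →₀ ℤ :=
  (m.map fun P => (Finsupp.single P 1 - Finsupp.single .inf 1 : Pt f →₀ ℤ)).sum

theorem mk_msd (m : Multiset (Pt f)) : mk f (msd m) = (m.map jP).sum := by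
  unfold msd
  rw [map_multiset_sum, Multiset.map_map]
  rfl

theorem msd_cons (P : Pt f) (m : Multiset (Pt f)) :
    msd (P ::ₘ m) = (Finsupp.single P 1 - Finsupp.single .inf 1) + msd m := by
  unfold msd
  rw [Multiset.map_cons, Multiset.sum_cons]

theorem msd_apply (m : Multiset (Pt f)) (Q : Pt f) :
    msd m Q = (m.count Q : ℤ) - (if Q = .inf then (Multiset.card m : ℤ) else 0) := by
  induction m using Multiset.induction_on with
  | empty => simp [msd]
  | cons P m ih =>
    rw [msd_cons, Finsupp.add_apply, Finsupp.sub_apply, ih, Multiset.count_cons, Multiset.card_cons,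
      Finsupp.single_apply, Finsupp.single_apply]
    by_cases h1 : P = Q
    · subst h1
      by_cases h2 : P = .inf
      · subst h2; simp
      · have h3 : ¬ ((.inf : Pt f) = P) := fun h => h2 h.symm
        simp [h2, h3]; ring
    · have h1' : ¬ (Q = P) := fun h => h1 h.symm
      by_cases h2 : Q = .inf
      · subst h2; simp [h1, h1']; ring
      · have h3 : ¬ ((.inf : Pt f) = Q) := fun h => h2 h.symm
        simp [h1, h1', h2, h3]

theorem deg_single' (P : Pt f) (n : ℤ) : deg (Finsupp.single P n) = n := by
  unfold deg
  rw [Finsupp.sum_single_index rfl]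

theorem deg_neg' (D : Pt f →₀ ℤ) : deg (-D) = - deg D := by
  have h := deg_add D (-D)
  rw [add_neg_cancel] at h
  have h0 : deg (0 : Pt f →₀ ℤ) = 0 := rfl
  rw [h0] at h
  omega

theorem deg_msd (m : Multiset (Pt f)) : deg (msd m) = 0 := by
  induction m using Multiset.induction_on with
  | empty => rfl
  | cons P m ih =>
    rw [msd_cons, deg_add, ih, sub_eq_add_neg, deg_add, deg_neg', deg_single', deg_single']
    norm_num

/-- A relation `∑ ([Q] - [∞]) = 0` is given by a function `A(s) + B(s) w`. -/
theorem rr (m : Multiset (Pt f)) (h : (m.map jP).sum = 0) :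
    ∃ A B : k[X], el f A B ≠ 0 ∧ (∀ P : Pt f, P ≠ .inf → (vp P).ord (el f A B) = m.count P) ∧
      2 * A.natDegree ≤ Multiset.card m ∧ (B = 0 ∨ 2 * B.natDegree + 5 ≤ Multiset.card m) ∧
      (vp (.inf : Pt f)).ord (el f A B) = (m.count .inf : ℤ) - Multiset.card m := by
  rw [← mk_msd, mk_eq_zero_iff] at h
  obtain ⟨g, hg, hD⟩ := h
  have hord : ∀ P : Pt f, (vp P).ord g = msd m P := fun P => by rw [hD, dv_apply]
  have hord1 : ∀ P : Pt f, P ≠ .inf → (vp P).ord g = m.count P := by
    intro P hP
    rw [hord, msd_apply, if_neg hP, sub_zero]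
  have hord2 : (vp (.inf : Pt f)).ord g = (m.count .inf : ℤ) - Multiset.card m := by
    rw [hord, msd_apply, if_pos rfl]
  obtain ⟨A, B, rfl⟩ := exists_el_of_nonneg g (fun P hP => by rw [hord1 P hP]; positivity)
  refine ⟨A, B, hg, hord1, ?_, ?_, hord2⟩
  · rw [ord_inf hg] at hord2
    by_cases hB : B = 0
    · subst hB
      rw [natDegree_Nm_zero] at hord2
      have : (0 : ℤ) ≤ (m.count .inf : ℤ) := by positivity
      omega
    · rw [natDegree_Nm hB] at hord2
      have h1 : 2 * A.natDegree ≤ max (2 * A.natDegree) (2 * B.natDegree + 5) := le_max_left _ _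
      have : (0 : ℤ) ≤ (m.count .inf : ℤ) := by positivity
      omega
  · by_cases hB : B = 0
    · exact Or.inl hB
    · right
      rw [ord_inf hg, natDegree_Nm hB] at hord2
      have h1 : 2 * B.natDegree + 5 ≤ max (2 * A.natDegree) (2 * B.natDegree + 5) :=
        le_max_right _ _
      have : (0 : ℤ) ≤ (m.count .inf : ℤ) := by positivity
      omega

/-- Conversely, the zeros of a function `A(s) + B(s) w` give a relation. -/
theorem sum_jP_of_el (A B : k[X]) (hne : el f A B ≠ 0) (m : Multiset (Pt f))
    (hm : ∀ P : Pt f, P ≠ .inf → (vp P).ord (el f A B) = m.count P) : (m.map jP).sum = 0 := by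
  rw [← mk_msd, mk_eq_zero_iff]
  refine ⟨el f A B, hne, ?_⟩
  set E : Pt f →₀ ℤ := msd m - dv (el f A B) with hE
  have h1 : ∀ P : Pt f, P ≠ .inf → E P = 0 := by
    intro P hP
    rw [hE, Finsupp.sub_apply, dv_apply, msd_apply, if_neg hP, hm P hP]
    ring
  have h2 : E = Finsupp.single .inf (E .inf) := by
    ext P
    by_cases hP : P = .inf
    · subst hP
      rw [Finsupp.single_eq_same]
    · rw [h1 P hP, Finsupp.single_apply, if_neg fun h => hP h.symm]
  have h3 : deg E = 0 := by
    rw [hE, sub_eq_add_neg, deg_add, deg_neg', deg_msd, deg_dv]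
    norm_num
  rw [h2, deg_single'] at h3
  rw [h3, Finsupp.single_zero] at h2
  exact sub_eq_zero.1 h2

theorem jP_neg (P : Pt f) : jP (neg P) = - jP P := by
  match P with
  | .inf => rw [neg_inf, jP_inf, neg_zero]
  | .aff x y hy =>
    have h1 := sum_jP_of_el (X - C x) 0 (by
      rw [Ne, el_eq_zero_iff]
      exact fun h => X_sub_C_ne_zero x h.1) {Pt.aff x y hy, neg (.aff x y hy)} (by
      intro Q hQ
      match Q, hQ with
      | .aff x' y' h', _ =>
        rw [ord_poly h' (X_sub_C_ne_zero x), rootMultiplicity_X_sub_C]
        rw [Multiset.insert_eq_cons, Multiset.count_cons, Multiset.count_singleton]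
        simp only [neg, Pt.aff.injEq]
        by_cases hx : x' = x
        · subst hx
          have : (y' - y) * (y' + y) = 0 := by linear_combination h' - hy
          rcases mul_eq_zero.1 this with h | h
          · have hyy : y' = y := by linear_combination h
            subst hyy
            by_cases h0 : y' = 0
            · subst h0; simp
            · have h00 : ¬ (y' = -y') := by
                intro h
                apply h0
                have : 2 * y' = 0 := by linear_combination h
                simpa using this
              simp [h0, h00]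
          · have hyy : y = -y' := by linear_combination h
            subst hyy
            by_cases h0 : y' = 0
            · subst h0; simp
            · have h00 : ¬ (y' = -y') := by
                intro h
                apply h0
                have : 2 * y' = 0 := by linear_combination h
                simpa using this
              simp [h0, h00]
        · simp [hx])
    rw [Multiset.insert_eq_cons, Multiset.map_cons, Multiset.sum_cons, Multiset.map_singleton,
      Multiset.sum_singleton] at h1
    exact eq_neg_of_add_eq_zero_right h1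

end Pool.Agent.LibJac77
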