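import Pool.Agent.LibJac77.Base

/-!
Rational equivalence on `C × C`: the basic relation, bilinearity.
-/

open scoped Classical
open Polynomial

namespace Pool.Agent.LibJac77

open Pool.Agent.LibBH2

variable {k : Type} [Field k] {f : k[X]}

theorem rel {K : Type} [Field K] [Algebra k K] (ι : RatFunc k →ₐ[k] K) (hι : ι.toRingHom.Finite)
    (T₁ T₂ : Pt (f.map (algebraMap k K))) {φ : K} (hφ : φ ≠ 0)
    (S : Finset (Place k K)) (hS : ∀ v, v.ord φ ≠ 0 → v ∈ S)
    (p₁ p₂ : Place k K → Pt f)
    (hp : ∀ v ∈ S, Sp v T₁ (p₁ v) ∧ Sp v T₂ (p₂ v)) :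
    ∑ v ∈ S, v.ord φ • (pt (p₁ v) (p₂ v) : CH0 f) = 0 := by
  have h1 : (∑ v ∈ S, Finsupp.single (p₁ v, p₂ v) (v.ord φ)) ∈
      AddSubgroup.closure {c | IsPrincipal f c} :=
    AddSubgroup.subset_closure ⟨K, inferInstance, inferInstance, ι, T₁, T₂, φ, S, p₁, p₂, hι, hφ,
      hS, hp, rfl⟩
  have h2 := (QuotientAddGroup.eq_zero_iff _).2 h1
  rw [← QuotientAddGroup.mk'_apply, map_sum] at h2
  refine Eq.trans (Finset.sum_congr rfl fun v _ => ?_) h2
  rw [pt]
  have h3 := map_zsmul (QuotientAddGroup.mk' (AddSubgroup.closure {c | IsPrincipal f c}))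
    (v.ord φ) (Finsupp.single (p₁ v, p₂ v) (1 : ℤ))
  refine h3.symm.trans ?_
  congr 1
  rw [Finsupp.smul_single]
  simp

/-- the constant point -/
noncomputable def constPt (K : Type) [Field K] [Algebra k K] : Pt f → Pt (f.map (algebraMap k K))
  | .inf => .inf
  | .aff x y h => .aff (algebraMap k K x) (algebraMap k K y) (by
      rw [← map_pow, h, eval_map_algebraMap, aeval_algebraMap_apply]; rfl)

theorem sp_const {K : Type} [Field K] [Algebra k K] (v : Place k K) (Q : Pt f) :
    Sp v (constPt K Q) Q := by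
  match Q with
  | .inf => rfl
  | .aff x y h => exact ⟨by simp [Place.zer_zero], by simp [Place.zer_zero]⟩

theorem cross_add_left (D D' E : Pt f →₀ ℤ) : cross (D + D') E = cross D E + cross D' E := by
  unfold cross
  rw [Finsupp.sum_add_index']
  · intro P
    simp [Finsupp.sum]
  · intro P m m'
    rw [← Finsupp.sum_add]
    refine Finsupp.sum_congr fun Q _ => ?_
    rw [add_mul, add_smul]

theorem cross_add_right (D E E' : Pt f →₀ ℤ) : cross D (E + E') = cross D E + cross D E' := by
  unfold cross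
  rw [← Finsupp.sum_add]
  refine Finsupp.sum_congr fun P _ => ?_
  rw [Finsupp.sum_add_index']
  · intro Q
    simp
  · intro Q n n'
    rw [mul_add, add_smul]

theorem cross_single (P Q : Pt f) : cross (Finsupp.single P 1) (Finsupp.single Q 1) = pt P Q := by
  unfold cross
  rw [Finsupp.sum_single_index, Finsupp.sum_single_index]
  · simp
  · simp
  · rw [Finsupp.sum_single_index] <;> simp

end Pool.Agent.LibJac77
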