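import Pool.Agent.LibJac77.B1a

/-!
Products with divisors of functions.
-/

open scoped Classical
open Polynomial

namespace Pool.Agent.LibJac77

open Pool.Agent.LibBH2

variable {k : Type} [Field k] {f : k[X]}

theorem cross_single_single (P Q : Pt f) (m n : ℤ) :
    cross (Finsupp.single P m) (Finsupp.single Q n) = (m * n) • pt P Q := by
  unfold cross
  rw [Finsupp.sum_single_index, Finsupp.sum_single_index]
  · simp
  · rw [Finsupp.sum_single_index] <;> simp

theorem cross_zero_left (E : Pt f →₀ ℤ) : cross 0 E = 0 := by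
  simp [cross]

theorem cross_zero_right (D : Pt f →₀ ℤ) : cross D 0 = 0 := by
  simp [cross]

/-- `cross` with a fixed second factor, as a homomorphism -/
noncomputable def crossL (E : Pt f →₀ ℤ) : (Pt f →₀ ℤ) →+ CH0 f :=
  AddMonoidHom.mk' (fun D => cross D E) (fun D D' => cross_add_left D D' E)

/-- `cross` with a fixed first factor, as a homomorphism -/
noncomputable def crossR (D : Pt f →₀ ℤ) : (Pt f →₀ ℤ) →+ CH0 f :=
  AddMonoidHom.mk' (fun E => cross D E) (fun E E' => cross_add_right D E E')

theorem crossL_apply (E D : Pt f →₀ ℤ) : crossL E D = cross D E := rfl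

theorem crossR_apply (D E : Pt f →₀ ℤ) : crossR D E = cross D E := rfl

variable [Genus2 f]

theorem cross_div_left {D : Pt f →₀ ℤ} (hD : IsDiv f D) (E : Pt f →₀ ℤ) : cross D E = 0 := by
  obtain ⟨h, S, p, hh, hS, hp, rfl⟩ := hD
  induction E using Finsupp.induction_linear with
  | zero => exact cross_zero_right _
  | add E E' hE hE' => rw [cross_add_right, hE, hE', add_zero]
  | single Q n =>
    rw [← crossL_apply, map_sum]
    simp only [crossL_apply, cross_single_single]
    have h1 := rel (f := f) (DCf f).ι (DCf f).finite (gen f) (constPt (KC f) Q) hh S hS p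
      (fun _ => Q) (fun v hv => ⟨hp v hv, sp_const v Q⟩)
    have h2 : ∑ v ∈ S, (v.ord h * n) • pt (p v) Q = n • ∑ v ∈ S, v.ord h • (pt (p v) Q : CH0 f) := by
      rw [Finset.smul_sum]
      refine Finset.sum_congr rfl fun v _ => ?_
      rw [smul_smul, mul_comm]
    rw [h2, h1, smul_zero]

theorem cross_div_right (D : Pt f →₀ ℤ) {E : Pt f →₀ ℤ} (hE : IsDiv f E) : cross D E = 0 := by
  obtain ⟨h, S, p, hh, hS, hp, rfl⟩ := hE
  induction D using Finsupp.induction_linear with
  | zero => exact cross_zero_left _
  | add D D' hD hD' => rw [cross_add_left, hD, hD', add_zero]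
  | single Q n =>
    rw [← crossR_apply, map_sum]
    simp only [crossR_apply, cross_single_single]
    have h1 := rel (f := f) (DCf f).ι (DCf f).finite (constPt (KC f) Q) (gen f) hh S hS
      (fun _ => Q) p (fun v hv => ⟨sp_const v Q, hp v hv⟩)
    have h2 : ∑ v ∈ S, (n * v.ord h) • pt Q (p v) = n • ∑ v ∈ S, v.ord h • (pt Q (p v) : CH0 f) := by
      rw [Finset.smul_sum]
      refine Finset.sum_congr rfl fun v _ => ?_
      rw [smul_smul]
    rw [h2, h1, smul_zero]

end Pool.Agent.LibJac77
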