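import Pool.Agent.LibJac77.A9
import Pool.Agent.LibJac77.B1

/-!
The diagonal relation.
-/

open scoped Classical
open Polynomial

namespace Pool.Agent.LibJac77

open Pool.Agent.LibBH2

variable {k : Type} [Field k] [CharZero k] [IsAlgClosed k] {f : k[X]} [Genus2 f]

/-- the diagonal curve: the divisor of a function, put on the diagonal, is rationally equivalent
to zero -/
theorem rel_diag (h : KC f) (hh : h ≠ 0) :
    (dv h).sum (fun P n => n • (pt P P : CH0 f)) = 0 := by
  let p : Place k (KC f) → Pt f := fun v => Classical.choose (place_surj v)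
  have hp : ∀ v, Sp v (gen f) (p v) := fun v => Classical.choose_spec (place_surj v)
  have hpv : ∀ P : Pt f, p (vp P) = P := fun P => sp_injective (hp (vp P)) (sp_vp P)
  have hS : ∀ v : Place k (KC f), v.ord h ≠ 0 → v ∈ (dv h).support.image vp := by
    intro v hv
    rw [Finset.mem_image]
    refine ⟨p v, ?_, (eq_vp (hp v)).symm⟩
    rw [Finsupp.mem_support_iff, dv_apply, ← eq_vp (hp v)]
    exact hv
  have h1 := rel (f := f) (DCf f).ι (DCf f).finite (gen f) (gen f) hh ((dv h).support.image vp) hS
    p p (fun v _ => ⟨hp v, hp v⟩)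
  rw [Finset.sum_image (fun P _ Q _ hPQ => vp_injective hPQ)] at h1
  unfold Finsupp.sum
  refine Eq.trans (Finset.sum_congr rfl fun P _ => ?_) h1
  rw [hpv, dv_apply]

/-- the divisor of `s - x` -/
theorem dv_X_sub_C {x y : k} (h : y ^ 2 = f.eval x) :
    dv (el f (X - C x) 0) = Finsupp.single (.aff x y h : Pt f) (1 : ℤ)
      + Finsupp.single (neg (.aff x y h : Pt f)) (1 : ℤ) - Finsupp.single (.inf : Pt f) (2 : ℤ) := by
  have hne : el f (X - C x) 0 ≠ 0 := by
    intro h0
    exact X_sub_C_ne_zero x ((el_eq_zero_iff _ _).1 h0).1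
  ext Q
  rw [dv_apply]
  match Q with
  | .inf =>
    rw [ord_inf hne, natDegree_Nm_zero, natDegree_X_sub_C]
    simp [neg]
  | .aff x' y' h' =>
    rw [ord_poly h' (X_sub_C_ne_zero x), rootMultiplicity_X_sub_C]
    simp only [neg, Finsupp.sub_apply, Finsupp.add_apply, Finsupp.single_apply, Pt.aff.injEq,
      reduceCtorEq, if_false, sub_zero]
    by_cases hx : x' = x
    · subst hx
      simp only [true_and, if_true]
      have hy : y' ^ 2 = y ^ 2 := by rw [h, h']
      rcases sq_eq_sq_iff_eq_or_eq_neg.1 hy with h1 | h1
      · subst h1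
        by_cases h0 : y' = 0
        · subst h0
          simp
        · have h2 : ¬ (-y' = y') := by
            intro h3
            apply h0
            exact self_eq_neg.1 h3.symm
          simp [h0, h2]
      · subst h1
        by_cases h0 : y = 0
        · subst h0
          simp
        · have h2 : ¬ (y = -y) := fun h3 => h0 (self_eq_neg.1 h3)
          simp [h0, h2]
    · have hx' : ¬ (x = x') := fun h3 => hx h3.symm
      simp [hx, hx']

/-- the diagonal relation: the function `s - x` on the diagonal (the curve `KC f` mapped to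
`C × C` by `(gen f, gen f)`) -/
theorem diag (P : Pt f) : pt P P + pt (neg P) (neg P) = 2 • pt (.inf : Pt f) .inf := by
  match P with
  | .inf => rw [neg_inf, two_smul]
  | .aff x y h =>
    have hne : el f (X - C x) 0 ≠ 0 := by
      intro h0
      exact X_sub_C_ne_zero x ((el_eq_zero_iff _ _).1 h0).1
    have h1 := rel_diag (el f (X - C x) 0) hne
    rw [dv_X_sub_C h, sub_eq_add_neg, ← Finsupp.single_neg, Finsupp.sum_add_index',
      Finsupp.sum_add_index', Finsupp.sum_single_index, Finsupp.sum_single_index,
      Finsupp.sum_single_index] at h1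
    · rw [one_smul, one_smul, neg_smul] at h1
      have h2 := eq_of_sub_eq_zero ((sub_eq_add_neg _ _).trans h1)
      rw [h2, ← natCast_zsmul]
      rfl
    · simp
    · simp
    · simp
    · intro Q; simp
    · intro Q a b; rw [add_smul]
    · intro Q; simp
    · intro Q a b; rw [add_smul]

end Pool.Agent.LibJac77
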