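import Pool.Agent.LibJac77.A9
import Pool.Agent.LibJac77.B1
import Pool.Agent.LibJac77.B2a

/-!
The pairing on divisor classes.
-/

open scoped Classical
open Polynomial

namespace Pool.Agent.LibJac77

open Pool.Agent.LibBH2

variable {k : Type} [Field k] [CharZero k] [IsAlgClosed k] {f : k[X]} [Genus2 f]

/-- `crossR D` on the Picard group -/
noncomputable def crossQ (f : k[X]) [Genus2 f] (D : Pt f →₀ ℤ) : Pic f →+ CH0 f :=
  QuotientAddGroup.lift (AddSubgroup.closure {D | IsDiv f D}) (crossR D) (by
    rw [AddSubgroup.closure_le]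
    intro E hE
    exact cross_div_right D hE)

omit [CharZero k] [IsAlgClosed k] in
theorem crossQ_mk (D E : Pt f →₀ ℤ) : crossQ f D (mk f E) = cross D E := rfl

omit [CharZero k] [IsAlgClosed k] in
theorem mk_surj (f : k[X]) [Genus2 f] : Function.Surjective (mk f) :=
  QuotientAddGroup.mk'_surjective _

/-- `crossQ` as a homomorphism -/
noncomputable def crossQH (f : k[X]) [Genus2 f] : (Pt f →₀ ℤ) →+ (Pic f →+ CH0 f) :=
  AddMonoidHom.mk' (fun D => crossQ f D) (by
    intro D D'
    refine AddMonoidHom.ext fun e => ?_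
    obtain ⟨E, rfl⟩ := mk_surj f e
    rw [AddMonoidHom.add_apply, crossQ_mk, crossQ_mk, crossQ_mk, cross_add_left])

/-- the pairing `(D, E) ↦ [D × E]` on divisor classes -/
theorem exists_X (f : k[X]) [Genus2 f] : ∃ X : Pic f →+ Pic f →+ CH0 f,
    ∀ D E : Pt f →₀ ℤ, X (mk f D) (mk f E) = cross D E := by
  have hle : AddSubgroup.closure {D | IsDiv f D} ≤ (crossQH f).ker := by
    rw [AddSubgroup.closure_le]
    intro D hD
    change crossQH f D = 0
    refine AddMonoidHom.ext fun e => ?_
    obtain ⟨E, rfl⟩ := mk_surj f e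
    exact cross_div_left hD E
  let X : Pic f →+ Pic f →+ CH0 f :=
    QuotientAddGroup.lift (AddSubgroup.closure {D | IsDiv f D}) (crossQH f) hle
  exact ⟨X, fun D E => rfl⟩

theorem two_cross_self (P : Pt f) :
    2 • cross (Finsupp.single P 1 - Finsupp.single .inf 1)
      (Finsupp.single P 1 - Finsupp.single (.inf : Pt f) 1) = 0 := by
  obtain ⟨X, hX⟩ := exists_X f
  -- expansion of the self product of `[P] - [∞]`
  have hexp : ∀ Q : Pt f, X (jP Q) (jP Q) = pt Q Q - pt Q .inf - (pt .inf Q - pt .inf .inf) := by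
    intro Q
    have h1 : X (jP Q) (jP Q) = X (mk f (Finsupp.single Q 1)) (mk f (Finsupp.single Q 1))
        - X (mk f (Finsupp.single Q 1)) (mk f (Finsupp.single .inf 1))
        - (X (mk f (Finsupp.single .inf 1)) (mk f (Finsupp.single Q 1))
        - X (mk f (Finsupp.single .inf 1)) (mk f (Finsupp.single .inf 1))) := by
      unfold jP
      simp only [map_sub, AddMonoidHom.sub_apply]
      abel
    rw [h1, hX, hX, hX, hX, cross_single, cross_single, cross_single, cross_single]
  have hmix : ∀ Q : Pt f, X (jP Q) (mk f (Finsupp.single .inf 1)) = pt Q .inf - pt .inf .inf := by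
    intro Q
    unfold jP
    rw [map_sub, map_sub, AddMonoidHom.sub_apply, hX, hX, cross_single, cross_single]
  have hmix' : ∀ Q : Pt f, X (mk f (Finsupp.single .inf 1)) (jP Q) = pt .inf Q - pt .inf .inf := by
    intro Q
    unfold jP
    rw [map_sub, map_sub, hX, hX, cross_single, cross_single]
  -- the involution
  have hneg : X (jP (neg P)) (jP (neg P)) = X (jP P) (jP P) := by
    rw [jP_neg, map_neg, map_neg, AddMonoidHom.neg_apply, neg_neg]
  have hm1 : X (jP (neg P)) (mk f (Finsupp.single .inf 1))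
      = - X (jP P) (mk f (Finsupp.single .inf 1)) := by
    rw [jP_neg, map_neg, AddMonoidHom.neg_apply]
  have hm2 : X (mk f (Finsupp.single .inf 1)) (jP (neg P))
      = - X (mk f (Finsupp.single .inf 1)) (jP P) := by
    rw [jP_neg, map_neg]
  rw [hmix, hmix] at hm1
  rw [hmix', hmix'] at hm2
  have hd := diag P
  have he := hexp P
  have hen := hexp (neg P)
  rw [hneg] at hen
  have hc : cross (Finsupp.single P 1 - Finsupp.single .inf 1)
      (Finsupp.single P 1 - Finsupp.single (.inf : Pt f) 1) = X (jP P) (jP P) := by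
    unfold jP
    rw [hX]
  rw [hc, two_smul]
  nth_rewrite 1 [he]
  rw [hen]
  have e1 : pt (neg P) .inf = pt (.inf : Pt f) .inf + pt (.inf : Pt f) .inf - pt P .inf := by
    rw [← sub_eq_zero]
    have := sub_eq_zero.2 hm1
    rw [← this]
    abel
  have e2 : pt .inf (neg P) = pt (.inf : Pt f) .inf + pt (.inf : Pt f) .inf - pt .inf P := by
    rw [← sub_eq_zero]
    have := sub_eq_zero.2 hm2
    rw [← this]
    abel
  rw [e1, e2]
  have e3 : pt (neg P) (neg P) = pt (.inf : Pt f) .inf + pt (.inf : Pt f) .inf - pt P P := by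
    rw [two_smul] at hd
    rw [← hd]
    abel
  rw [e3]
  abel

end Pool.Agent.LibJac77
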