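import Pool.Agent.LibJac77.B2

/-!
The symmetric pairing `b(D, E) = [D × E] + [E × D]` on the Picard group.
-/

open scoped Classical
open Polynomial

namespace Pool.Agent.LibJac77

open Pool.Agent.LibBH2

variable {k : Type} [Field k] [CharZero k] [IsAlgClosed k] {f : k[X]} [Genus2 f]

/-- the pairing `X(c, d) = [c × d]` -/
noncomputable def XX (f : k[X]) [Genus2 f] : Pic f →+ Pic f →+ CH0 f := Classical.choose (exists_X f)

theorem XX_mk (D E : Pt f →₀ ℤ) : XX f (mk f D) (mk f E) = cross D E :=
  Classical.choose_spec (exists_X f) D E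

/-- the symmetric pairing -/
noncomputable def bb (f : k[X]) [Genus2 f] : Pic f →+ Pic f →+ CH0 f := XX f + (XX f).flip

theorem bb_apply (c d : Pic f) : bb f c d = XX f c d + XX f d c := rfl

theorem bb_mk (D E : Pt f →₀ ℤ) : bb f (mk f D) (mk f E) = cross D E + cross E D := by
  rw [bb_apply, XX_mk, XX_mk]

theorem bb_comm (c d : Pic f) : bb f c d = bb f d c := by
  rw [bb_apply, bb_apply, add_comm]

theorem bb_jP_self (P : Pt f) : bb f (jP P) (jP P) = 0 := by
  rw [bb_apply]
  have h := two_cross_self P
  rw [← XX_mk, two_smul] at h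
  exact h

/-- the basic relation: `p + q` and `p - q` are orthogonal -/
theorem bb_add_sub (P Q : Pt f) : bb f (jP P + jP Q) (jP P - jP Q) = 0 := by
  rw [map_add, map_sub, AddMonoidHom.add_apply, AddMonoidHom.add_apply, bb_jP_self, bb_jP_self,
    bb_comm (jP Q) (jP P)]
  abel

end Pool.Agent.LibJac77
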