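import Pool.Agent.LibJac77.Defs

/-!
Elementary definitions used in the proofs: the hyperelliptic involution, the functions
`A(s) + B(s) w` and their norms, the classes `[P] - [∞]`.
-/

open scoped Classical
open Polynomial

namespace Pool.Agent.LibJac77

open Pool.Agent.LibBH2

variable {k : Type} [Field k]

/-- the hyperelliptic involution `(x, y) ↦ (x, -y)` -/
def neg {f : k[X]} : Pt f → Pt f
  | .inf => .inf
  | .aff x y h => .aff x (-y) (by rw [neg_sq, h])

@[simp] theorem neg_inf {f : k[X]} : neg (.inf : Pt f) = .inf := rfl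

@[simp] theorem neg_neg' {f : k[X]} (P : Pt f) : neg (neg P) = P := by
  match P with
  | .inf => rfl
  | .aff x y h => simp [neg]

theorem neg_eq_inf {f : k[X]} {P : Pt f} : neg P = .inf ↔ P = .inf := by
  match P with
  | .inf => simp [neg]
  | .aff x y h => simp [neg]

/-- the `x`-coordinate -/
def xco {f : k[X]} : Pt f → Option k
  | .inf => none
  | .aff x _ _ => some x

/-- the norm `A ^ 2 - B ^ 2 f` of `A + B w` -/
noncomputable def Nm (f A B : k[X]) : k[X] := A ^ 2 - B ^ 2 * f

variable (f : k[X]) [Genus2 f]

/-- the function `A(s) + B(s) w` -/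
noncomputable def el (A B : k[X]) : KC f := aeval (DCf f).s A + aeval (DCf f).s B * (DCf f).w

/-- the class of `[P] - [∞]` -/
noncomputable def jP {f : k[X]} [Genus2 f] (P : Pt f) : Pic f :=
  mk f (Finsupp.single P 1 - Finsupp.single .inf 1)

theorem jP_inf : jP (.inf : Pt f) = 0 := by simp [jP]

end Pool.Agent.LibJac77
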