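import Pool.Agent.LibJac77.C0d

/-!
Reduction of products of linear factors.
-/

open scoped Classical
open Polynomial IsLocalRing

namespace Pool.Agent.LibJac77

open Pool.Agent.LibBH2

variable {k : Type} [Field k]

theorem red_roots_aux_lift (V : ValuationSubring k) (h : V[X]) (u : V) (h1 : k[X])
    (hh : h.map (algebraMap V k) = (1 - C (u : k) * X) * h1) :
    ∃ H1 : V[X], H1.map (algebraMap V k) = h1 ∧ h = (1 - C u * X) * H1 := by
  have hcoef : ∀ n, h1.coeff n ∈ V := by
    intro n
    induction n with
    | zero =>
      have h0 := congrArg (fun p => p.coeff 0) hh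
      simp only [coeff_map, sub_mul, one_mul, coeff_sub, mul_assoc, coeff_C_mul,
        coeff_X_mul_zero, mul_zero, sub_zero] at h0
      rw [← h0]
      exact (h.coeff 0).2
    | succ n ih =>
      have h0 := congrArg (fun p => p.coeff (n + 1)) hh
      simp only [coeff_map, sub_mul, one_mul, coeff_sub, mul_assoc, coeff_C_mul,
        coeff_X_mul] at h0
      have h2 : h1.coeff (n + 1) = algebraMap V k (h.coeff (n + 1)) + (u : k) * h1.coeff n := by
        rw [h0]; ring
      rw [h2]
      exact V.add_mem _ _ (h.coeff (n + 1)).2 (V.mul_mem _ _ u.2 ih)
  have hl : h1 ∈ lifts (algebraMap V k) := by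
    rw [lifts_iff_coeff_lifts]
    intro n
    exact ⟨⟨_, hcoef n⟩, rfl⟩
  obtain ⟨H1, hH1⟩ := (mem_lifts _).mp hl
  refine ⟨H1, hH1, ?_⟩
  apply Polynomial.map_injective (algebraMap V k) (IsFractionRing.injective V k)
  rw [hh, Polynomial.map_mul, hH1, Polynomial.map_sub, Polynomial.map_one, Polynomial.map_mul,
    map_C, map_X]
  rfl

/-- reduction of a product of linear factors: factors with non-integral roots disappear -/
theorem red_roots (V : ValuationSubring k) (h : V[X]) (hr : h.map (residue V) ≠ 0) (c : k)
    (m : Multiset k)
    (hm : h.map (algebraMap V k) = C c * (m.map fun x => X - C x).prod) :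
    (h.map (residue V)).roots = m.filterMap (red1 V) ∧
      (h.map (residue V)).natDegree = Multiset.card (m.filterMap (red1 V)) := by
  induction m using Multiset.induction_on generalizing h c with
  | empty =>
    rw [Multiset.map_zero, Multiset.prod_zero, mul_one] at hm
    have h0 : h.natDegree = 0 := by
      rw [← natDegree_map_eq_of_injective (IsFractionRing.injective V k) h, hm, natDegree_C]
    rw [eq_C_of_natDegree_eq_zero h0, map_C, roots_C, natDegree_C]
    simp
  | cons x m ih =>
    rw [Multiset.map_cons, Multiset.prod_cons] at hm
    by_cases hx : x ∈ V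
    · set x' : V := ⟨x, hx⟩ with hx'
      have hmon : (X - C x').Monic := monic_X_sub_C _
      have hmap : (X - C x' : V[X]).map (algebraMap V k) = X - C x := by
        rw [Polynomial.map_sub, map_X, map_C]; rfl
      have h1 : (h /ₘ (X - C x')).map (algebraMap V k) =
          C c * (m.map fun x => X - C x).prod := by
        rw [map_divByMonic _ hmon, hmap, hm]
        rw [show C c * ((X - C x) * (Multiset.map (fun x => X - C x) m).prod) =
          (X - C x) * (C c * (Multiset.map (fun x => X - C x) m).prod) by ring]
        exact mul_divByMonic_cancel_left _ (monic_X_sub_C x)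
      have h2 : h = (X - C x') * (h /ₘ (X - C x')) := by
        apply Polynomial.map_injective (algebraMap V k) (IsFractionRing.injective V k)
        rw [Polynomial.map_mul, h1, hmap, hm]
        ring
      set H1 := h /ₘ (X - C x') with hH1
      have h3 : h.map (residue V) = (X - C (residue V x')) * H1.map (residue V) := by
        conv_lhs => rw [h2]
        rw [Polynomial.map_mul, Polynomial.map_sub, map_X, map_C]
      have h4 : H1.map (residue V) ≠ 0 := by
        intro h0
        rw [h0, mul_zero] at h3
        exact hr h3
      obtain ⟨h5, h6⟩ := ih H1 h4 c h1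
      have hred : red1 V x = some (residue V x') := by
        unfold red1
        rw [dif_pos hx]
      rw [Multiset.filterMap_cons_some _ _ _ hred, h3]
      constructor
      · rw [roots_mul (by rw [← h3]; exact hr), roots_X_sub_C, h5]
        rfl
      · rw [natDegree_mul (X_sub_C_ne_zero _) h4, natDegree_X_sub_C, h6, Multiset.card_cons,
          add_comm]
    · have hx0 : x ≠ 0 := by
        rintro rfl
        exact hx V.zero_mem
      have hxi : x⁻¹ ∈ V := (V.mem_or_inv_mem x).resolve_left hx
      set u : V := ⟨x⁻¹, hxi⟩ with hu
      have h1 : h.map (algebraMap V k) = (1 - C (u : k) * X) *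
          (C (- (c * x)) * (m.map fun x => X - C x).prod) := by
        rw [hm]
        have : (C x⁻¹ : k[X]) * C x = 1 := by rw [← C_mul, inv_mul_cancel₀ hx0, C_1]
        show _ = (1 - C x⁻¹ * X) * _
        rw [C_neg, C_mul]
        linear_combination (-(C c * X * (m.map fun x => X - C x).prod)) * this
      obtain ⟨H1, hH1, hH2⟩ := red_roots_aux_lift V h u _ h1
      have hu0 : residue V u = 0 := by
        rw [residue_eq_zero_iff]
        rw [mem_maximalIdeal, mem_nonunits_iff]
        intro hun
        obtain ⟨w, hw⟩ := hun.exists_right_inv
        apply hx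
        have : (w : k) = x := by
          have h2 := congrArg (fun z : V => (z : k)) hw
          have h3 : x⁻¹ * (w : k) = 1 := h2
          field_simp at h3
          exact h3
        rw [← this]
        exact w.2
      have h3 : h.map (residue V) = H1.map (residue V) := by
        conv_lhs => rw [hH2]
        rw [Polynomial.map_mul, Polynomial.map_sub, Polynomial.map_one, Polynomial.map_mul, map_C,
          map_X, hu0, C_0, zero_mul, sub_zero, one_mul]
      have hred : red1 V x = none := by
        unfold red1
        rw [dif_neg hx]
      rw [Multiset.filterMap_cons_none _ _ hred, h3]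
      exact ih H1 (by rw [← h3]; exact hr) _ hH1

end Pool.Agent.LibJac77
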