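import Pool.Agent.LibJac77.C0d

/-!
Reduction of points.
-/

open scoped Classical
open Polynomial IsLocalRing

namespace Pool.Agent.LibJac77

open Pool.Agent.LibBH2

variable {k : Type} [Field k]

/-- if `x` is integral then so is `y` -/
theorem redu_aff {V : ValuationSubring k} {f : k[X]} (hV : Good V f) {x y : k}
    (h : y ^ 2 = f.eval x) (hx : x ∈ V) : y ∈ V := by
  obtain ⟨F, hF, -, -⟩ := hV
  have h1 : y ^ 2 = algebraMap V k (F.eval ⟨x, hx⟩) := by
    rw [h, ← hF, eval_map, ← Polynomial.eval₂_at_apply]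
    rfl
  have h2 : y ^ 2 ∈ V := by
    rw [h1]
    exact (F.eval ⟨x, hx⟩).2
  rw [← V.valuation_le_one_iff] at h2 ⊢
  rw [map_pow] at h2
  exact (pow_le_one_iff (two_ne_zero)).mp h2

theorem redu_eq_none_iff {V : ValuationSubring k} {f : k[X]} (hV : Good V f) {x y : k}
    (h : y ^ 2 = f.eval x) : redu V (.aff x y h : Pt f) = none ↔ x ∉ V := by
  by_cases hh : x ∈ V ∧ y ∈ V
  · simp [redu, hh.1, hh.2]
  · have h1 : redu V (.aff x y h : Pt f) = none := by
      show (if h : x ∈ V ∧ y ∈ V then some (residue V ⟨x, h.1⟩, residue V ⟨y, h.2⟩) else none) = none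
      rw [dif_neg hh]
    rw [h1]
    simp only [true_iff]
    intro hx
    exact hh ⟨hx, redu_aff hV h hx⟩

theorem redu_neg {V : ValuationSubring k} {f : k[X]} (P : Pt f) :
    redu V (neg P) = (redu V P).map fun z => (z.1, -z.2) := by
  match P with
  | .inf => rfl
  | .aff x y h =>
    unfold redu neg
    by_cases hh : x ∈ V ∧ y ∈ V
    · have hh' : x ∈ V ∧ -y ∈ V := ⟨hh.1, V.neg_mem _ hh.2⟩
      simp only [dif_pos hh, dif_pos hh', Option.map_some]
      congr 2
    · have hh' : ¬ (x ∈ V ∧ -y ∈ V) := by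
        rintro ⟨h1, h2⟩
        exact hh ⟨h1, by simpa using V.neg_mem _ h2⟩
      simp only [dif_neg hh, dif_neg hh', Option.map_none]

end Pool.Agent.LibJac77
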