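import Pool.Agent.LibJac77.Base

/-!
Reduction of points modulo a valuation ring: definitions.
-/

open scoped Classical
open Polynomial IsLocalRing

namespace Pool.Agent.LibJac77

open Pool.Agent.LibBH2

variable {k : Type} [Field k]

/-- the residue field of a valuation subring -/
abbrev RF (V : ValuationSubring k) : Type := ResidueField V

/-- good reduction of `y ^ 2 = f(x)` at `V` -/
def Good (V : ValuationSubring k) (f : k[X]) : Prop :=
  ∃ F : V[X], F.map (algebraMap V k) = f ∧ (F.map (residue V)).Separable ∧ (2 : RF V) ≠ 0

/-- reduction of elements -/
noncomputable def red1 (V : ValuationSubring k) (x : k) : Option (RF V) :=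
  if h : x ∈ V then some (residue V ⟨x, h⟩) else none

/-- reduction of points; `none` is the reduction to the point at infinity -/
noncomputable def redu (V : ValuationSubring k) {f : k[X]} : Pt f → Option (RF V × RF V)
  | .inf => none
  | .aff x y _ =>
    if h : x ∈ V ∧ y ∈ V then some (residue V ⟨x, h.1⟩, residue V ⟨y, h.2⟩) else none

end Pool.Agent.LibJac77
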