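import Mathlib

/-!
The ring `S[x, y] / (y ^ 2 - F(x))` as a quadratic algebra over `S[x]`; division steps at a point.
-/

open scoped Classical
open Polynomial

namespace Pool.Agent.LibJac77

variable {S : Type} [CommRing S]

/-- the ring `S[x, y] / (y ^ 2 - F(x))`; its elements are `⟨A, B⟩ = A(x) + B(x) y` -/
abbrev CR (F : S[X]) : Type := QuadraticAlgebra S[X] F 0

/-- evaluation at a point -/
noncomputable def evp {F : S[X]} (x y : S) (g : CR F) : S := g.re.eval x + g.im.eval x * y

theorem evp_mul {F : S[X]} {x y : S} (h : y ^ 2 = F.eval x) (g g' : CR F) :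
    evp x y (g * g') = evp x y g * evp x y g' := by
  simp only [evp, QuadraticAlgebra.re_mul, QuadraticAlgebra.im_mul, eval_add, eval_mul,
    eval_zero]
  rw [← h]
  ring

theorem evp_add {F : S[X]} (x y : S) (g g' : CR F) :
    evp x y (g + g') = evp x y g + evp x y g' := by
  simp only [evp, QuadraticAlgebra.re_add, QuadraticAlgebra.im_add, eval_add]
  ring

/-- division step at a point with `2 y` invertible -/
theorem step_unram {F : S[X]} {x y : S} (h : y ^ 2 = F.eval x) (g : CR F) (hg : evp x y g = 0) :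
    ∃ g' : CR F, (⟨C y, 1⟩ : CR F) * g = (⟨X - C x, 0⟩ : CR F) * g' := by
  obtain ⟨a, ha⟩ : X - C x ∣ C y * g.re + F * g.im := by
    rw [dvd_iff_isRoot]
    simp only [evp] at hg
    simp only [IsRoot.def, eval_add, eval_mul, eval_C]
    rw [← h]
    linear_combination y * hg
  obtain ⟨b, hb⟩ : X - C x ∣ g.re + C y * g.im := by
    rw [dvd_iff_isRoot]
    simp only [evp] at hg
    simp only [IsRoot.def, eval_add, eval_mul, eval_C]
    linear_combination hg
  refine ⟨⟨a, b⟩, ?_⟩
  ext1
  · simp only [QuadraticAlgebra.re_mul]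
    linear_combination ha
  · simp only [QuadraticAlgebra.im_mul]
    linear_combination hb

/-- division step at a ramified point: `F /ₘ (X - C x)` is the divided difference of `F` -/
theorem step_ram {F : S[X]} {x y : S} (h : y ^ 2 = F.eval x) (g : CR F) (hg : evp x y g = 0) :
    ∃ g' : CR F, (⟨F /ₘ (X - C x), 0⟩ : CR F) * g = (⟨-C y, 1⟩ : CR F) * g' := by
  have hF : (X - C x) * (F /ₘ (X - C x)) = F - C (y ^ 2) := by
    have := X_sub_C_mul_divByMonic_eq_sub_modByMonic F x
    rw [this, modByMonic_X_sub_C_eq_C_eval, h]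
  have hA : (X - C x) * (g.re /ₘ (X - C x)) = g.re - C (g.re.eval x) := by
    rw [X_sub_C_mul_divByMonic_eq_sub_modByMonic, modByMonic_X_sub_C_eq_C_eval]
  have hB : (X - C x) * (g.im /ₘ (X - C x)) = g.im - C (g.im.eval x) := by
    rw [X_sub_C_mul_divByMonic_eq_sub_modByMonic, modByMonic_X_sub_C_eq_C_eval]
  have hg' : C (g.re.eval x) = - (C (g.im.eval x) * C y) := by
    simp only [evp] at hg
    rw [← C_mul, ← C_neg]
    congr 1
    linear_combination hg
  set dd := F /ₘ (X - C x) with hdd
  set A1 := g.re /ₘ (X - C x) with hA1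
  set B1 := g.im /ₘ (X - C x) with hB1
  set b := C (g.im.eval x) with hb
  -- dd * g = (w - y) * [(w + y) (A1 + B1 w) + b dd]
  refine ⟨⟨C y * A1 + F * B1 + b * dd, A1 + C y * B1⟩, ?_⟩
  have hre : g.re = (X - C x) * A1 + -(b * C y) := by rw [← hg', hA]; ring
  have him : g.im = (X - C x) * B1 + b := by rw [hB]; ring
  have hF' : F = (X - C x) * dd + C y ^ 2 := by rw [hF, C_pow]; ring
  ext1
  · simp only [QuadraticAlgebra.re_mul]
    rw [hre]
    linear_combination (-A1) * hF'
  · simp only [QuadraticAlgebra.im_mul]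
    rw [him]
    linear_combination (-B1) * hF'

/-- base change -/
noncomputable def cmap {S' : Type} [CommRing S'] (φ : S →+* S') {F : S[X]} (g : CR F) :
    CR (F.map φ) := ⟨g.re.map φ, g.im.map φ⟩

theorem cmap_mul {S' : Type} [CommRing S'] (φ : S →+* S') {F : S[X]} (g g' : CR F) :
    cmap φ (g * g') = cmap φ g * cmap φ g' := by
  ext1
  · simp only [cmap, QuadraticAlgebra.re_mul, Polynomial.map_add, Polynomial.map_mul]
  · simp only [cmap, QuadraticAlgebra.im_mul, Polynomial.map_add, Polynomial.map_mul,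
      Polynomial.map_zero]

theorem cmap_pow {S' : Type} [CommRing S'] (φ : S →+* S') {F : S[X]} (g : CR F) (n : ℕ) :
    cmap φ (g ^ n) = cmap φ g ^ n := by
  induction n with
  | zero =>
    ext1
    · simp only [cmap, pow_zero, QuadraticAlgebra.re_one, Polynomial.map_one]
    · simp only [cmap, pow_zero, QuadraticAlgebra.im_one, Polynomial.map_zero]
  | succ n ih => rw [pow_succ, cmap_mul, ih, pow_succ]

theorem cmap_injective {S' : Type} [CommRing S'] (φ : S →+* S') (hφ : Function.Injective φ)
    {F : S[X]} : Function.Injective (cmap φ (F := F)) := by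
  intro g g' h
  have h1 := congrArg QuadraticAlgebra.re h
  have h2 := congrArg QuadraticAlgebra.im h
  simp only [cmap] at h1 h2
  ext1
  · exact Polynomial.map_injective φ hφ h1
  · exact Polynomial.map_injective φ hφ h2

/-- cancellation of polynomials in `x` -/
theorem mul_left_cancel_poly {k : Type} [Field k] {F : k[X]} {A : k[X]} (hA : A ≠ 0) {g g' : CR F}
    (h : (⟨A, 0⟩ : CR F) * g = (⟨A, 0⟩ : CR F) * g') : g = g' := by
  have h1 := congrArg QuadraticAlgebra.re h
  have h2 := congrArg QuadraticAlgebra.im h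
  simp only [QuadraticAlgebra.re_mul, QuadraticAlgebra.im_mul] at h1 h2
  simp only [mul_zero, zero_mul, add_zero] at h1 h2
  ext1
  · exact mul_left_cancel₀ hA h1
  · exact mul_left_cancel₀ hA h2

end Pool.Agent.LibJac77
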