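import Pool.Agent.LibJac77.C8

/-!
The coefficient of `w` reduces to zero.
-/

open scoped Classical
open Polynomial IsLocalRing

namespace Pool.Agent.LibJac77

open Pool.Agent.LibBH2

variable {k : Type} [Field k] [CharZero k] [IsAlgClosed k] {f : k[X]} [Genus2 f]

private theorem c9b_redu_some {V : ValuationSubring k} {Q : Pt f} {ξ η : RF V}
    (h : redu V Q = some (ξ, η)) : ∃ (x y : V) (e : (y : k) ^ 2 = f.eval (x : k)),
      Q = .aff x y e ∧ residue V x = ξ ∧ residue V y = η := by
  match Q with
  | .inf => simp [redu] at h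
  | .aff x y e =>
    unfold redu at h
    simp only at h
    split_ifs at h with hxy
    rw [Option.some.injEq, Prod.mk.injEq] at h
    exact ⟨⟨x, hxy.1⟩, ⟨y, hxy.2⟩, e, rfl, h.1, h.2⟩

private theorem c9b_eval {V : ValuationSubring k} (A : V[X]) (x : V) :
    (A.map (algebraMap V k)).eval (x : k) = ((A.eval x : V) : k) := by
  have : (x : k) = algebraMap V k x := rfl
  rw [this, eval_map, eval₂_at_apply]
  rfl

private theorem c9b_res {V : ValuationSubring k} (A : V[X]) (x : V) :
    (A.map (residue V)).eval (residue V x) = residue V (A.eval x) := by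
  rw [eval_map, eval₂_at_apply]

private theorem c9b_card_filterMap {α β : Type*} (g : α → Option β) (s : Multiset α) :
    Multiset.card (s.filterMap g) ≤ Multiset.card s := by
  induction s using Multiset.induction_on with
  | empty => simp
  | cons a s ih =>
    cases h : g a with
    | none =>
      rw [Multiset.filterMap_cons_none _ _ h, Multiset.card_cons]
      omega
    | some b =>
      rw [Multiset.filterMap_cons_some _ _ _ h, Multiset.card_cons, Multiset.card_cons]
      omega

/-- `B` reduces to zero -/
theorem k1_b0 (V : ValuationSubring k) (F : V[X]) (hF : F.map (algebraMap V k) = f)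
    (hV : Good V f) (A B : V[X]) (hAB : A.map (residue V) ≠ 0 ∨ B.map (residue V) ≠ 0)
    (hB : B.natDegree = 0)
    {P₁ P₁' P₂ P₂' P P' : Pt f} (h₁ : redu V P₁ = redu V P₁') (h₂ : redu V P₂ = redu V P₂')
    (hm : ∀ Q : Pt f, Q ≠ .inf →
      (vp Q).ord (el f (A.map (algebraMap V k)) (B.map (algebraMap V k))) =
        (({P₁, neg P₁', P₂, neg P₂', P', neg P} : Multiset (Pt f))).count Q) :
    B.map (residue V) = 0 := by
  have hinj : Function.Injective (algebraMap V k) := Subtype.val_injective
  obtain ⟨F', hF', hsep, h2⟩ := hV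
  have hFF : F' = F := Polynomial.map_injective _ hinj (hF'.trans hF.symm)
  subst hFF
  have hFmon : F'.Monic := Polynomial.monic_of_injective hinj (by rw [hF]; exact Genus2.monic)
  have hFdeg : F'.natDegree = 5 := by
    rw [← natDegree_map_eq_of_injective hinj, hF]; exact Genus2.deg
  have hFbdeg : (F'.map (residue V)).natDegree = 5 := by
    rw [hFmon.natDegree_map, hFdeg]
  have hel : el f (A.map (algebraMap V k)) (B.map (algebraMap V k)) ≠ 0 := by
    rw [Ne, el_eq_zero_iff]
    rintro ⟨hA0, hB0⟩
    have hA1 : A = 0 := (Polynomial.map_eq_zero_iff hinj).1 hA0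
    have hB1 : B = 0 := (Polynomial.map_eq_zero_iff hinj).1 hB0
    rcases hAB with h | h
    · apply h; rw [hA1]; simp
    · apply h; rw [hB1]; simp
  set m : Multiset (Pt f) := {P₁, neg P₁', P₂, neg P₂', P', neg P} with hmdef
  obtain ⟨hN0, hNroots, hNdeg⟩ := k1_roots V F' hF ⟨F', hF', hsep, h2⟩ A B hAB m hm
  obtain ⟨b, hb⟩ : ∃ b, B = C b := ⟨_, eq_C_of_natDegree_eq_zero hB⟩
  have hBb : B.map (residue V) = C (residue V b) := by rw [hb, map_C]
  have hvan : ∀ Q ∈ m, ∀ ξ η, redu V Q = some (ξ, η) →
      (A.map (residue V)).eval ξ + residue V b * η = 0 := by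
    intro Q hQ ξ η hr
    obtain ⟨x, y, e, rfl, hx, hy⟩ := c9b_redu_some hr
    have hpos : 0 < (vp (.aff (x : k) y e : Pt f)).ord
        (el f (A.map (algebraMap V k)) (B.map (algebraMap V k))) := by
      rw [hm _ (by simp)]
      exact_mod_cast Multiset.count_pos.2 hQ
    rw [ord_pos_iff e hel, c9b_eval, c9b_eval] at hpos
    have h3 : A.eval x + B.eval x * y = 0 := by
      apply Subtype.val_injective
      simpa using hpos
    have h4 := congrArg (residue V) h3
    rw [map_add, map_mul, map_zero, ← c9b_res, hx, hy, hb, eval_C] at h4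
    exact h4
  -- a pair of zeros reducing to opposite points
  have hpair : ∀ Q Q' : Pt f, ({Q, neg Q'} : Multiset (Pt f)) ≤ m → redu V Q = redu V Q' →
      redu V Q ≠ none → B.map (residue V) = 0 := by
    intro Q Q' hle hred hnone
    obtain ⟨⟨ξ, η⟩, hξη⟩ := Option.ne_none_iff_exists'.1 hnone
    have hQm : Q ∈ m := Multiset.mem_of_le hle (by simp)
    have hQm' : neg Q' ∈ m := Multiset.mem_of_le hle (by simp)
    have hneg : redu V (neg Q') = some (ξ, -η) := by
      rw [redu_neg, ← hred, hξη]; rfl
    have e1 := hvan Q hQm ξ η hξη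
    have e2 := hvan (neg Q') hQm' ξ (-η) hneg
    by_cases hη : η = 0
    · subst hη
      rw [mul_zero, add_zero] at e1
      by_contra hB0
      have hb0 : residue V b ≠ 0 := by
        intro h0; apply hB0; rw [hBb, h0, C_0]
      have hcount : 2 ≤ (Nm (F'.map (residue V)) (A.map (residue V))
          (B.map (residue V))).roots.count ξ := by
        rw [hNroots]
        have h5 : ({Q, neg Q'} : Multiset (Pt f)).filterMap (fun Q => (redu V Q).map Prod.fst) ≤
            m.filterMap (fun Q => (redu V Q).map Prod.fst) := Multiset.filterMap_le_filterMap _ hle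
        refine le_trans ?_ (Multiset.count_le_of_le ξ h5)
        have h6 : ({Q, neg Q'} : Multiset (Pt f)).filterMap (fun Q => (redu V Q).map Prod.fst) =
            {ξ, ξ} := by
          change (Q ::ₘ neg Q' ::ₘ 0).filterMap (fun Q => (redu V Q).map Prod.fst) =
            ξ ::ₘ ξ ::ₘ 0
          rw [Multiset.filterMap_cons_some (fun Q => (redu V Q).map Prod.fst) Q _ (b := ξ)
            (by simp only [hξη, Option.map_some]),
            Multiset.filterMap_cons_some (fun Q => (redu V Q).map Prod.fst) (neg Q') _ (b := ξ)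
            (by simp only [hneg, Option.map_some]), Multiset.filterMap_zero]
        rw [h6]
        simp
      rw [count_roots] at hcount
      have hdvdN := (le_rootMultiplicity_iff hN0).1 hcount
      have hdvdA : (X - C ξ) ^ 2 ∣ (A.map (residue V)) ^ 2 :=
        pow_dvd_pow_of_dvd (dvd_iff_isRoot.2 e1) 2
      have hdvdF : (X - C ξ) ^ 2 ∣ (B.map (residue V)) ^ 2 * F'.map (residue V) := by
        have h7 : (B.map (residue V)) ^ 2 * F'.map (residue V) = (A.map (residue V)) ^ 2 -
            Nm (F'.map (residue V)) (A.map (residue V)) (B.map (residue V)) := by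
          unfold Nm; ring
        rw [h7]
        exact dvd_sub hdvdA hdvdN
      rw [hBb, ← C_pow] at hdvdF
      have h8 : (X - C ξ) ^ 2 ∣ F'.map (residue V) := by
        have hu : IsUnit (C ((residue V b) ^ 2)) :=
          Polynomial.isUnit_C.2 (IsUnit.mk0 _ (pow_ne_zero 2 hb0))
        exact (hu.dvd_mul_left).1 hdvdF
      have h9 := hsep.squarefree (X - C ξ) (by rw [← sq]; exact h8)
      exact not_isUnit_X_sub_C ξ h9
    · have h5 : (2 : RF V) * (residue V b * η) = 0 := by linear_combination e1 - e2
      have h6 : residue V b = 0 := by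
        rcases mul_eq_zero.1 h5 with h | h
        · exact absurd h h2
        · rcases mul_eq_zero.1 h with h | h
          · exact h
          · exact absurd h hη
      rw [hBb, h6, C_0]
  by_cases hn1 : redu V P₁ = none
  · by_cases hn2 : redu V P₂ = none
    · by_contra hB0
      have hb0 : residue V b ≠ 0 := by
        intro h0; apply hB0; rw [hBb, h0, C_0]
      have hcard : Multiset.card (m.filterMap (fun Q => (redu V Q).map Prod.fst)) ≤ 2 := by
        have e1 : m = P₁ ::ₘ neg P₁' ::ₘ P₂ ::ₘ neg P₂' ::ₘ {P', neg P} := rfl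
        rw [e1, Multiset.filterMap_cons_none (f := fun Q => (redu V Q).map Prod.fst) P₁ _
            (by simp only [hn1, Option.map_none]),
          Multiset.filterMap_cons_none (f := fun Q => (redu V Q).map Prod.fst) (neg P₁') _
            (by simp only [redu_neg, ← h₁, hn1, Option.map_none]),
          Multiset.filterMap_cons_none (f := fun Q => (redu V Q).map Prod.fst) P₂ _
            (by simp only [hn2, Option.map_none]),
          Multiset.filterMap_cons_none (f := fun Q => (redu V Q).map Prod.fst) (neg P₂') _
            (by simp only [redu_neg, ← h₂, hn2, Option.map_none])]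
        refine (c9b_card_filterMap _ _).trans ?_
        simp
      rw [← hNdeg] at hcard
      have hd : (C ((residue V b) ^ 2) * F'.map (residue V)).natDegree = 5 := by
        rw [natDegree_C_mul (pow_ne_zero 2 hb0), hFbdeg]
      have hN : Nm (F'.map (residue V)) (A.map (residue V)) (B.map (residue V)) =
          (A.map (residue V)) ^ 2 - C ((residue V b) ^ 2) * F'.map (residue V) := by
        unfold Nm; rw [hBb, C_pow]
      rw [hN] at hcard
      have hA2 : ((A.map (residue V)) ^ 2).natDegree = 2 * (A.map (residue V)).natDegree :=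
        natDegree_pow _ _
      rcases lt_or_ge ((A.map (residue V)) ^ 2).natDegree 5 with h | h
      · rw [natDegree_sub_eq_right_of_natDegree_lt (by rw [hd]; exact h), hd] at hcard
        omega
      · rw [natDegree_sub_eq_left_of_natDegree_lt (by rw [hd]; omega)] at hcard
        omega
    · refine hpair P₂ P₂' ?_ h₂ hn2
      have e1 : m = P₁ ::ₘ neg P₁' ::ₘ P₂ ::ₘ neg P₂' ::ₘ {P', neg P} := rfl
      rw [e1]
      refine le_trans ?_ (Multiset.le_cons_self _ _)
      refine le_trans ?_ (Multiset.le_cons_self _ _)
      change P₂ ::ₘ neg P₂' ::ₘ 0 ≤ _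
      exact Multiset.cons_le_cons _ (Multiset.cons_le_cons _ (Multiset.zero_le _))
  · refine hpair P₁ P₁' ?_ h₁ hn1
    have e1 : m = P₁ ::ₘ neg P₁' ::ₘ P₂ ::ₘ neg P₂' ::ₘ {P', neg P} := rfl
    rw [e1]
    change P₁ ::ₘ neg P₁' ::ₘ 0 ≤ _
    exact Multiset.cons_le_cons _ (Multiset.cons_le_cons _ (Multiset.zero_le _))

end Pool.Agent.LibJac77
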