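import Pool.Agent.LibJac77.C8

/-!
Multiplicities of the reduced function.
-/

open scoped Classical
open Polynomial IsLocalRing

namespace Pool.Agent.LibJac77

open Pool.Agent.LibBH2

variable {k : Type} [Field k] [CharZero k] [IsAlgClosed k] {f : k[X]} [Genus2 f]

private theorem c9a_redu_some {V : ValuationSubring k} {Q : Pt f} {ξ η : RF V}
    (h : redu V Q = some (ξ, η)) : ∃ (x y : V) (e : (y : k) ^ 2 = f.eval (x : k)),
      Q = .aff x y e ∧ residue V x = ξ ∧ residue V y = η := by
  match Q with
  | .inf => simp [redu] at h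
  | .aff x y e =>
    unfold redu at h
    simp only at h
    split_ifs at h with hxy
    rw [Option.some.injEq, Prod.mk.injEq] at h
    exact ⟨⟨x, hxy.1⟩, ⟨y, hxy.2⟩, e, rfl, h.1, h.2⟩

private theorem c9a_eq {V : ValuationSubring k} {F : V[X]} (hF : F.map (algebraMap V k) = f)
    {x y : V} (e : (y : k) ^ 2 = f.eval (x : k)) : y ^ 2 = F.eval x := by
  apply Subtype.val_injective
  have h1 : (x : k) = algebraMap V k x := rfl
  rw [← hF, h1, eval_map, eval₂_at_apply] at e
  simpa using e

private theorem c9a_cmap_one {V : ValuationSubring k} (F : V[X]) :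
    cmap (residue V) (1 : CR F) = 1 := by
  ext
  · change ((1 : V[X]).map (residue V)).coeff _ = _
    rw [Polynomial.map_one]; rfl
  · change ((0 : V[X]).map (residue V)).coeff _ = _
    rw [Polynomial.map_zero]; rfl

/-- division at all the zeros reducing to a given point -/
private theorem c9a_aux (V : ValuationSubring k) (F : V[X]) (hF : F.map (algebraMap V k) = f)
    (h2 : (2 : RF V) ≠ 0) {ξ η : RF V} (hη : η ≠ 0) (g : CR F) (hg : g ≠ 0)
    (m : Multiset (Pt f)) (hred : ∀ Q ∈ m, redu V Q = some (ξ, η))
    (hm : ∀ Q : Pt f, redu V Q = some (ξ, η) → (m.count Q : ℤ) ≤ (vp Q).ord (toD (DCf f) g)) :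
    ∃ a b g' : CR F, g' ≠ 0 ∧ a * g = b * g' ∧
      cmap (residue V) a = (⟨C η, 1⟩ : CR (F.map (residue V))) ^ Multiset.card m ∧
      cmap (residue V) b = (⟨X - C ξ, 0⟩ : CR (F.map (residue V))) ^ Multiset.card m ∧
      ∀ R : Pt f, redu V R = some (ξ, η) →
        (vp R).ord (toD (DCf f) g') = (vp R).ord (toD (DCf f) g) - m.count R := by
  have hF' : F.map (algebraMap V k) = (DCf f).F := hF
  have hns : ¬ IsSquare (algebraMap k[X] (RatFunc k) (DCf f).F) := nsq f
  induction m using Multiset.induction_on with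
  | empty =>
    refine ⟨1, 1, g, hg, rfl, ?_, ?_, ?_⟩
    · rw [c9a_cmap_one, Multiset.card_zero, pow_zero]
    · rw [c9a_cmap_one, Multiset.card_zero, pow_zero]
    · intro R _; simp
  | cons Q m ih =>
    have hredQ := hred Q (Multiset.mem_cons_self Q m)
    obtain ⟨a, b, g'', hg'', hab, ha, hb, hord⟩ := ih
      (fun R hR => hred R (Multiset.mem_cons_of_mem hR))
      (fun R hR => le_trans (by exact_mod_cast Multiset.count_le_count_cons R Q m) (hm R hR))
    obtain ⟨x, y, e, rfl, hx, hy⟩ := c9a_redu_some hredQ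
    set Q : Pt f := .aff (x : k) y e with hQdef
    have e' := c9a_eq hF e
    have hsp : (vp Q).Zer ((DCf f).s - algebraMap k (KC f) x) ∧
        (vp Q).Zer ((DCf f).w - algebraMap k (KC f) y) := sp_vp Q
    have hpos : 0 < (vp Q).ord (toD (DCf f) g'') := by
      rw [hord Q hredQ]
      have h1 := hm Q hredQ
      rw [Multiset.count_cons_self] at h1
      push_cast at h1
      linarith
    have hev := evp_eq_zero (DCf f) (vp Q) hsp.1 hsp.2 g'' hpos
    obtain ⟨g₃, hg₃⟩ := step_unram e' g'' hev
    have ht1 : toD (DCf f) g'' ≠ 0 := by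
      rw [Ne, toD_eq_zero_iff (DCf f) hns]; exact hg''
    have hu0 : (⟨C y, 1⟩ : CR F) ≠ 0 := by
      intro h0
      have := congrArg QuadraticAlgebra.im h0
      simp at this
    have hx0 : (⟨X - C x, 0⟩ : CR F) ≠ 0 := by
      intro h0
      have := congrArg QuadraticAlgebra.re h0
      exact X_sub_C_ne_zero x (by simpa using this)
    have ht2 : toD (DCf f) (⟨C y, 1⟩ : CR F) ≠ 0 := by
      rw [Ne, toD_eq_zero_iff (DCf f) hns]; exact hu0
    have ht3 : toD (DCf f) (⟨X - C x, 0⟩ : CR F) ≠ 0 := by
      rw [Ne, toD_eq_zero_iff (DCf f) hns]; exact hx0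
    have hmul := congrArg (toD (DCf f)) hg₃
    rw [toD_mul (DCf f) hF', toD_mul (DCf f) hF'] at hmul
    have hg₃0 : g₃ ≠ 0 := by
      rintro rfl
      rw [(toD_eq_zero_iff (DCf f) hns (0 : CR F)).2 rfl, mul_zero] at hmul
      exact mul_ne_zero ht2 ht1 hmul
    have ht4 : toD (DCf f) g₃ ≠ 0 := by
      rw [Ne, toD_eq_zero_iff (DCf f) hns]; exact hg₃0
    refine ⟨⟨C y, 1⟩ * a, ⟨X - C x, 0⟩ * b, g₃, hg₃0, ?_, ?_, ?_, ?_⟩
    · calc (⟨C y, 1⟩ * a) * g = ⟨C y, 1⟩ * (a * g) := by ring
        _ = b * (⟨C y, 1⟩ * g'') := by rw [hab]; ring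
        _ = _ := by rw [hg₃]; ring
    · rw [cmap_mul, ha, Multiset.card_cons, pow_succ']
      congr 1
      have : cmap (residue V) (⟨C y, 1⟩ : CR F) = ⟨(C y).map (residue V), (1 : V[X]).map (residue V)⟩ := rfl
      rw [this, map_C, hy, Polynomial.map_one]
    · rw [cmap_mul, hb, Multiset.card_cons, pow_succ']
      congr 1
      have : cmap (residue V) (⟨X - C x, 0⟩ : CR F) =
        ⟨(X - C x).map (residue V), (0 : V[X]).map (residue V)⟩ := rfl
      rw [this, Polynomial.map_sub, map_X, map_C, hx, Polynomial.map_zero]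
    · intro R hR
      have h5 := congrArg (vp R).ord hmul
      rw [Place.ord_mul _ _ _ ht2 ht1, Place.ord_mul _ _ _ ht3 ht4] at h5
      obtain ⟨x', y', e₂, hRe, hx', hy'⟩ := c9a_redu_some hR
      have hsp' : (vp R).Zer ((DCf f).s - algebraMap k (KC f) x') ∧
          (vp R).Zer ((DCf f).w - algebraMap k (KC f) y') := by
        have := sp_vp R
        rw [hRe] at this ⊢
        exact this
      have h6 : (vp R).ord (toD (DCf f) (⟨C y, 1⟩ : CR F)) = 0 := by
        apply ord_eq_zero_of_evp (DCf f) (vp R) hsp'.1 hsp'.2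
        intro h0
        have h7 : y + y' = 0 := by simpa [evp] using h0
        have h8 := congrArg (residue V) h7
        rw [map_add, hy, hy', map_zero] at h8
        have h9 : (2 : RF V) * η = 0 := by linear_combination h8
        rcases mul_eq_zero.1 h9 with h | h
        · exact h2 h
        · exact hη h
      have h10 : (vp R).ord (toD (DCf f) (⟨X - C x, 0⟩ : CR F)) = if R = Q then 1 else 0 := by
        by_cases hxx : x' = x
        · subst hxx
          have hRQ : R = Q := by
            have h11 : (y' : k) ^ 2 = (y : k) ^ 2 := by rw [e, e₂]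
            rcases sq_eq_sq_iff_eq_or_eq_neg.1 h11 with h | h
            · rw [hRe, hQdef]
              simp only [Pt.aff.injEq, true_and]
              exact h
            · exfalso
              have h12 : y' = -y := Subtype.val_injective (by simpa using h)
              rw [h12, map_neg, hy] at hy'
              have h9 : (2 : RF V) * η = 0 := by linear_combination -hy'
              rcases mul_eq_zero.1 h9 with h | h
              · exact h2 h
              · exact hη h
          rw [if_pos hRQ, hRQ]
          have h13 : toD (DCf f) (⟨X - C x', 0⟩ : CR F) = el f (X - C (x' : k)) 0 := by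
            have : toD (DCf f) (⟨X - C x', 0⟩ : CR F) =
              el f ((X - C x').map (algebraMap V k)) ((0 : V[X]).map (algebraMap V k)) := rfl
            rw [this, Polynomial.map_sub, map_X, map_C, Polynomial.map_zero]
            rfl
          rw [h13, hQdef, ord_poly e (X_sub_C_ne_zero _)]
          have hy0 : (y : k) ≠ 0 := by
            intro h0
            apply hη
            have : y = 0 := Subtype.val_injective (by simpa using h0)
            rw [← hy, this, map_zero]
          rw [if_neg hy0, rootMultiplicity_X_sub_C_self]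
          simp
        · have hRQ : R ≠ Q := by
            intro h
            rw [hRe, hQdef] at h
            simp only [Pt.aff.injEq] at h
            exact hxx (Subtype.val_injective h.1)
          rw [if_neg hRQ]
          apply ord_eq_zero_of_evp (DCf f) (vp R) hsp'.1 hsp'.2
          intro h0
          apply hxx
          have : x' - x = 0 := by simpa [evp] using h0
          exact sub_eq_zero.1 this
      rw [h6, h10, hord R hR, zero_add] at h5
      by_cases hRQ : R = Q
      · rw [if_pos hRQ] at h5
        rw [hRQ, Multiset.count_cons_self]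
        rw [hRQ] at h5
        push_cast
        linarith
      · rw [if_neg hRQ, zero_add] at h5
        rw [Multiset.count_cons_of_ne hRQ]
        exact h5.symm

/-- if the reduced function is a polynomial `A(x)`, its multiplicity at `ξ` is at least the number of
zeros reducing to `(ξ, η)`, for `η ≠ 0` -/
theorem k1_mult (V : ValuationSubring k) (F : V[X]) (hF : F.map (algebraMap V k) = f)
    (h2 : (2 : RF V) ≠ 0) (A B : V[X]) (hA : A.map (residue V) ≠ 0) (hB : B.map (residue V) = 0)
    (m : Multiset (Pt f)) {ξ η : RF V} (hη : η ≠ 0)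
    (hm : ∀ Q : Pt f, redu V Q = some (ξ, η) →
      (m.count Q : ℤ) ≤ (vp Q).ord (el f (A.map (algebraMap V k)) (B.map (algebraMap V k)))) :
    Multiset.card (m.filter fun Q => redu V Q = some (ξ, η)) ≤
      (A.map (residue V)).rootMultiplicity ξ := by
  set m' := m.filter fun Q => redu V Q = some (ξ, η) with hm'
  rcases Multiset.empty_or_exists_mem m' with h0 | ⟨Q₀, hQ₀⟩
  · rw [h0, Multiset.card_zero]; exact Nat.zero_le _
  have hg : (⟨A, B⟩ : CR F) ≠ 0 := by
    intro h0
    apply hA
    have h1 := congrArg QuadraticAlgebra.re h0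
    have h3 : A = 0 := by simpa using h1
    rw [h3, Polynomial.map_zero]
  obtain ⟨a, b, g', -, hab, ha, hb, -⟩ := c9a_aux V F hF h2 hη (⟨A, B⟩ : CR F) hg m'
    (fun Q hQ => (Multiset.mem_filter.1 hQ).2)
    (fun Q hQ => by
      rw [hm', Multiset.count_filter_of_pos (p := fun Q => redu V Q = some (ξ, η)) hQ]
      exact hm Q hQ)
  -- the point `(ξ, η)` is on the reduced curve
  have hcurve : η ^ 2 = (F.map (residue V)).eval ξ := by
    obtain ⟨x, y, e, -, hx, hy⟩ := c9a_redu_some (Multiset.mem_filter.1 hQ₀).2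
    have e' := c9a_eq hF e
    rw [← hx, ← hy, eval_map, eval₂_at_apply, ← e', map_pow]
  set n := Multiset.card m'
  have hred := congrArg (cmap (residue V)) hab
  rw [cmap_mul, cmap_mul, ha, hb] at hred
  have hgred : cmap (residue V) (⟨A, B⟩ : CR F) = ⟨A.map (residue V), 0⟩ := by
    have : cmap (residue V) (⟨A, B⟩ : CR F) = ⟨A.map (residue V), B.map (residue V)⟩ := rfl
    rw [this, hB]
  have hpow : (⟨X - C ξ, 0⟩ : CR (F.map (residue V))) ^ n = ⟨(X - C ξ) ^ n, 0⟩ :=
    (QuadraticAlgebra.C_pow n (X - C ξ)).symm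
  rw [hgred, hpow] at hred
  set u : CR (F.map (residue V)) := ⟨C η, 1⟩ ^ n with hu
  have hre := congrArg QuadraticAlgebra.re hred
  have him := congrArg QuadraticAlgebra.im hred
  simp only [QuadraticAlgebra.re_mul, QuadraticAlgebra.im_mul, mul_zero, zero_mul, add_zero,
    zero_add] at hre him
  have hd0 : (X - C ξ) ^ n ∣ u.re * A.map (residue V) := ⟨_, hre⟩
  have hd1 : (X - C ξ) ^ n ∣ u.im * A.map (residue V) := ⟨_, him⟩
  have hevu : evp ξ η u ≠ 0 := by
    have h3 : ∀ n : ℕ, evp ξ η ((⟨C η, 1⟩ : CR (F.map (residue V))) ^ n) = (2 * η) ^ n := by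
      intro n
      induction n with
      | zero =>
        rw [pow_zero, pow_zero]
        simp [evp, QuadraticAlgebra.re_one, QuadraticAlgebra.im_one]
      | succ n ih =>
        rw [pow_succ, evp_mul hcurve, ih, pow_succ]
        congr 1
        simp [evp]
        ring
    rw [hu, h3]
    exact pow_ne_zero n (mul_ne_zero h2 hη)
  have hcop : ∀ P : (RF V)[X], P.eval ξ ≠ 0 → (X - C ξ) ^ n ∣ P * A.map (residue V) →
      (X - C ξ) ^ n ∣ A.map (residue V) := by
    intro P hP hd
    have h4 : IsCoprime (X - C ξ) P := by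
      rw [(irreducible_X_sub_C ξ).coprime_iff_not_dvd, dvd_iff_isRoot]
      exact hP
    exact (h4.pow_left).dvd_of_dvd_mul_left hd
  rw [le_rootMultiplicity_iff hA]
  by_cases hu0 : u.re.eval ξ = 0
  · apply hcop u.im _ hd1
    intro h5
    apply hevu
    unfold evp
    rw [hu0, h5, zero_mul, add_zero]
  · exact hcop u.re hu0 hd0

end Pool.Agent.LibJac77
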