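import Pool.Agent.LibJac77.C8
import Pool.Agent.LibJac77.C9a
import Pool.Agent.LibJac77.C9b

/-!
Reduction of classes is additive.
-/

open scoped Classical
open Polynomial IsLocalRing

namespace Pool.Agent.LibJac77

open Pool.Agent.LibBH2

variable {k : Type} [Field k] [CharZero k] [IsAlgClosed k] {f : k[X]} [Genus2 f]

private theorem c9c_redu_some {V : ValuationSubring k} {F : V[X]}
    (hF : F.map (algebraMap V k) = f) {Q : Pt f} {ξ η : RF V}
    (h : redu V Q = some (ξ, η)) : Q ≠ .inf ∧ η ^ 2 = (F.map (residue V)).eval ξ := by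
  match Q with
  | .inf => simp [redu] at h
  | .aff x y e =>
    refine ⟨by simp, ?_⟩
    unfold redu at h
    simp only at h
    split_ifs at h with hxy
    rw [Option.some.injEq, Prod.mk.injEq] at h
    rw [← h.1, ← h.2, eval_map, eval₂_at_apply, ← map_pow]
    congr 1
    apply Subtype.val_injective
    have h1 : x = algebraMap V k ⟨x, hxy.1⟩ := rfl
    rw [← hF, h1, eval_map, eval₂_at_apply] at e
    exact e

private theorem c9c_count_cons {α β : Type*} (g : α → Option β) (b : β) (a : α)
    (s : Multiset α) : Multiset.count b ((a ::ₘ s).filterMap g) =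
      (if g a = some b then 1 else 0) + Multiset.count b (s.filterMap g) := by
  cases h : g a with
  | none => rw [Multiset.filterMap_cons_none _ _ h]; simp
  | some c =>
    rw [Multiset.filterMap_cons_some _ _ _ h, Multiset.count_cons]
    by_cases hc : b = c
    · subst hc; simp; ring
    · rw [if_neg hc, if_neg (by simpa using Ne.symm hc)]; ring

private theorem c9c_card_cons {α : Type*} (p : α → Prop) [DecidablePred p] (a : α)
    (s : Multiset α) : Multiset.card ((a ::ₘ s).filter p) =
      (if p a then 1 else 0) + Multiset.card (s.filter p) := by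
  by_cases h : p a
  · rw [Multiset.filter_cons_of_pos _ h, Multiset.card_cons, if_pos h]; ring
  · rw [Multiset.filter_cons_of_neg _ h, if_neg h, zero_add]

/-- the reduction map is additive: `K1` -/
theorem k1 (V : ValuationSubring k) (hV : Good V f)
    {P₁ P₁' P₂ P₂' P P' : Pt f} (h₁ : redu V P₁ = redu V P₁') (h₂ : redu V P₂ = redu V P₂')
    (h : jP P₁ - jP P₁' + (jP P₂ - jP P₂') = jP P - jP P') : redu V P = redu V P' := by
  obtain ⟨F, hF, hsep, h2⟩ := id hV
  set m : Multiset (Pt f) := {P₁, neg P₁', P₂, neg P₂', P', neg P} with hmdef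
  have hmc : m = P₁ ::ₘ neg P₁' ::ₘ P₂ ::ₘ neg P₂' ::ₘ P' ::ₘ neg P ::ₘ 0 := rfl
  have hsum : (m.map jP).sum = 0 := by
    rw [hmc]
    simp only [Multiset.map_cons, Multiset.sum_cons, Multiset.map_zero, Multiset.sum_zero, jP_neg]
    have h3 : jP P₁ + (-jP P₁' + (jP P₂ + (-jP P₂' + (jP P' + (-jP P + 0))))) =
      (jP P₁ - jP P₁' + (jP P₂ - jP P₂')) - (jP P - jP P') := by abel
    rw [h3, h, sub_self]
  obtain ⟨A, B, hAB, -, hBn, hne, hm⟩ := k1_data V F hF m rfl hsum
  have hB0 := k1_b0 V F hF hV A B hAB hBn h₁ h₂ hm
  have hA0 : A.map (residue V) ≠ 0 := by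
    rcases hAB with h | h
    · exact h
    · exact absurd hB0 h
  obtain ⟨-, hroots, -⟩ := k1_roots V F hF hV A B hAB m hm
  have hNm : Nm (F.map (residue V)) (A.map (residue V)) (B.map (residue V)) =
      (A.map (residue V)) ^ 2 := by
    unfold Nm; rw [hB0]; ring
  rw [hNm, roots_pow] at hroots
  -- the parity of the number of zeros over a given `x`-coordinate
  have hnegfst : ∀ Q : Pt f, (redu V (neg Q)).map Prod.fst = (redu V Q).map Prod.fst := by
    intro Q
    rw [redu_neg]
    cases redu V Q <;> rfl
  have hcount : ∀ ξ : RF V,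
      2 * (if (redu V P₁).map Prod.fst = some ξ then 1 else 0) +
      2 * (if (redu V P₂).map Prod.fst = some ξ then 1 else 0) +
      (if (redu V P').map Prod.fst = some ξ then 1 else 0) +
      (if (redu V P).map Prod.fst = some ξ then 1 else 0) =
        2 * (A.map (residue V)).rootMultiplicity ξ := by
    intro ξ
    have h3 := congrArg (Multiset.count ξ) hroots
    rw [Multiset.count_nsmul, count_roots, hmc] at h3
    simp only [c9c_count_cons, hnegfst, ← h₁, ← h₂, Multiset.filterMap_zero,
      Multiset.count_zero] at h3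
    rw [h3]
    ring
  have hfst : (redu V P).map Prod.fst = (redu V P').map Prod.fst := by
    have hiff : ∀ ξ, (redu V P).map Prod.fst = some ξ ↔ (redu V P').map Prod.fst = some ξ := by
      intro ξ
      have h3 := hcount ξ
      by_cases e1 : (redu V P).map Prod.fst = some ξ <;>
        by_cases e2 : (redu V P').map Prod.fst = some ξ
      · exact ⟨fun _ => e2, fun _ => e1⟩
      · rw [if_pos e1, if_neg e2] at h3; omega
      · rw [if_neg e1, if_pos e2] at h3; omega
      · exact ⟨fun h => absurd h e1, fun h => absurd h e2⟩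
    cases hc : (redu V P').map Prod.fst with
    | none =>
      cases hc' : (redu V P).map Prod.fst with
      | none => rfl
      | some ξ => rw [(hiff ξ).1 hc'] at hc; exact absurd hc (by simp)
    | some ξ => exact (hiff ξ).2 hc
  cases hP : redu V P with
  | none =>
    rw [hP, Option.map_none] at hfst
    exact (Option.map_eq_none_iff.1 hfst.symm).symm
  | some z =>
    obtain ⟨ξ, η⟩ := z
    rw [hP, Option.map_some] at hfst
    obtain ⟨⟨ξ', η'⟩, hP', hξ⟩ := Option.map_eq_some_iff.1 hfst.symm
    simp only at hξ
    subst hξ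
    have hη := (c9c_redu_some hF hP).2
    have hη' := (c9c_redu_some hF hP').2
    rcases sq_eq_sq_iff_eq_or_eq_neg.1 (hη'.trans hη.symm) with e | e
    · rw [hP', e]
    · by_cases hη0 : η = 0
      · rw [hP', e, hη0, neg_zero]
      · exfalso
        have hmult := k1_mult V F hF h2 A B hA0 hB0 m (ξ := ξ') (η := -η) (neg_ne_zero.2 hη0)
          (fun Q hQ => by rw [hm Q (c9c_redu_some hF hQ).1])
        -- opposite pairs
        have hpair : ∀ Q Q' : Pt f, redu V Q = redu V Q' →
            (if (redu V Q).map Prod.fst = some ξ' then 1 else 0) ≤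
              (if redu V Q = some (ξ', -η) then 1 else 0) +
              (if redu V (neg Q') = some (ξ', -η) then 1 else 0) := by
          intro Q Q' hQQ
          by_cases e1 : (redu V Q).map Prod.fst = some ξ'
          · obtain ⟨⟨ξ₁, η₁⟩, hQ, hξ₁⟩ := Option.map_eq_some_iff.1 e1
            simp only at hξ₁
            subst hξ₁
            have hη₁ := (c9c_redu_some hF hQ).2
            rcases sq_eq_sq_iff_eq_or_eq_neg.1 (hη₁.trans hη.symm) with e2 | e2
            · have e3 : redu V (neg Q') = some (ξ₁, -η) := by
                rw [redu_neg, ← hQQ, hQ, e2]; rfl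
              rw [if_pos e1, if_pos e3]
              omega
            · rw [if_pos e1, hQ, e2, if_pos rfl]
              omega
          · rw [if_neg e1]; exact Nat.zero_le _
        rw [hmc] at hmult
        simp only [c9c_card_cons, Multiset.filter_zero, Multiset.card_zero] at hmult
        have e3 : redu V P' = some (ξ', -η) := by rw [hP', e]
        have e4 : redu V (neg P) = some (ξ', -η) := by rw [redu_neg, hP]; rfl
        rw [if_pos e3, if_pos e4] at hmult
        have h3 := hcount ξ'
        rw [hP, hP', Option.map_some, Option.map_some, if_pos rfl] at h3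
        have h4 := hpair P₁ P₁' h₁
        have h5 := hpair P₂ P₂' h₂
        omega

end Pool.Agent.LibJac77
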