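import Pool.Agent.LibJac77.C7
import Pool.Agent.LibJac77.C9
import Pool.Agent.LibJac77.A12

/-!
The kernel of reduction.
-/

open scoped Classical
open Polynomial IsLocalRing

namespace Pool.Agent.LibJac77

open Pool.Agent.LibBH2

variable {k : Type} [Field k] [CharZero k] [IsAlgClosed k] {f : k[X]} [Genus2 f]

theorem k2 (V : ValuationSubring k) (hV : Good V f) {P P' : Pt f} (h : redu V P = redu V P')
    (N : ℕ) (hN0 : 0 < N) (hN : (N : RF V) ≠ 0) (h0 : N • (jP P - jP P') = 0) : P = P' := by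
  match hP : redu V P with
  | none => exact k2inf V hV hP (h ▸ hP) N hN0 hN h0
  | some (ξ, η) =>
    by_cases hη : η = 0
    · subst hη
      exact k2b V hV hP (h ▸ hP) N hN0 hN h0
    · exact k2a V hV hη hP (h ▸ hP) N hN0 hN h0

/-- the kernel of reduction -/
noncomputable def ker (V : ValuationSubring k) (hV : Good V f) : AddSubgroup (Pic f) where
  carrier := {c | ∃ P P' : Pt f, redu V P = redu V P' ∧ c = jP P - jP P'}
  zero_mem' := ⟨.inf, .inf, rfl, by rw [sub_self]⟩
  neg_mem' := by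
    rintro _ ⟨P, P', h, rfl⟩
    exact ⟨P', P, h.symm, by abel⟩
  add_mem' := by
    rintro _ _ ⟨P₁, P₁', h₁, rfl⟩ ⟨P₂, P₂', h₂, rfl⟩
    obtain ⟨S, T, hST⟩ := three_two P₁ (neg P₁') P₂
    obtain ⟨P, Q, hPQ⟩ := three_two S T (neg P₂')
    rw [← hST, jP_neg, jP_neg] at hPQ
    have h3 : jP P₁ - jP P₁' + (jP P₂ - jP P₂') = jP P - jP (neg Q) := by
      rw [jP_neg, sub_neg_eq_add, ← hPQ]
      abel
    exact ⟨P, neg Q, k1 V hV h₁ h₂ h3, h3⟩

theorem mem_ker {V : ValuationSubring k} {hV : Good V f} {c : Pic f} :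
    c ∈ ker V hV ↔ ∃ P P' : Pt f, redu V P = redu V P' ∧ c = jP P - jP P' := Iff.rfl

theorem ker_torsion {V : ValuationSubring k} {hV : Good V f} {c : Pic f} (hc : c ∈ ker V hV)
    (N : ℕ) (hN0 : 0 < N) (hN : (N : RF V) ≠ 0) (h0 : N • c = 0) : c = 0 := by
  obtain ⟨P, P', h, rfl⟩ := hc
  rw [k2 V hV h N hN0 hN h0, sub_self]

/-- an element of finite order in the kernels of two reductions of different residue
characteristics is zero -/
theorem two_places {V V' : ValuationSubring k} {hV : Good V f} {hV' : Good V' f} {p p' : ℕ}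
    [hp : Fact p.Prime] [hp' : Fact p'.Prime] (hpp : p ≠ p')
    [CharP (RF V) p] [CharP (RF V') p'] {c : Pic f} (hc : c ∈ ker V hV) (hc' : c ∈ ker V' hV')
    (n : ℕ) (hn : n ≠ 0) (h0 : n • c = 0) : c = 0 := by
  obtain ⟨a, m, hm, rfl⟩ := Nat.exists_eq_pow_mul_and_not_dvd hn p hp.out.ne_one
  have h1 : p ^ a • c = 0 := by
    apply ker_torsion (AddSubgroup.nsmul_mem _ hc _) m
    · rcases Nat.eq_zero_or_pos m with rfl | h
      · simp at hm
      · exact h
    · rw [Ne, CharP.cast_eq_zero_iff (RF V) p]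
      exact hm
    · rw [← mul_smul, mul_comm]
      exact h0
  apply ker_torsion hc' (p ^ a) (pow_pos hp.out.pos _) _ h1
  rw [Ne, CharP.cast_eq_zero_iff (RF V') p']
  intro h
  exact hpp ((Nat.prime_dvd_prime_iff_eq hp'.out hp.out).1 (hp'.out.dvd_of_dvd_pow h)).symm

end Pool.Agent.LibJac77
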