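import Pool.Agent.LibJac77.C0
import Pool.Agent.LibJac77.C1

/-!
The key computation at a point which does not reduce to a Weierstrass point.
-/

open scoped Classical
open Polynomial IsLocalRing

namespace Pool.Agent.LibJac77

section aux

variable {S : Type} [CommRing S]

theorem c2_const_mul {F : S[X]} (P : S[X]) (g : CR F) :
    (⟨P, 0⟩ : CR F) * g = ⟨P * g.re, P * g.im⟩ := by
  ext <;> simp

theorem c2_const_pow {F : S[X]} (P : S[X]) (n : ℕ) :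
    (⟨P, 0⟩ : CR F) ^ n = ⟨P ^ n, 0⟩ := by
  have := QuadraticAlgebra.C_pow (a := F) (b := 0) n P
  exact this.symm

theorem c2_evp_one {F : S[X]} (x y : S) : evp x y (1 : CR F) = 1 := by
  simp [evp, QuadraticAlgebra.re_one, QuadraticAlgebra.im_one]

theorem c2_evp_pow {F : S[X]} {x y : S} (h : y ^ 2 = F.eval x) (g : CR F) (n : ℕ) :
    evp x y (g ^ n) = evp x y g ^ n := by
  induction n with
  | zero => simp [c2_evp_one]
  | succ n ih => rw [pow_succ, pow_succ, evp_mul h, ih]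

theorem c2_cmap_add {S' : Type} [CommRing S'] (φ : S →+* S') {F : S[X]} (g g' : CR F) :
    cmap φ (g + g') = cmap φ g + cmap φ g' := by
  ext <;> simp [cmap]

theorem c2_cmap_sub {S' : Type} [CommRing S'] (φ : S →+* S') {F : S[X]} (g g' : CR F) :
    cmap φ (g - g') = cmap φ g - cmap φ g' := by
  ext <;> simp [cmap]

theorem c2_cmap_mk {S' : Type} [CommRing S'] (φ : S →+* S') {F : S[X]} (A B : S[X]) :
    cmap φ (⟨A, B⟩ : CR F) = ⟨A.map φ, B.map φ⟩ := rfl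

/-- conjugation -/
noncomputable def cconj {F : S[X]} (g : CR F) : CR F := ⟨g.re, -g.im⟩

theorem cconj_mul {F : S[X]} (g g' : CR F) : cconj (g * g') = cconj g * cconj g' := by
  ext
  · simp [cconj]
  · simp [cconj]
    ring

theorem cconj_pow {F : S[X]} (g : CR F) (n : ℕ) : cconj (g ^ n) = cconj g ^ n := by
  induction n with
  | zero => ext <;> simp [cconj, QuadraticAlgebra.re_one, QuadraticAlgebra.im_one]
  | succ n ih => rw [pow_succ, pow_succ, cconj_mul, ih]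

theorem cconj_mk {F : S[X]} (A B : S[X]) : cconj (⟨A, B⟩ : CR F) = ⟨A, -B⟩ := rfl

end aux

/-- if `u ^ N g` and `(conj u) ^ N g` are divisible by `T ^ N` then so is `g` -/
theorem c2_dvd {κ : Type} [Field κ] {F : κ[X]} (h2 : (2 : κ) ≠ 0) {η : κ} (hη : η ≠ 0) (N : ℕ)
    (T : κ[X]) (g a b : CR F)
    (h1 : (⟨C η, 1⟩ : CR F) ^ N * g = (⟨T, 0⟩ : CR F) ^ N * a)
    (h3 : (⟨C η, -1⟩ : CR F) ^ N * g = (⟨T, 0⟩ : CR F) ^ N * b) :
    ∃ c : CR F, g = (⟨T, 0⟩ : CR F) ^ N * c := by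
  have hco : IsCoprime (⟨C η, 1⟩ : CR F) (⟨C η, -1⟩ : CR F) := by
    refine ⟨⟨C ((2 * η)⁻¹), 0⟩, ⟨C ((2 * η)⁻¹), 0⟩, ?_⟩
    have e : C ((2 * η)⁻¹) * C η + C ((2 * η)⁻¹) * C η = (1 : κ[X]) := by
      rw [← C_mul, ← C_add, ← C_1]
      congr 1
      field_simp
      norm_num
    apply QuadraticAlgebra.ext
    · simp only [QuadraticAlgebra.re_add, QuadraticAlgebra.re_mul, QuadraticAlgebra.re_one]
      rw [← e]
      ring
    · simp only [QuadraticAlgebra.im_add, QuadraticAlgebra.im_mul, QuadraticAlgebra.im_one]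
      ring
  obtain ⟨p, q, hpq⟩ := hco.pow (m := N) (n := N)
  refine ⟨p * a + q * b, ?_⟩
  calc g = (p * (⟨C η, 1⟩ : CR F) ^ N + q * (⟨C η, -1⟩ : CR F) ^ N) * g := by rw [hpq, one_mul]
    _ = p * ((⟨C η, 1⟩ : CR F) ^ N * g) + q * ((⟨C η, -1⟩ : CR F) ^ N * g) := by ring
    _ = _ := by rw [h1, h3]; ring

variable {k : Type} [Field k]

theorem k2a_alg (V : ValuationSubring k) (F : V[X]) (h2 : (2 : RF V) ≠ 0) (N : ℕ) (hN0 : 0 < N)
    (hN : (N : RF V) ≠ 0) (x₁ y₁ x₂ y₂ : V) (hx : residue V x₁ = residue V x₂)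
    (hy : residue V y₁ = residue V y₂) (hy0 : residue V y₁ ≠ 0)
    (e₁ : y₁ ^ 2 = F.eval x₁) (e₂ : y₂ ^ 2 = F.eval x₂) (A B : V[X])
    (hAB : A.map (residue V) ≠ 0 ∨ B.map (residue V) ≠ 0) (hA : A.natDegree ≤ N)
    (hB : B = 0 ∨ B.natDegree + 3 ≤ N) (g₁ g₂ : CR F)
    (f₁ : (⟨C y₁, 1⟩ : CR F) ^ N * ⟨A, B⟩ = (⟨X - C x₁, 0⟩ : CR F) ^ N * g₁)
    (f₂ : (⟨C y₂, 1⟩ : CR F) ^ N * ⟨A, -B⟩ = (⟨X - C x₂, 0⟩ : CR F) ^ N * g₂) : x₁ = x₂ := by
  -- the identity (*)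
  set ρ := residue V with hρ
  set Sg : V[X] := ∑ j ∈ Finset.range N, (X - C x₁) ^ j * (X - C x₂) ^ (N - 1 - j) with hSg
  set M₁ : CR F := g₂ * (⟨C y₁, 1⟩ : CR F) ^ N with hM₁
  set M₂ : CR F := g₁ * (⟨C y₂, 1⟩ : CR F) ^ N with hM₂
  clear_value M₁ M₂ Sg
  have hgeom : (X - C x₁) ^ N - (X - C x₂) ^ N = C (x₂ - x₁) * Sg := by
    have := (Commute.all (X - C x₁) (X - C x₂)).mul_geom_sum₂ N
    rw [← this, hSg]
    congr 1
    rw [C_sub]; ring
  have hstar : (⟨0, 2 * B⟩ : CR F) * M₁ * (⟨X - C x₂, 0⟩ : CR F) ^ N =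
      ⟨A, -B⟩ * ((M₂ - M₁) * (⟨X - C x₁, 0⟩ : CR F) ^ N + (⟨C (x₂ - x₁) * Sg, 0⟩ : CR F) * M₁) := by
    have e0 : (⟨C (x₂ - x₁) * Sg, 0⟩ : CR F) =
        (⟨X - C x₁, 0⟩ : CR F) ^ N - (⟨X - C x₂, 0⟩ : CR F) ^ N := by
      rw [← hgeom, c2_const_pow, c2_const_pow]
      ext <;> simp
    have e3 : (⟨0, 2 * B⟩ : CR F) = ⟨A, B⟩ - ⟨A, -B⟩ := by
      apply QuadraticAlgebra.ext
      · simp only [QuadraticAlgebra.re_sub]; ring
      · simp only [QuadraticAlgebra.im_sub]; ring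
    have e4 : (⟨A, B⟩ : CR F) * M₁ * (⟨X - C x₂, 0⟩ : CR F) ^ N =
        (⟨A, -B⟩ : CR F) * M₂ * (⟨X - C x₁, 0⟩ : CR F) ^ N := by
      calc (⟨A, B⟩ : CR F) * M₁ * (⟨X - C x₂, 0⟩ : CR F) ^ N
          = ((⟨C y₁, 1⟩ : CR F) ^ N * ⟨A, B⟩) * ((⟨X - C x₂, 0⟩ : CR F) ^ N * g₂) := by
            rw [hM₁]; ring
        _ = ((⟨X - C x₁, 0⟩ : CR F) ^ N * g₁) * ((⟨C y₂, 1⟩ : CR F) ^ N * ⟨A, -B⟩) := by
            rw [f₁, f₂]
        _ = _ := by rw [hM₂]; ring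
    rw [e0, e3, sub_mul, sub_mul, e4]
    ring
  -- reductions
  set ξ := ρ x₁ with hξ
  set η := ρ y₁ with hη
  set T : (RF V)[X] := X - C ξ with hT
  have hT0 : T ≠ 0 := X_sub_C_ne_zero ξ
  set F' := F.map ρ with hF'
  set A' := A.map ρ with hA'
  set B' := B.map ρ with hB'
  have hFe : η ^ 2 = F'.eval ξ := by
    rw [hF', eval_map, hξ, eval₂_hom, ← e₁, map_pow]
  set u : CR F' := ⟨C η, 1⟩ with hu
  have cu1 : cmap ρ (⟨C y₁, 1⟩ : CR F) = u := by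
    rw [c2_cmap_mk, Polynomial.map_C, Polynomial.map_one]
  have cu2 : cmap ρ (⟨C y₂, 1⟩ : CR F) = u := by
    rw [c2_cmap_mk, Polynomial.map_C, Polynomial.map_one, ← hy]
  have cx1 : cmap ρ (⟨X - C x₁, 0⟩ : CR F) = ⟨T, 0⟩ := by
    rw [c2_cmap_mk, Polynomial.map_sub, Polynomial.map_C, Polynomial.map_X, Polynomial.map_zero]
  have cx2 : cmap ρ (⟨X - C x₂, 0⟩ : CR F) = ⟨T, 0⟩ := by
    rw [c2_cmap_mk, Polynomial.map_sub, Polynomial.map_C, Polynomial.map_X, Polynomial.map_zero,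
      ← hx]
  have cAB : cmap ρ (⟨A, B⟩ : CR F) = ⟨A', B'⟩ := rfl
  have cAB' : cmap ρ (⟨A, -B⟩ : CR F) = ⟨A', -B'⟩ := by
    rw [c2_cmap_mk, Polynomial.map_neg]
  have r₁ : u ^ N * ⟨A', B'⟩ = (⟨T, 0⟩ : CR F') ^ N * cmap ρ g₁ := by
    have := congrArg (cmap ρ) f₁
    rwa [cmap_mul, cmap_mul, cmap_pow, cmap_pow, cu1, cx1, cAB] at this
  have r₂ : u ^ N * ⟨A', -B'⟩ = (⟨T, 0⟩ : CR F') ^ N * cmap ρ g₂ := by
    have := congrArg (cmap ρ) f₂
    rwa [cmap_mul, cmap_mul, cmap_pow, cmap_pow, cu2, cx2, cAB'] at this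
  have r₂' : (⟨C η, -1⟩ : CR F') ^ N * ⟨A', B'⟩ = (⟨T, 0⟩ : CR F') ^ N * cconj (cmap ρ g₂) := by
    have := congrArg cconj r₂
    rw [cconj_mul, cconj_mul, cconj_pow, cconj_pow, cconj_mk, cconj_mk, cconj_mk, neg_neg,
      neg_zero] at this
    exact this
  obtain ⟨c, hc⟩ := c2_dvd h2 hy0 N T _ _ _ r₁ r₂'
  rw [c2_const_pow, c2_const_mul] at hc
  have hcA : A' = T ^ N * c.re := congrArg QuadraticAlgebra.re hc
  have hcB : B' = T ^ N * c.im := congrArg QuadraticAlgebra.im hc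
  have hTN : (T ^ N).natDegree = N := by
    rw [hT, natDegree_pow, natDegree_X_sub_C, mul_one]
  have hBz : B' = 0 := by
    by_contra hB0
    have h1 : (T ^ N).natDegree ≤ B'.natDegree := natDegree_le_of_dvd ⟨_, hcB⟩ hB0
    have h3 : B'.natDegree ≤ B.natDegree := natDegree_map_le
    rcases hB with hB | hB
    · apply hB0; rw [hB', hB, Polynomial.map_zero]
    · omega
  have hAz : A' ≠ 0 := by
    rcases hAB with h | h
    · exact h
    · exact absurd hBz h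
  have hcr0 : c.re ≠ 0 := by
    intro h; apply hAz; rw [hcA, h, mul_zero]
  have hcd : c.re.natDegree = 0 := by
    have h1 : A'.natDegree = N + c.re.natDegree := by
      rw [hcA, natDegree_mul (pow_ne_zero _ hT0) hcr0, hTN]
    have h3 : A'.natDegree ≤ A.natDegree := natDegree_map_le
    omega
  obtain ⟨c0, hc0⟩ : ∃ c0 : RF V, c.re = C c0 := ⟨_, eq_C_of_natDegree_eq_zero hcd⟩
  have hc0' : c0 ≠ 0 := by
    intro h; apply hcr0; rw [hc0, h, C_0]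
  have hA'' : A' = T ^ N * C c0 := by rw [hcA, hc0]
  have hCc : (C c0 : (RF V)[X]) ≠ 0 := by rwa [Ne, C_eq_zero]
  have hg₂ : cmap ρ g₂ = (⟨C c0, 0⟩ : CR F') * u ^ N := by
    apply mul_left_cancel_poly (A := T ^ N) (pow_ne_zero _ hT0)
    rw [← c2_const_pow, ← r₂, hBz, neg_zero, hA'', c2_const_pow]
    have : (⟨T ^ N * C c0, 0⟩ : CR F') = ⟨T ^ N, 0⟩ * ⟨C c0, 0⟩ := by
      rw [c2_const_mul, mul_zero]
    rw [this]
    ring
  set U : CR F' := u ^ N * u ^ N with hU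
  have hM1 : cmap ρ M₁ = (⟨C c0, 0⟩ : CR F') * U := by
    rw [hM₁, cmap_mul, cmap_pow, cu1, hg₂, hU]
    ring
  have hevU : evp ξ η U = ((2 * η) ^ N) * ((2 * η) ^ N) := by
    rw [hU, evp_mul hFe, c2_evp_pow hFe]
    have : evp ξ η u = 2 * η := by
      simp only [evp, hu, eval_C, eval_one]
      ring
    rw [this]
  have hevU0 : evp ξ η U ≠ 0 := by
    rw [hevU]
    have := mul_ne_zero h2 hy0
    exact mul_ne_zero (pow_ne_zero _ this) (pow_ne_zero _ this)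
  have hSb : Sg.map ρ = C (N : RF V) * T ^ (N - 1) := by
    rw [hSg, Polynomial.map_sum]
    have : ∀ j ∈ Finset.range N, ((X - C x₁) ^ j * (X - C x₂) ^ (N - 1 - j)).map ρ
        = T ^ (N - 1) := by
      intro j hj
      have hj' := Finset.mem_range.mp hj
      rw [Polynomial.map_mul, Polynomial.map_pow, Polynomial.map_pow, Polynomial.map_sub,
        Polynomial.map_sub, Polynomial.map_C, Polynomial.map_C, Polynomial.map_X, ← hx, ← pow_add]
      congr 1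
      omega
    rw [Finset.sum_congr rfl this, Finset.sum_const, Finset.card_range, nsmul_eq_mul]
    congr 1
  -- the scaled family
  by_contra hne
  set φ : V →+* k := algebraMap V k with hφ
  have hφi : Function.Injective φ := Subtype.val_injective
  have hδ : φ (x₂ - x₁) ≠ 0 := by
    rw [Ne, map_eq_zero_iff φ hφi, sub_eq_zero]
    exact fun h => hne h.symm
  obtain ⟨s, hs, Q, hQ, i, hi⟩ := exists_scale V
    (![C (φ (x₂ - x₁)), B.map φ, (M₂ - M₁).re.map φ, (M₂ - M₁).im.map φ] : Fin 4 → k[X])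
    ⟨0, by
      change C (φ (x₂ - x₁)) ≠ 0
      rwa [Ne, C_eq_zero]⟩
  have hQ0 : (Q 0).map φ = C s * C (φ (x₂ - x₁)) := hQ 0
  have hQ1 : (Q 1).map φ = C s * B.map φ := hQ 1
  have hQ2 : (Q 2).map φ = C s * (M₂ - M₁).re.map φ := hQ 2
  have hQ3 : (Q 3).map φ = C s * (M₂ - M₁).im.map φ := hQ 3
  have hstar2 : (⟨0, 2 * Q 1⟩ : CR F) * M₁ * (⟨X - C x₂, 0⟩ : CR F) ^ N =
      ⟨A, -B⟩ * ((⟨Q 2, Q 3⟩ : CR F) * (⟨X - C x₁, 0⟩ : CR F) ^ N +
        (⟨Q 0 * Sg, 0⟩ : CR F) * M₁) := by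
    apply cmap_injective φ hφi
    have q1 : cmap φ (⟨0, 2 * Q 1⟩ : CR F) = ⟨C s, 0⟩ * cmap φ (⟨0, 2 * B⟩ : CR F) := by
      rw [c2_cmap_mk, c2_cmap_mk, c2_const_mul, Polynomial.map_mul, hQ1, Polynomial.map_mul]
      simp only [Polynomial.map_zero, mul_zero]
      congr 1
      ring
    have q2 : cmap φ (⟨Q 2, Q 3⟩ : CR F) = ⟨C s, 0⟩ * cmap φ (M₂ - M₁) := by
      rw [c2_cmap_mk, hQ2, hQ3, c2_const_mul]
      rfl
    have q0 : cmap φ (⟨Q 0 * Sg, 0⟩ : CR F) = ⟨C s, 0⟩ * cmap φ (⟨C (x₂ - x₁) * Sg, 0⟩ : CR F) := by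
      rw [c2_cmap_mk, c2_cmap_mk, c2_const_mul, Polynomial.map_mul, hQ0, Polynomial.map_mul,
        Polynomial.map_C]
      simp only [Polynomial.map_zero, mul_zero]
      congr 1
      ring
    have key := congrArg (cmap φ) hstar
    rw [cmap_mul, cmap_mul, cmap_mul, c2_cmap_add, cmap_mul, cmap_mul] at key ⊢
    rw [q1, q2, q0]
    linear_combination (⟨C s, 0⟩ : CR (F.map φ)) * key
  have hred : (⟨0, 2 * (Q 1).map ρ⟩ : CR F') * U =
      (⟨T ^ (N - 1), 0⟩ : CR F') * ((⟨(Q 2).map ρ, (Q 3).map ρ⟩ : CR F') * ⟨T, 0⟩ +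
        (⟨(Q 0).map ρ * C (N : RF V) * C c0, 0⟩ : CR F') * U) := by
    have key := congrArg (cmap ρ) hstar2
    rw [cmap_mul, cmap_mul, cmap_mul, c2_cmap_add, cmap_mul, cmap_mul, cmap_pow, cmap_pow,
      cx1, cx2, cAB', hM1, hBz, neg_zero, hA''] at key
    have k1 : cmap ρ (⟨0, 2 * Q 1⟩ : CR F) = ⟨0, 2 * (Q 1).map ρ⟩ := by
      rw [c2_cmap_mk, Polynomial.map_mul, Polynomial.map_zero, Polynomial.map_ofNat]
    have k2 : cmap ρ (⟨Q 2, Q 3⟩ : CR F) = ⟨(Q 2).map ρ, (Q 3).map ρ⟩ := rfl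
    have k3 : cmap ρ (⟨Q 0 * Sg, 0⟩ : CR F) =
        ⟨(Q 0).map ρ * C (N : RF V), 0⟩ * ⟨T ^ (N - 1), 0⟩ := by
      rw [c2_cmap_mk, Polynomial.map_mul, hSb, c2_const_mul, Polynomial.map_zero, mul_zero]
      congr 1
      ring
    have k4 : (⟨T ^ N * C c0, 0⟩ : CR F') = ⟨T, 0⟩ ^ N * ⟨C c0, 0⟩ := by
      rw [c2_const_pow, c2_const_mul, mul_zero]
    have k5 : (⟨T, 0⟩ : CR F') ^ N = ⟨T ^ (N - 1), 0⟩ * ⟨T, 0⟩ := by
      rw [← c2_const_pow, ← pow_succ]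
      congr 1
      omega
    have k6 : (⟨(Q 0).map ρ * C (N : RF V) * C c0, 0⟩ : CR F') =
        ⟨(Q 0).map ρ * C (N : RF V), 0⟩ * ⟨C c0, 0⟩ := by
      rw [c2_const_mul, mul_zero]
    rw [k1, k2, k3, k4] at key
    apply mul_left_cancel_poly hCc
    apply mul_left_cancel_poly (A := T ^ N) (pow_ne_zero _ hT0)
    rw [← c2_const_pow, k6]
    have k7 : (⟨T, 0⟩ : CR F') ^ N * ((⟨C c0, 0⟩ : CR F') * ((⟨0, 2 * (Q 1).map ρ⟩ : CR F') * U)) =
        ⟨0, 2 * (Q 1).map ρ⟩ * (⟨C c0, 0⟩ * U) * ⟨T, 0⟩ ^ N := by ring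
    rw [k7, key]
    have k8 : (⟨(Q 2).map ρ, (Q 3).map ρ⟩ : CR F') * ⟨T, 0⟩ ^ N =
      (⟨(Q 2).map ρ, (Q 3).map ρ⟩ : CR F') * (⟨T ^ (N - 1), 0⟩ * ⟨T, 0⟩) := by rw [k5]
    rw [k8]
    ring
  have hre := congrArg QuadraticAlgebra.re hred
  have him := congrArg QuadraticAlgebra.im hred
  rw [c2_const_mul] at hre him
  set W : CR F' := (⟨(Q 2).map ρ, (Q 3).map ρ⟩ : CR F') * ⟨T, 0⟩ +
        (⟨(Q 0).map ρ * C (N : RF V) * C c0, 0⟩ : CR F') * U with hW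
  simp only [QuadraticAlgebra.re_mul, QuadraticAlgebra.im_mul, zero_mul, zero_add,
    add_zero] at hre him
  have hcop : ∀ P : (RF V)[X], P.eval ξ ≠ 0 → IsCoprime (T ^ (N - 1)) P := by
    intro P hP
    apply IsCoprime.pow_left
    rw [(irreducible_X_sub_C ξ).coprime_iff_not_dvd, dvd_iff_isRoot]
    exact hP
  have h2u : (2 : (RF V)[X]) * C (2⁻¹ : RF V) = 1 := by
    have : (2 : (RF V)[X]) = C 2 := (C_ofNat 2).symm
    rw [this, ← C_mul, mul_inv_cancel₀ h2, C_1]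
  have hdvd : T ^ (N - 1) ∣ (Q 1).map ρ := by
    by_cases hUr : U.re.eval ξ = 0
    · have hUi : U.im.eval ξ ≠ 0 := by
        intro h
        apply hevU0
        rw [evp, hUr, h, zero_mul, add_zero]
      have h1 : IsCoprime (T ^ (N - 1)) (F' * U.im) := by
        apply hcop
        rw [eval_mul, ← hFe]
        exact mul_ne_zero (pow_ne_zero _ hy0) hUi
      apply h1.dvd_of_dvd_mul_right
      refine ⟨W.re * C (2⁻¹ : RF V), ?_⟩
      linear_combination (C (2⁻¹ : RF V)) * hre - (Q 1).map ρ * F' * U.im * h2u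
    · have h1 : IsCoprime (T ^ (N - 1)) U.re := hcop _ hUr
      apply h1.dvd_of_dvd_mul_right
      refine ⟨W.im * C (2⁻¹ : RF V), ?_⟩
      linear_combination (C (2⁻¹ : RF V)) * him - (Q 1).map ρ * U.re * h2u
  have hmapdeg : ∀ P : V[X], (P.map φ).natDegree = P.natDegree := fun P =>
    natDegree_map_eq_of_injective hφi P
  have hQ1z : (Q 1).map ρ = 0 := by
    by_contra h
    have h1 := natDegree_le_of_dvd hdvd h
    rw [hT, natDegree_pow, natDegree_X_sub_C, mul_one] at h1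
    have h3 : ((Q 1).map ρ).natDegree ≤ (Q 1).natDegree := natDegree_map_le
    have h4 : (Q 1).natDegree = B.natDegree := by
      rw [← hmapdeg, hQ1, natDegree_C_mul hs, hmapdeg]
    rcases hB with hB | hB
    · apply h
      have : (Q 1).map φ = 0 := by rw [hQ1, hB, Polynomial.map_zero, mul_zero]
      rw [(Polynomial.map_eq_zero_iff hφi).mp this, Polynomial.map_zero]
    · omega
  have hWz : W = 0 := by
    apply mul_left_cancel_poly (A := T ^ (N - 1)) (pow_ne_zero _ hT0)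
    rw [← hred, hQ1z, mul_zero]
    have : (⟨0, 0⟩ : CR F') = 0 := rfl
    rw [this, zero_mul, mul_zero]
  have hQ0c : Q 0 = C ((Q 0).coeff 0) := by
    apply eq_C_of_natDegree_eq_zero
    rw [← hmapdeg, hQ0, ← C_mul, natDegree_C]
  have hevT : evp ξ η (⟨T, 0⟩ : CR F') = 0 := by
    simp [evp, hT]
  have hd : ρ ((Q 0).coeff 0) = 0 := by
    have h1 := congrArg (evp ξ η) hWz
    rw [hW, evp_add, evp_mul hFe, evp_mul hFe, hevT, mul_zero, zero_add] at h1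
    have h3 : evp ξ η (0 : CR F') = 0 := by simp [evp]
    rw [h3] at h1
    rcases mul_eq_zero.mp h1 with h | h
    · rw [hQ0c] at h
      simp only [evp, Polynomial.map_C, eval_mul, eval_C, eval_zero, zero_mul, add_zero] at h
      rcases mul_eq_zero.mp h with h | h
      · rcases mul_eq_zero.mp h with h | h
        · exact h
        · exact absurd h hN
      · exact absurd h hc0'
    · exact absurd h hevU0
  have hQ0z : (Q 0).map ρ = 0 := by
    rw [hQ0c, Polynomial.map_C, hd, C_0]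
  have hW2 : (⟨(Q 2).map ρ, (Q 3).map ρ⟩ : CR F') * ⟨T, 0⟩ = 0 := by
    rw [← hWz, hW, hQ0z]
    have : (⟨(0 : (RF V)[X]) * C (N : RF V) * C c0, 0⟩ : CR F') = 0 := by
      rw [zero_mul, zero_mul]; rfl
    rw [this, zero_mul, add_zero]
  have hQ2z : (Q 2).map ρ = 0 := by
    have := congrArg QuadraticAlgebra.re hW2
    simp only [QuadraticAlgebra.re_mul, mul_zero, add_zero, QuadraticAlgebra.re_zero] at this
    rcases mul_eq_zero.mp this with h | h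
    · exact h
    · exact absurd h hT0
  have hQ3z : (Q 3).map ρ = 0 := by
    have := congrArg QuadraticAlgebra.im hW2
    simp only [QuadraticAlgebra.im_mul, mul_zero, zero_mul, add_zero, zero_add,
      QuadraticAlgebra.im_zero] at this
    rcases mul_eq_zero.mp this with h | h
    · exact h
    · exact absurd h hT0
  apply hi
  fin_cases i
  · exact hQ0z
  · exact hQ1z
  · exact hQ2z
  · exact hQ3z

end Pool.Agent.LibJac77
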