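import Pool.Agent.LibJac77.C0
import Pool.Agent.LibJac77.C1
import Pool.Agent.LibJac77.C2

/-!
The key computation at a point which reduces to a Weierstrass point.
-/

open scoped Classical
open Polynomial IsLocalRing

namespace Pool.Agent.LibJac77

theorem c3_pow {S : Type} [CommRing S] {F : S[X]} (q : S[X]) (e : S) (N : ℕ) :
    ∃ a s a' s' : S[X], (⟨q, C e⟩ : CR F) ^ N = ⟨a, C e * s⟩ ∧ a = q ^ N + C e * a' ∧
      s = (N : S[X]) * q ^ (N - 1) + C e * s' := by
  induction N with
  | zero =>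
    refine ⟨1, 0, 0, 0, ?_, ?_, ?_⟩
    · rw [pow_zero, mul_zero]; rfl
    · simp
    · simp
  | succ n ih =>
    obtain ⟨a, s, a', s', h1, h2, h3⟩ := ih
    refine ⟨a * q + C e * C e * s * F, a + s * q, a' * q + C e * s * F, a' + s' * q, ?_, ?_, ?_⟩
    · rw [pow_succ, h1]
      apply QuadraticAlgebra.ext
      · simp only [QuadraticAlgebra.re_mul]
        ring
      · simp only [QuadraticAlgebra.im_mul]
        ring
    · rw [h2]; ring
    · rw [h2, h3]
      have : ((n : S[X]) * q ^ (n - 1)) * q = (n : S[X]) * q ^ n := by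
        rcases n with _ | n
        · simp
        · rw [Nat.add_sub_cancel, mul_assoc, ← pow_succ]
      rw [add_mul, this, Nat.add_sub_cancel]
      push_cast
      ring

variable {k : Type} [Field k]

theorem k2b_alg (V : ValuationSubring k) (F : V[X]) (h2 : (2 : RF V) ≠ 0) (N : ℕ) (hN0 : 0 < N)
    (hN : (N : RF V) ≠ 0) (x₁ y₁ x₂ y₂ : V) (θ : RF V) (hx₁ : residue V x₁ = θ)
    (hx₂ : residue V x₂ = θ) (hy₁ : residue V y₁ = 0) (hy₂ : residue V y₂ = 0)
    (hθ : (F.map (residue V)).eval θ = 0) (hθ' : (F.map (residue V)).derivative.eval θ ≠ 0)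
    (e₁ : y₁ ^ 2 = F.eval x₁) (e₂ : y₂ ^ 2 = F.eval x₂) (A B : V[X])
    (hAB : A.map (residue V) ≠ 0 ∨ B.map (residue V) ≠ 0) (hA : A.natDegree ≤ N)
    (hB : B = 0 ∨ B.natDegree + 3 ≤ N) (g₁ : CR F)
    (f₁ : (⟨F /ₘ (X - C x₁), 0⟩ : CR F) ^ N * (⟨F /ₘ (X - C x₂), 0⟩ : CR F) ^ N * ⟨A, B⟩ =
      (⟨-C y₁, 1⟩ : CR F) ^ N * (⟨C y₂, 1⟩ : CR F) ^ N * g₁) : y₁ = y₂ := by
  set ρ := residue V with hρ
  set T : (RF V)[X] := X - C θ with hT
  have hT0 : T ≠ 0 := X_sub_C_ne_zero θ
  set F' := F.map ρ with hF'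
  set A' := A.map ρ with hA'
  set B' := B.map ρ with hB'
  set F₁ : (RF V)[X] := F' /ₘ T with hF₁
  have hFF : T * F₁ = F' := by
    rw [hT, hF₁, mul_divByMonic_eq_iff_isRoot]
    exact hθ
  have hF1θ : F₁.eval θ ≠ 0 := by
    intro h
    apply hθ'
    rw [← hFF, derivative_mul, eval_add, eval_mul, eval_mul, h, hT]
    simp
  have hF10 : F₁ ≠ 0 := by
    intro h; apply hF1θ; rw [h, eval_zero]
  have hd1 : (F /ₘ (X - C x₁)).map ρ = F₁ := by
    rw [Polynomial.map_divByMonic _ (monic_X_sub_C x₁), Polynomial.map_sub, Polynomial.map_X,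
      Polynomial.map_C, hx₁]
  have hd2 : (F /ₘ (X - C x₂)).map ρ = F₁ := by
    rw [Polynomial.map_divByMonic _ (monic_X_sub_C x₂), Polynomial.map_sub, Polynomial.map_X,
      Polynomial.map_C, hx₂]
  -- the product
  set q : V[X] := F - C (y₁ * y₂) with hq
  set e : V := y₂ - y₁ with he
  have hqe : (⟨-C y₁, 1⟩ : CR F) * (⟨C y₂, 1⟩ : CR F) = ⟨q, C e⟩ := by
    apply QuadraticAlgebra.ext
    · simp only [QuadraticAlgebra.re_mul, hq, C_mul]
      ring
    · simp only [QuadraticAlgebra.im_mul, he, C_sub]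
      ring
  obtain ⟨a, s, a', s', h1, ha, hs⟩ := c3_pow (F := F) q e N
  rw [← mul_pow, ← mul_pow, hqe, h1, c2_const_mul, mul_zero, c2_const_pow, c2_const_mul] at f₁
  set G : V[X] := ((F /ₘ (X - C x₁)) * (F /ₘ (X - C x₂))) ^ N with hG
  have hGA : G * A = a * g₁.re + C e * (s * g₁.im * F) := by
    have := congrArg QuadraticAlgebra.re f₁
    simp only [QuadraticAlgebra.re_mul] at this
    rw [this]; ring
  have hGB : G * B = a * g₁.im + C e * (s * g₁.re) := by
    have := congrArg QuadraticAlgebra.im f₁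
    simp only [QuadraticAlgebra.im_mul] at this
    rw [this]; ring
  have re0 : (C e).map ρ = 0 := by
    rw [Polynomial.map_C, he, map_sub, hy₁, hy₂, sub_zero, C_0]
  have rq : q.map ρ = F' := by
    rw [hq, Polynomial.map_sub, Polynomial.map_C, map_mul, hy₁, zero_mul, C_0, sub_zero]
  have ra : a.map ρ = T ^ N * F₁ ^ N := by
    rw [ha, Polynomial.map_add, Polynomial.map_mul, re0, zero_mul, add_zero, Polynomial.map_pow,
      rq, ← hFF, mul_pow]
  have rs : s.map ρ = C (N : RF V) * (T ^ (N - 1) * F₁ ^ (N - 1)) := by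
    rw [hs, Polynomial.map_add, Polynomial.map_mul, Polynomial.map_mul, re0, zero_mul, add_zero,
      Polynomial.map_pow, rq, ← hFF, mul_pow, Polynomial.map_natCast]
    rfl
  have rG : G.map ρ = F₁ ^ N * F₁ ^ N := by
    rw [hG, Polynomial.map_pow, Polynomial.map_mul, hd1, hd2, mul_pow]
  set α := g₁.re.map ρ with hα
  set β := g₁.im.map ρ with hβ
  have rA : F₁ ^ N * A' = T ^ N * α := by
    have := congrArg (Polynomial.map ρ) hGA
    rw [Polynomial.map_add, Polynomial.map_mul, Polynomial.map_mul, Polynomial.map_mul (R := V) ρ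
      (p := C e), re0, zero_mul, add_zero, rG, ra] at this
    apply mul_left_cancel₀ (pow_ne_zero N hF10)
    rw [← mul_assoc, this]; ring
  have rB : F₁ ^ N * B' = T ^ N * β := by
    have := congrArg (Polynomial.map ρ) hGB
    rw [Polynomial.map_add, Polynomial.map_mul, Polynomial.map_mul, Polynomial.map_mul (R := V) ρ
      (p := C e), re0, zero_mul, add_zero, rG, ra] at this
    apply mul_left_cancel₀ (pow_ne_zero N hF10)
    rw [← mul_assoc, this]; ring
  have hcop : ∀ n m : ℕ, IsCoprime (T ^ n) (F₁ ^ m) := by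
    intro n m
    apply IsCoprime.pow
    rw [(irreducible_X_sub_C θ).coprime_iff_not_dvd, dvd_iff_isRoot]
    exact hF1θ
  have hTN : ∀ n : ℕ, (T ^ n).natDegree = n := by
    intro n
    rw [hT, natDegree_pow, natDegree_X_sub_C, mul_one]
  have hBz : B' = 0 := by
    by_contra hB0
    have hdvd : T ^ N ∣ B' := (hcop N N).dvd_of_dvd_mul_left ⟨β, rB⟩
    have h1 : (T ^ N).natDegree ≤ B'.natDegree := natDegree_le_of_dvd hdvd hB0
    rw [hTN] at h1
    have h3 : B'.natDegree ≤ B.natDegree := natDegree_map_le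
    rcases hB with hB | hB
    · apply hB0; rw [hB', hB, Polynomial.map_zero]
    · omega
  have hAz : A' ≠ 0 := by
    rcases hAB with h | h
    · exact h
    · exact absurd hBz h
  obtain ⟨c, hc⟩ : T ^ N ∣ A' := (hcop N N).dvd_of_dvd_mul_left ⟨α, rA⟩
  have hc0 : c ≠ 0 := by
    intro h; apply hAz; rw [hc, h, mul_zero]
  have hcd : c.natDegree = 0 := by
    have h1 : A'.natDegree = N + c.natDegree := by
      rw [hc, natDegree_mul (pow_ne_zero _ hT0) hc0, hTN]
    have h3 : A'.natDegree ≤ A.natDegree := natDegree_map_le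
    omega
  obtain ⟨c0, hc0e⟩ : ∃ c0 : RF V, c = C c0 := ⟨_, eq_C_of_natDegree_eq_zero hcd⟩
  have hc0' : c0 ≠ 0 := by
    intro h; apply hc0; rw [hc0e, h, C_0]
  have hαe : α = C c0 * F₁ ^ N := by
    apply mul_left_cancel₀ (pow_ne_zero N hT0)
    rw [← rA, hc, hc0e]; ring
  -- the scaled family
  by_contra hne
  set φ : V →+* k := algebraMap V k with hφ
  have hφi : Function.Injective φ := Subtype.val_injective
  have hδ : φ e ≠ 0 := by
    rw [Ne, map_eq_zero_iff φ hφi, he, sub_eq_zero]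
    exact fun h => hne h.symm
  obtain ⟨t, ht, Q, hQ, i, hi⟩ := exists_scale V
    (![C (φ e), B.map φ, g₁.im.map φ] : Fin 3 → k[X])
    ⟨0, by
      change C (φ e) ≠ 0
      rwa [Ne, C_eq_zero]⟩
  have hQ0 : (Q 0).map φ = C t * C (φ e) := hQ 0
  have hQ1 : (Q 1).map φ = C t * B.map φ := hQ 1
  have hQ2 : (Q 2).map φ = C t * g₁.im.map φ := hQ 2
  have hstar : G * Q 1 = a * Q 2 + Q 0 * (s * g₁.re) := by
    apply Polynomial.map_injective φ hφi
    have key := congrArg (Polynomial.map φ) hGB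
    simp only [Polynomial.map_add, Polynomial.map_mul, Polynomial.map_C] at key ⊢
    rw [hQ0, hQ1, hQ2]
    linear_combination C t * key
  have hred : F₁ ^ (N + 1) * (Q 1).map ρ =
      T ^ (N - 1) * (T * F₁ * (Q 2).map ρ + (Q 0).map ρ * C (N : RF V) * α) := by
    have key := congrArg (Polynomial.map ρ) hstar
    rw [Polynomial.map_add, Polynomial.map_mul, Polynomial.map_mul, Polynomial.map_mul,
      Polynomial.map_mul, rG, ra, rs, ← hα] at key
    apply mul_left_cancel₀ (pow_ne_zero (N - 1) hF10)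
    have k1 : F₁ ^ N = F₁ ^ (N - 1) * F₁ := by rw [← pow_succ]; congr 1; omega
    have k2 : T ^ N = T ^ (N - 1) * T := by rw [← pow_succ]; congr 1; omega
    have k3 : F₁ ^ (N - 1) * (F₁ ^ (N + 1) * (Q 1).map ρ) = F₁ ^ N * F₁ ^ N * (Q 1).map ρ := by
      rw [pow_succ, k1]; ring
    rw [k3, key, k1, k2]
    ring
  have hmapdeg : ∀ P : V[X], (P.map φ).natDegree = P.natDegree := fun P =>
    natDegree_map_eq_of_injective hφi P
  have hQ1z : (Q 1).map ρ = 0 := by
    by_contra h
    have hdvd : T ^ (N - 1) ∣ (Q 1).map ρ := (hcop (N - 1) (N + 1)).dvd_of_dvd_mul_left ⟨_, hred⟩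
    have h1 := natDegree_le_of_dvd hdvd h
    rw [hTN] at h1
    have h3 : ((Q 1).map ρ).natDegree ≤ (Q 1).natDegree := natDegree_map_le
    have h4 : (Q 1).natDegree = B.natDegree := by
      rw [← hmapdeg, hQ1, natDegree_C_mul ht, hmapdeg]
    rcases hB with hB | hB
    · apply h
      have : (Q 1).map φ = 0 := by rw [hQ1, hB, Polynomial.map_zero, mul_zero]
      rw [(Polynomial.map_eq_zero_iff hφi).mp this, Polynomial.map_zero]
    · omega
  have hWz : T * F₁ * (Q 2).map ρ + (Q 0).map ρ * C (N : RF V) * α = 0 := by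
    rw [hQ1z, mul_zero] at hred
    rcases mul_eq_zero.mp hred.symm with h | h
    · exact absurd h (pow_ne_zero _ hT0)
    · exact h
  have hQ0c : Q 0 = C ((Q 0).coeff 0) := by
    apply eq_C_of_natDegree_eq_zero
    rw [← hmapdeg, hQ0, ← C_mul, natDegree_C]
  have hd : ρ ((Q 0).coeff 0) = 0 := by
    have h1 := congrArg (eval θ) hWz
    rw [hQ0c, hαe] at h1
    simp only [eval_add, eval_mul, eval_pow, eval_C, Polynomial.map_C, hT, eval_sub, eval_X,
      sub_self, zero_mul, zero_add, eval_zero] at h1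
    rcases mul_eq_zero.mp h1 with h | h
    · rcases mul_eq_zero.mp h with h | h
      · exact h
      · exact absurd h hN
    · rcases mul_eq_zero.mp h with h | h
      · exact absurd h hc0'
      · exact absurd h (pow_ne_zero _ hF1θ)
  have hQ0z : (Q 0).map ρ = 0 := by
    rw [hQ0c, Polynomial.map_C, hd, C_0]
  have hQ2z : (Q 2).map ρ = 0 := by
    rw [hQ0z, zero_mul, zero_mul, add_zero] at hWz
    rcases mul_eq_zero.mp hWz with h | h
    · exact absurd h (mul_ne_zero hT0 hF10)
    · exact h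
  apply hi
  fin_cases i
  · exact hQ0z
  · exact hQ1z
  · exact hQ2z

end Pool.Agent.LibJac77
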