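import Pool.Agent.LibJac77.C0
import Pool.Agent.LibJac77.C1

/-!
Elements of `V[x, y] / (y ^ 2 - F(x))` as functions on a double cover; zeros and divisibility.
-/

open scoped Classical
open Polynomial IsLocalRing

namespace Pool.Agent.LibJac77

open Pool.Agent.LibBH2

variable {k : Type} [Field k] {K : Type} [Field K] [Algebra k K] {V : ValuationSubring k}

/-- `A(x) + B(x) y` as a function -/
noncomputable def toD (𝒟 : DC k K) {F : V[X]} (g : CR F) : K :=
  aeval 𝒟.s (g.re.map (algebraMap V k)) + aeval 𝒟.s (g.im.map (algebraMap V k)) * 𝒟.w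

theorem toD_mul (𝒟 : DC k K) {F : V[X]} (hF : F.map (algebraMap V k) = 𝒟.F) (g g' : CR F) :
    toD 𝒟 (g * g') = toD 𝒟 g * toD 𝒟 g' := by
  have h := 𝒟.aeval_F
  rw [← hF] at h
  simp only [toD, QuadraticAlgebra.re_mul, QuadraticAlgebra.im_mul, Polynomial.map_add,
    Polynomial.map_mul, map_add, map_mul, zero_mul, add_zero]
  linear_combination (-(aeval 𝒟.s (g.im.map (algebraMap V k)) *
    aeval 𝒟.s (g'.im.map (algebraMap V k)))) * h

theorem toD_one (𝒟 : DC k K) {F : V[X]} : toD 𝒟 (1 : CR F) = 1 := by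
  simp [toD, QuadraticAlgebra.re_one, QuadraticAlgebra.im_one]

theorem toD_pow (𝒟 : DC k K) {F : V[X]} (hF : F.map (algebraMap V k) = 𝒟.F) (g : CR F) (n : ℕ) :
    toD 𝒟 (g ^ n) = toD 𝒟 g ^ n := by
  induction n with
  | zero => rw [pow_zero, pow_zero, toD_one]
  | succ n ih => rw [pow_succ, pow_succ, toD_mul 𝒟 hF, ih]

theorem toD_eq_zero_iff (𝒟 : DC k K) {F : V[X]}
    (hns : ¬ IsSquare (algebraMap k[X] (RatFunc k) 𝒟.F)) (g : CR F) : toD 𝒟 g = 0 ↔ g = 0 := by
  have hinj : Function.Injective (Polynomial.map (algebraMap V k)) :=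
    Polynomial.map_injective _ (FaithfulSMul.algebraMap_injective V k)
  constructor
  · intro h
    set A := g.re.map (algebraMap V k) with hA
    set B := g.im.map (algebraMap V k) with hB
    have h1 : aeval 𝒟.s A + aeval 𝒟.s B * 𝒟.w = 0 := h
    have h2 := 𝒟.aeval_F
    have h3 : aeval 𝒟.s (A ^ 2 - B ^ 2 * 𝒟.F) = 0 := by
      simp only [map_sub, map_mul, map_pow, ← h2]
      linear_combination (aeval 𝒟.s A - aeval 𝒟.s B * 𝒟.w) * h1
    have h4 : A ^ 2 - B ^ 2 * 𝒟.F = 0 := by
      by_contra hne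
      exact 𝒟.aeval_ne_zero hne h3
    have hB0 : B = 0 := by
      by_contra hne
      apply hns
      have hB1 : algebraMap k[X] (RatFunc k) B ≠ 0 := RatFunc.algebraMap_ne_zero hne
      refine ⟨algebraMap k[X] (RatFunc k) A / algebraMap k[X] (RatFunc k) B, ?_⟩
      have h5 := congrArg (algebraMap k[X] (RatFunc k)) h4
      simp only [map_sub, map_mul, map_pow, map_zero] at h5
      field_simp
      linear_combination -h5
    have hA0 : A = 0 := by
      rw [hB0] at h4
      simpa using h4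
    have e1 : g.re = 0 := hinj (by rw [Polynomial.map_zero]; exact hA0)
    have e2 : g.im = 0 := hinj (by rw [Polynomial.map_zero]; exact hB0)
    exact QuadraticAlgebra.ext e1 e2
  · rintro rfl
    simp [toD]

theorem toD_val (𝒟 : DC k K) {F : V[X]} (v : Place k K) {x y : V}
    (hs : v.Zer (𝒟.s - algebraMap k K x)) (hw : v.Zer (𝒟.w - algebraMap k K y)) (g : CR F) :
    v.Zer (toD 𝒟 g - algebraMap k K ((evp x y g : V) : k)) := by
  have h1 := Place.val_add (Place.val_aeval hs (g.re.map (algebraMap V k)))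
    (Place.val_mul (Place.val_aeval hs (g.im.map (algebraMap V k))) hw)
  have h2 : ((evp x y g : V) : k) = (g.re.map (algebraMap V k)).eval (x : k) +
      (g.im.map (algebraMap V k)).eval (x : k) * (y : k) := by
    have e (P : V[X]) : (P.map (algebraMap V k)).eval (x : k) = ((P.eval x : V) : k) := by
      have := Polynomial.eval₂_at_apply (p := P) (algebraMap V k) x
      rw [← Polynomial.eval_map] at this
      exact this
    rw [e, e]
    simp [evp]
  rw [h2]
  exact h1

/-- a function with positive order at the place over `(x, y)` vanishes at `(x, y)` -/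
theorem evp_eq_zero (𝒟 : DC k K) {F : V[X]} (v : Place k K) {x y : V}
    (hs : v.Zer (𝒟.s - algebraMap k K x)) (hw : v.Zer (𝒟.w - algebraMap k K y)) (g : CR F)
    (hg : 0 < v.ord (toD 𝒟 g)) : evp x y g = 0 := by
  by_contra hne
  have h1 : ((evp x y g : V) : k) ≠ 0 := by
    intro h
    exact hne (Subtype.ext h)
  have := Place.ord_eq_zero_of_val (toD_val 𝒟 v hs hw g) h1
  omega

theorem ord_eq_zero_of_evp (𝒟 : DC k K) {F : V[X]} (v : Place k K) {x y : V}
    (hs : v.Zer (𝒟.s - algebraMap k K x)) (hw : v.Zer (𝒟.w - algebraMap k K y)) (g : CR F)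
    (hg : evp x y g ≠ 0) : v.ord (toD 𝒟 g) = 0 := by
  have h1 : ((evp x y g : V) : k) ≠ 0 := by
    intro h
    exact hg (Subtype.ext h)
  exact Place.ord_eq_zero_of_val (toD_val 𝒟 v hs hw g) h1

end Pool.Agent.LibJac77
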