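import Pool.Agent.LibJac77.C4

/-!
Divisibility at an unramified point.
-/

open scoped Classical
open Polynomial IsLocalRing

namespace Pool.Agent.LibJac77

open Pool.Agent.LibBH2

variable {k : Type} [Field k] [CharZero k] {K : Type} [Field K] [Algebra k K]
  {V : ValuationSubring k}

omit [CharZero k] in
theorem xsub_ne_zero {x : V} {F : V[X]} : (⟨X - C x, 0⟩ : CR F) ≠ 0 := by
  intro h
  have := congrArg QuadraticAlgebra.re h
  exact X_sub_C_ne_zero x this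

omit [CharZero k] in
theorem toD_xsub (𝒟 : DC k K) {F : V[X]} (x : V) :
    toD 𝒟 (⟨X - C x, 0⟩ : CR F) = 𝒟.s - algebraMap k K x := by
  simp [toD]

omit [CharZero k] in
theorem toD_w_add (𝒟 : DC k K) {F : V[X]} (y : V) :
    toD 𝒟 (⟨C y, 1⟩ : CR F) = 𝒟.w + algebraMap k K y := by
  simp [toD]
  rw [add_comm]

theorem factor_unram (𝒟 : DC k K) (F : V[X]) (hF : F.map (algebraMap V k) = 𝒟.F)
    (hns : ¬ IsSquare (algebraMap k[X] (RatFunc k) 𝒟.F)) (v : Place k K) {x y : V}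
    (e : y ^ 2 = F.eval x) (hy : y ≠ 0) (hs : v.Zer (𝒟.s - algebraMap k K x))
    (hw : v.Zer (𝒟.w - algebraMap k K y)) (N : ℕ) (g : CR F) (hg : g ≠ 0)
    (hN : (N : ℤ) ≤ v.ord (toD 𝒟 g)) :
    ∃ g₁ : CR F, (⟨C y, 1⟩ : CR F) ^ N * g = (⟨X - C x, 0⟩ : CR F) ^ N * g₁ := by
  have hyk : (y : k) ≠ 0 := fun h => hy (Subtype.ext h)
  have h2 : (2 : k) ≠ 0 := two_ne_zero
  have hs1 : v.ord (𝒟.s - algebraMap k K x) = 1 := 𝒟.unram_e h2 hyk v hs hw
  have hw0 : v.ord (toD 𝒟 (⟨C y, 1⟩ : CR F)) = 0 := by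
    apply ord_eq_zero_of_evp 𝒟 v hs hw
    simp only [evp, eval_C, eval_one, one_mul]
    intro h
    have : (2 : k) * y = 0 := by
      have h' : (y : k) + (y : k) = 0 := congrArg (fun z : V => (z : k)) h
      linear_combination h'
    exact (mul_ne_zero h2 hyk) this
  have hwne : (⟨C y, 1⟩ : CR F) ≠ 0 := by
    intro h
    have := congrArg QuadraticAlgebra.im h
    exact one_ne_zero this
  have hxne : (⟨X - C x, 0⟩ : CR F) ≠ 0 := xsub_ne_zero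
  have key : ∀ m : ℕ, m ≤ N → ∃ g₁ : CR F,
      (⟨C y, 1⟩ : CR F) ^ m * g = (⟨X - C x, 0⟩ : CR F) ^ m * g₁ := by
    intro m
    induction m with
    | zero => intro _; exact ⟨g, by simp⟩
    | succ m ih =>
      intro hm
      obtain ⟨g₁, hg₁⟩ := ih (by omega)
      -- order of g₁
      have hD := congrArg (toD 𝒟) hg₁
      rw [toD_mul 𝒟 hF, toD_mul 𝒟 hF, toD_pow 𝒟 hF, toD_pow 𝒟 hF] at hD
      have hgD : toD 𝒟 g ≠ 0 := fun h => hg ((toD_eq_zero_iff 𝒟 hns g).1 h)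
      have hwD : toD 𝒟 (⟨C y, 1⟩ : CR F) ≠ 0 :=
        fun h => hwne ((toD_eq_zero_iff 𝒟 hns _).1 h)
      have hxD : toD 𝒟 (⟨X - C x, 0⟩ : CR F) ≠ 0 :=
        fun h => hxne ((toD_eq_zero_iff 𝒟 hns _).1 h)
      have hg1D : toD 𝒟 g₁ ≠ 0 := by
        intro h
        rw [h, mul_zero] at hD
        exact mul_ne_zero (pow_ne_zero _ hwD) hgD hD
      have hord := congrArg v.ord hD
      rw [v.ord_mul _ _ (pow_ne_zero _ hwD) hgD, v.ord_mul _ _ (pow_ne_zero _ hxD) hg1D,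
        v.ord_pow, v.ord_pow, hw0, toD_xsub, hs1] at hord
      have hpos : 0 < v.ord (toD 𝒟 g₁) := by
        have : (m : ℤ) + 1 ≤ N := by exact_mod_cast hm
        linarith
      obtain ⟨g₂, hg₂⟩ := step_unram e g₁ (evp_eq_zero 𝒟 v hs hw g₁ hpos)
      refine ⟨g₂, ?_⟩
      calc (⟨C y, 1⟩ : CR F) ^ (m + 1) * g = (⟨C y, 1⟩ : CR F) * ((⟨C y, 1⟩ : CR F) ^ m * g) := by
            rw [pow_succ]; ring
        _ = (⟨X - C x, 0⟩ : CR F) ^ m * ((⟨C y, 1⟩ : CR F) * g₁) := by rw [hg₁]; ring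
        _ = (⟨X - C x, 0⟩ : CR F) ^ (m + 1) * g₂ := by rw [hg₂, pow_succ]; ring
  exact key N le_rfl

end Pool.Agent.LibJac77
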