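import Pool.Agent.LibJac77.C4
import Pool.Agent.LibJac77.C5a

/-!
Divisibility at a point with `F' ≠ 0`.
-/

open scoped Classical
open Polynomial IsLocalRing

namespace Pool.Agent.LibJac77

open Pool.Agent.LibBH2

variable {k : Type} [Field k] [CharZero k] {K : Type} [Field K] [Algebra k K]
  {V : ValuationSubring k}

theorem eval_dd {S : Type} [CommRing S] (F : S[X]) (x : S) :
    (F /ₘ (X - C x)).eval x = F.derivative.eval x := by
  have h := modByMonic_add_div F (X - C x)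
  rw [modByMonic_X_sub_C_eq_C_eval] at h
  have h2 := congrArg (fun P : S[X] => P.derivative.eval x) h
  simp only [derivative_add, derivative_C, derivative_mul, derivative_X_sub_C, eval_add, eval_mul,
    eval_sub, eval_X, eval_C, zero_add, sub_self, zero_mul, add_zero, one_mul] at h2
  exact h2

theorem dd_spec {S : Type} [CommRing S] (F : S[X]) (x : S) :
    (X - C x) * (F /ₘ (X - C x)) = F - C (F.eval x) := by
  have h := modByMonic_add_div F (X - C x)
  rw [modByMonic_X_sub_C_eq_C_eval] at h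
  linear_combination h

omit [CharZero k] in
theorem toD_w_sub (𝒟 : DC k K) {F : V[X]} (y : V) :
    toD 𝒟 (⟨-C y, 1⟩ : CR F) = 𝒟.w - algebraMap k K y := by
  simp [toD]
  ring

omit [CharZero k] in
theorem wsub_ne_zero {y : V} {F : V[X]} : (⟨-C y, 1⟩ : CR F) ≠ 0 := by
  intro h
  have := congrArg QuadraticAlgebra.im h
  exact one_ne_zero this

/-- the function `w - y` is a local parameter at `(x, y)` if `F'(x) ≠ 0` -/
theorem ord_w_sub (𝒟 : DC k K) (F : V[X]) (hF : F.map (algebraMap V k) = 𝒟.F) (v : Place k K)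
    {x y : V} (e : y ^ 2 = F.eval x) (hd : F.derivative.eval x ≠ 0)
    (hs : v.Zer (𝒟.s - algebraMap k K x)) (hw : v.Zer (𝒟.w - algebraMap k K y)) :
    v.ord (toD 𝒟 (⟨-C y, 1⟩ : CR F)) = 1 := by
  have hev (P : V[X]) : (P.map (algebraMap V k)).eval (x : k) = ((P.eval x : V) : k) := by
    have := Polynomial.eval₂_at_apply (p := P) (algebraMap V k) x
    rw [← Polynomial.eval_map] at this
    exact this
  have hd' : 𝒟.F.derivative.eval (x : k) ≠ 0 := by
    rw [← hF, derivative_map, hev]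
    exact fun h => hd (Subtype.ext h)
  by_cases hy : y = 0
  · subst hy
    have h0 : 𝒟.F.eval (x : k) = 0 := by
      rw [← hF, hev, ← e]
      simp
    rw [toD_w_sub]
    have := 𝒟.ram_e h0 hd' v hs
    simpa using this
  · have hyk : (y : k) ≠ 0 := fun h => hy (Subtype.ext h)
    have h2 : (2 : k) ≠ 0 := two_ne_zero
    have hs1 : v.ord (𝒟.s - algebraMap k K x) = 1 := 𝒟.unram_e h2 hyk v hs hw
    have hprod : (⟨-C y, 1⟩ : CR F) * (⟨C y, 1⟩ : CR F) =
        (⟨X - C x, 0⟩ : CR F) * (⟨F /ₘ (X - C x), 0⟩ : CR F) := by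
      ext1
      · simp only [QuadraticAlgebra.re_mul, mul_zero, add_zero, mul_one]
        rw [dd_spec, ← e]
        simp only [map_pow]
        ring
      · simp
    have hD := congrArg (toD 𝒟) hprod
    rw [toD_mul 𝒟 hF, toD_mul 𝒟 hF] at hD
    have hw0 : v.ord (toD 𝒟 (⟨C y, 1⟩ : CR F)) = 0 := by
      apply ord_eq_zero_of_evp 𝒟 v hs hw
      simp only [evp, eval_C, eval_one, one_mul]
      intro h
      have h' : (y : k) + (y : k) = 0 := congrArg (fun z : V => (z : k)) h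
      have : (2 : k) * y = 0 := by linear_combination h'
      exact (mul_ne_zero h2 hyk) this
    have hdd0 : v.ord (toD 𝒟 (⟨F /ₘ (X - C x), 0⟩ : CR F)) = 0 := by
      apply ord_eq_zero_of_evp 𝒟 v hs hw
      simp only [evp, eval_zero, zero_mul, add_zero]
      rw [eval_dd]
      exact hd
    have hn1 : toD 𝒟 (⟨X - C x, 0⟩ : CR F) ≠ 0 := by
      rw [toD_xsub]
      exact 𝒟.s_sub_ne_zero _
    have hn2 : toD 𝒟 (⟨F /ₘ (X - C x), 0⟩ : CR F) ≠ 0 := by
      have h3 : (F /ₘ (X - C x)).map (algebraMap V k) ≠ 0 := by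
        intro h
        have h4 := hev (F /ₘ (X - C x))
        rw [h, eval_zero, eval_dd] at h4
        exact hd (Subtype.ext h4.symm)
      have := 𝒟.aeval_ne_zero h3
      simpa [toD] using this
    have hn3 : toD 𝒟 (⟨-C y, 1⟩ : CR F) * toD 𝒟 (⟨C y, 1⟩ : CR F) ≠ 0 := by
      rw [hD]
      exact mul_ne_zero hn1 hn2
    have hord := congrArg v.ord hD
    rw [v.ord_mul _ _ (left_ne_zero_of_mul hn3) (right_ne_zero_of_mul hn3),
      v.ord_mul _ _ hn1 hn2, hw0, hdd0, toD_xsub, hs1] at hord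
    linarith

theorem factor_ram (𝒟 : DC k K) (F : V[X]) (hF : F.map (algebraMap V k) = 𝒟.F)
    (hns : ¬ IsSquare (algebraMap k[X] (RatFunc k) 𝒟.F)) (v : Place k K) {x y : V}
    (e : y ^ 2 = F.eval x) (hd : F.derivative.eval x ≠ 0)
    (hs : v.Zer (𝒟.s - algebraMap k K x)) (hw : v.Zer (𝒟.w - algebraMap k K y)) (N : ℕ)
    (g : CR F) (hg : g ≠ 0) (hN : (N : ℤ) ≤ v.ord (toD 𝒟 g)) :
    ∃ g₁ : CR F, (⟨F /ₘ (X - C x), 0⟩ : CR F) ^ N * g = (⟨-C y, 1⟩ : CR F) ^ N * g₁ := by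
  have hw1 := ord_w_sub 𝒟 F hF v e hd hs hw
  have hdd0 : v.ord (toD 𝒟 (⟨F /ₘ (X - C x), 0⟩ : CR F)) = 0 := by
    apply ord_eq_zero_of_evp 𝒟 v hs hw
    simp only [evp, eval_zero, zero_mul, add_zero]
    rw [eval_dd]
    exact hd
  have hdne : (⟨F /ₘ (X - C x), 0⟩ : CR F) ≠ 0 := by
    intro h
    have h1 := congrArg (evp x y) h
    simp only [evp, eval_zero, zero_mul, add_zero, eval_dd, QuadraticAlgebra.re_zero,
      QuadraticAlgebra.im_zero] at h1
    exact hd h1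
  have key : ∀ m : ℕ, m ≤ N → ∃ g₁ : CR F,
      (⟨F /ₘ (X - C x), 0⟩ : CR F) ^ m * g = (⟨-C y, 1⟩ : CR F) ^ m * g₁ := by
    intro m
    induction m with
    | zero => intro _; exact ⟨g, by simp⟩
    | succ m ih =>
      intro hm
      obtain ⟨g₁, hg₁⟩ := ih (by omega)
      have hD := congrArg (toD 𝒟) hg₁
      rw [toD_mul 𝒟 hF, toD_mul 𝒟 hF, toD_pow 𝒟 hF, toD_pow 𝒟 hF] at hD
      have hgD : toD 𝒟 g ≠ 0 := fun h => hg ((toD_eq_zero_iff 𝒟 hns g).1 h)
      have hwD : toD 𝒟 (⟨-C y, 1⟩ : CR F) ≠ 0 :=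
        fun h => wsub_ne_zero ((toD_eq_zero_iff 𝒟 hns _).1 h)
      have hxD : toD 𝒟 (⟨F /ₘ (X - C x), 0⟩ : CR F) ≠ 0 :=
        fun h => hdne ((toD_eq_zero_iff 𝒟 hns _).1 h)
      have hg1D : toD 𝒟 g₁ ≠ 0 := by
        intro h
        rw [h, mul_zero] at hD
        exact mul_ne_zero (pow_ne_zero _ hxD) hgD hD
      have hord := congrArg v.ord hD
      rw [v.ord_mul _ _ (pow_ne_zero _ hxD) hgD, v.ord_mul _ _ (pow_ne_zero _ hwD) hg1D,
        v.ord_pow, v.ord_pow, hw1, hdd0] at hord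
      have hpos : 0 < v.ord (toD 𝒟 g₁) := by
        have : (m : ℤ) + 1 ≤ N := by exact_mod_cast hm
        linarith
      obtain ⟨g₂, hg₂⟩ := step_ram e g₁ (evp_eq_zero 𝒟 v hs hw g₁ hpos)
      refine ⟨g₂, ?_⟩
      calc (⟨F /ₘ (X - C x), 0⟩ : CR F) ^ (m + 1) * g
          = (⟨F /ₘ (X - C x), 0⟩ : CR F) * ((⟨F /ₘ (X - C x), 0⟩ : CR F) ^ m * g) := by
            rw [pow_succ]; ring
        _ = (⟨-C y, 1⟩ : CR F) ^ m * ((⟨F /ₘ (X - C x), 0⟩ : CR F) * g₁) := by rw [hg₁]; ring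
        _ = (⟨-C y, 1⟩ : CR F) ^ (m + 1) * g₂ := by rw [hg₂, pow_succ]; ring
  exact key N le_rfl

end Pool.Agent.LibJac77
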