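import Pool.Agent.LibJac77.C4
import Pool.Agent.LibJac77.C5b

/-!
Two points reducing to the same Weierstrass point.
-/

open scoped Classical
open Polynomial IsLocalRing

namespace Pool.Agent.LibJac77

open Pool.Agent.LibBH2

variable {k : Type} [Field k] [CharZero k] {K : Type} [Field K] [Algebra k K]
  {V : ValuationSubring k}

omit [CharZero k] in
theorem eval_ne_zero_of_residue (P : V[X]) {x : V} {θ : RF V} (hx : residue V x = θ)
    (h : (P.map (residue V)).eval θ ≠ 0) : P.eval x ≠ 0 := by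
  intro h0
  apply h
  rw [← hx, Polynomial.eval_map, Polynomial.eval₂_at_apply, h0, map_zero]

omit [CharZero k] in
theorem dd_eval_ne_zero (F : V[X]) {x₁ x₂ : V} {θ : RF V} (hx₁ : residue V x₁ = θ)
    (hx₂ : residue V x₂ = θ) (hθ' : (F.map (residue V)).derivative.eval θ ≠ 0) :
    (F /ₘ (X - C x₁)).eval x₂ ≠ 0 := by
  apply eval_ne_zero_of_residue _ hx₂
  rw [Polynomial.map_divByMonic _ (monic_X_sub_C x₁), Polynomial.map_sub, Polynomial.map_X,
    Polynomial.map_C, hx₁, eval_dd]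
  exact hθ'

/-- two points reducing to the same Weierstrass point -/
theorem k2b_factor (𝒟 : DC k K) (F : V[X]) (hF : F.map (algebraMap V k) = 𝒟.F)
    (hns : ¬ IsSquare (algebraMap k[X] (RatFunc k) 𝒟.F)) (v v' : Place k K) {x₁ y₁ x₂ y₂ : V}
    (θ : RF V) (hx₁ : residue V x₁ = θ) (hx₂ : residue V x₂ = θ) (hy₁ : residue V y₁ = 0)
    (hy₂ : residue V y₂ = 0) (hθ' : (F.map (residue V)).derivative.eval θ ≠ 0)
    (e₁ : y₁ ^ 2 = F.eval x₁) (e₂ : y₂ ^ 2 = F.eval x₂)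
    (hs : v.Zer (𝒟.s - algebraMap k K x₁)) (hw : v.Zer (𝒟.w - algebraMap k K y₁))
    (hs' : v'.Zer (𝒟.s - algebraMap k K x₂)) (hw' : v'.Zer (𝒟.w + algebraMap k K y₂)) (N : ℕ)
    (g : CR F) (hg : g ≠ 0) (hN : (N : ℤ) ≤ v.ord (toD 𝒟 g)) (hN' : (N : ℤ) ≤ v'.ord (toD 𝒟 g))
    (hNN : v = v' → (2 * N : ℤ) ≤ v.ord (toD 𝒟 g)) :
    ∃ g₁ : CR F, (⟨F /ₘ (X - C x₁), 0⟩ : CR F) ^ N * (⟨F /ₘ (X - C x₂), 0⟩ : CR F) ^ N * g =
      (⟨-C y₁, 1⟩ : CR F) ^ N * (⟨C y₂, 1⟩ : CR F) ^ N * g₁ := by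
  have hev (P : V[X]) (x : V) : (P.map (algebraMap V k)).eval (x : k) = ((P.eval x : V) : k) := by
    have := Polynomial.eval₂_at_apply (p := P) (algebraMap V k) x
    rw [← Polynomial.eval_map] at this
    exact this
  have hd₁ : F.derivative.eval x₁ ≠ 0 := by
    apply eval_ne_zero_of_residue _ hx₁
    rw [← derivative_map]
    exact hθ'
  have hd₂ : F.derivative.eval x₂ ≠ 0 := by
    apply eval_ne_zero_of_residue _ hx₂
    rw [← derivative_map]
    exact hθ'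
  have hdd12 := dd_eval_ne_zero F hx₁ hx₂ hθ'
  have hw'' : v'.Zer (𝒟.w - algebraMap k K ((-y₂ : V) : k)) := by
    have : 𝒟.w - algebraMap k K ((-y₂ : V) : k) = 𝒟.w + algebraMap k K y₂ := by
      have h1 : ((-y₂ : V) : k) = -(y₂ : k) := rfl
      rw [h1, map_neg, sub_neg_eq_add]
    rw [this]
    exact hw'
  obtain ⟨g₁, hg₁⟩ := factor_ram 𝒟 F hF hns v e₁ hd₁ hs hw N g hg hN
  -- nonvanishing
  have hdne : (⟨F /ₘ (X - C x₁), 0⟩ : CR F) ≠ 0 := by
    intro h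
    have h1 := congrArg (evp x₂ y₂) h
    simp only [evp, eval_zero, zero_mul, add_zero, QuadraticAlgebra.re_zero,
      QuadraticAlgebra.im_zero] at h1
    exact hdd12 h1
  have hD := congrArg (toD 𝒟) hg₁
  rw [toD_mul 𝒟 hF, toD_mul 𝒟 hF, toD_pow 𝒟 hF, toD_pow 𝒟 hF] at hD
  have hgD : toD 𝒟 g ≠ 0 := fun h => hg ((toD_eq_zero_iff 𝒟 hns g).1 h)
  have hwD : toD 𝒟 (⟨-C y₁, 1⟩ : CR F) ≠ 0 :=
    fun h => wsub_ne_zero ((toD_eq_zero_iff 𝒟 hns _).1 h)
  have hxD : toD 𝒟 (⟨F /ₘ (X - C x₁), 0⟩ : CR F) ≠ 0 :=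
    fun h => hdne ((toD_eq_zero_iff 𝒟 hns _).1 h)
  have hg1D : toD 𝒟 g₁ ≠ 0 := by
    intro h
    rw [h, mul_zero] at hD
    exact mul_ne_zero (pow_ne_zero _ hxD) hgD hD
  have hg1 : g₁ ≠ 0 := fun h => hg1D ((toD_eq_zero_iff 𝒟 hns _).2 h)
  have hdd0 : v'.ord (toD 𝒟 (⟨F /ₘ (X - C x₁), 0⟩ : CR F)) = 0 := by
    apply ord_eq_zero_of_evp 𝒟 v' hs' hw''
    simp only [evp, eval_zero, zero_mul, add_zero]
    exact hdd12
  have hord := congrArg v'.ord hD
  rw [v'.ord_mul _ _ (pow_ne_zero _ hxD) hgD, v'.ord_mul _ _ (pow_ne_zero _ hwD) hg1D,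
    v'.ord_pow, v'.ord_pow, hdd0] at hord
  have hN1 : (N : ℤ) ≤ v'.ord (toD 𝒟 g₁) := by
    by_cases hyy : y₁ + y₂ = 0
    · -- then the two points agree and `v = v'`
      have hy2 : y₂ = -y₁ := by linear_combination hyy
      have hFF : F.eval x₁ = F.eval x₂ := by rw [← e₁, ← e₂, hy2, neg_sq]
      have hxx : x₂ = x₁ := by
        have h1 := congrArg (Polynomial.eval x₂) (dd_spec F x₁)
        simp only [eval_mul, eval_sub, eval_X, eval_C] at h1
        rw [hFF, sub_self] at h1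
        rcases mul_eq_zero.1 h1 with h | h
        · exact sub_eq_zero.1 h
        · exact absurd h hdd12
      subst hxx
      have hvv : v = v' := by
        have hw3 : v'.Zer (𝒟.w - algebraMap k K y₁) := by
          have : 𝒟.w - algebraMap k K ((-y₂ : V) : k) = 𝒟.w - algebraMap k K y₁ := by
            rw [hy2, neg_neg]
          rw [← this]
          exact hw''
        by_cases hy : y₁ = 0
        · have h0 : 𝒟.F.eval (x₂ : k) = 0 := by
            rw [← hF, hev, ← e₁, hy]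
            simp
          have hd' : 𝒟.F.derivative.eval (x₂ : k) ≠ 0 := by
            rw [← hF, derivative_map, hev]
            exact fun h => hd₁ (Subtype.ext h)
          exact 𝒟.ram_unique h0 hd' v v' hs hs'
        · have hyk : (y₁ : k) ≠ 0 := fun h => hy (Subtype.ext h)
          exact 𝒟.unram_unique two_ne_zero hyk v v' hs hw hs' hw3
      subst hvv
      have h1 := hNN rfl
      rw [ord_w_sub 𝒟 F hF v e₁ hd₁ hs hw] at hord
      linarith
    · have h0 : v'.ord (toD 𝒟 (⟨-C y₁, 1⟩ : CR F)) = 0 := by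
        apply ord_eq_zero_of_evp 𝒟 v' hs' hw''
        simp only [evp, eval_neg, eval_C, eval_one, one_mul]
        intro h
        apply hyy
        linear_combination -h
      rw [h0] at hord
      linarith
  have e₂' : (-y₂) ^ 2 = F.eval x₂ := by rw [neg_sq, e₂]
  obtain ⟨g₂, hg₂⟩ := factor_ram 𝒟 F hF hns v' e₂' hd₂ hs' hw'' N g₁ hg1 hN1
  refine ⟨g₂, ?_⟩
  have hneg : (-C (-y₂) : V[X]) = C y₂ := by rw [C_neg, neg_neg]
  rw [hneg] at hg₂
  calc (⟨F /ₘ (X - C x₁), 0⟩ : CR F) ^ N * (⟨F /ₘ (X - C x₂), 0⟩ : CR F) ^ N * g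
      = (⟨F /ₘ (X - C x₂), 0⟩ : CR F) ^ N * ((⟨F /ₘ (X - C x₁), 0⟩ : CR F) ^ N * g) := by ring
    _ = (⟨-C y₁, 1⟩ : CR F) ^ N * ((⟨F /ₘ (X - C x₂), 0⟩ : CR F) ^ N * g₁) := by rw [hg₁]; ring
    _ = (⟨-C y₁, 1⟩ : CR F) ^ N * (⟨C y₂, 1⟩ : CR F) ^ N * g₂ := by rw [hg₂]; ring

end Pool.Agent.LibJac77
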