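import Pool.Agent.LibJac77.C2
import Pool.Agent.LibJac77.C3
import Pool.Agent.LibJac77.C5
import Pool.Agent.LibJac77.A10

/-!
The normalised function given by a relation `N [P] = N [P']`.
-/

open scoped Classical
open Polynomial IsLocalRing

namespace Pool.Agent.LibJac77

open Pool.Agent.LibBH2

variable {k : Type} [Field k] [CharZero k] [IsAlgClosed k] {f : k[X]} [Genus2 f]

/-- scaling does not change orders -/
theorem C6a_scale (V : ValuationSubring k) (A B : k[X]) (hne : el f A B ≠ 0) :
    ∃ A' B' : V[X], (A'.map (residue V) ≠ 0 ∨ B'.map (residue V) ≠ 0) ∧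
      A'.natDegree = A.natDegree ∧ (B = 0 → B' = 0) ∧ B'.natDegree = B.natDegree ∧
      el f (A'.map (algebraMap V k)) (B'.map (algebraMap V k)) ≠ 0 ∧
      ∀ Q : Pt f, (vp Q).ord (el f (A'.map (algebraMap V k)) (B'.map (algebraMap V k))) =
        (vp Q).ord (el f A B) := by
  have hAB : A ≠ 0 ∨ B ≠ 0 := by
    by_contra hcon
    push Not at hcon
    exact hne ((el_eq_zero_iff A B).2 hcon)
  obtain ⟨c, hc, Q, hQ, i, hi⟩ := exists_scale V (ι := Bool) (fun b => if b then A else B) (by
    rcases hAB with h | h
    · exact ⟨true, by simpa using h⟩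
    · exact ⟨false, by simpa using h⟩)
  have hA : (Q true).map (algebraMap V k) = C c * A := by simpa using hQ true
  have hB : (Q false).map (algebraMap V k) = C c * B := by simpa using hQ false
  have hinj : Function.Injective (algebraMap V k) := Subtype.val_injective
  have hel : el f ((Q true).map (algebraMap V k)) ((Q false).map (algebraMap V k)) =
      algebraMap k (KC f) c * el f A B := by
    rw [hA, hB]
    simp only [el, map_mul, aeval_C]
    ring
  have hc' : algebraMap k (KC f) c ≠ 0 := by
    rw [Ne, map_eq_zero]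
    exact hc
  refine ⟨Q true, Q false, ?_, ?_, ?_, ?_, ?_, ?_⟩
  · cases i
    · right; exact hi
    · left; exact hi
  · rw [← natDegree_map_eq_of_injective hinj, hA, natDegree_C_mul hc]
  · intro h0
    rw [h0, mul_zero] at hB
    exact (Polynomial.map_eq_zero_iff hinj).1 hB
  · rw [← natDegree_map_eq_of_injective hinj, hB, natDegree_C_mul hc]
  · rw [hel]
    exact mul_ne_zero hc' hne
  · intro P
    rw [hel, Place.ord_mul _ _ _ hc' hne, Place.ord_const _ _ hc, zero_add]

/-- the function given by a relation `N [P] = N [P']`, normalised -/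
theorem k2_data (V : ValuationSubring k) (F : V[X]) (hF : F.map (algebraMap V k) = f)
    (P P' : Pt f) (N : ℕ) (h : N • (jP P - jP P') = 0) :
    ∃ A B : V[X], (A.map (residue V) ≠ 0 ∨ B.map (residue V) ≠ 0) ∧ A.natDegree ≤ N ∧
      (B = 0 ∨ B.natDegree + 3 ≤ N) ∧
      (∀ Q : Pt f, Q ≠ .inf →
        (vp Q).ord (el f (A.map (algebraMap V k)) (B.map (algebraMap V k))) =
          N * ((if Q = P then 1 else 0) + (if Q = neg P' then 1 else 0))) ∧
      (vp (.inf : Pt f)).ord (el f (A.map (algebraMap V k)) (B.map (algebraMap V k))) =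
          N * ((if .inf = P then 1 else 0) + (if .inf = P' then 1 else 0) - 2) := by
  set m : Multiset (Pt f) := Multiset.replicate N P + Multiset.replicate N (neg P') with hm
  have hsum : (m.map jP).sum = 0 := by
    rw [hm, Multiset.map_add, Multiset.sum_add, Multiset.map_replicate, Multiset.map_replicate,
      Multiset.sum_replicate, Multiset.sum_replicate, jP_neg, smul_neg, ← sub_eq_add_neg,
      ← smul_sub, h]
  have hcard : Multiset.card m = 2 * N := by
    rw [hm, Multiset.card_add, Multiset.card_replicate, Multiset.card_replicate]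
    ring
  have hcount : ∀ Q : Pt f, (m.count Q : ℤ) =
      N * ((if Q = P then 1 else 0) + (if Q = neg P' then 1 else 0)) := by
    intro Q
    rw [hm, Multiset.count_add, Multiset.count_replicate, Multiset.count_replicate]
    push_cast
    rw [mul_add, mul_ite, mul_ite, mul_one, mul_zero, eq_comm (a := P), eq_comm (a := neg P')]
  obtain ⟨A, B, hne, hord, hA, hB, hinf⟩ := rr m hsum
  obtain ⟨A', B', h1, h2, h3, h4, h5, h6⟩ := C6a_scale V A B hne
  refine ⟨A', B', h1, ?_, ?_, ?_, ?_⟩
  · rw [h2]
    rw [hcard] at hA
    omega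
  · rcases hB with hB | hB
    · left; exact h3 hB
    · right
      rw [h4]
      rw [hcard] at hB
      omega
  · intro Q hQ
    rw [h6, hord Q hQ, hcount]
  · rw [h6, hinf, hcount, hcard]
    have h7 : ((Pt.inf : Pt f) = neg P') ↔ ((Pt.inf : Pt f) = P') := by
      rw [eq_comm, neg_eq_inf, eq_comm]
    simp only [h7]
    push_cast
    ring

end Pool.Agent.LibJac77
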