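import Pool.Agent.LibJac77.C2
import Pool.Agent.LibJac77.C3
import Pool.Agent.LibJac77.C5
import Pool.Agent.LibJac77.A10
import Pool.Agent.LibJac77.C6a

/-!
No prime-to-p torsion in the kernel of reduction: non-Weierstrass reduction.
-/

open scoped Classical
open Polynomial IsLocalRing

namespace Pool.Agent.LibJac77

open Pool.Agent.LibBH2

variable {k : Type} [Field k] [CharZero k] [IsAlgClosed k] {f : k[X]} [Genus2 f]

theorem C6b_redu (V : ValuationSubring k) {P : Pt f} {ξ η : RF V}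
    (h : redu V P = some (ξ, η)) :
    ∃ (x y : V) (hxy : (y : k) ^ 2 = f.eval (x : k)), P = .aff x y hxy ∧ residue V x = ξ ∧
      residue V y = η := by
  match P, h with
  | .inf, h => simp [redu] at h
  | .aff x y hxy, h =>
    simp only [redu] at h
    by_cases hV : x ∈ V ∧ y ∈ V
    · rw [dif_pos hV] at h
      have h1 := Option.some.inj h
      exact ⟨⟨x, hV.1⟩, ⟨y, hV.2⟩, hxy, rfl, congrArg Prod.fst h1, congrArg Prod.snd h1⟩
    · rw [dif_neg hV] at h
      exact absurd h (by simp)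

theorem C6b_eval (V : ValuationSubring k) (F : V[X]) (hF : F.map (algebraMap V k) = f) {x y : V}
    (h : (y : k) ^ 2 = f.eval (x : k)) : y ^ 2 = F.eval x := by
  apply Subtype.ext
  have h1 : ((F.eval x : V) : k) = f.eval (x : k) := by
    rw [← hF, Polynomial.eval_map]
    exact (Polynomial.hom_eval₂ F (RingHom.id V) (algebraMap V k) x).trans rfl
  rw [h1, ← h]
  rfl

/-- points whose reduction is not a Weierstrass point -/
theorem k2a (V : ValuationSubring k) (hV : Good V f) {P P' : Pt f} {ξ η : RF V} (hη : η ≠ 0)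
    (h : redu V P = some (ξ, η)) (h' : redu V P' = some (ξ, η)) (N : ℕ) (hN0 : 0 < N)
    (hN : (N : RF V) ≠ 0) (h0 : N • (jP P - jP P') = 0) : P = P' := by
  obtain ⟨F, hF, -, h2⟩ := hV
  obtain ⟨A, B, hAB, hA, hB, hord, -⟩ := k2_data V F hF P P' N h0
  obtain ⟨x₁, y₁, e₁, rfl, hx₁, hy₁⟩ := C6b_redu V h
  obtain ⟨x₂, y₂, e₂, rfl, hx₂, hy₂⟩ := C6b_redu V h'
  have hns : ¬ IsSquare (algebraMap k[X] (RatFunc k) (DCf f).F) := nsq f
  have hg : ∀ B' : V[X], (B' = B ∨ B' = -B) → (⟨A, B'⟩ : CR F) ≠ 0 := by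
    intro B' hB' h3
    have h4 : A = 0 := congrArg QuadraticAlgebra.re h3
    have h5 : B' = 0 := congrArg QuadraticAlgebra.im h3
    have h6 : B = 0 := by
      rcases hB' with rfl | rfl
      · exact h5
      · exact neg_eq_zero.mp h5
    rcases hAB with h7 | h7
    · exact h7 (by rw [h4, Polynomial.map_zero])
    · exact h7 (by rw [h6, Polynomial.map_zero])
  have hN' : (0 : ℤ) ≤ N := Int.natCast_nonneg N
  -- the factorisation at `P`
  have f₁ := factor_unram (DCf f) F hF hns (vp (.aff x₁ y₁ e₁ : Pt f)) (x := x₁) (y := y₁)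
    (C6b_eval V F hF e₁) (by rintro rfl; rw [map_zero] at hy₁; exact hη hy₁.symm)
    (sp_vp (.aff x₁ y₁ e₁ : Pt f)).1 (sp_vp (.aff x₁ y₁ e₁ : Pt f)).2 N ⟨A, B⟩
    (hg B (Or.inl rfl)) (by
      have h3 := hord (.aff x₁ y₁ e₁) (by simp)
      have h4 : toD (DCf f) (⟨A, B⟩ : CR F) =
        el f (A.map (algebraMap V k)) (B.map (algebraMap V k)) := rfl
      rw [h4, h3, if_pos rfl]
      split_ifs <;> linarith)
  have f₂ := factor_unram (DCf f) F hF hns (vp (.aff x₂ y₂ e₂ : Pt f)) (x := x₂) (y := y₂)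
    (C6b_eval V F hF e₂) (by rintro rfl; rw [map_zero] at hy₂; exact hη hy₂.symm)
    (sp_vp (.aff x₂ y₂ e₂ : Pt f)).1 (sp_vp (.aff x₂ y₂ e₂ : Pt f)).2 N ⟨A, -B⟩
    (hg (-B) (Or.inr rfl)) (by
      have h3 := hord (neg (.aff x₂ y₂ e₂)) (by simp [neg])
      have h4 : toD (DCf f) (⟨A, -B⟩ : CR F) =
        el f (A.map (algebraMap V k)) ((-B).map (algebraMap V k)) := rfl
      rw [h4, Polynomial.map_neg, ← ord_neg, h3, if_pos rfl]
      split_ifs <;> linarith)
  obtain ⟨g₁, hg₁⟩ := f₁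
  obtain ⟨g₂, hg₂⟩ := f₂
  have hxx : x₁ = x₂ := k2a_alg V F h2 N hN0 hN x₁ y₁ x₂ y₂ (by rw [hx₁, hx₂])
    (by rw [hy₁, hy₂]) (by rw [hy₁]; exact hη) (C6b_eval V F hF e₁) (C6b_eval V F hF e₂) A B hAB
    hA hB g₁ g₂ hg₁ hg₂
  subst hxx
  have hsq : (y₁ : k) ^ 2 = (y₂ : k) ^ 2 := by rw [e₁, e₂]
  rcases sq_eq_sq_iff_eq_or_eq_neg.mp hsq with h3 | h3
  · have h4 : y₁ = y₂ := Subtype.ext h3
    subst h4
    rfl
  · exfalso
    have h4 : y₁ = -y₂ := Subtype.ext h3
    rw [h4, map_neg, hy₂] at hy₁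
    have h5 : 2 * η = 0 := by
      rw [two_mul]
      nth_rewrite 1 [← hy₁]
      exact neg_add_cancel η
    rcases mul_eq_zero.mp h5 with h6 | h6
    · exact h2 h6
    · exact hη h6

end Pool.Agent.LibJac77
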