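import Pool.Agent.LibJac77.C2
import Pool.Agent.LibJac77.C3
import Pool.Agent.LibJac77.C5
import Pool.Agent.LibJac77.A10
import Pool.Agent.LibJac77.C6a

/-!
No prime-to-p torsion in the kernel of reduction: affine Weierstrass reduction.
-/

open scoped Classical
open Polynomial IsLocalRing

namespace Pool.Agent.LibJac77

open Pool.Agent.LibBH2

variable {k : Type} [Field k] [CharZero k] [IsAlgClosed k] {f : k[X]} [Genus2 f]

theorem C6c_redu (V : ValuationSubring k) {P : Pt f} {ξ η : RF V}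
    (h : redu V P = some (ξ, η)) :
    ∃ (x y : V) (hxy : (y : k) ^ 2 = f.eval (x : k)), P = .aff x y hxy ∧ residue V x = ξ ∧
      residue V y = η := by
  match P, h with
  | .inf, h => simp [redu] at h
  | .aff x y hxy, h =>
    simp only [redu] at h
    by_cases hV : x ∈ V ∧ y ∈ V
    · rw [dif_pos hV] at h
      have h1 := Option.some.inj h
      exact ⟨⟨x, hV.1⟩, ⟨y, hV.2⟩, hxy, rfl, congrArg Prod.fst h1, congrArg Prod.snd h1⟩
    · rw [dif_neg hV] at h
      exact absurd h (by simp)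

theorem C6c_eval (V : ValuationSubring k) (F : V[X]) (hF : F.map (algebraMap V k) = f) {x y : V}
    (h : (y : k) ^ 2 = f.eval (x : k)) : y ^ 2 = F.eval x := by
  apply Subtype.ext
  have h1 : ((F.eval x : V) : k) = f.eval (x : k) := by
    rw [← hF, Polynomial.eval_map]
    exact (Polynomial.hom_eval₂ F (RingHom.id V) (algebraMap V k) x).trans rfl
  rw [h1, ← h]
  rfl

/-- the divided difference is a unit -/
theorem C6c_dd (V : ValuationSubring k) (F : V[X]) {x₁ x₂ : V} {θ : RF V}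
    (hx₁ : residue V x₁ = θ) (hx₂ : residue V x₂ = θ)
    (hθ' : (F.map (residue V)).derivative.eval θ ≠ 0) (h : F.eval x₁ = F.eval x₂) : x₁ = x₂ := by
  have h1 : F %ₘ (X - C x₁) + (X - C x₁) * (F /ₘ (X - C x₁)) = F := modByMonic_add_div F _
  rw [modByMonic_X_sub_C_eq_C_eval] at h1
  have h2 : F.eval x₁ + (x₂ - x₁) * (F /ₘ (X - C x₁)).eval x₂ = F.eval x₂ := by
    have h3 := congrArg (fun p => p.eval x₂) h1
    simpa using h3
  have h4 : (x₂ - x₁) * (F /ₘ (X - C x₁)).eval x₂ = 0 := by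
    rw [← h] at h2
    exact add_eq_left.mp h2
  rcases mul_eq_zero.mp h4 with h5 | h5
  · exact (sub_eq_zero.mp h5).symm
  · exfalso
    apply hθ'
    have h6 := congrArg (fun p => (p.map (residue V)).derivative.eval θ) h1
    simp only [Polynomial.map_add, Polynomial.map_mul, Polynomial.map_sub, Polynomial.map_X,
      Polynomial.map_C, derivative_add, derivative_C, derivative_mul, derivative_sub,
      derivative_X, sub_zero, one_mul, zero_add, eval_add, eval_mul, eval_sub, eval_X, eval_C,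
      hx₁, sub_self, zero_mul, add_zero] at h6
    rw [← h6, ← hx₂, Polynomial.eval_map, Polynomial.eval₂_at_apply, h5, map_zero]

/-- points whose reduction is an affine Weierstrass point -/
theorem k2b (V : ValuationSubring k) (hV : Good V f) {P P' : Pt f} {ξ : RF V}
    (h : redu V P = some (ξ, 0)) (h' : redu V P' = some (ξ, 0)) (N : ℕ) (hN0 : 0 < N)
    (hN : (N : RF V) ≠ 0) (h0 : N • (jP P - jP P') = 0) : P = P' := by
  obtain ⟨F, hF, hsep, h2⟩ := hV
  obtain ⟨A, B, hAB, hA, hB, hord, -⟩ := k2_data V F hF P P' N h0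
  obtain ⟨x₁, y₁, e₁, rfl, hx₁, hy₁⟩ := C6c_redu V h
  obtain ⟨x₂, y₂, e₂, rfl, hx₂, hy₂⟩ := C6c_redu V h'
  have hns : ¬ IsSquare (algebraMap k[X] (RatFunc k) (DCf f).F) := nsq f
  have hg : (⟨A, B⟩ : CR F) ≠ 0 := by
    intro h3
    have h4 : A = 0 := congrArg QuadraticAlgebra.re h3
    have h6 : B = 0 := congrArg QuadraticAlgebra.im h3
    rcases hAB with h7 | h7
    · exact h7 (by rw [h4, Polynomial.map_zero])
    · exact h7 (by rw [h6, Polynomial.map_zero])
  have hN' : (0 : ℤ) ≤ N := Int.natCast_nonneg N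
  have E₁ := C6c_eval V F hF e₁
  have E₂ := C6c_eval V F hF e₂
  have hθ : (F.map (residue V)).eval ξ = 0 := by
    rw [← hx₁, Polynomial.eval_map, Polynomial.eval₂_at_apply, ← E₁, map_pow, hy₁, zero_pow two_ne_zero]
  have hθ' : (F.map (residue V)).derivative.eval ξ ≠ 0 := by
    intro h3
    obtain ⟨a, b, hab⟩ := hsep
    have h4 := congrArg (fun p => p.eval ξ) hab
    simp only [eval_add, eval_mul, hθ, h3, mul_zero, add_zero, eval_one] at h4
    exact zero_ne_one h4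
  have h4 : toD (DCf f) (⟨A, B⟩ : CR F) =
        el f (A.map (algebraMap V k)) (B.map (algebraMap V k)) := rfl
  have o1 := hord (.aff x₁ y₁ e₁) (by simp)
  have o2 := hord (neg (.aff x₂ y₂ e₂)) (by simp [neg])
  obtain ⟨g₁, hg₁⟩ := k2b_factor (DCf f) F hF hns (vp (.aff x₁ y₁ e₁ : Pt f))
    (vp (neg (.aff x₂ y₂ e₂ : Pt f))) (x₁ := x₁) (y₁ := y₁) (x₂ := x₂) (y₂ := y₂) ξ hx₁ hx₂ hy₁ hy₂
    hθ' E₁ E₂ (sp_vp (.aff x₁ y₁ e₁ : Pt f)).1 (sp_vp (.aff x₁ y₁ e₁ : Pt f)).2
    (sp_vp (neg (.aff x₂ y₂ e₂ : Pt f))).1 (by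
      have h5 := (sp_vp (neg (.aff x₂ y₂ e₂ : Pt f))).2
      have h6 : (DCf f).w + algebraMap k (KC f) y₂ = (DCf f).w - algebraMap k (KC f) (-y₂) := by
        rw [map_neg, sub_neg_eq_add]
      rw [h6]
      exact h5) N ⟨A, B⟩ hg (by
      rw [h4, o1, if_pos rfl]
      split_ifs <;> linarith) (by
      rw [h4, o2, if_pos rfl]
      split_ifs <;> linarith) (by
      intro hvv
      rw [h4, o1, if_pos rfl, if_pos (vp_injective hvv)]
      linarith)
  have hyy : y₁ = y₂ := k2b_alg V F h2 N hN0 hN x₁ y₁ x₂ y₂ ξ hx₁ hx₂ hy₁ hy₂ hθ hθ' E₁ E₂ A B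
    hAB hA hB g₁ hg₁
  subst hyy
  have hxx : x₁ = x₂ := C6c_dd V F hx₁ hx₂ hθ' (by rw [← E₁, ← E₂])
  subst hxx
  rfl

end Pool.Agent.LibJac77
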