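import Pool.Agent.LibJac77.C6

/-!
The chart at infinity.
-/

open scoped Classical
open Polynomial IsLocalRing

namespace Pool.Agent.LibJac77

open Pool.Agent.LibBH2

variable {k : Type} [Field k] [CharZero k] [IsAlgClosed k] {f : k[X]} [Genus2 f]

omit [CharZero k] [IsAlgClosed k] in
theorem C7a_hinf (f : k[X]) [Genus2 f] :
    aeval (RatFunc.X⁻¹ : RatFunc k) (X * f.reverse) * RatFunc.X ^ (2 * 3) =
    algebraMap k[X] (RatFunc k) (DCf f).F := by
  have hF : (DCf f).F = f := rfl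
  rw [hF]
  have hX : (RatFunc.X : RatFunc k) ≠ 0 := RatFunc.X_ne_zero
  let _ : Invertible (RatFunc.X : RatFunc k) := invertibleOfNonzero hX
  have h1 := eval₂_reverse_mul_pow (algebraMap k (RatFunc k)) (RatFunc.X : RatFunc k) f
  rw [Genus2.deg (f := f)] at h1
  have h2 : (⅟(RatFunc.X : RatFunc k)) = RatFunc.X⁻¹ := invOf_eq_inv _
  rw [h2] at h1
  have h3 : aeval (RatFunc.X : RatFunc k) f = algebraMap k[X] (RatFunc k) f := by
    have : (aeval (RatFunc.X : RatFunc k) : k[X] →ₐ[k] RatFunc k) =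
        IsScalarTower.toAlgHom k k[X] (RatFunc k) := by
      apply Polynomial.algHom_ext
      simp [RatFunc.algebraMap_X]
    rw [this]
    rfl
  rw [← h3, map_mul, aeval_X]
  rw [aeval_def, aeval_def, ← h1]
  generalize eval₂ (algebraMap k (RatFunc k)) (RatFunc.X⁻¹) f.reverse = r
  have h4 : (RatFunc.X : RatFunc k)⁻¹ * RatFunc.X = 1 := inv_mul_cancel₀ hX
  linear_combination r * RatFunc.X ^ 5 * h4

/-- the presentation of the function field at infinity: parameter `1 / s`, function `w / s ^ 3` -/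
theorem exists_inf_chart (f : k[X]) [Genus2 f] : ∃ 𝒟 : DC k (KC f), 𝒟.F = X * f.reverse ∧
    𝒟.s = (DCf f).s⁻¹ ∧ 𝒟.w = (DCf f).w / (DCf f).s ^ 3 ∧
    ¬ IsSquare (algebraMap k[X] (RatFunc k) 𝒟.F) :=
  ⟨(DCf f).atInf 3 (X * f.reverse) (C7a_hinf f), rfl, DC.atInf_s _ _ _ _, rfl,
    DC.atInf_not_isSquare _ _ _ _ (nsq f)⟩

/-- `A(s) + B(s) w = s ^ N (A'(1/s) + B'(1/s) w / s ^ 3)` -/
theorem el_reflect (𝒟 : DC k (KC f)) (hs : 𝒟.s = (DCf f).s⁻¹)
    (hw : 𝒟.w = (DCf f).w / (DCf f).s ^ 3) (A B : k[X]) (N : ℕ) (hA : A.natDegree ≤ N)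
    (hB : B = 0 ∨ B.natDegree + 3 ≤ N) :
    aeval 𝒟.s (A.reflect N) + aeval 𝒟.s (B.reflect (N - 3)) * 𝒟.w =
      (DCf f).s⁻¹ ^ N * el f A B := by
  have hs0 : (DCf f).s ≠ 0 := by
    have := (DCf f).s_sub_ne_zero 0
    simpa using this
  let _ : Invertible (DCf f).s := invertibleOfNonzero hs0
  have key : ∀ (P : k[X]) (n : ℕ), P.natDegree ≤ n →
      aeval 𝒟.s (P.reflect n) * (DCf f).s ^ n = aeval (DCf f).s P := by
    intro P n hP
    have h1 := eval₂_reflect_mul_pow (algebraMap k (KC f)) (DCf f).s n P hP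
    rw [invOf_eq_inv, ← hs] at h1
    exact h1
  have h1 := key A N hA
  rw [el, ← h1, hw]
  rcases hB with hB | hB
  · subst hB
    simp only [reflect_zero, map_zero, zero_mul, add_zero]
    rw [inv_pow, eq_inv_mul_iff_mul_eq₀ (pow_ne_zero _ hs0)]
    ring
  · have h2 := key B (N - 3) (by omega)
    rw [← h2]
    have h3 : (DCf f).s ^ N = (DCf f).s ^ (N - 3) * (DCf f).s ^ 3 := by
      rw [← pow_add]
      congr 1
      omega
    rw [inv_pow]
    have h4 : (DCf f).s ^ N ≠ 0 := pow_ne_zero _ hs0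
    rw [eq_inv_mul_iff_mul_eq₀ h4]
    rw [h3]
    field_simp

end Pool.Agent.LibJac77
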