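import Pool.Agent.LibJac77.C6
import Pool.Agent.LibJac77.C7a

/-!
No prime-to-p torsion in the kernel of reduction: reduction at infinity.
-/

open scoped Classical
open Polynomial IsLocalRing

namespace Pool.Agent.LibJac77

open Pool.Agent.LibBH2

variable {k : Type} [Field k] [CharZero k] [IsAlgClosed k] {f : k[X]} [Genus2 f]

/-- coordinates in the chart at infinity -/
def C7b_Ch (V : ValuationSubring k) (P : Pt f) (x₁ y₁ : V) : Prop :=
  (P = .inf ∧ x₁ = 0 ∧ y₁ = 0) ∨ ∃ (x y : k) (h : y ^ 2 = f.eval x), P = .aff x y h ∧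
    x ∉ V ∧ (x₁ : k) = x⁻¹ ∧ (y₁ : k) = y * x⁻¹ ^ 3

theorem C7b_eval_chart {x y : k} (hx : x ≠ 0) (h : y ^ 2 = f.eval x) :
    (y * x⁻¹ ^ 3) ^ 2 = (X * f.reverse).eval x⁻¹ := by
  let _ : Invertible x := invertibleOfNonzero hx
  have h1 := eval₂_reverse_mul_pow (RingHom.id k) x f
  rw [Genus2.deg (f := f), invOf_eq_inv] at h1
  have h2 : f.reverse.eval x⁻¹ * x ^ 5 = f.eval x := h1
  rw [eval_mul, eval_X, mul_pow, h, ← h2]
  field_simp

theorem C7b_notMem (V : ValuationSubring k) {P : Pt f} (h : redu V P = none)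
    (F : V[X]) (hF : F.map (algebraMap V k) = f) :
    P = .inf ∨ ∃ (x y : k) (e : y ^ 2 = f.eval x), P = .aff x y e ∧ x ∉ V := by
  match P, h with
  | .inf, _ => left; rfl
  | .aff x y e, h =>
    right
    refine ⟨x, y, e, rfl, fun hx => ?_⟩
    have hy2 : y ^ 2 ∈ V := by
      rw [e]
      have h1 : f.eval x = ((F.eval ⟨x, hx⟩ : V) : k) := by
        rw [← hF, Polynomial.eval_map]
        exact ((Polynomial.hom_eval₂ F (RingHom.id V) (algebraMap V k) ⟨x, hx⟩).trans rfl).symm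
      rw [h1]
      exact Subtype.mem _
    have hy : y ∈ V := by
      rcases V.mem_or_inv_mem y with h1 | h1
      · exact h1
      · rcases eq_or_ne y 0 with h0 | h0
        · rw [h0]; exact V.zero_mem
        · have h3 : y = y ^ 2 * y⁻¹ := by field_simp
          rw [h3]
          exact V.mul_mem _ _ hy2 h1
    simp only [redu] at h
    rw [dif_pos ⟨hx, hy⟩] at h
    exact absurd h (by simp)

theorem C7b_reverse_map (V : ValuationSubring k) (F : V[X]) (hF : F.map (algebraMap V k) = f) :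
    (X * F.reverse).map (algebraMap V k) = X * f.reverse := by
  have hinj : Function.Injective (algebraMap V k) := Subtype.val_injective
  rw [Polynomial.map_mul, Polynomial.map_X]
  congr 1
  rw [Polynomial.reverse, Polynomial.reverse, ← Polynomial.reflect_map, hF]
  congr 1
  rw [← hF, natDegree_map_eq_of_injective hinj]

theorem C7b_exists_chart (V : ValuationSubring k) (F : V[X]) (hF : F.map (algebraMap V k) = f)
    {P : Pt f} (h : redu V P = none) :
    ∃ x₁ y₁ : V, C7b_Ch V P x₁ y₁ ∧ residue V x₁ = 0 ∧ residue V y₁ = 0 ∧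
      y₁ ^ 2 = (X * F.reverse).eval x₁ := by
  rcases C7b_notMem V h F hF with rfl | ⟨x, y, e, rfl, hx⟩
  · exact ⟨0, 0, Or.inl ⟨rfl, rfl, rfl⟩, map_zero _, map_zero _, by simp⟩
  · have hx0 : x ≠ 0 := by
      rintro rfl
      exact hx V.zero_mem
    have hxi : x⁻¹ ∈ V := (V.mem_or_inv_mem x).resolve_left hx
    have hcoe : (((X * F.reverse).eval (⟨x⁻¹, hxi⟩ : V) : V) : k) = (X * f.reverse).eval x⁻¹ := by
      rw [← C7b_reverse_map V F hF, Polynomial.eval_map]
      exact (Polynomial.hom_eval₂ (X * F.reverse) (RingHom.id V) (algebraMap V k) ⟨x⁻¹, hxi⟩).trans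
        rfl
    have hy2 : (y * x⁻¹ ^ 3) ^ 2 ∈ V := by
      rw [C7b_eval_chart hx0 e, ← hcoe]
      exact Subtype.mem _
    have hy : y * x⁻¹ ^ 3 ∈ V := by
      set z := y * x⁻¹ ^ 3
      rcases V.mem_or_inv_mem z with h1 | h1
      · exact h1
      · rcases eq_or_ne z 0 with h0 | h0
        · rw [h0]; exact V.zero_mem
        · have h3 : z = z ^ 2 * z⁻¹ := by field_simp
          rw [h3]
          exact V.mul_mem _ _ hy2 h1
    have hE : (⟨y * x⁻¹ ^ 3, hy⟩ : V) ^ 2 = (X * F.reverse).eval (⟨x⁻¹, hxi⟩ : V) := by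
      apply Subtype.ext
      rw [hcoe, ← C7b_eval_chart hx0 e]
      rfl
    have hrx : residue V (⟨x⁻¹, hxi⟩ : V) = 0 := by
      rw [residue_eq_zero_iff, mem_maximalIdeal, mem_nonunits_iff]
      intro hu
      obtain ⟨u, hu⟩ := hu
      apply hx
      have h5 : ((u⁻¹ : Vˣ) : V) * (u : V) = 1 := Units.inv_mul u
      have h6 : (((u⁻¹ : Vˣ) : V) : k) * x⁻¹ = 1 := by
        have h7 := congrArg (fun t : V => (t : k)) h5
        simp only [hu] at h7
        exact h7
      have h8 : x = (((u⁻¹ : Vˣ) : V) : k) := by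
        field_simp at h6
        exact h6.symm
      rw [h8]
      exact Subtype.mem _
    refine ⟨⟨x⁻¹, hxi⟩, ⟨y * x⁻¹ ^ 3, hy⟩, Or.inr ⟨x, y, e, rfl, hx, rfl, rfl⟩, hrx, ?_, hE⟩
    have h9 := congrArg (residue V) hE
    rw [map_pow, eval_mul, eval_X, map_mul, hrx, zero_mul] at h9
    exact (pow_eq_zero_iff two_ne_zero).1 h9

theorem C7b_zer (𝒟 : DC k (KC f)) (hs : 𝒟.s = (DCf f).s⁻¹)
    (hw : 𝒟.w = (DCf f).w / (DCf f).s ^ 3) (V : ValuationSubring k) {P : Pt f} {x₁ y₁ : V}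
    (h : C7b_Ch V P x₁ y₁) :
    (vp P).Zer (𝒟.s - algebraMap k (KC f) x₁) ∧ (vp P).Zer (𝒟.w - algebraMap k (KC f) y₁) := by
  have hs0 : (DCf f).s ≠ 0 := by
    have := (DCf f).s_sub_ne_zero 0
    simpa using this
  rcases h with ⟨rfl, rfl, rfl⟩ | ⟨x, y, e, rfl, hx, h1, h2⟩
  · have hw0 : (DCf f).w ≠ 0 := by
      intro h0
      have h1 := ord_inf_w (f := f)
      rw [h0, Place.ord_zero] at h1
      norm_num at h1
    constructor
    · right
      have : 𝒟.s - algebraMap k (KC f) ((0 : V) : k) = (DCf f).s⁻¹ := by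
        rw [hs]; simp
      rw [this, Place.ord_inv, ord_inf_s]
      norm_num
    · right
      have : 𝒟.w - algebraMap k (KC f) ((0 : V) : k) = (DCf f).w / (DCf f).s ^ 3 := by
        rw [hw]; simp
      rw [this, Place.ord_div _ _ _ hw0 (pow_ne_zero _ hs0), Place.ord_pow, ord_inf_s, ord_inf_w]
      norm_num
  · have hx0 : x ≠ 0 := by
      rintro rfl
      exact hx V.zero_mem
    obtain ⟨z1, z2⟩ := sp_vp (.aff x y e : Pt f)
    have z3 := Place.val_inv z1 hx0
    constructor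
    · rw [hs, h1]
      exact z3
    · rw [hw, h2, div_eq_mul_inv, ← inv_pow]
      exact Place.val_mul z2 (Place.val_pow z3 3)

theorem C7b_neg (V : ValuationSubring k) {P : Pt f} {x₁ y₁ : V} (h : C7b_Ch V P x₁ y₁) :
    C7b_Ch V (neg P) x₁ (-y₁) := by
  rcases h with ⟨rfl, rfl, rfl⟩ | ⟨x, y, e, rfl, hx, h1, h2⟩
  · exact Or.inl ⟨rfl, rfl, neg_zero⟩
  · right
    refine ⟨x, -y, by rw [neg_sq, e], rfl, hx, h1, ?_⟩
    have : ((-y₁ : V) : k) = -(y₁ : k) := rfl
    rw [this, h2]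
    ring

theorem C7b_inj (V : ValuationSubring k) {P P' : Pt f} {x₁ y₁ : V} (h : C7b_Ch V P x₁ y₁)
    (h' : C7b_Ch V P' x₁ y₁) : P = P' := by
  rcases h with ⟨rfl, rfl, rfl⟩ | ⟨x, y, e, rfl, hx, h1, h2⟩
  · rcases h' with ⟨rfl, -, -⟩ | ⟨x', y', e', rfl, hx', h1', h2'⟩
    · rfl
    · exfalso
      have h3 : x'⁻¹ = 0 := by rw [← h1']; rfl
      rw [inv_eq_zero] at h3
      rw [h3] at hx'
      exact hx' V.zero_mem
  · have hx0 : x ≠ 0 := by
      rintro rfl
      exact hx V.zero_mem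
    rcases h' with ⟨rfl, rfl, rfl⟩ | ⟨x', y', e', rfl, hx', h1', h2'⟩
    · exfalso
      have h3 : x⁻¹ = 0 := by rw [← h1]; rfl
      rw [inv_eq_zero] at h3
      exact hx0 h3
    · have h3 : x = x' := inv_injective (h1.symm.trans h1')
      subst h3
      have h4 : y = y' := by
        have h5 := h2.symm.trans h2'
        exact mul_right_cancel₀ (pow_ne_zero 3 (inv_ne_zero hx0)) h5
      subst h4
      rfl

/-- the divided difference is a unit -/
theorem C7b_dd (V : ValuationSubring k) (F : V[X]) {x₁ x₂ : V} {θ : RF V}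
    (hx₁ : residue V x₁ = θ) (hx₂ : residue V x₂ = θ)
    (hθ' : (F.map (residue V)).derivative.eval θ ≠ 0) (h : F.eval x₁ = F.eval x₂) : x₁ = x₂ := by
  have h1 : F %ₘ (X - C x₁) + (X - C x₁) * (F /ₘ (X - C x₁)) = F := modByMonic_add_div F _
  rw [modByMonic_X_sub_C_eq_C_eval] at h1
  have h2 : F.eval x₁ + (x₂ - x₁) * (F /ₘ (X - C x₁)).eval x₂ = F.eval x₂ := by
    have h3 := congrArg (fun p => p.eval x₂) h1
    simpa using h3
  have h4 : (x₂ - x₁) * (F /ₘ (X - C x₁)).eval x₂ = 0 := by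
    rw [← h] at h2
    exact add_eq_left.mp h2
  rcases mul_eq_zero.mp h4 with h5 | h5
  · exact (sub_eq_zero.mp h5).symm
  · exfalso
    apply hθ'
    have h6 := congrArg (fun p => (p.map (residue V)).derivative.eval θ) h1
    simp only [Polynomial.map_add, Polynomial.map_mul, Polynomial.map_sub, Polynomial.map_X,
      Polynomial.map_C, derivative_add, derivative_C, derivative_mul, derivative_sub,
      derivative_X, sub_zero, one_mul, zero_add, eval_add, eval_mul, eval_sub, eval_X, eval_C,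
      hx₁, sub_self, zero_mul, add_zero] at h6
    rw [← h6, ← hx₂, Polynomial.eval_map, Polynomial.eval₂_at_apply, h5, map_zero]

theorem k2inf (V : ValuationSubring k) (hV : Good V f) {P P' : Pt f}
    (h : redu V P = none) (h' : redu V P' = none) (N : ℕ) (hN0 : 0 < N)
    (hN : (N : RF V) ≠ 0) (h0 : N • (jP P - jP P') = 0) : P = P' := by
  obtain ⟨F, hF, hsep, h2⟩ := hV
  obtain ⟨A, B, hAB, hA, hB, hord, hordi⟩ := k2_data V F hF P P' N h0
  obtain ⟨𝒟, hDF, hDs, hDw, hns⟩ := exists_inf_chart f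
  obtain ⟨x₁, y₁, hc₁, hx₁, hy₁, E₁⟩ := C7b_exists_chart V F hF h
  obtain ⟨x₂, y₂, hc₂, hx₂, hy₂, E₂⟩ := C7b_exists_chart V F hF h'
  have hinj : Function.Injective (algebraMap V k) := Subtype.val_injective
  set F' : V[X] := X * F.reverse with hF'
  have hF'm : F'.map (algebraMap V k) = 𝒟.F := by rw [hDF]; exact C7b_reverse_map V F hF
  have hs0 : (DCf f).s ≠ 0 := by
    have := (DCf f).s_sub_ne_zero 0
    simpa using this
  -- the leading coefficient of `F` is `1`
  have hlead : F.leadingCoeff = 1 := by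
    apply hinj
    rw [← leadingCoeff_map_of_injective hinj, hF, map_one]
    exact Genus2.monic (f := f)
  have hder : (F'.map (residue V)).derivative.eval 0 ≠ 0 := by
    rw [hF', Polynomial.map_mul, Polynomial.map_X, derivative_mul, eval_add, eval_mul, eval_mul]
    simp only [derivative_X, eval_one, one_mul, eval_X, zero_mul, add_zero]
    rw [← coeff_zero_eq_eval_zero, coeff_map, coeff_zero_reverse, hlead, map_one]
    exact one_ne_zero
  have hθ : (F'.map (residue V)).eval 0 = 0 := by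
    rw [hF', Polynomial.map_mul, Polynomial.map_X, eval_mul, eval_X, zero_mul]
  set A' : V[X] := A.reflect N with hA'
  set B' : V[X] := B.reflect (N - 3) with hB'
  have hAB' : A'.map (residue V) ≠ 0 ∨ B'.map (residue V) ≠ 0 := by
    rw [hA', hB', ← Polynomial.reflect_map, ← Polynomial.reflect_map]
    rcases hAB with h1 | h1
    · left
      rwa [Ne, reflect_eq_zero_iff]
    · right
      rwa [Ne, reflect_eq_zero_iff]
  have hA'd : A'.natDegree ≤ N := natDegree_reflect_le.trans (max_le le_rfl hA)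
  have hB'd : B' = 0 ∨ B'.natDegree + 3 ≤ N := by
    rcases hB with h1 | h1
    · left
      rw [hB', h1, reflect_zero]
    · right
      have h3 : B'.natDegree ≤ N - 3 := natDegree_reflect_le.trans (max_le le_rfl (by omega))
      omega
  have hg : (⟨A', B'⟩ : CR F') ≠ 0 := by
    intro h3
    have h4 : A' = 0 := congrArg QuadraticAlgebra.re h3
    have h6 : B' = 0 := congrArg QuadraticAlgebra.im h3
    rcases hAB' with h7 | h7
    · exact h7 (by rw [h4, Polynomial.map_zero])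
    · exact h7 (by rw [h6, Polynomial.map_zero])
  have hel0 : el f (A.map (algebraMap V k)) (B.map (algebraMap V k)) ≠ 0 := by
    rw [Ne, el_eq_zero_iff, Polynomial.map_eq_zero_iff hinj, Polynomial.map_eq_zero_iff hinj]
    rintro ⟨h3, h4⟩
    rcases hAB with h7 | h7
    · exact h7 (by rw [h3, Polynomial.map_zero])
    · exact h7 (by rw [h4, Polynomial.map_zero])
  have htoD : toD 𝒟 (⟨A', B'⟩ : CR F') = (DCf f).s⁻¹ ^ N *
      el f (A.map (algebraMap V k)) (B.map (algebraMap V k)) := by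
    rw [← el_reflect 𝒟 hDs hDw _ _ N (natDegree_map_le.trans hA) (by
      rcases hB with h1 | h1
      · left; rw [h1, Polynomial.map_zero]
      · right
        have : (B.map (algebraMap V k)).natDegree ≤ B.natDegree := natDegree_map_le
        omega)]
    rw [Polynomial.reflect_map, Polynomial.reflect_map]
    rfl
  -- orders
  have hordQ : ∀ Q : Pt f, (∃ a b : V, C7b_Ch V Q a b) →
      (vp Q).ord (toD 𝒟 (⟨A', B'⟩ : CR F')) =
        N * ((if Q = P then 1 else 0) + (if Q = neg P' then 1 else 0)) := by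
    rintro Q ⟨a, b, hQ⟩
    rw [htoD, Place.ord_mul _ _ _ (pow_ne_zero _ (inv_ne_zero hs0)) hel0, Place.ord_pow,
      Place.ord_inv]
    rcases hQ with ⟨rfl, -, -⟩ | ⟨x, y, e, rfl, hx, -, -⟩
    · rw [ord_inf_s, hordi]
      have h7 : ((Pt.inf : Pt f) = neg P') ↔ ((Pt.inf : Pt f) = P') := by
        rw [eq_comm, neg_eq_inf, eq_comm]
      simp only [h7]
      ring
    · have hx0 : x ≠ 0 := by
        rintro rfl
        exact hx V.zero_mem
      have h8 : (vp (.aff x y e : Pt f)).ord (DCf f).s = 0 :=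
        Place.ord_eq_zero_of_val (sp_vp (.aff x y e : Pt f)).1 hx0
      rw [h8, hord _ (by simp)]
      ring
  have hN' : (0 : ℤ) ≤ N := Int.natCast_nonneg N
  have o1 := hordQ P ⟨x₁, y₁, hc₁⟩
  have o2 := hordQ (neg P') ⟨x₂, -y₂, C7b_neg V hc₂⟩
  have z1 := C7b_zer 𝒟 hDs hDw V hc₁
  have z2 := C7b_zer 𝒟 hDs hDw V (C7b_neg V hc₂)
  obtain ⟨g₁, hg₁⟩ := k2b_factor 𝒟 F' hF'm hns (vp P) (vp (neg P')) (x₁ := x₁) (y₁ := y₁)
    (x₂ := x₂) (y₂ := y₂) 0 hx₁ hx₂ hy₁ hy₂ hder E₁ E₂ z1.1 z1.2 z2.1 (by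
      have h6 : 𝒟.w + algebraMap k (KC f) y₂ = 𝒟.w - algebraMap k (KC f) ((-y₂ : V) : k) := by
        have : ((-y₂ : V) : k) = -(y₂ : k) := rfl
        rw [this, map_neg, sub_neg_eq_add]
      rw [h6]
      exact z2.2) N ⟨A', B'⟩ hg (by
      rw [o1, if_pos rfl]
      split_ifs <;> linarith) (by
      rw [o2, if_pos rfl]
      split_ifs <;> linarith) (by
      intro hvv
      rw [o1, if_pos rfl, if_pos (vp_injective hvv)]
      linarith)
  have hyy : y₁ = y₂ := k2b_alg V F' h2 N hN0 hN x₁ y₁ x₂ y₂ 0 hx₁ hx₂ hy₁ hy₂ hθ hder E₁ E₂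
    A' B' hAB' hA'd hB'd g₁ hg₁
  subst hyy
  have hxx : x₁ = x₂ := C7b_dd V F' hx₁ hx₂ hder (by rw [← E₁, ← E₂])
  subst hxx
  exact C7b_inj V hc₁ hc₂

end Pool.Agent.LibJac77
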