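import Pool.Agent.LibJac77.C5
import Pool.Agent.LibJac77.A10

/-!
The function given by a relation between six points; its norm.
-/

open scoped Classical
open Polynomial IsLocalRing

namespace Pool.Agent.LibJac77

open Pool.Agent.LibBH2

variable {k : Type} [Field k] [CharZero k] [IsAlgClosed k] {f : k[X]} [Genus2 f]

/-- scaling does not change orders -/
theorem C8a_scale (V : ValuationSubring k) (A B : k[X]) (hne : el f A B ≠ 0) :
    ∃ A' B' : V[X], (A'.map (residue V) ≠ 0 ∨ B'.map (residue V) ≠ 0) ∧
      A'.natDegree = A.natDegree ∧ (B = 0 → B' = 0) ∧ B'.natDegree = B.natDegree ∧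
      el f (A'.map (algebraMap V k)) (B'.map (algebraMap V k)) ≠ 0 ∧
      ∀ Q : Pt f, (vp Q).ord (el f (A'.map (algebraMap V k)) (B'.map (algebraMap V k))) =
        (vp Q).ord (el f A B) := by
  have hAB : A ≠ 0 ∨ B ≠ 0 := by
    by_contra hcon
    push Not at hcon
    exact hne ((el_eq_zero_iff A B).2 hcon)
  obtain ⟨c, hc, Q, hQ, i, hi⟩ := exists_scale V (ι := Bool) (fun b => if b then A else B) (by
    rcases hAB with h | h
    · exact ⟨true, by simpa using h⟩
    · exact ⟨false, by simpa using h⟩)
  have hA : (Q true).map (algebraMap V k) = C c * A := by simpa using hQ true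
  have hB : (Q false).map (algebraMap V k) = C c * B := by simpa using hQ false
  have hinj : Function.Injective (algebraMap V k) := Subtype.val_injective
  have hel : el f ((Q true).map (algebraMap V k)) ((Q false).map (algebraMap V k)) =
      algebraMap k (KC f) c * el f A B := by
    rw [hA, hB]
    simp only [el, map_mul, aeval_C]
    ring
  have hc' : algebraMap k (KC f) c ≠ 0 := by
    rw [Ne, map_eq_zero]
    exact hc
  refine ⟨Q true, Q false, ?_, ?_, ?_, ?_, ?_, ?_⟩
  · cases i
    · right; exact hi
    · left; exact hi
  · rw [← natDegree_map_eq_of_injective hinj, hA, natDegree_C_mul hc]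
  · intro h0
    rw [h0, mul_zero] at hB
    exact (Polynomial.map_eq_zero_iff hinj).1 hB
  · rw [← natDegree_map_eq_of_injective hinj, hB, natDegree_C_mul hc]
  · rw [hel]
    exact mul_ne_zero hc' hne
  · intro P
    rw [hel, Place.ord_mul _ _ _ hc' hne, Place.ord_const _ _ hc, zero_add]

/-- a relation between six points gives a normalised function `A(s) + B(s) w` with `deg A ≤ 3` and
`B` constant -/
theorem k1_data (V : ValuationSubring k) (F : V[X]) (hF : F.map (algebraMap V k) = f)
    (m : Multiset (Pt f)) (hm : Multiset.card m = 6) (h : (m.map jP).sum = 0) :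
    ∃ A B : V[X], (A.map (residue V) ≠ 0 ∨ B.map (residue V) ≠ 0) ∧ A.natDegree ≤ 3 ∧
      B.natDegree = 0 ∧ el f (A.map (algebraMap V k)) (B.map (algebraMap V k)) ≠ 0 ∧
      (∀ Q : Pt f, Q ≠ .inf →
        (vp Q).ord (el f (A.map (algebraMap V k)) (B.map (algebraMap V k))) = m.count Q) := by
  obtain ⟨A, B, hne, hord, hA, hB, hinf⟩ := rr m h
  obtain ⟨A', B', h1, h2, h3, h4, h5, h6⟩ := C8a_scale V A B hne
  refine ⟨A', B', h1, ?_, ?_, h5, ?_⟩
  · rw [h2]
    rw [hm] at hA
    omega
  · rw [h4]
    rcases hB with hB | hB
    · rw [hB, natDegree_zero]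
    · rw [hm] at hB
      omega
  · intro Q hQ
    rw [h6, hord Q hQ]

theorem C8a_count {x y : k} (hy0 : y ≠ 0) (h : y ^ 2 = f.eval x) (h' : (-y) ^ 2 = f.eval x)
    (m : Multiset (Pt f)) :
    (m.filterMap xco).count x = m.count (.aff x y h) + m.count (.aff x (-y) h') := by
  induction m using Multiset.induction with
  | empty => simp
  | cons Q m ih =>
    match Q with
    | .inf =>
      rw [Multiset.filterMap_cons_none _ _ rfl, Multiset.count_cons, Multiset.count_cons, ih]
      simp
    | .aff x' y' e =>
      have hx1 : xco (.aff x' y' e : Pt f) = some x' := rfl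
      rw [Multiset.filterMap_cons_some xco _ _ hx1, Multiset.count_cons, Multiset.count_cons,
        Multiset.count_cons, ih]
      by_cases hx : x = x'
      · subst hx
        have hyy : y ≠ -y := by
          intro h0
          have : (2 : k) * y = 0 := by linear_combination h0
          rcases mul_eq_zero.1 this with h1 | h1
          · exact two_ne_zero h1
          · exact hy0 h1
        have hor : y' = y ∨ y' = -y := sq_eq_sq_iff_eq_or_eq_neg.1 (e.trans h.symm)
        rcases hor with h1 | h1
        · subst h1
          simp [hyy.symm]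
          omega
        · subst h1
          simp [hyy]
          omega
      · simp [hx]

theorem C8a_count_zero {x : k} (h : (0 : k) ^ 2 = f.eval x) (m : Multiset (Pt f)) :
    (m.filterMap xco).count x = m.count (.aff x 0 h) := by
  induction m using Multiset.induction with
  | empty => simp
  | cons Q m ih =>
    match Q with
    | .inf =>
      rw [Multiset.filterMap_cons_none _ _ rfl, Multiset.count_cons, ih]
      simp
    | .aff x' y' e =>
      have hx1 : xco (.aff x' y' e : Pt f) = some x' := rfl
      rw [Multiset.filterMap_cons_some xco _ _ hx1, Multiset.count_cons, Multiset.count_cons, ih]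
      by_cases hx : x = x'
      · subst hx
        have h1 : y' = 0 := by
          have : y' ^ 2 = 0 := by rw [e, ← h]; ring
          exact pow_eq_zero_iff (two_ne_zero) |>.1 this
        subst h1
        simp
      · simp [hx]

/-- the norm over `k` of a function with zeros `m` -/
theorem Nm_eq_prod (A B : k[X]) (hne : el f A B ≠ 0) (m : Multiset (Pt f))
    (hm : ∀ Q : Pt f, Q ≠ .inf → (vp Q).ord (el f A B) = m.count Q) :
    ∃ c : k, Nm f A B = C c * ((m.filterMap xco).map fun x => X - C x).prod := by
  have hN : Nm f A B ≠ 0 := Nm_ne_zero hne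
  -- the multiplicities
  have hroots : (Nm f A B).roots = m.filterMap xco := by
    ext x
    rw [count_roots]
    obtain ⟨y, hy⟩ : ∃ y : k, y ^ 2 = f.eval x := IsAlgClosed.exists_pow_nat_eq _ (by norm_num)
    rcases eq_or_ne y 0 with h0 | h0
    · subst h0
      rw [C8a_count_zero hy]
      have h1 := ord_weier hy hne
      rw [hm _ (by simp)] at h1
      exact_mod_cast h1.symm
    · have hy' : (-y) ^ 2 = f.eval x := by rw [neg_sq, hy]
      rw [C8a_count h0 hy hy']
      have h1 := ord_add_neg (P := .aff x y hy) rfl h0 hne
      have h2 : neg (.aff x y hy : Pt f) = .aff x (-y) hy' := rfl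
      rw [h2, hm _ (by simp), hm _ (by simp)] at h1
      exact_mod_cast h1.symm
  refine ⟨(Nm f A B).leadingCoeff, ?_⟩
  rw [← hroots]
  exact (IsAlgClosed.splits (Nm f A B)).eq_prod_roots

end Pool.Agent.LibJac77
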