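import Pool.Agent.LibJac77.C5
import Pool.Agent.LibJac77.A10
import Pool.Agent.LibJac77.C8a

/-!
Zeros of the reduced norm.
-/

open scoped Classical
open Polynomial IsLocalRing

namespace Pool.Agent.LibJac77

open Pool.Agent.LibBH2

variable {k : Type} [Field k] [CharZero k] [IsAlgClosed k] {f : k[X]} [Genus2 f]

/-- the zeros of the reduced norm are the reductions of the `x`-coordinates of the zeros -/
theorem k1_roots (V : ValuationSubring k) (F : V[X]) (hF : F.map (algebraMap V k) = f)
    (hV : Good V f) (A B : V[X]) (hAB : A.map (residue V) ≠ 0 ∨ B.map (residue V) ≠ 0)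
    (m : Multiset (Pt f))
    (hm : ∀ Q : Pt f, Q ≠ .inf →
      (vp Q).ord (el f (A.map (algebraMap V k)) (B.map (algebraMap V k))) = m.count Q) :
    Nm (F.map (residue V)) (A.map (residue V)) (B.map (residue V)) ≠ 0 ∧
    (Nm (F.map (residue V)) (A.map (residue V)) (B.map (residue V))).roots =
      m.filterMap (fun Q => (redu V Q).map Prod.fst) ∧
    (Nm (F.map (residue V)) (A.map (residue V)) (B.map (residue V))).natDegree =
      Multiset.card (m.filterMap (fun Q => (redu V Q).map Prod.fst)) := by
  have hinj : Function.Injective (algebraMap V k) := Subtype.val_injective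
  -- the norm over `V`
  set N : V[X] := A ^ 2 - B ^ 2 * F with hN
  have hNk : N.map (algebraMap V k) =
      Nm f (A.map (algebraMap V k)) (B.map (algebraMap V k)) := by
    rw [hN, Nm, Polynomial.map_sub, Polynomial.map_mul, Polynomial.map_pow, Polynomial.map_pow, hF]
  have hNr : N.map (residue V) =
      Nm (F.map (residue V)) (A.map (residue V)) (B.map (residue V)) := by
    rw [hN, Nm, Polynomial.map_sub, Polynomial.map_mul, Polynomial.map_pow, Polynomial.map_pow]
  -- `F` is monic of degree five
  have hFm : F.Monic := by
    apply Polynomial.monic_of_injective hinj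
    rw [hF]
    exact Genus2.monic
  have hFd : F.natDegree = 5 := by
    rw [← Polynomial.natDegree_map_eq_of_injective hinj F, hF]
    exact Genus2.deg
  have hFrm : (F.map (residue V)).Monic := hFm.map _
  have hFrd : (F.map (residue V)).natDegree = 5 := by
    rw [hFm.natDegree_map, hFd]
  have hr : N.map (residue V) ≠ 0 := by
    rw [hNr, Nm]
    intro h0
    have h1 : (A.map (residue V)) ^ 2 = (B.map (residue V)) ^ 2 * F.map (residue V) :=
      sub_eq_zero.1 h0
    by_cases hB : B.map (residue V) = 0
    · rw [hB] at h1
      have h2 : A.map (residue V) = 0 := by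
        have : (A.map (residue V)) ^ 2 = 0 := by rw [h1]; ring
        exact pow_eq_zero_iff (two_ne_zero) |>.1 this
      rcases hAB with h | h
      · exact h h2
      · exact h hB
    · have h3 := congrArg Polynomial.natDegree h1
      rw [Polynomial.natDegree_pow, Polynomial.natDegree_mul (pow_ne_zero 2 hB) hFrm.ne_zero,
        Polynomial.natDegree_pow, hFrd] at h3
      omega
  have hne : el f (A.map (algebraMap V k)) (B.map (algebraMap V k)) ≠ 0 := by
    intro h0
    have h1 := (el_eq_zero_iff (f := f) _ _).1 h0
    rcases hAB with h | h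
    · apply h
      have : A = 0 := by
        apply Polynomial.map_injective _ hinj
        rw [h1.1, Polynomial.map_zero]
      rw [this, Polynomial.map_zero]
    · apply h
      have : B = 0 := by
        apply Polynomial.map_injective _ hinj
        rw [h1.2, Polynomial.map_zero]
      rw [this, Polynomial.map_zero]
  obtain ⟨c, hc⟩ := Nm_eq_prod (f := f) _ _ hne m hm
  have h1 := red_roots V N hr c (m.filterMap xco) (by rw [hNk, hc])
  have h2 : (m.filterMap xco).filterMap (red1 V) =
      m.filterMap (fun Q => (redu V Q).map Prod.fst) := by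
    rw [Multiset.filterMap_filterMap]
    congr 1
    funext Q
    match Q with
    | .inf => rfl
    | .aff x y h =>
      show (some x).bind (red1 V) = _
      rw [Option.bind_some, red1, redu]
      by_cases hx : x ∈ V
      · have hy : y ∈ V := redu_aff hV h hx
        rw [dif_pos hx, dif_pos ⟨hx, hy⟩]
        rfl
      · rw [dif_neg hx, dif_neg (fun h => hx h.1)]
        rfl
  rw [h2, hNr] at h1
  rw [hNr] at hr
  exact ⟨hr, h1.1, h1.2⟩

end Pool.Agent.LibJac77
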