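import Pool.Agent.LibJac77.D1d

/-!
Residues of algebraic numbers of bounded degree.
-/

open scoped Classical
open Polynomial IsLocalRing

namespace Pool.Agent.LibJac77

open Pool.Agent.LibBH2

theorem finite_small_polys (p : ℕ) [Fact p.Prime] (B : ℕ) :
    {g : (ZMod p)[X] | g.natDegree ≤ B}.Finite := by
  have h : Finite (degreeLT (ZMod p) (B + 1)) :=
    Finite.of_equiv _ (degreeLTEquiv (ZMod p) (B + 1)).symm.toEquiv
  refine Set.Finite.subset (Set.toFinite (degreeLT (ZMod p) (B + 1) : Set (ZMod p)[X])) ?_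
  intro g hg
  rw [Set.mem_ofPred_eq] at hg
  rw [SetLike.mem_coe, mem_degreeLT]
  exact (degree_le_natDegree).trans_lt (by exact_mod_cast Nat.lt_succ_of_le hg)

theorem exists_primitive (x : Qb) {B : ℕ} (hx : (minpoly ℚ x).natDegree ≤ B) :
    ∃ h : ℤ[X], h.IsPrimitive ∧ h.natDegree ≤ B ∧ aeval x h = 0 := by
  have hint : IsIntegral ℚ x := ((AlgebraicClosure.isAlgebraic ℚ).isAlgebraic x).isIntegral
  have hm0 : minpoly ℚ x ≠ 0 := minpoly.ne_zero hint
  set g := IsLocalization.integerNormalization (nonZeroDivisors ℤ) (minpoly ℚ x) with hg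
  obtain ⟨b, hbM, hb⟩ := IsLocalization.integerNormalization_spec (nonZeroDivisors ℤ) (minpoly ℚ x)
  have hb0 : (b : ℤ) ≠ 0 := nonZeroDivisors.ne_zero hbM
  have hbQ : ((b : ℤ) : ℚ) ≠ 0 := by exact_mod_cast hb0
  have hbs : b • minpoly ℚ x = C ((b : ℤ) : ℚ) * minpoly ℚ x := by
    rw [← smul_eq_C_mul]
    ext n
    simp
  have hinj : Function.Injective (algebraMap ℤ ℚ) := (algebraMap ℤ ℚ).injective_int
  have hg0 : g ≠ 0 := by
    intro h0
    rw [← hg, h0, Polynomial.map_zero] at hb
    have h1 : C ((b : ℤ) : ℚ) * minpoly ℚ x = 0 := by rw [← hbs]; exact hb.symm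
    rcases mul_eq_zero.mp h1 with h2 | h2
    · exact hbQ (C_eq_zero.mp h2)
    · exact hm0 h2
  refine ⟨g.primPart, g.isPrimitive_primPart, ?_, ?_⟩
  · rw [natDegree_primPart, ← natDegree_map_eq_of_injective hinj, hb]
    have h1 : (b • minpoly ℚ x).natDegree ≤ (minpoly ℚ x).natDegree := by
      rw [hbs]
      exact natDegree_C_mul_le _ _
    exact h1.trans hx
  · have h1 : aeval x g = 0 := by
      have h2 : aeval x (g.map (algebraMap ℤ ℚ)) = 0 := by
        rw [hb, hbs, map_mul, minpoly.aeval, mul_zero]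
      rwa [aeval_map_algebraMap] at h2
    have h3 : g = C g.content * g.primPart := g.eq_C_content_mul_primPart
    rw [h3, map_mul, aeval_C] at h1
    rcases mul_eq_zero.mp h1 with h4 | h4
    · exfalso
      have h5 : g.content = 0 := by
        have : ((g.content : ℤ) : Qb) = 0 := by simpa using h4
        exact_mod_cast this
      exact hg0 (content_eq_zero_iff.mp h5)
    · exact h4

/-- algebraic numbers of bounded degree have finitely many residues -/
theorem finite_red1 (V : ValuationSubring Qb) (p : ℕ) [Fact p.Prime] [CharP (RF V) p] (B : ℕ) :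
    {z : Option (RF V) | ∃ x : Qb, (minpoly ℚ x).natDegree ≤ B ∧ red1 V x = z}.Finite := by
  have hp : p.Prime := Fact.out
  let φ : ZMod p →+* RF V := ZMod.castHom dvd_rfl (RF V)
  have hfin : (⋃ g ∈ {g : (ZMod p)[X] | g.natDegree ≤ B},
      ((g.map φ).roots.toFinset : Set (RF V))).Finite :=
    (finite_small_polys p B).biUnion fun g _ => Finset.finite_toSet _
  refine ((hfin.image some).insert none).subset ?_
  rintro z ⟨x, hx, rfl⟩
  by_cases hxV : x ∈ V
  · right
    refine ⟨residue V ⟨x, hxV⟩, ?_, by rw [red1, dif_pos hxV]⟩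
    obtain ⟨h, hprim, hdeg, hroot⟩ := exists_primitive x hx
    rw [Set.mem_iUnion₂]
    refine ⟨h.map (Int.castRingHom (ZMod p)), ?_, ?_⟩
    · rw [Set.mem_ofPred_eq]
      exact natDegree_map_le.trans hdeg
    · have hφ : φ.comp (Int.castRingHom (ZMod p)) = (residue V).comp (algebraMap ℤ V) :=
        RingHom.ext_int _ _
      have hne : h.map (Int.castRingHom (ZMod p)) ≠ 0 := by
        intro h0
        have h1 : C (p : ℤ) ∣ h := by
          rw [C_dvd_iff_dvd_coeff]
          intro n
          have h2 : (h.map (Int.castRingHom (ZMod p))).coeff n = 0 := by rw [h0, coeff_zero]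
          rw [coeff_map, eq_intCast] at h2
          exact (ZMod.intCast_zmod_eq_zero_iff_dvd _ _).mp h2
        have h3 := hprim _ h1
        rw [Int.isUnit_iff] at h3
        have := hp.one_lt
        omega
      rw [Finset.mem_coe, Multiset.mem_toFinset, mem_roots', IsRoot.def]
      refine ⟨?_, ?_⟩
      · rw [Ne, Polynomial.map_eq_zero_iff φ.injective]
        exact hne
      · rw [map_map, hφ, ← map_map]
        have h4 : (h.map (algebraMap ℤ V)).eval ⟨x, hxV⟩ = 0 := by
          apply Subtype.val_injective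
          have h5 : algebraMap V Qb ((h.map (algebraMap ℤ V)).eval ⟨x, hxV⟩) = aeval x h := by
            rw [← aeval_algebraMap_apply_eq_algebraMap_eval, aeval_map_algebraMap]
            rfl
          rw [hroot] at h5
          exact h5
        rw [← eval₂_eq_eval_map, eval₂_at_apply, h4, map_zero]
  · left
    rw [red1, dif_neg hxV]

theorem finite_redu (f : Qb[X]) (V : ValuationSubring Qb) (p : ℕ) [Fact p.Prime]
    [CharP (RF V) p] (B : ℕ) :
    {z : Option (RF V × RF V) | ∃ P : Pt f, Bdd B P ∧ redu V P = z}.Finite := by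
  have hS := finite_red1 V p B
  have hS2 : {z : RF V | ∃ x : Qb, (minpoly ℚ x).natDegree ≤ B ∧ red1 V x = some z}.Finite := by
    refine Set.Finite.of_finite_image (f := some) (hS.subset ?_) (Option.some_injective _).injOn
    rintro _ ⟨z, ⟨x, hx, hz⟩, rfl⟩
    exact ⟨x, hx, hz⟩
  refine (((hS2.prod hS2).image some).insert none).subset ?_
  rintro z ⟨P, hP, rfl⟩
  match P with
  | .inf => left; rfl
  | .aff x y h =>
    by_cases hxy : x ∈ V ∧ y ∈ V
    · right
      refine ⟨(residue V ⟨x, hxy.1⟩, residue V ⟨y, hxy.2⟩), ⟨⟨x, hP.1, ?_⟩, ⟨y, hP.2, ?_⟩⟩, ?_⟩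
      · rw [red1, dif_pos hxy.1]
      · rw [red1, dif_pos hxy.2]
      · rw [redu, dif_pos hxy]
    · left
      rw [redu, dif_neg hxy]

end Pool.Agent.LibJac77
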