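import Pool.Agent.LibJac77.D1d

/-!
Numbers with two conjugates over a number field.
-/

open scoped Classical
open Polynomial IsLocalRing

namespace Pool.Agent.LibJac77

open Pool.Agent.LibBH2

theorem mem_of_fixed (K₁ : IntermediateField ℚ Qb) (c : Qb)
    (h : ∀ σ : Qb ≃ₐ[ℚ] Qb, σ ∈ K₁.fixingSubgroup → σ c = c) : c ∈ K₁ := by
  have h1 : Algebra.IsAlgebraic ℚ Qb := AlgebraicClosure.isAlgebraic ℚ
  have h2 : IsAlgClosed Qb := inferInstance
  have h3 : IsAlgClosure ℚ Qb := ⟨h2, h1⟩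
  have h4 : Normal ℚ Qb := IsAlgClosure.normal ℚ Qb
  have h5 : IsGalois ℚ Qb := ⟨⟩
  rw [← InfiniteGalois.fixedField_fixingSubgroup K₁]
  intro σ
  exact h σ.1 σ.2

/-- a number which together with `z'` is permuted by the automorphisms fixing `K₁` -/
theorem natDegree_le_of_orbit (K₁ : IntermediateField ℚ Qb) [FiniteDimensional ℚ K₁] (z z' : Qb)
    (h : ∀ σ : Qb ≃ₐ[ℚ] Qb, σ ∈ K₁.fixingSubgroup → (σ z = z ∧ σ z' = z') ∨ (σ z = z' ∧ σ z' = z)) :
    (minpoly ℚ z).natDegree ≤ 2 * Module.finrank ℚ K₁ := by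
  have hs : z + z' ∈ K₁ := mem_of_fixed K₁ _ fun σ hσ => by
    rcases h σ hσ with ⟨h1, h2⟩ | ⟨h1, h2⟩ <;> rw [map_add, h1, h2]
    exact add_comm _ _
  have hp : z * z' ∈ K₁ := mem_of_fixed K₁ _ fun σ hσ => by
    rcases h σ hσ with ⟨h1, h2⟩ | ⟨h1, h2⟩ <;> rw [map_mul, h1, h2]
    exact mul_comm _ _
  set q : K₁[X] := X ^ 2 - C ⟨z + z', hs⟩ * X + C ⟨z * z', hp⟩ with hq
  have hqm : q.Monic := by rw [hq]; monicity!
  have hqd : q.natDegree = 2 := by rw [hq]; compute_degree!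
  have hqz : aeval z q = 0 := by
    rw [hq]
    simp only [map_add, map_sub, map_mul, map_pow, aeval_X, aeval_C]
    have h1 : algebraMap K₁ Qb ⟨z + z', hs⟩ = z + z' := rfl
    have h2 : algebraMap K₁ Qb ⟨z * z', hp⟩ = z * z' := rfl
    rw [h1, h2]
    ring
  have hint : IsIntegral K₁ z := ⟨q, hqm, hqz⟩
  have hdeg : (minpoly K₁ z).natDegree ≤ 2 := by
    rw [← hqd]
    exact natDegree_le_natDegree (minpoly.min K₁ z hqm hqz)
  have : FiniteDimensional K₁ (IntermediateField.adjoin K₁ {z}) :=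
    IntermediateField.adjoin.finiteDimensional hint
  have : FiniteDimensional ℚ (IntermediateField.adjoin K₁ {z}) :=
    FiniteDimensional.trans ℚ K₁ _
  have hfin : Module.finrank ℚ (IntermediateField.adjoin K₁ {z}) ≤ 2 * Module.finrank ℚ K₁ := by
    rw [← Module.finrank_mul_finrank ℚ K₁ (IntermediateField.adjoin K₁ {z}),
      IntermediateField.adjoin.finrank hint, mul_comm]
    exact Nat.mul_le_mul_right _ hdeg
  have hz : minpoly ℚ z = minpoly ℚ (IntermediateField.AdjoinSimple.gen K₁ z) := by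
    have h1 := minpoly.algebraMap_eq (A := ℚ) (B := IntermediateField.adjoin K₁ {z}) (B' := Qb)
      (algebraMap (IntermediateField.adjoin K₁ {z}) Qb).injective
      (IntermediateField.AdjoinSimple.gen K₁ z)
    rw [← h1]
    rfl
  rw [hz]
  exact (minpoly.natDegree_le _).trans hfin

end Pool.Agent.LibJac77
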