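import Pool.Agent.LibJac77.D1d

/-!
Places of good reduction above almost all primes.
-/

open scoped Classical
open Polynomial IsLocalRing

namespace Pool.Agent.LibJac77

open Pool.Agent.LibBH2

theorem natCast_not_unit_integral {p : ℕ} (hp : p.Prime) (b : Qb) (hb : IsIntegral ℤ b) :
    (p : Qb) * b ≠ 1 := by
  intro h
  have hp0 : (p : Qb) ≠ 0 := by exact_mod_cast hp.ne_zero
  have hb' : b = algebraMap ℚ Qb ((p : ℚ)⁻¹) := by
    rw [map_inv₀, map_natCast]
    exact (eq_inv_of_mul_eq_one_right h)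
  rw [hb', isIntegral_algebraMap_iff (algebraMap ℚ Qb).injective] at hb
  obtain ⟨n, hn⟩ := IsIntegrallyClosed.isIntegral_iff.mp hb
  have hpq : (p : ℚ) ≠ 0 := by exact_mod_cast hp.ne_zero
  have h1 : (p : ℚ) * (n : ℚ) = 1 := by
    have : (n : ℚ) = (p : ℚ)⁻¹ := by simpa using hn
    rw [this, mul_inv_cancel₀ hpq]
  have h2 : (p : ℤ) * n = 1 := by exact_mod_cast h1
  have h3 : (p : ℤ) ∣ 1 := ⟨n, h2.symm⟩
  have h4 : p ∣ 1 := by exact_mod_cast h3
  exact hp.one_lt.ne' (Nat.dvd_one.mp h4)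

/-- for all primes `p` outside a finite set there is a place above `p` containing given finitely many
algebraic numbers -/
theorem exists_place_above (T : Finset Qb) : ∃ M : ℕ, M ≠ 0 ∧ ∀ p : ℕ, p.Prime → ¬ p ∣ M →
    ∃ V : ValuationSubring Qb, (∀ x ∈ T, x ∈ V) ∧ CharP (RF V) p := by
  have hx : ∀ x : Qb, ∃ m : ℤ, m ≠ 0 ∧ IsIntegral ℤ ((m : Qb) * x) := by
    intro x
    have halg : IsAlgebraic ℤ x := by
      have h1 : IsAlgebraic ℚ x := (AlgebraicClosure.isAlgebraic ℚ).isAlgebraic x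
      exact (IsFractionRing.isAlgebraic_iff ℤ ℚ Qb).mpr h1
    obtain ⟨y, hy, h⟩ := halg.exists_integral_multiple
    refine ⟨y, hy, ?_⟩
    rwa [zsmul_eq_mul] at h
  choose m hm0 hm using hx
  refine ⟨∏ x ∈ T, (m x).natAbs, Finset.prod_ne_zero_iff.mpr fun x _ => Int.natAbs_ne_zero.mpr (hm0 x), ?_⟩
  intro p hp hpM
  set A : Subring Qb := (integralClosure ℤ Qb).toSubring with hA
  have hpA : (p : Qb) ∈ A := natCast_mem A p
  let I : Ideal A := Ideal.span {(⟨p, hpA⟩ : A)}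
  have hI : I ≠ ⊤ := by
    intro h
    rw [Ideal.span_singleton_eq_top] at h
    obtain ⟨b, hb⟩ := isUnit_iff_exists_inv.mp h
    refine natCast_not_unit_integral hp (b : Qb) ?_ ?_
    · exact b.2
    · exact congrArg Subtype.val hb
  obtain ⟨V, hAV, hIV⟩ := Ideal.image_subset_nonunits_valuationSubring I hI
  have hpV : (p : Qb) ∈ V.nonunits := hIV ⟨⟨p, hpA⟩, Ideal.subset_span rfl, rfl⟩
  have hpV1 : (p : Qb) ∈ V := hAV hpA
  have hres : residue V ⟨(p : Qb), hpV1⟩ = 0 := by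
    rw [residue_eq_zero_iff]
    have := (ValuationSubring.coe_mem_nonunits_iff (A := V) (a := ⟨(p : Qb), hpV1⟩)).mp hpV
    exact this
  have hcast : ((p : ℕ) : RF V) = 0 := by
    have h1 : (⟨(p : Qb), hpV1⟩ : V) = ((p : ℕ) : V) := Subtype.ext (by simp)
    rw [h1, map_natCast] at hres
    exact hres
  have hchar : CharP (RF V) p := (CharP.charP_iff_prime_eq_zero hp).mpr hcast
  refine ⟨V, ?_, hchar⟩
  intro x hxT
  have hmx : (m x : Qb) * x ∈ V := hAV (hm x)
  have hmV : (m x : Qb) ∈ V := intCast_mem V (m x)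
  have hcop : ¬ (p : ℤ) ∣ m x := by
    intro hd
    apply hpM
    exact (Int.natCast_dvd.mp hd).trans (Finset.dvd_prod_of_mem _ hxT)
  have hunit : IsUnit (⟨(m x : Qb), hmV⟩ : V) := by
    by_contra hnu
    have h1 : residue V ⟨(m x : Qb), hmV⟩ = 0 := by
      rw [residue_eq_zero_iff]
      exact (mem_maximalIdeal _).mpr hnu
    have h2 : (⟨(m x : Qb), hmV⟩ : V) = ((m x : ℤ) : V) := Subtype.ext (by simp)
    rw [h2, map_intCast] at h1
    exact hcop ((CharP.intCast_eq_zero_iff (RF V) p (m x)).mp h1)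
  obtain ⟨u, hu⟩ := isUnit_iff_exists_inv.mp hunit
  have h3 : (m x : Qb) * (u : Qb) = 1 := congrArg Subtype.val hu
  have h4 : x = (m x : Qb) * x * (u : Qb) := by
    rw [mul_right_comm, h3, one_mul]
  rw [h4]
  exact mul_mem hmx u.2

theorem exists_lift_poly (V : ValuationSubring Qb) (g : Qb[X]) (h : ∀ n, g.coeff n ∈ V) :
    ∃ G : V[X], G.map (algebraMap V Qb) = g := by
  have : g ∈ lifts (algebraMap V Qb) := by
    rw [lifts_iff_coeff_lifts]
    exact fun n => ⟨⟨g.coeff n, h n⟩, rfl⟩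
  exact (mem_lifts _).mp this

theorem exists_good (f : Qb[X]) [Genus2 f] : ∃ M : ℕ, M ≠ 0 ∧ ∀ p : ℕ, p.Prime → ¬ p ∣ M →
    ∃ V : ValuationSubring Qb, Good V f ∧ CharP (RF V) p := by
  have hsep : f.Separable := (PerfectField.separable_iff_squarefree).mpr (Genus2.sqf (f := f))
  obtain ⟨a, b, hab⟩ := hsep
  obtain ⟨M, hM, h⟩ := exists_place_above (f.coeffs ∪ a.coeffs ∪ b.coeffs)
  refine ⟨2 * M, by positivity, ?_⟩
  intro p hp hpM
  obtain ⟨V, hV, hc⟩ := h p hp (fun hd => hpM (hd.mul_left 2))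
  refine ⟨V, ?_, hc⟩
  have hco : ∀ g : Qb[X], (∀ x ∈ g.coeffs, x ∈ V) → ∀ n, g.coeff n ∈ V := by
    intro g hg n
    by_cases h0 : g.coeff n = 0
    · rw [h0]; exact zero_mem V
    · exact hg _ (coeff_mem_coeffs h0)
  obtain ⟨F, hF⟩ := exists_lift_poly V f (hco f fun x hx => hV x (by simp [hx]))
  obtain ⟨A, hA⟩ := exists_lift_poly V a (hco a fun x hx => hV x (by simp [hx]))
  obtain ⟨B, hB⟩ := exists_lift_poly V b (hco b fun x hx => hV x (by simp [hx]))
  have hinj : Function.Injective (algebraMap V Qb) := Subtype.val_injective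
  have h1 : A * F + B * derivative F = 1 := by
    apply map_injective _ hinj
    rw [Polynomial.map_add, Polynomial.map_mul, Polynomial.map_mul, ← derivative_map, hA, hB, hF,
      Polynomial.map_one]
    exact hab
  refine ⟨F, hF, ⟨A.map (residue V), B.map (residue V), ?_⟩, ?_⟩
  · rw [derivative_map, ← Polynomial.map_mul, ← Polynomial.map_mul, ← Polynomial.map_add, h1,
      Polynomial.map_one]
  · intro h2
    have h3 : ((2 : ℕ) : RF V) = 0 := by exact_mod_cast h2
    rw [CharP.cast_eq_zero_iff (RF V) p] at h3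
    exact hpM (h3.mul_right M)

end Pool.Agent.LibJac77
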