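import Pool.Agent.LibJac77.C0

/-!
The field of algebraic numbers.
-/

open scoped Classical
open Polynomial IsLocalRing

namespace Pool.Agent.LibJac77

open Pool.Agent.LibBH2

abbrev Qb : Type := AlgebraicClosure ℚ

/-- points whose coordinates have degree at most `B` over `ℚ` -/
def Bdd {f : Qb[X]} (B : ℕ) : Pt f → Prop
  | .inf => True
  | .aff x y _ => (minpoly ℚ x).natDegree ≤ B ∧ (minpoly ℚ y).natDegree ≤ B

end Pool.Agent.LibJac77
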