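import Pool.Agent.LibJac77.A7
import Pool.Agent.LibJac77.B1

/-!
Automorphisms of the ground field act on points and divisors of functions.
-/

open scoped Classical
open Polynomial

namespace Pool.Agent.LibJac77

open Pool.Agent.LibBH2

variable {k : Type} [Field k] {f : k[X]}

/-- the action of an automorphism of `k` fixing the coefficients of `f` -/
noncomputable def act (σ : k ≃+* k) (hσ : f.map (σ : k →+* k) = f) : Pt f → Pt f
  | .inf => .inf
  | .aff x y h => .aff (σ x) (σ y) (by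
      rw [← map_pow, h]
      conv_rhs => rw [← hσ]
      exact (eval_map_apply (f := (σ : k →+* k)) (p := f) x).symm)

theorem act_inf (σ : k ≃+* k) (hσ : f.map (σ : k →+* k) = f) : act σ hσ (.inf : Pt f) = .inf := rfl

theorem act_injective (σ : k ≃+* k) (hσ : f.map (σ : k →+* k) = f) :
    Function.Injective (act σ hσ) := by
  intro P Q h
  match P, Q with
  | .inf, .inf => rfl
  | .inf, .aff x y hh => simp [act] at h
  | .aff x y hh, .inf => simp [act] at h
  | .aff x y hh, .aff x' y' hh' =>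
    simp only [act, Pt.aff.injEq, EmbeddingLike.apply_eq_iff_eq] at h
    obtain ⟨rfl, rfl⟩ := h
    rfl

theorem D2a_symm (σ : k ≃+* k) (hσ : f.map (σ : k →+* k) = f) :
    f.map (σ.symm : k →+* k) = f := by
  conv_lhs => rw [← hσ]
  rw [Polynomial.map_map]
  have h1 : (σ.symm : k →+* k).comp (σ : k →+* k) = RingHom.id k := by
    ext x; simp
  rw [h1, Polynomial.map_id]

theorem D2a_act_act (σ : k ≃+* k) (hσ : f.map (σ : k →+* k) = f) (P : Pt f) :
    act σ hσ (act σ.symm (D2a_symm σ hσ) P) = P := by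
  match P with
  | .inf => rfl
  | .aff x y h => simp [act]

section ext

variable [Genus2 f]

theorem D2a_inj (σ : k ≃+* k) : Function.Injective
    ((aeval (DCf f).s : k[X] →ₐ[k] KC f).toRingHom.comp (mapRingHom (σ : k →+* k))) := by
  rw [injective_iff_map_eq_zero]
  intro a ha
  by_contra h0
  have h1 : a.map (σ : k →+* k) ≠ 0 := by
    rw [Ne, Polynomial.map_eq_zero]
    exact h0
  exact (DCf f).aeval_ne_zero h1 ha

/-- the action on `k(s)` -/
noncomputable def D2a_i (f : k[X]) [Genus2 f] (σ : k ≃+* k) : RatFunc k →+* KC f :=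
  IsFractionRing.lift (A := k[X]) (K := RatFunc k) (L := KC f) (D2a_inj (f := f) σ)

theorem D2a_i_poly (σ : k ≃+* k) (A : k[X]) : D2a_i f σ (algebraMap k[X] (RatFunc k) A) =
    aeval (DCf f).s (A.map (σ : k →+* k)) := by
  unfold D2a_i
  rw [IsFractionRing.lift_algebraMap]
  rfl

/-- the extension of an automorphism of the ground field to the function field -/
noncomputable def Sg (σ : k ≃+* k) (hσ : f.map (σ : k →+* k) = f) : KC f →+* KC f :=
  AdjoinRoot.lift (D2a_i f σ) (DCf f).w (by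
    simp only [quadPoly, eval₂_sub, eval₂_pow, eval₂_X, eval₂_C]
    rw [D2a_i_poly, hσ, (DCf f).aeval_F]
    exact sub_self _)

theorem Sg_w (σ : k ≃+* k) (hσ : f.map (σ : k →+* k) = f) : Sg σ hσ (DCf f).w = (DCf f).w := by
  unfold Sg
  exact AdjoinRoot.lift_root _

theorem Sg_poly (σ : k ≃+* k) (hσ : f.map (σ : k →+* k) = f) (A : k[X]) :
    Sg σ hσ (aeval (DCf f).s A) = aeval (DCf f).s (A.map (σ : k →+* k)) := by
  rw [← D2a_i_poly, ← (DCf f).ι_poly]
  unfold Sg
  exact AdjoinRoot.lift_of _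

theorem Sg_el (σ : k ≃+* k) (hσ : f.map (σ : k →+* k) = f) (A B : k[X]) :
    Sg σ hσ (el f A B) = el f (A.map (σ : k →+* k)) (B.map (σ : k →+* k)) := by
  unfold el
  rw [map_add, map_mul, Sg_w, Sg_poly, Sg_poly]

theorem Sg_const (σ : k ≃+* k) (hσ : f.map (σ : k →+* k) = f) (c : k) :
    Sg σ hσ (algebraMap k (KC f) c) = algebraMap k (KC f) (σ c) := by
  have h := Sg_poly σ hσ (C c)
  rw [map_C, aeval_C, aeval_C] at h
  exact h

theorem Sg_s (σ : k ≃+* k) (hσ : f.map (σ : k →+* k) = f) :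
    Sg σ hσ (DCf f).s = (DCf f).s := by
  have h := Sg_poly σ hσ X
  rw [map_X, aeval_X] at h
  exact h

end ext

variable [CharZero k] [IsAlgClosed k] [Genus2 f]

theorem Sg_Sg (σ : k ≃+* k) (hσ : f.map (σ : k →+* k) = f) (h : KC f) :
    Sg σ hσ (Sg σ.symm (D2a_symm σ hσ) h) = h := by
  obtain ⟨A, B, Q, hQ, hh⟩ := exists_quot h
  have h1 : (σ : k →+* k).comp (σ.symm : k →+* k) = RingHom.id k := by
    ext x; simp
  have h2 := congrArg (fun x => Sg σ hσ (Sg σ.symm (D2a_symm σ hσ) x)) hh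
  simp only [map_mul, Sg_el, Polynomial.map_map, h1, Polynomial.map_id] at h2
  have h3 : el f Q 0 ≠ 0 := by
    rw [Ne, el_eq_zero_iff]
    intro h4
    exact hQ h4.1
  apply mul_right_cancel₀ h3
  rw [h2, hh]

/-- the pull-back of a place -/
noncomputable def pull (σ : k ≃+* k) (hσ : f.map (σ : k →+* k) = f) (v : Place k (KC f)) :
    Place k (KC f) where
  ord h := v.ord (Sg σ hσ h)
  ord_zero := by rw [map_zero, v.ord_zero]
  ord_mul a b ha hb := by
    rw [map_mul]
    exact v.ord_mul _ _ ((_root_.map_ne_zero _).2 ha) ((_root_.map_ne_zero _).2 hb)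
  ord_add a b ha hb hab := by
    rw [map_add]
    exact v.ord_add _ _ ((_root_.map_ne_zero _).2 ha) ((_root_.map_ne_zero _).2 hb)
      (by rw [← map_add]; exact (_root_.map_ne_zero _).2 hab)
  ord_const c hc := by
    rw [Sg_const]
    exact v.ord_const _ (by simpa using hc)
  exists_uniformizer := by
    obtain ⟨t, ht⟩ := v.exists_uniformizer
    exact ⟨Sg σ.symm (D2a_symm σ hσ) t, by rw [Sg_Sg]; exact ht⟩

theorem pull_zer (σ : k ≃+* k) (hσ : f.map (σ : k →+* k) = f) (v : Place k (KC f)) (h : KC f)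
    (hz : v.Zer (Sg σ hσ h)) : (pull σ hσ v).Zer h := by
  rcases hz with h1 | h1
  · left
    exact (map_eq_zero _).1 h1
  · right
    exact h1

theorem pull_vp (σ : k ≃+* k) (hσ : f.map (σ : k →+* k) = f) (P : Pt f) :
    pull σ hσ (vp (act σ hσ P)) = vp P := by
  apply eq_vp
  have h1 := sp_vp (act σ hσ P)
  match P with
  | .inf =>
    change (vp (act σ hσ (.inf : Pt f))).ord (Sg σ hσ (DCf f).s) < 0
    rw [Sg_s]
    exact h1
  | .aff x y h =>
    obtain ⟨h2, h3⟩ := h1
    refine ⟨pull_zer σ hσ _ _ ?_, pull_zer σ hσ _ _ ?_⟩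
    · rw [map_sub, Sg_s, Sg_const]
      exact h2
    · rw [map_sub, Sg_w, Sg_const]
      exact h3

/-- divisors of functions are mapped to divisors of functions -/
theorem isDiv_act (σ : k ≃+* k) (hσ : f.map (σ : k →+* k) = f) {D : Pt f →₀ ℤ} (hD : IsDiv f D) :
    IsDiv f (D.mapDomain (act σ hσ)) := by
  rw [isDiv_iff] at hD ⊢
  obtain ⟨h, hh, rfl⟩ := hD
  refine ⟨Sg σ hσ h, (_root_.map_ne_zero _).2 hh, ?_⟩
  ext Q
  rw [← D2a_act_act σ hσ Q, Finsupp.mapDomain_apply (act_injective σ hσ), dv_apply, dv_apply,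
    ← pull_vp σ hσ]
  rfl

end Pool.Agent.LibJac77
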