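import Pool.Agent.LibJac77.D2a

/-!
Automorphisms of the ground field act on divisor classes.
-/

open scoped Classical
open Polynomial

namespace Pool.Agent.LibJac77

open Pool.Agent.LibBH2

variable {k : Type} [Field k] {f : k[X]}

variable [CharZero k] [IsAlgClosed k] [Genus2 f]

theorem exists_pact (σ : k ≃+* k) (hσ : f.map (σ : k →+* k) = f) : ∃ α : Pic f →+ Pic f,
    ∀ D : Pt f →₀ ℤ, α (mk f D) = mk f (D.mapDomain (act σ hσ)) := by
  refine ⟨QuotientAddGroup.map (AddSubgroup.closure {D | IsDiv f D})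
    (AddSubgroup.closure {D | IsDiv f D}) (Finsupp.mapDomain.addMonoidHom (act σ hσ)) ?_,
    fun D => rfl⟩
  rw [AddSubgroup.closure_le]
  intro D hD
  exact AddSubgroup.subset_closure (isDiv_act σ hσ hD)

/-- the action on the Picard group -/
noncomputable def pact (σ : k ≃+* k) (hσ : f.map (σ : k →+* k) = f) : Pic f →+ Pic f :=
  Classical.choose (exists_pact σ hσ)

theorem pact_mk (σ : k ≃+* k) (hσ : f.map (σ : k →+* k) = f) (D : Pt f →₀ ℤ) :
    pact σ hσ (mk f D) = mk f (D.mapDomain (act σ hσ)) :=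
  Classical.choose_spec (exists_pact σ hσ) D

theorem pact_jP (σ : k ≃+* k) (hσ : f.map (σ : k →+* k) = f) (P : Pt f) :
    pact σ hσ (jP P) = jP (act σ hσ P) := by
  unfold jP
  rw [map_sub, map_sub, map_sub, pact_mk, pact_mk, Finsupp.mapDomain_single,
    Finsupp.mapDomain_single, act_inf]

end Pool.Agent.LibJac77
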