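import Pool.Agent.LibJac77.D1d
import Pool.Agent.LibJac77.D2

/-!
Classes are defined over number fields.
-/

open scoped Classical
open Polynomial IsLocalRing

namespace Pool.Agent.LibJac77

open Pool.Agent.LibBH2

variable {f : Qb[X]} [Genus2 f]

/-- the coefficients of `f` are in `K₀` -/
def RatF (f : Qb[X]) (K₀ : IntermediateField ℚ Qb) : Prop := ∀ n, f.coeff n ∈ K₀

theorem RatF.map {K₀ : IntermediateField ℚ Qb} (h : RatF f K₀) {σ : Qb ≃ₐ[ℚ] Qb}
    (hσ : σ ∈ K₀.fixingSubgroup) : f.map ((σ : Qb ≃+* Qb) : Qb →+* Qb) = f := by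
  ext n
  rw [coeff_map]
  exact (IntermediateField.mem_fixingSubgroup_iff K₀ σ).1 hσ _ (h n)

theorem D3a_alg : Algebra.IsAlgebraic ℚ Qb := by
  have h1 : (DivisionRing.toRatAlgebra : Algebra ℚ Qb) = AlgebraicClosure.instAlgebra ℚ :=
    Subsingleton.elim _ _
  rw [h1]
  exact AlgebraicClosure.isAlgebraic ℚ

/-- the coordinates of a point -/
noncomputable def D3a_co : Pt f → Finset Qb
  | .inf => ∅
  | .aff x y _ => {x, y}

/-- finitely many classes are defined over a number field -/
theorem exists_field (S : Finset (Pic f)) : ∃ K₀ : IntermediateField ℚ Qb,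
    FiniteDimensional ℚ K₀ ∧ ∃ h : RatF f K₀, ∀ σ : Qb ≃ₐ[ℚ] Qb, ∀ hσ : σ ∈ K₀.fixingSubgroup,
      ∀ c ∈ S, pact (σ : Qb ≃+* Qb) (h.map hσ) c = c := by
  have hsurj : Function.Surjective (mk f) := QuotientAddGroup.mk'_surjective _
  choose rep hrep using hsurj
  set T : Finset Qb := (f.support.image f.coeff) ∪
    (S.biUnion fun c => (rep c).support.biUnion D3a_co) with hT
  have hfin : FiniteDimensional ℚ (IntermediateField.adjoin ℚ (T : Set Qb)) :=
    IntermediateField.finiteDimensional_adjoin fun x _ =>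
      (D3a_alg.isAlgebraic x).isIntegral
  have hR : RatF f (IntermediateField.adjoin ℚ (T : Set Qb)) := by
    intro n
    by_cases h0 : f.coeff n = 0
    · rw [h0]; exact zero_mem _
    · apply IntermediateField.subset_adjoin
      rw [Finset.mem_coe, hT, Finset.mem_union]
      left
      exact Finset.mem_image_of_mem _ (mem_support_iff.2 h0)
  refine ⟨IntermediateField.adjoin ℚ (T : Set Qb), hfin, hR, ?_⟩
  intro σ hσ c hc
  have hfix : ∀ x ∈ T, σ x = x := fun x hx =>
    (IntermediateField.mem_fixingSubgroup_iff _ σ).1 hσ _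
      (IntermediateField.subset_adjoin ℚ (T : Set Qb) (Finset.mem_coe.2 hx))
  have hact : ∀ P ∈ (rep c).support, act (σ : Qb ≃+* Qb) (hR.map hσ) P = P := by
    intro P hP
    have hsub : ∀ x ∈ D3a_co P, x ∈ T := by
      intro x hx
      rw [hT, Finset.mem_union]
      right
      exact Finset.mem_biUnion.2 ⟨c, hc, Finset.mem_biUnion.2 ⟨P, hP, hx⟩⟩
    match P with
    | .inf => rfl
    | .aff x y hxy =>
      have h1 := hfix x (hsub x (by simp [D3a_co]))
      have h2 := hfix y (hsub y (by simp [D3a_co]))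
      simp only [act, Pt.aff.injEq]
      exact ⟨h1, h2⟩
  rw [← hrep c, pact_mk, Finsupp.mapDomain_congr (g := id) hact, Finsupp.mapDomain_id]

end Pool.Agent.LibJac77
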