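import Pool.Agent.LibJac77.D3a
import Pool.Agent.LibJac77.D1
import Pool.Agent.LibJac77.A10

/-!
Degrees of the coordinates.
-/

open scoped Classical
open Polynomial IsLocalRing

namespace Pool.Agent.LibJac77

open Pool.Agent.LibBH2

variable {f : Qb[X]} [Genus2 f]

/-- the first coordinate -/
noncomputable def D3b_x : Pt f → Qb
  | .inf => 0
  | .aff x _ _ => x

/-- the second coordinate -/
noncomputable def D3b_y : Pt f → Qb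
  | .inf => 0
  | .aff _ y _ => y

omit [Genus2 f] in
theorem D3b_x_act (σ : Qb ≃+* Qb) (hσ : f.map (σ : Qb →+* Qb) = f) (P : Pt f) :
    D3b_x (act σ hσ P) = σ (D3b_x P) := by
  match P with
  | .inf => simp [act, D3b_x]
  | .aff x y h => rfl

omit [Genus2 f] in
theorem D3b_y_act (σ : Qb ≃+* Qb) (hσ : f.map (σ : Qb →+* Qb) = f) (P : Pt f) :
    D3b_y (act σ hσ P) = σ (D3b_y P) := by
  match P with
  | .inf => simp [act, D3b_y]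
  | .aff x y h => rfl

omit [Genus2 f] in
theorem D3b_bdd {B : ℕ} {P : Pt f} (h1 : (minpoly ℚ (D3b_x P)).natDegree ≤ B)
    (h2 : (minpoly ℚ (D3b_y P)).natDegree ≤ B) : Bdd B P := by
  match P with
  | .inf => trivial
  | .aff x y h => exact ⟨h1, h2⟩

/-- if `[P] + [Q] - 2[∞] ≠ 0` is fixed by the automorphisms fixing `K₁` then the coordinates of `P`
have bounded degree -/
theorem bdd_of_fixed (K₁ : IntermediateField ℚ Qb) [FiniteDimensional ℚ K₁] (h : RatF f K₁)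
    {P Q : Pt f} (hne : jP P + jP Q ≠ 0)
    (hfix : ∀ σ : Qb ≃ₐ[ℚ] Qb, ∀ hσ : σ ∈ K₁.fixingSubgroup,
      pact (σ : Qb ≃+* Qb) (h.map hσ) (jP P + jP Q) = jP P + jP Q) :
    Bdd (2 * Module.finrank ℚ K₁) P ∧ Bdd (2 * Module.finrank ℚ K₁) Q := by
  have key : ∀ σ : Qb ≃ₐ[ℚ] Qb, ∀ hσ : σ ∈ K₁.fixingSubgroup,
      (act (σ : Qb ≃+* Qb) (h.map hσ) P = P ∧ act (σ : Qb ≃+* Qb) (h.map hσ) Q = Q) ∨
      (act (σ : Qb ≃+* Qb) (h.map hσ) P = Q ∧ act (σ : Qb ≃+* Qb) (h.map hσ) Q = P) := by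
    intro σ hσ
    have h1 := hfix σ hσ
    rw [map_add, pact_jP, pact_jP] at h1
    rcases two_unique h1 with h2 | h2 | h2
    · exact Or.inl h2
    · exact Or.inr h2
    · exfalso
      apply hne
      rw [h2.2, jP_neg]
      exact add_neg_cancel _
  have kx : ∀ σ : Qb ≃ₐ[ℚ] Qb, σ ∈ K₁.fixingSubgroup →
      (σ (D3b_x P) = D3b_x P ∧ σ (D3b_x Q) = D3b_x Q) ∨
      (σ (D3b_x P) = D3b_x Q ∧ σ (D3b_x Q) = D3b_x P) := by
    intro σ hσ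
    have e1 : D3b_x (act (σ : Qb ≃+* Qb) (h.map hσ) P) = σ (D3b_x P) := D3b_x_act _ _ P
    have e2 : D3b_x (act (σ : Qb ≃+* Qb) (h.map hσ) Q) = σ (D3b_x Q) := D3b_x_act _ _ Q
    rcases key σ hσ with ⟨h2, h3⟩ | ⟨h2, h3⟩
    · left; rw [← e1, ← e2, h2, h3]; exact ⟨rfl, rfl⟩
    · right; rw [← e1, ← e2, h2, h3]; exact ⟨rfl, rfl⟩
  have ky : ∀ σ : Qb ≃ₐ[ℚ] Qb, σ ∈ K₁.fixingSubgroup →
      (σ (D3b_y P) = D3b_y P ∧ σ (D3b_y Q) = D3b_y Q) ∨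
      (σ (D3b_y P) = D3b_y Q ∧ σ (D3b_y Q) = D3b_y P) := by
    intro σ hσ
    have e1 : D3b_y (act (σ : Qb ≃+* Qb) (h.map hσ) P) = σ (D3b_y P) := D3b_y_act _ _ P
    have e2 : D3b_y (act (σ : Qb ≃+* Qb) (h.map hσ) Q) = σ (D3b_y Q) := D3b_y_act _ _ Q
    rcases key σ hσ with ⟨h2, h3⟩ | ⟨h2, h3⟩
    · left; rw [← e1, ← e2, h2, h3]; exact ⟨rfl, rfl⟩
    · right; rw [← e1, ← e2, h2, h3]; exact ⟨rfl, rfl⟩
  refine ⟨D3b_bdd (natDegree_le_of_orbit K₁ _ _ kx) (natDegree_le_of_orbit K₁ _ _ ky),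
    D3b_bdd (natDegree_le_of_orbit K₁ _ (D3b_x P) fun σ hσ => ?_)
      (natDegree_le_of_orbit K₁ _ (D3b_y P) fun σ hσ => ?_)⟩
  · rcases kx σ hσ with ⟨h2, h3⟩ | ⟨h2, h3⟩
    · exact Or.inl ⟨h3, h2⟩
    · exact Or.inr ⟨h3, h2⟩
  · rcases ky σ hσ with ⟨h2, h3⟩ | ⟨h2, h3⟩
    · exact Or.inl ⟨h3, h2⟩
    · exact Or.inr ⟨h3, h2⟩

theorem Bdd.act {B : ℕ} {P : Pt f} (h : Bdd B P) (σ : Qb ≃ₐ[ℚ] Qb)
    (hσ : f.map ((σ : Qb ≃+* Qb) : Qb →+* Qb) = f) :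
    Bdd B (act (σ : Qb ≃+* Qb) hσ P) := by
  match P with
  | .inf => trivial
  | .aff x y hxy =>
    obtain ⟨h1, h2⟩ := h
    have e : ∀ x : Qb, minpoly ℚ ((σ : Qb ≃+* Qb) x) = minpoly ℚ x := fun x =>
      minpoly.algEquiv_eq σ x
    refine ⟨?_, ?_⟩
    · rw [e]; exact h1
    · rw [e]; exact h2

end Pool.Agent.LibJac77
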