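import Pool.Agent.LibJac77.D3
import Pool.Agent.LibJac77.C10
import Pool.Agent.LibJac77.A13

/-!
A torsion class which is not defined over a given number field.
-/

open scoped Classical
open Polynomial IsLocalRing

namespace Pool.Agent.LibJac77

open Pool.Agent.LibBH2

variable {f : Qb[X]} [Genus2 f]

theorem D4_tower {w : ℕ → Pic f} (h : ∀ n, 2 • w (n + 1) = w n) (i j : ℕ) :
    2 ^ j • w (i + j) = w i := by
  induction j with
  | zero => simp
  | succ j ih =>
    rw [pow_succ, mul_smul, ← add_assoc, h, ih]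

theorem exists_moved (K₀ : IntermediateField ℚ Qb) [FiniteDimensional ℚ K₀] (h : RatF f K₀) :
    ∃ τ : Pic f, (∃ P Q : Pt f, τ = jP P + jP Q) ∧ (∃ n : ℕ, n ≠ 0 ∧ n • τ = 0) ∧
      ∃ (σ : Qb ≃ₐ[ℚ] Qb) (hσ : σ ∈ K₀.fixingSubgroup),
        pact (σ : Qb ≃+* Qb) (h.map hσ) τ ≠ τ := by
  by_contra hcon
  push Not at hcon
  obtain ⟨w, hw1, hw2, hw3, hw4⟩ := exists_tower (f := f)
  have hwne : ∀ n, w n ≠ 0 := by
    intro n h0
    have h1 := D4_tower hw2 0 n
    rw [zero_add, h0, smul_zero] at h1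
    exact hw3 h1.symm
  have hwtor : ∀ n, 2 ^ (n + 1) • w n = 0 := by
    intro n
    have h1 := D4_tower hw2 0 n
    rw [zero_add] at h1
    rw [pow_succ, mul_comm, mul_smul, h1, hw4]
  choose P Q hPQ using hw1
  have hbdd : ∀ n, Bdd (2 * Module.finrank ℚ K₀) (P n) ∧ Bdd (2 * Module.finrank ℚ K₀) (Q n) := by
    intro n
    refine bdd_of_fixed K₀ h ?_ ?_
    · rw [← hPQ n]
      exact hwne n
    · intro σ hσ
      rw [← hPQ n]
      exact hcon (w n) ⟨P n, Q n, hPQ n⟩ ⟨2 ^ (n + 1), pow_ne_zero _ two_ne_zero, hwtor n⟩ σ hσ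
  obtain ⟨M, hM, hgood⟩ := exists_good f
  obtain ⟨p, hp, hpp⟩ := Nat.exists_infinite_primes (M + 3)
  have hpM : ¬ p ∣ M := by
    intro hd
    have := Nat.le_of_dvd (Nat.pos_of_ne_zero hM) hd
    omega
  obtain ⟨V, hV, hchar⟩ := hgood p hpp hpM
  have : Fact p.Prime := ⟨hpp⟩
  have hfin := finite_redu f V p (2 * Module.finrank ℚ K₀)
  have hmaps : Set.MapsTo (fun n : ℕ => (redu V (P n), redu V (Q n))) Set.univ
      ({z : Option (RF V × RF V) | ∃ P : Pt f, Bdd (2 * Module.finrank ℚ K₀) P ∧ redu V P = z} ×ˢ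
        {z : Option (RF V × RF V) | ∃ P : Pt f, Bdd (2 * Module.finrank ℚ K₀) P ∧
          redu V P = z}) := fun n _ => ⟨⟨P n, (hbdd n).1, rfl⟩, ⟨Q n, (hbdd n).2, rfl⟩⟩
  obtain ⟨n, -, m, -, hnm, hred⟩ := Set.infinite_univ.exists_ne_map_eq_of_mapsTo hmaps
    (hfin.prod hfin)
  have key : ∀ n m : ℕ, n < m → (redu V (P n), redu V (Q n)) = (redu V (P m), redu V (Q m)) →
      False := by
    intro n m hlt heq
    have e1 : redu V (P n) = redu V (P m) := congrArg Prod.fst heq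
    have e2 : redu V (Q n) = redu V (Q m) := congrArg Prod.snd heq
    have hker : w n - w m ∈ ker V hV := by
      have h1 : w n - w m = (jP (P n) - jP (P m)) + (jP (Q n) - jP (Q m)) := by
        rw [hPQ n, hPQ m]; abel
      rw [h1]
      exact AddSubgroup.add_mem _ (mem_ker.2 ⟨_, _, e1, rfl⟩) (mem_ker.2 ⟨_, _, e2, rfl⟩)
    have hz : w n - w m = 0 := by
      refine ker_torsion hker (2 ^ (m + 1)) (by positivity) ?_ ?_
      · rw [Ne, CharP.cast_eq_zero_iff (RF V) p]
        intro hd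
        have h2 := hpp.dvd_of_dvd_pow hd
        have := Nat.le_of_dvd two_pos h2
        omega
      · rw [smul_sub, hwtor m, sub_zero]
        have h3 : 2 ^ (m + 1) = 2 ^ (m - n) * 2 ^ (n + 1) := by
          rw [← pow_add]
          congr 1
          omega
        rw [h3, mul_smul, hwtor n, smul_zero]
    have h4 : w n = w m := sub_eq_zero.1 hz
    have h5 := hwtor n
    rw [h4] at h5
    have h6 := D4_tower hw2 (m - n - 1) (n + 1)
    have h7 : m - n - 1 + (n + 1) = m := by omega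
    rw [h7, h5] at h6
    exact hwne _ h6.symm
  rcases lt_or_gt_of_ne hnm with h1 | h1
  · exact key n m h1 hred
  · exact key m n h1 hred.symm

end Pool.Agent.LibJac77
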