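import Mathlib

/-!
Independent sequences.
-/

open scoped Classical

namespace Pool.Agent.LibJac77

/-- a subgroup no finitely generated group of which contains multiples of all its elements contains
an independent sequence -/
theorem exists_indep {G : Type} [AddCommGroup G] (A : AddSubgroup G)
    (h : ∀ S : Finset G, ∃ b ∈ A, ∀ n : ℕ, n ≠ 0 → n • b ∉ AddSubgroup.closure (S : Set G)) :
    ∃ e : ℕ → G, (∀ i, e i ∈ A) ∧ LinearIndependent ℤ e := by
  choose g hgA hg using h
  -- the finite sets
  obtain ⟨F, F0, Fs⟩ : ∃ F : ℕ → Finset G, F 0 = ∅ ∧ ∀ n, F (n + 1) = insert (g (F n)) (F n) :=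
    ⟨fun n => Nat.rec ∅ (fun _ S => insert (g S) S) n, rfl, fun n => rfl⟩
  let e : ℕ → G := fun n => g (F n)
  have hsub : ∀ m n, m < n → e m ∈ F n := by
    intro m n hmn
    induction n with
    | zero => omega
    | succ n ih =>
      rw [Fs]
      rcases Nat.lt_succ_iff_lt_or_eq.mp hmn with h1 | h1
      · exact Finset.mem_insert_of_mem (ih h1)
      · subst h1; exact Finset.mem_insert_self _ _
  refine ⟨e, fun i => hgA _, ?_⟩
  rw [linearIndependent_iff']
  intro s w hw
  -- strong induction on the largest index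
  by_contra hne
  push Not at hne
  obtain ⟨i₀, hi₀, hwi₀⟩ := hne
  have hT : (s.filter fun i => w i ≠ 0).Nonempty := ⟨i₀, Finset.mem_filter.mpr ⟨hi₀, hwi₀⟩⟩
  set m := (s.filter fun i => w i ≠ 0).max' hT with hm
  have hmmem : m ∈ s.filter fun i => w i ≠ 0 := Finset.max'_mem _ _
  have hms : m ∈ s := (Finset.mem_filter.mp hmmem).1
  have hwm : w m ≠ 0 := (Finset.mem_filter.mp hmmem).2
  have hle : ∀ i ∈ s, w i ≠ 0 → i ≤ m := fun i hi hwi =>
    Finset.le_max' _ _ (Finset.mem_filter.mpr ⟨hi, hwi⟩)
  have hsum : w m • e m = - ∑ i ∈ s.erase m, w i • e i := by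
    rw [← Finset.add_sum_erase _ _ hms] at hw
    exact eq_neg_of_add_eq_zero_left hw
  have hmem : w m • e m ∈ AddSubgroup.closure ((F m : Finset G) : Set G) := by
    rw [hsum]
    refine neg_mem (sum_mem fun i hi => ?_)
    by_cases hwi : w i = 0
    · rw [hwi, zero_smul]; exact zero_mem _
    · have hilt : i < m := lt_of_le_of_ne (hle i (Finset.mem_of_mem_erase hi) hwi)
        (Finset.ne_of_mem_erase hi)
      exact zsmul_mem (AddSubgroup.subset_closure (Finset.mem_coe.mpr (hsub i m hilt))) _
  have hnat : (w m).natAbs • e m ∈ AddSubgroup.closure ((F m : Finset G) : Set G) := by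
    rcases Int.natAbs_eq (w m) with h1 | h1
    · rw [h1, natCast_zsmul] at hmem
      exact hmem
    · rw [h1, neg_smul, natCast_zsmul] at hmem
      exact neg_mem_iff.mp hmem
  exact hg (F m) _ (Int.natAbs_ne_zero.mpr hwm) hnat

end Pool.Agent.LibJac77
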