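import Mathlib

/-!
Monochromatic arithmetic progressions.
-/

open scoped Classical

namespace Pool.Agent.LibJac77

/-- van der Waerden for progressions of length four starting beyond `n₀` -/
theorem exists_mono {α : Type} [Finite α] (c : ℕ → α) (n₀ : ℕ) : ∃ a b : ℕ, 0 < a ∧ n₀ ≤ b ∧
    c (b + a) = c b ∧ c (b + 2 * a) = c b ∧ c (b + 3 * a) = c b := by
  obtain ⟨a, ha, b, v, h⟩ := Combinatorics.exists_mono_homothetic_copy
    ({0, 1, 2, 3} : Finset ℕ) (fun n : ℕ => c (n₀ + n))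
  have h0 := h 0 (by simp)
  have h1 := h 1 (by simp)
  have h2 := h 2 (by simp)
  have h3 := h 3 (by simp)
  simp only [smul_eq_mul, mul_zero, zero_add, mul_one] at h0 h1 h2 h3
  refine ⟨a, n₀ + b, ha, Nat.le_add_right _ _, ?_, ?_, ?_⟩
  · rw [h0, ← h1]; congr 1; omega
  · rw [h0, ← h2]; congr 1; omega
  · rw [h0, ← h3]; congr 1; omega

end Pool.Agent.LibJac77
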