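import Pool.Agent.LibBH2.Inv
import Pool.Agent.LibJac77.StmtDefs

/-!
Curves of genus two `C : y ^ 2 = f(x)`, `f` a monic squarefree quintic, over an algebraically closed
field `k`: points, function field, divisors of functions, the Picard group, and the Chow group of
zero-cycles of `C × C`.
-/

open scoped Classical
open Polynomial

namespace Pool.Agent.LibJac77

open Pool.Agent.LibBH2

variable {k : Type} [Field k]

/-- The zero-cycle `c` on `C × C` is the push-forward of the divisor of a function `φ` on a curve:
`K` is a function field of one variable over `k` (finite over `k(s)`), `(T₁, T₂)` is a `K`-point of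
`C × C`, i.e. a map from the curve of `K` to `C × C`, and `c` is the sum over the places `v` of
`K` of `ord_v φ` times the value of `(T₁, T₂)` at `v`. -/
def IsPrincipal (f : k[X]) (c : (Pt f × Pt f) →₀ ℤ) : Prop :=
  ∃ (K : Type) (_ : Field K) (_ : Algebra k K) (ι : RatFunc k →ₐ[k] K)
    (T₁ T₂ : Pt (f.map (algebraMap k K))) (φ : K) (S : Finset (Place k K))
    (p₁ p₂ : Place k K → Pt f),
    ι.toRingHom.Finite ∧ φ ≠ 0 ∧ (∀ v, v.ord φ ≠ 0 → v ∈ S) ∧
    (∀ v ∈ S, Sp v T₁ (p₁ v) ∧ Sp v T₂ (p₂ v)) ∧
    c = ∑ v ∈ S, Finsupp.single (p₁ v, p₂ v) (v.ord φ)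

/-- The Chow group of zero-cycles of `C × C` (for `k` algebraically closed): finite formal
`ℤ`-combinations of points modulo rational equivalence. -/
def CH0 (f : k[X]) : Type :=
  ((Pt f × Pt f) →₀ ℤ) ⧸ AddSubgroup.closure {c | IsPrincipal f c}

noncomputable instance (f : k[X]) : AddCommGroup (CH0 f) :=
  inferInstanceAs (AddCommGroup (_ ⧸ AddSubgroup.closure {c | IsPrincipal f c}))

/-- The class of the point `(P, Q)` in `CH0`. -/
noncomputable def pt {f : k[X]} (P Q : Pt f) : CH0 f :=
  QuotientAddGroup.mk' (AddSubgroup.closure {c | IsPrincipal f c}) (Finsupp.single (P, Q) 1)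

/-- The class of the product zero-cycle `D × E` of two divisors on `C`. -/
noncomputable def cross {f : k[X]} (D E : Pt f →₀ ℤ) : CH0 f :=
  D.sum fun P m => E.sum fun Q n => (m * n) • pt P Q

section ff

variable (f : k[X]) [Genus2 f]

theorem nsq : ¬ IsSquare (algebraMap k[X] (RatFunc k) f) := by
  apply not_isSquare_of_odd
  rw [Genus2.deg (f := f)]
  decide

instance : Fact (Irreducible (quadPoly f)) := ⟨quadPoly_irreducible (nsq f)⟩

/-- The function field `k(s)(w)`, `w ^ 2 = f(s)`, of the curve. -/
abbrev KC : Type := AdjoinRoot (quadPoly f)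

/-- its presentation as a double cover of the `s`-line -/
noncomputable def DCf : DC k (KC f) := DC.ofQuad f

theorem gen_eq : (DCf f).w ^ 2 = (f.map (algebraMap k (KC f))).eval (DCf f).s := by
  rw [(DCf f).aeval_F, eval_map_algebraMap]
  rfl

/-- The generic point `(s, w)` of the curve. -/
noncomputable def gen : Pt (f.map (algebraMap k (KC f))) := .aff (DCf f).s (DCf f).w (gen_eq f)

/-- `D` is the divisor of a rational function `h` on the curve: `D` is the sum over the places `v`
of the function field of `ord_v h` times the point at which `v` is centred. -/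
def IsDiv (D : Pt f →₀ ℤ) : Prop :=
  ∃ (h : KC f) (S : Finset (Place k (KC f))) (p : Place k (KC f) → Pt f),
    h ≠ 0 ∧ (∀ v, v.ord h ≠ 0 → v ∈ S) ∧ (∀ v ∈ S, Sp v (gen f) (p v)) ∧
    D = ∑ v ∈ S, Finsupp.single (p v) (v.ord h)

/-- The Picard group of the curve: divisors modulo divisors of functions. -/
def Pic : Type := (Pt f →₀ ℤ) ⧸ AddSubgroup.closure {D | IsDiv f D}

noncomputable instance : AddCommGroup (Pic f) :=
  inferInstanceAs (AddCommGroup (_ ⧸ AddSubgroup.closure {D | IsDiv f D}))

/-- The class of a divisor. -/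
noncomputable def mk : (Pt f →₀ ℤ) →+ Pic f :=
  QuotientAddGroup.mk' (AddSubgroup.closure {D | IsDiv f D})

end ff

end Pool.Agent.LibJac77
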