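import Pool.Agent.LibJac77.Main2

/-!
The final theorem.
-/

open scoped Classical
open Polynomial IsLocalRing

namespace Pool.Agent.LibJac77

open Pool.Agent.LibBH2

variable {f : Qb[X]} [Genus2 f]

theorem final (f : Qb[X]) [Genus2 f] (D : Pt f →₀ ℤ) (hD : deg D = 0)
    (hinf : ∀ n : ℕ, n ≠ 0 → n • mk f D ≠ 0) :
    ∃ E : ℕ → Pt f →₀ ℤ, (∀ i, deg (E i) = 0) ∧ LinearIndependent ℤ (fun i => mk f (E i)) ∧
      ∀ i, ∃ n : ℕ, n ≠ 0 ∧ n • (cross D (E i) + cross (E i) D) = 0 := by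
  -- the subgroup of classes of degree zero orthogonal to `D`
  let A : AddSubgroup (Pic f) :=
    { carrier := {b | (∃ E : Pt f →₀ ℤ, deg E = 0 ∧ mk f E = b) ∧
        ∃ n : ℕ, n ≠ 0 ∧ n • bb f (mk f D) b = 0}
      zero_mem' := ⟨⟨0, by simp [deg], map_zero _⟩, 1, one_ne_zero, by rw [map_zero, smul_zero]⟩
      add_mem' := by
        rintro _ _ ⟨⟨E, hE, rfl⟩, n, hn, h⟩ ⟨⟨E', hE', rfl⟩, n', hn', h'⟩
        refine ⟨⟨E + E', by rw [deg_add, hE, hE', add_zero], map_add _ _ _⟩, n * n',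
          mul_ne_zero hn hn', ?_⟩
        rw [map_add, smul_add, mul_comm n n', mul_smul, h, smul_zero, mul_comm n' n, mul_smul, h',
          smul_zero, add_zero]
      neg_mem' := by
        rintro _ ⟨⟨E, hE, rfl⟩, n, hn, h⟩
        refine ⟨⟨-E, ?_, map_neg _ _⟩, n, hn, ?_⟩
        · have h1 := deg_add (-E) E
          rw [neg_add_cancel, hE, add_zero] at h1
          rw [← h1]; simp [deg]
        · rw [map_neg, smul_neg, h, neg_zero] }
  obtain ⟨e, heA, hei⟩ := exists_indep A (by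
    intro S
    obtain ⟨b, ⟨P, Q, hb⟩, ht, hS⟩ := main_step (mk f D) ⟨D, hD, rfl⟩ hinf S
    refine ⟨b, ⟨⟨(Finsupp.single P 1 - Finsupp.single .inf 1) -
      (Finsupp.single Q 1 - Finsupp.single .inf 1), ?_, ?_⟩, ht⟩, hS⟩
    · have h1 : ∀ Q : Pt f, deg (Finsupp.single Q (1 : ℤ)) = 1 := by
        intro Q
        rw [deg, Finsupp.sum_single_index rfl]
      have h2 := deg_add (Finsupp.single P (1 : ℤ) - Finsupp.single Q 1) (Finsupp.single Q 1)
      rw [sub_add_cancel, h1, h1] at h2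
      have h3 : (Finsupp.single P (1 : ℤ) - Finsupp.single .inf 1) -
          (Finsupp.single Q 1 - Finsupp.single .inf 1) =
          Finsupp.single P (1 : ℤ) - Finsupp.single Q 1 := by abel
      rw [h3]; omega
    · rw [hb, map_sub]; rfl)
  choose E hE hEe using fun i => (heA i).1
  refine ⟨E, hE, ?_, fun i => ?_⟩
  · have : (fun i => mk f (E i)) = e := funext hEe
    rw [this]; exact hei
  · obtain ⟨n, hn, h⟩ := (heA i).2
    refine ⟨n, hn, ?_⟩
    rw [← bb_mk, hEe]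
    exact h

end Pool.Agent.LibJac77
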