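import Pool.Agent.LibJac77.B3
import Pool.Agent.LibJac77.D4
import Pool.Agent.LibJac77.D5

/-!
The main step: no finitely generated group contains multiples of all classes orthogonal to `a`.
-/

open scoped Classical
open Polynomial IsLocalRing

namespace Pool.Agent.LibJac77

open Pool.Agent.LibBH2

variable {f : Qb[X]} [Genus2 f]

theorem jP_neg_sub (P Q : Pt f) : jP P - jP Q = jP P + jP (neg Q) := by
  rw [jP_neg, sub_eq_add_neg]

/-- four points in arithmetic progression -/
theorem ap_contra {Q₀ Q₁ Q₂ Q₃ : Pt f} {c : Pic f} (hc : c ≠ 0) (h2c : 2 • c ≠ 0)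
    (h₁ : jP Q₁ - jP Q₀ = c) (h₂ : jP Q₂ - jP Q₁ = c) (h₃ : jP Q₃ - jP Q₂ = c) : False := by
  have n01 : Q₀ ≠ Q₁ := by
    rintro rfl
    exact hc (by rw [← h₁, sub_self])
  have n12 : Q₁ ≠ Q₂ := by
    rintro rfl
    exact hc (by rw [← h₂, sub_self])
  have e₁ : jP Q₁ + jP (neg Q₀) = jP Q₂ + jP (neg Q₁) := by
    rw [← jP_neg_sub, ← jP_neg_sub, h₁, h₂]
  have e₂ : jP Q₂ + jP (neg Q₁) = jP Q₃ + jP (neg Q₂) := by
    rw [← jP_neg_sub, ← jP_neg_sub, h₂, h₃]
  have key : ∀ {A B C : Pt f}, A ≠ B → jP B + jP (neg A) = jP C + jP (neg B) → B = neg B ∧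
      neg A = C := by
    intro A B C hAB h
    rcases two_unique h with ⟨h1, h2⟩ | ⟨h1, h2⟩ | ⟨h1, h2⟩
    · exfalso
      apply hAB
      have := congrArg neg h2
      simpa using this
    · exact ⟨h1, h2⟩
    · exfalso
      apply hAB
      have := congrArg neg h1
      simpa using this
  obtain ⟨a1, a2⟩ := key n01 e₁
  obtain ⟨b1, b2⟩ := key n12 e₂
  have h02 : Q₀ = Q₂ := by
    have h3 : neg Q₀ = neg Q₂ := by rw [a2, ← b1]
    have := congrArg neg h3
    simpa using this
  apply h2c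
  have : 2 • c = (jP Q₁ - jP Q₀) + (jP Q₂ - jP Q₁) := by rw [h₁, h₂, two_smul]
  rw [this, h02]
  abel

/-- the points `p` with `jP (s p) - jP p = ρ ≠ 0` -/
theorem pair_cases {s : Pt f → Pt f} {ρ : Pic f} (hρ : ρ ≠ 0) {P Q : Pt f}
    (hP : jP (s P) - jP P = ρ) (hQ : jP (s Q) - jP Q = ρ) : P = Q ∨ Q = neg (s P) := by
  have h : jP (s P) + jP (neg P) = jP (s Q) + jP (neg Q) := by
    rw [← jP_neg_sub, ← jP_neg_sub, hP, hQ]
  rcases two_unique h with ⟨h1, h2⟩ | ⟨h1, h2⟩ | ⟨h1, h2⟩
  · left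
    have := congrArg neg h2
    simpa using this
  · right
    rw [h1]; simp
  · exfalso
    apply hρ
    have h3 : P = s P := by
      have := congrArg neg h1
      simpa using this
    rw [← hP, ← h3, sub_self]

/-- the combinatorial core: sequences of points `P r`, `Q r` with `jP (P r) + jP (Q r) = t + r a`,
such that `jP (s (P r)) - jP (P r)` takes finitely many values, none of them zero simultaneously
with `jP (s (Q r)) - jP (Q r)` -/
theorem comb {t a : Pic f} (ha : ∀ n : ℕ, n ≠ 0 → n • a ≠ 0) (s : Pt f → Pt f)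
    (P Q : ℕ → Pt f) (n₀ : ℕ) (hPQ : ∀ r, jP (P r) + jP (Q r) = t + r • a)
    {α : Type} [Finite α] (c : ℕ → α)
    (hc : ∀ r r', n₀ ≤ r → n₀ ≤ r' → c r = c r' →
      jP (s (P r)) - jP (P r) = jP (s (P r')) - jP (P r') ∧
      jP (s (Q r)) - jP (Q r) = jP (s (Q r')) - jP (Q r'))
    (hne : ∀ r, n₀ ≤ r → jP (s (P r)) - jP (P r) ≠ 0 ∨ jP (s (Q r)) - jP (Q r) ≠ 0) : False := by
  -- representative of a colour beyond `n₀`
  let rep : α → ℕ := fun x => if h : ∃ r, n₀ ≤ r ∧ c r = x then h.choose else 0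
  have hrep : ∀ r, n₀ ≤ r → n₀ ≤ rep (c r) ∧ c (rep (c r)) = c r := by
    intro r hr
    have h : ∃ r', n₀ ≤ r' ∧ c r' = c r := ⟨r, hr, rfl⟩
    have : rep (c r) = h.choose := dif_pos h
    rw [this]
    exact h.choose_spec
  let c2 : ℕ → α × Bool × Bool := fun r =>
    (c r, decide (P r = P (rep (c r))), decide (Q r = Q (rep (c r))))
  obtain ⟨d, b, hd, hb, h1, h2, h3⟩ := exists_mono c2 n₀
  -- all four colours are equal
  have hcol : ∀ i : ℕ, i < 4 → c2 (b + i * d) = c2 b := by
    intro i hi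
    interval_cases i
    · simp
    · simpa using h1
    · exact h2
    · exact h3
  have hge : ∀ i : ℕ, n₀ ≤ b + i * d := fun i => le_trans hb (Nat.le_add_right _ _)
  -- constancy
  have hconst : ∀ (R : ℕ → Pt f), (∀ r r', n₀ ≤ r → n₀ ≤ r' → c r = c r' →
      jP (s (R r)) - jP (R r) = jP (s (R r')) - jP (R r')) →
      (∀ i, i < 4 → decide (R (b + i * d) = R (rep (c (b + i * d)))) =
        decide (R b = R (rep (c b)))) → jP (s (R b)) - jP (R b) ≠ 0 →
      ∀ i, i < 4 → R (b + i * d) = R b := by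
    intro R hR hdec hne0 i hi
    have hci : c (b + i * d) = c b := congrArg Prod.fst (hcol i hi)
    have hd1 := hdec i hi
    rw [hci] at hd1
    obtain ⟨hr1, hr2⟩ := hrep b hb
    by_cases hbr : R b = R (rep (c b))
    · rw [decide_eq_true hbr] at hd1
      rw [of_decide_eq_true hd1, hbr]
    · rw [decide_eq_false hbr] at hd1
      have h4 := of_decide_eq_false hd1
      have hρi := hR (b + i * d) b (hge i) hb hci
      have hρr := hR (rep (c b)) b hr1 hb hr2
      rcases pair_cases hne0 hρr hρi with h5 | h5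
      · exact absurd h5.symm h4
      · rcases pair_cases hne0 hρr rfl with h6 | h6
        · exact absurd h6.symm hbr
        · rw [h5, h6]
  have hstep : ∀ i : ℕ, (jP (P (b + (i + 1) * d)) + jP (Q (b + (i + 1) * d))) -
      (jP (P (b + i * d)) + jP (Q (b + i * d))) = d • a := by
    intro i
    rw [hPQ, hPQ]
    have : (b + (i + 1) * d) • a = (b + i * d) • a + d • a := by
      rw [← add_smul]; congr 1; ring
    rw [this]; abel
  have hda : d • a ≠ 0 := ha d hd.ne'
  have h2da : 2 • (d • a) ≠ 0 := by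
    rw [← mul_smul]
    exact ha _ (by positivity)
  rcases hne b hb with hne0 | hne0
  · have hP := hconst P (fun r r' hr hr' hh => (hc r r' hr hr' hh).1)
      (fun i hi => congrArg (fun z => z.2.1) (hcol i hi)) hne0
    have hq : ∀ i, i < 3 → jP (Q (b + (i + 1) * d)) - jP (Q (b + i * d)) = d • a := by
      intro i hi
      rw [← hstep i, hP (i + 1) (by omega), hP i (by omega)]
      abel
    exact ap_contra hda h2da (hq 0 (by norm_num)) (hq 1 (by norm_num)) (hq 2 (by norm_num))
  · have hQ := hconst Q (fun r r' hr hr' hh => (hc r r' hr hr' hh).2)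
      (fun i hi => congrArg (fun z => z.2.2) (hcol i hi)) hne0
    have hq : ∀ i, i < 3 → jP (P (b + (i + 1) * d)) - jP (P (b + i * d)) = d • a := by
      intro i hi
      rw [← hstep i, hQ (i + 1) (by omega), hQ i (by omega)]
      abel
    exact ap_contra hda h2da (hq 0 (by norm_num)) (hq 1 (by norm_num)) (hq 2 (by norm_num))

end Pool.Agent.LibJac77
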