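import Pool.Agent.LibJac77.Main

/-!
The main step: no finitely generated group contains multiples of all classes orthogonal to `a`.
-/

open scoped Classical
open Polynomial IsLocalRing

namespace Pool.Agent.LibJac77

open Pool.Agent.LibBH2

variable {f : Qb[X]} [Genus2 f]

/-- two places of good reduction of different residue characteristics -/
theorem exists_two_places (f : Qb[X]) [Genus2 f] : ∃ (p p' : ℕ) (_ : Fact p.Prime)
    (_ : Fact p'.Prime) (V V' : ValuationSubring Qb), p ≠ p' ∧ Good V f ∧ Good V' f ∧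
    CharP (RF V) p ∧ CharP (RF V') p' := by
  obtain ⟨M, hM, h⟩ := exists_good f
  obtain ⟨p, hp1, hp2⟩ := Nat.exists_infinite_primes (M + 1)
  obtain ⟨p', hp1', hp2'⟩ := Nat.exists_infinite_primes (p + 1)
  have hd : ∀ q, M + 1 ≤ q → ¬ q ∣ M := fun q hq hdiv =>
    absurd (Nat.le_of_dvd (Nat.pos_of_ne_zero hM) hdiv) (by omega)
  obtain ⟨V, hV, hc⟩ := h p hp2 (hd p hp1)
  obtain ⟨V', hV', hc'⟩ := h p' hp2' (hd p' (by omega))
  exact ⟨p, p', ⟨hp2⟩, ⟨hp2'⟩, V, V', by omega, hV, hV', hc, hc'⟩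

theorem main_step (a : Pic f) (hdeg : ∃ D : Pt f →₀ ℤ, deg D = 0 ∧ a = mk f D)
    (ha : ∀ n : ℕ, n ≠ 0 → n • a ≠ 0) (S : Finset (Pic f)) :
    ∃ b : Pic f, (∃ P Q : Pt f, b = jP P - jP Q) ∧ (∃ n : ℕ, n ≠ 0 ∧ n • bb f a b = 0) ∧
      ∀ n : ℕ, n ≠ 0 → n • b ∉ AddSubgroup.closure (S : Set (Pic f)) := by
  by_contra hcon
  push Not at hcon
  -- the number field `K₀`
  obtain ⟨K₀, hfin₀, hK₀, hfix₀⟩ := exists_field (insert a S)
  have hfixS : ∀ σ : Qb ≃ₐ[ℚ] Qb, ∀ hσ : σ ∈ K₀.fixingSubgroup,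
      ∀ c ∈ AddSubgroup.closure (S : Set (Pic f)), pact (σ : Qb ≃+* Qb) (hK₀.map hσ) c = c := by
    intro σ hσ c hc
    induction hc using AddSubgroup.closure_induction with
    | mem x hx => exact hfix₀ σ hσ x (Finset.mem_insert_of_mem hx)
    | zero => exact map_zero _
    | add x y _ _ h1 h2 => rw [map_add, h1, h2]
    | neg x _ h1 => rw [map_neg, h1]
  -- the torsion class
  obtain ⟨τ, ⟨Pτ, Qτ, hτ⟩, ⟨nτ, hnτ, hτ0⟩, σ₀, hσ₀, hmove⟩ := exists_moved K₀ hK₀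
  set s : Pt f → Pt f := act (σ₀ : Qb ≃+* Qb) (hK₀.map hσ₀) with hs
  have hpact : ∀ P : Pt f, pact (σ₀ : Qb ≃+* Qb) (hK₀.map hσ₀) (jP P) = jP (s P) :=
    fun P => pact_jP _ _ P
  obtain ⟨K', hfin', hK', hfix'⟩ := exists_field ({τ} : Finset (Pic f))
  -- points
  obtain ⟨D, hD, haD⟩ := hdeg
  have hPQex : ∀ r : ℕ, ∃ P Q : Pt f, jP P + jP Q = τ + r • a := by
    intro r
    have h1 : ∀ Q : Pt f, deg (Finsupp.single Q (1 : ℤ)) = 1 := by
      intro Q
      rw [deg, Finsupp.sum_single_index rfl]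
    have hdz : deg (0 : Pt f →₀ ℤ) = 0 := by simp [deg]
    have hdn : ∀ n : ℕ, deg (n • D) = 0 := by
      intro n
      induction n with
      | zero => rw [zero_smul, hdz]
      | succ n ih => rw [succ_nsmul, deg_add, ih, hD, add_zero]
    have hdsub : ∀ P : Pt f, deg (Finsupp.single P (1 : ℤ) - Finsupp.single (.inf : Pt f) 1) = 0 := by
      intro P
      have h2 := deg_add (Finsupp.single P (1 : ℤ) - Finsupp.single (.inf : Pt f) 1)
        (Finsupp.single .inf 1)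
      rw [sub_add_cancel, h1, h1] at h2
      omega
    obtain ⟨P, Q, h⟩ := exists_two ((Finsupp.single Pτ (1 : ℤ) - Finsupp.single (.inf : Pt f) 1) +
      (Finsupp.single Qτ (1 : ℤ) - Finsupp.single (.inf : Pt f) 1) + r • D) (by
        rw [deg_add, deg_add, hdsub, hdsub, hdn]; rfl)
    refine ⟨P, Q, ?_⟩
    rw [← h, map_add, map_add, map_nsmul, ← haD, hτ]
    rfl
  choose P Q hPQ using hPQex
  -- torsion of the differences
  have htors : ∀ r : ℕ, r ≠ 0 → ∃ n : ℕ, n ≠ 0 ∧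
      n • (jP (s (P r)) - jP (P r)) = 0 ∧ n • (jP (s (Q r)) - jP (Q r)) = 0 := by
    intro r hr
    have hb0 : (nτ * r) • bb f a (jP (P r) - jP (Q r)) = 0 := by
      have h1 := bb_add_sub (P r) (Q r)
      rw [hPQ r, map_add, AddMonoidHom.add_apply, map_nsmul, AddMonoidHom.nsmul_apply] at h1
      have h2 : nτ • bb f τ (jP (P r) - jP (Q r)) = 0 := by
        rw [← AddMonoidHom.nsmul_apply, ← map_nsmul, hτ0, map_zero]; rfl
      have h3 := congrArg (fun z => nτ • z) h1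
      simp only [smul_add, smul_zero, h2, zero_add] at h3
      rw [mul_smul]
      exact h3
    obtain ⟨n, hn, hmem⟩ := hcon _ ⟨P r, Q r, rfl⟩ ⟨nτ * r, mul_ne_zero hnτ hr, hb0⟩
    have h4 := hfixS σ₀ hσ₀ _ hmem
    rw [map_nsmul, map_sub, hpact, hpact] at h4
    have h5 := hfix₀ σ₀ hσ₀ a (Finset.mem_insert_self _ _)
    have h6 : nτ • (pact (σ₀ : Qb ≃+* Qb) (hK₀.map hσ₀) τ - τ) = 0 := by
      rw [smul_sub, ← map_nsmul, hτ0, map_zero, sub_zero]
    have h7 : pact (σ₀ : Qb ≃+* Qb) (hK₀.map hσ₀) τ - τ =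
        (jP (s (P r)) - jP (P r)) + (jP (s (Q r)) - jP (Q r)) := by
      have h8 := congrArg (pact (σ₀ : Qb ≃+* Qb) (hK₀.map hσ₀)) (hPQ r)
      rw [map_add, map_add, map_nsmul, h5, hpact, hpact] at h8
      have h9 := hPQ r
      have h10 : pact (σ₀ : Qb ≃+* Qb) (hK₀.map hσ₀) τ =
          jP (s (P r)) + jP (s (Q r)) - r • a := by rw [h8]; abel
      have h11 : τ = jP (P r) + jP (Q r) - r • a := by rw [h9]; abel
      rw [h10]
      conv_lhs => rw [h11]
      abel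
    rw [h7] at h6
    have h12 : n • ((jP (s (P r)) - jP (P r)) - (jP (s (Q r)) - jP (Q r))) = 0 := by
      have : n • ((jP (s (P r)) - jP (P r)) - (jP (s (Q r)) - jP (Q r))) =
          n • (jP (s (P r)) - jP (s (Q r))) - n • (jP (P r) - jP (Q r)) := by
        rw [← smul_sub]; congr 1; abel
      rw [this, h4, sub_self]
    refine ⟨2 * (n * nτ), by positivity, ?_, ?_⟩
    · have : (2 * (n * nτ)) • (jP (s (P r)) - jP (P r)) =
          n • (nτ • ((jP (s (P r)) - jP (P r)) + (jP (s (Q r)) - jP (Q r)))) +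
          nτ • (n • ((jP (s (P r)) - jP (P r)) - (jP (s (Q r)) - jP (Q r)))) := by
        rw [← mul_smul, ← mul_smul, mul_comm nτ n, ← smul_add, mul_comm 2, mul_smul, two_smul]
        congr 1; abel
      rw [this, h6, h12, smul_zero, smul_zero, add_zero]
    · have : (2 * (n * nτ)) • (jP (s (Q r)) - jP (Q r)) =
          n • (nτ • ((jP (s (P r)) - jP (P r)) + (jP (s (Q r)) - jP (Q r)))) -
          nτ • (n • ((jP (s (P r)) - jP (P r)) - (jP (s (Q r)) - jP (Q r)))) := by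
        rw [← mul_smul, ← mul_smul, mul_comm nτ n, ← smul_sub, mul_comm 2, mul_smul, two_smul]
        congr 1; abel
      rw [this, h6, h12, smul_zero, smul_zero, sub_zero]
  -- nonvanishing
  have hne : ∀ r : ℕ, jP (s (P r)) - jP (P r) ≠ 0 ∨ jP (s (Q r)) - jP (Q r) ≠ 0 := by
    intro r
    by_contra hh
    push Not at hh
    apply hmove
    have h5 := hfix₀ σ₀ hσ₀ a (Finset.mem_insert_self _ _)
    have h8 := congrArg (pact (σ₀ : Qb ≃+* Qb) (hK₀.map hσ₀)) (hPQ r)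
    rw [map_add, map_add, map_nsmul, h5, hpact, hpact, sub_eq_zero.1 hh.1, sub_eq_zero.1 hh.2,
      hPQ r] at h8
    exact (add_right_cancel h8).symm
  -- bounded degree
  set K₁ := K₀ ⊔ K' with hK₁
  have hfin₁ : FiniteDimensional ℚ K₁ := inferInstance
  have hK₁f : RatF f K₁ := fun n => (le_sup_left : K₀ ≤ K₁) (hK₀ n)
  set B := 2 * Module.finrank ℚ K₁ with hB
  have hle : ∀ {L : IntermediateField ℚ Qb}, L ≤ K₁ → ∀ {σ : Qb ≃ₐ[ℚ] Qb},
      σ ∈ K₁.fixingSubgroup → σ ∈ L.fixingSubgroup := fun hL _ hσ =>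
    IntermediateField.fixingSubgroup_le hL hσ
  have hbdd : ∀ r : ℕ, τ + r • a ≠ 0 → Bdd B (P r) ∧ Bdd B (Q r) := by
    intro r hr
    apply bdd_of_fixed K₁ hK₁f (by rw [hPQ r]; exact hr)
    intro σ hσ
    have h1 := hfix₀ σ (hle le_sup_left hσ) a (Finset.mem_insert_self _ _)
    have h2 := hfix' σ (hle le_sup_right hσ) τ (Finset.mem_singleton_self _)
    rw [hPQ r, map_add, map_nsmul, h1, h2]
  obtain ⟨n₀, hn₀pos, hn₀⟩ : ∃ n₀ : ℕ, 0 < n₀ ∧ ∀ r, n₀ ≤ r → τ + r • a ≠ 0 := by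
    by_cases h : ∃ r : ℕ, τ + r • a = 0
    · obtain ⟨r, hr⟩ := h
      refine ⟨r + 1, Nat.succ_pos _, fun r' hr' h0 => ?_⟩
      apply ha (r' - r) (by omega)
      have : r' = (r' - r) + r := by omega
      rw [this, add_smul] at h0
      have h1 : τ + ((r' - r) • a + r • a) = (τ + r • a) + (r' - r) • a := by abel
      rw [h1, hr, zero_add] at h0
      exact h0
    · exact ⟨1, one_pos, fun r _ h0 => h ⟨r, h0⟩⟩
  -- the two places
  obtain ⟨p, p', hp, hp', V, V', hpp, hV, hV', hcV, hcV'⟩ := exists_two_places f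
  have hF := finite_redu f V p B
  have hF' := finite_redu f V' p' B
  have hFin : Finite ↥{z : Option (RF V × RF V) | ∃ P : Pt f, Bdd B P ∧ redu V P = z} :=
    hF.to_subtype
  have hFin' : Finite ↥{z : Option (RF V' × RF V') | ∃ P : Pt f, Bdd B P ∧ redu V' P = z} :=
    hF'.to_subtype
  -- the colour of a point
  let col : Pt f → ↥{z : Option (RF V × RF V) | ∃ P : Pt f, Bdd B P ∧ redu V P = z} ×
      ↥{z : Option (RF V' × RF V') | ∃ P : Pt f, Bdd B P ∧ redu V' P = z} := fun R =>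
    if h : Bdd B R then (⟨redu V R, R, h, rfl⟩, ⟨redu V' R, R, h, rfl⟩)
    else (⟨redu V (.inf : Pt f), .inf, trivial, rfl⟩, ⟨redu V' (.inf : Pt f), .inf, trivial, rfl⟩)
  have hcol : ∀ {R R' : Pt f}, Bdd B R → Bdd B R' → col R = col R' →
      redu V R = redu V R' ∧ redu V' R = redu V' R' := by
    intro R R' h h' hh
    simp only [col, dif_pos h, dif_pos h'] at hh
    exact ⟨congrArg (fun z => z.1.1) hh, congrArg (fun z => z.2.1) hh⟩
  have hequal : ∀ {R R' : Pt f}, Bdd B R → Bdd B R' → col R = col R' → col (s R) = col (s R') →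
      (∃ n : ℕ, n ≠ 0 ∧ n • (jP (s R) - jP R) = 0) → (∃ n : ℕ, n ≠ 0 ∧ n • (jP (s R') - jP R') = 0) →
      jP (s R) - jP R = jP (s R') - jP R' := by
    intro R R' h h' h1 h2 ht ht'
    obtain ⟨e1, e1'⟩ := hcol h h' h1
    obtain ⟨e2, e2'⟩ := hcol (h.act σ₀ (hK₀.map hσ₀)) (h'.act σ₀ (hK₀.map hσ₀)) h2
    obtain ⟨n, hn, hn0⟩ := ht
    obtain ⟨n', hn', hn0'⟩ := ht'
    rw [← sub_eq_zero]
    have hd : (jP (s R) - jP R) - (jP (s R') - jP R') =
        (jP (s R) - jP (s R')) + (jP R' - jP R) := by abel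
    apply two_places (hV := hV) (hV' := hV') hpp (c := (jP (s R) - jP R) - (jP (s R') - jP R'))
      _ _ (n * n') (mul_ne_zero hn hn')
    · rw [smul_sub, mul_comm n n', mul_smul, hn0, smul_zero, mul_comm n' n, mul_smul, hn0',
        smul_zero, sub_zero]
    · rw [hd]
      exact AddSubgroup.add_mem _ (mem_ker.2 ⟨_, _, e2, rfl⟩) (mem_ker.2 ⟨_, _, e1.symm, rfl⟩)
    · rw [hd]
      exact AddSubgroup.add_mem _ (mem_ker.2 ⟨_, _, e2', rfl⟩) (mem_ker.2 ⟨_, _, e1'.symm, rfl⟩)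
  refine comb (t := τ) (a := a) ha s P Q n₀ hPQ
    (c := fun r => (col (P r), col (s (P r)), col (Q r), col (s (Q r)))) ?_ (fun r _ => hne r)
  intro r r' hr hr' hh
  have hb := hbdd r (hn₀ r hr)
  have hb' := hbdd r' (hn₀ r' hr')
  obtain ⟨n, hn, hn1, hn2⟩ := htors r (by omega)
  obtain ⟨n', hn', hn1', hn2'⟩ := htors r' (by omega)
  constructor
  · exact hequal hb.1 hb'.1 (congrArg (fun z => z.1) hh) (congrArg (fun z => z.2.1) hh)
      ⟨n, hn, hn1⟩ ⟨n', hn', hn1'⟩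
  · exact hequal hb.2 hb'.2 (congrArg (fun z => z.2.2.1) hh) (congrArg (fun z => z.2.2.2) hh)
      ⟨n, hn, hn2⟩ ⟨n', hn', hn2'⟩

end Pool.Agent.LibJac77
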